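import Pool.Agent.ZFM.Basic

/-! # Basic set theory in models of ZF -/

namespace Pool.Agent.ZFM

variable {M : Type*} [Membership M M] {A : Set M}

/-! ### Definability of the basic notions -/

theorem Dfn.isPair {p x y : (ℕ → M) → M} (hp : DT A p) (hx : DT A x) (hy : DT A y) :
    Dfn A (fun v => IsPair (p v) (x v) (y v)) := by
  have h : Dfn A (fun v : ℕ → M => IsPair (v 0) (v 1) (v 2)) := by
    unfold IsPair
    apply_rules [Dfn.all, Dfn.iff, Dfn.or, Dfn.mem, Dfn.eq, DT.var]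
  exact Dfn.subst (t := fun i v => match i with
    | 0 => p v
    | 1 => x v
    | _ => y v) h (fun i => by
      match i with
      | 0 => exact hp
      | 1 => exact hx
      | _+2 => exact hy)

theorem Dfn.isSub {x y : (ℕ → M) → M} (hx : DT A x) (hy : DT A y) :
    Dfn A (fun v => IsSub (x v) (y v)) := by
  have h : Dfn A (fun v : ℕ → M => IsSub (v 0) (v 1)) := by
    unfold IsSub
    apply_rules [Dfn.all, Dfn.imp, Dfn.mem, DT.var]
  exact Dfn.subst (t := fun i v => match i with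
    | 0 => x v
    | _ => y v) h (fun i => by
      match i with
      | 0 => exact hx
      | _+1 => exact hy)

theorem Dfn.rel {r x y : (ℕ → M) → M} (hr : DT A r) (hx : DT A x) (hy : DT A y) :
    Dfn A (fun v => Rel (r v) (x v) (y v)) := by
  have h : Dfn A (fun v : ℕ → M => Rel (v 0) (v 1) (v 2)) := by
    unfold Rel
    apply_rules [Dfn.isPair, Dfn.ex, Dfn.and, Dfn.mem, DT.var]
  exact Dfn.subst (t := fun i v => match i with
    | 0 => r v
    | 1 => x v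
    | _ => y v) h (fun i => by
      match i with
      | 0 => exact hr
      | 1 => exact hx
      | _+2 => exact hy)

theorem Dfn.isFun {f x y : (ℕ → M) → M} (hf : DT A f) (hx : DT A x) (hy : DT A y) :
    Dfn A (fun v => IsFun (f v) (x v) (y v)) := by
  have h : Dfn A (fun v : ℕ → M => IsFun (v 0) (v 1) (v 2)) := by
    unfold IsFun
    apply_rules [Dfn.rel, Dfn.isPair, Dfn.exu, Dfn.ex, Dfn.all, Dfn.and, Dfn.imp, Dfn.eq, Dfn.mem, DT.var]
  exact Dfn.subst (t := fun i v => match i with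
    | 0 => f v
    | 1 => x v
    | _ => y v) h (fun i => by
      match i with
      | 0 => exact hf
      | 1 => exact hx
      | _+2 => exact hy)

namespace IsZF

variable (h : IsZF M)
include h

theorem ext {x y : M} (hxy : ∀ z, z ∈ x ↔ z ∈ y) : x = y := h.extensionality x y hxy

theorem exists_empty : ∃ e : M, ∀ z, z ∉ e := by
  obtain ⟨w, ⟨e, -, he⟩, -⟩ := h.infinity
  exact ⟨e, he⟩

theorem exists_upair (x y : M) : ∃ p : M, ∀ z, z ∈ p ↔ z = x ∨ z = y := h.pairing x y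

theorem exists_sing (x : M) : ∃ p : M, ∀ z, z ∈ p ↔ z = x := by
  obtain ⟨p, hp⟩ := h.pairing x x
  exact ⟨p, fun z => by rw [hp, or_self]⟩

theorem exists_union2 (x y : M) : ∃ u : M, ∀ z, z ∈ u ↔ z ∈ x ∨ z ∈ y := by
  obtain ⟨p, hp⟩ := h.pairing x y
  obtain ⟨u, hu⟩ := h.union p
  refine ⟨u, fun z => ?_⟩
  rw [hu]
  constructor
  · rintro ⟨y', hy', hz⟩
    rcases (hp y').1 hy' with rfl | rfl
    · exact Or.inl hz
    · exact Or.inr hz
  · rintro (hz | hz)
    · exact ⟨x, (hp x).2 (Or.inl rfl), hz⟩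
    · exact ⟨y, (hp y).2 (Or.inr rfl), hz⟩

theorem exists_insert (x y : M) : ∃ u : M, ∀ z, z ∈ u ↔ z = x ∨ z ∈ y := by
  obtain ⟨s, hs⟩ := h.exists_sing x
  obtain ⟨u, hu⟩ := h.exists_union2 s y
  exact ⟨u, fun z => by rw [hu, hs]⟩

/-- finite sets are represented -/
theorem exists_finite {s : Set M} (hs : s.Finite) : ∃ u : M, ∀ z, z ∈ u ↔ z ∈ s := by
  induction s, hs using Set.Finite.induction_on with
  | empty =>
    obtain ⟨e, he⟩ := h.exists_empty
    exact ⟨e, fun z => by simp [he z]⟩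
  | @insert a s _ _ ih =>
    obtain ⟨u, hu⟩ := ih
    obtain ⟨u', hu'⟩ := h.exists_insert a u
    exact ⟨u', fun z => by rw [hu', hu, Set.mem_insert_iff]⟩

theorem exists_pair (x y : M) : ∃ p : M, IsPair p x y := by
  obtain ⟨a, ha⟩ := h.exists_sing x
  obtain ⟨b, hb⟩ := h.exists_upair x y
  obtain ⟨p, hp⟩ := h.exists_upair a b
  refine ⟨p, fun w => ?_⟩
  rw [hp]
  constructor
  · rintro (rfl | rfl)
    · exact Or.inl ha
    · exact Or.inr hb
  · rintro (hw | hw)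
    · left
      exact h.ext fun u => by rw [hw, ha]
    · right
      exact h.ext fun u => by rw [hw, hb]

theorem pair_unique {p q x y : M} (hp : IsPair p x y) (hq : IsPair q x y) : p = q :=
  h.ext fun w => by rw [hp w, hq w]

theorem pair_inj {p x y x' y' : M} (hp : IsPair p x y) (hp' : IsPair p x' y') : x = x' ∧ y = y' := by
  obtain ⟨a, ha⟩ := h.exists_sing x
  obtain ⟨b, hb⟩ := h.exists_upair x y
  obtain ⟨a', ha'⟩ := h.exists_sing x'
  obtain ⟨b', hb'⟩ := h.exists_upair x' y'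
  have h1 : a ∈ p := (hp a).2 (Or.inl ha)
  have h2 : b ∈ p := (hp b).2 (Or.inr hb)
  have h1' : a' ∈ p := (hp' a').2 (Or.inl ha')
  have h2' : b' ∈ p := (hp' b').2 (Or.inr hb')
  have hx : x = x' := by
    rcases (hp' a).1 h1 with h3 | h3
    · exact (h3 x).1 ((ha x).2 rfl)
    · have := (ha x').1 ((h3 x').2 (Or.inl rfl))
      exact this.symm
  subst hx
  refine ⟨rfl, ?_⟩
  -- `y = y'`
  have h4 : y = x ∨ y = y' := by
    rcases (hp' b).1 h2 with h3 | h3
    · exact Or.inl ((h3 y).1 ((hb y).2 (Or.inr rfl)))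
    · exact (h3 y).1 ((hb y).2 (Or.inr rfl))
  have h5 : y' = x ∨ y' = y := by
    rcases (hp b').1 h2' with h3 | h3
    · exact Or.inl ((h3 y').1 ((hb' y').2 (Or.inr rfl)))
    · exact (h3 y').1 ((hb' y').2 (Or.inr rfl))
  rcases h4 with h4 | h4
  · rcases h5 with h5 | h5
    · rw [h4, h5]
    · exact h5.symm
  · exact h4

/-- the ordered pair -/
noncomputable def pr (x y : M) : M := (h.exists_pair x y).choose

theorem isPair_pr (x y : M) : IsPair (h.pr x y) x y := (h.exists_pair x y).choose_spec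

theorem isPair_iff {p x y : M} : IsPair p x y ↔ p = h.pr x y := by
  constructor
  · intro hp; exact h.pair_unique hp (h.isPair_pr x y)
  · rintro rfl; exact h.isPair_pr x y

theorem pr_inj {x y x' y' : M} : h.pr x y = h.pr x' y' ↔ x = x' ∧ y = y' := by
  constructor
  · intro e
    have h1 := h.isPair_pr x y
    have h2 := h.isPair_pr x' y'
    rw [← e] at h2
    exact h.pair_inj h1 h2
  · rintro ⟨rfl, rfl⟩; rfl

theorem rel_iff {r x y : M} : Rel r x y ↔ h.pr x y ∈ r := by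
  unfold Rel
  simp only [h.isPair_iff, exists_eq_left]

theorem exists_prod (X Y : M) : ∃ P : M, ∀ p, p ∈ P ↔ ∃ x ∈ X, ∃ y ∈ Y, IsPair p x y := by
  obtain ⟨u, hu⟩ := h.exists_union2 X Y
  obtain ⟨p1, hp1⟩ := h.powerset u
  obtain ⟨p2, hp2⟩ := h.powerset p1
  obtain ⟨P, hP⟩ := h.sep (P := fun p => ∃ x, x ∈ X ∧ ∃ y, y ∈ Y ∧ IsPair p x y) (by
    apply_rules [Dfn.isPair, Dfn.ex, Dfn.and, Dfn.mem, DT.var, DT.const, Set.mem_univ]) p2
  refine ⟨P, fun p => ?_⟩
  rw [hP]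
  constructor
  · rintro ⟨-, x, hx, y, hy, hp⟩
    exact ⟨x, hx, y, hy, hp⟩
  · rintro ⟨x, hx, y, hy, hp⟩
    refine ⟨?_, x, hx, y, hy, hp⟩
    rw [hp2]
    intro w hw
    rw [hp1]
    intro z hz
    rw [hu]
    rcases (hp w).1 hw with h1 | h1
    · have := (h1 z).1 hz
      subst this
      exact Or.inl hx
    · rcases (h1 z).1 hz with rfl | rfl
      · exact Or.inl hx
      · exact Or.inr hy

theorem exists_rel (X Y : M) {R : M → M → Prop} (hR : Dfn Set.univ (fun v => R (v 0) (v 1))) :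
    ∃ r : M, (∀ p ∈ r, ∃ x ∈ X, ∃ y ∈ Y, IsPair p x y) ∧
      ∀ x y, Rel r x y ↔ x ∈ X ∧ y ∈ Y ∧ R x y := by
  obtain ⟨P, hP⟩ := h.exists_prod X Y
  have hR' : ∀ {x y : (ℕ → M) → M}, DT Set.univ x → DT Set.univ y →
      Dfn Set.univ (fun v => R (x v) (y v)) := by
    intro x y hx hy
    exact Dfn.subst (t := fun i v => match i with
      | 0 => x v
      | _ => y v) hR (fun i => by
        match i with
        | 0 => exact hx
        | _+1 => exact hy)
  obtain ⟨r, hr⟩ := h.sep (P := fun p => ∃ x, ∃ y, IsPair p x y ∧ R x y) (by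
    apply_rules [Dfn.isPair, Dfn.ex, Dfn.and, DT.var, DT.const, Set.mem_univ, hR']) P
  refine ⟨r, fun p hp => (hP p).1 ((hr p).1 hp).1, fun x y => ?_⟩
  constructor
  · rintro ⟨p, hp, hpr⟩
    obtain ⟨hpP, x', y', hp', hR'⟩ := (hr p).1 hpr
    obtain ⟨x'', hx'', y'', hy'', hp''⟩ := (hP p).1 hpP
    obtain ⟨rfl, rfl⟩ := h.pair_inj hp hp'
    obtain ⟨rfl, rfl⟩ := h.pair_inj hp hp''
    exact ⟨hx'', hy'', hR'⟩
  · rintro ⟨hx, hy, hxy⟩
    refine ⟨h.pr x y, h.isPair_pr x y, ?_⟩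
    rw [hr]
    exact ⟨(hP _).2 ⟨x, hx, y, hy, h.isPair_pr x y⟩, x, y, h.isPair_pr x y, hxy⟩

theorem exists_fun (X Y : M) {R : M → M → Prop} (hR : Dfn Set.univ (fun v => R (v 0) (v 1)))
    (hf : ∀ x ∈ X, ∃! y, y ∈ Y ∧ R x y) :
    ∃ f : M, IsFun f X Y ∧ ∀ x y, Rel f x y ↔ x ∈ X ∧ y ∈ Y ∧ R x y := by
  obtain ⟨r, hr1, hr2⟩ := h.exists_rel X Y hR
  refine ⟨r, ⟨?_, ?_⟩, hr2⟩
  · intro p hp
    obtain ⟨x, hx, y, hy, hp'⟩ := hr1 p hp
    exact ⟨x, hx, y, hy, hp'⟩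
  · intro x hx
    obtain ⟨y, hy, hy'⟩ := hf x hx
    refine ⟨y, (hr2 x y).2 ⟨hx, hy.1, hy.2⟩, fun y' h' => hy' y' ?_⟩
    exact ((hr2 x y').1 h').2

end IsZF

theorem IsFun.mem_right {f X Y : M} (h : IsZF M) (hf : IsFun f X Y) {x y : M} (hxy : Rel f x y) : y ∈ Y := by
  obtain ⟨p, hp, hpf⟩ := hxy
  obtain ⟨x', hx', y', hy', hp'⟩ := hf.1 p hpf
  obtain ⟨rfl, rfl⟩ := h.pair_inj hp hp'
  exact hy'

theorem IsFun.mem_left {f X Y : M} (h : IsZF M) (hf : IsFun f X Y) {x y : M} (hxy : Rel f x y) : x ∈ X := by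
  obtain ⟨p, hp, hpf⟩ := hxy
  obtain ⟨x', hx', y', hy', hp'⟩ := hf.1 p hpf
  obtain ⟨rfl, rfl⟩ := h.pair_inj hp hp'
  exact hx'

theorem IsFun.unique {f X Y : M} (h : IsZF M) (hf : IsFun f X Y) {x y y' : M} (hxy : Rel f x y) (hxy' : Rel f x y') :
    y = y' := (hf.2 x (hf.mem_left h hxy)).unique hxy hxy'

theorem IsFun.exists_val {f X Y : M} (h : IsZF M) (hf : IsFun f X Y) {x : M} (hx : x ∈ X) :
    ∃ y, y ∈ Y ∧ Rel f x y := by
  obtain ⟨y, hy, -⟩ := hf.2 x hx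
  exact ⟨y, hf.mem_right h hy, hy⟩

/-- two functions with the same values are equal -/
theorem IsFun.ext {f g X Y Y' : M} (h : IsZF M) (hf : IsFun f X Y) (hg : IsFun g X Y')
    (hfg : ∀ x y, Rel f x y ↔ Rel g x y) : f = g := by
  apply h.ext
  intro p
  constructor
  · intro hp
    obtain ⟨x, -, y, -, hp'⟩ := hf.1 p hp
    obtain ⟨q, hq, hqg⟩ := (hfg x y).1 ⟨p, hp', hp⟩
    rw [h.pair_unique hp' hq]; exact hqg
  · intro hp
    obtain ⟨x, -, y, -, hp'⟩ := hg.1 p hp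
    obtain ⟨q, hq, hqg⟩ := (hfg x y).2 ⟨p, hp', hp⟩
    rw [h.pair_unique hp' hq]; exact hqg

end Pool.Agent.ZFM
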