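import Pool.Agent.ZFM.Defs

/-! # First-order formulas of set theory and models of ZF -/

namespace Pool.Agent.ZFM

universe u

@[simp] theorem push_zero {M : Type*} (x : M) (v : ℕ → M) : push x v 0 = x := rfl
@[simp] theorem push_succ {M : Type*} (x : M) (v : ℕ → M) (n : ℕ) : push x v (n+1) = v n := rfl

/-! ## Syntax -/

namespace Fm

/-- lift a renaming under a binder -/
def lift (f : ℕ → ℕ) : ℕ → ℕ
  | 0 => 0
  | n + 1 => f n + 1

/-- renaming of variables -/
def rename : Fm → (ℕ → ℕ) → Fm
  | .mem i j, f => .mem (f i) (f j)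
  | .eq i j, f => .eq (f i) (f j)
  | .fls, _ => .fls
  | .imp φ ψ, f => .imp (φ.rename f) (ψ.rename f)
  | .all φ, f => .all (φ.rename (lift f))

theorem push_comp_lift {M : Type*} (x : M) (v : ℕ → M) (f : ℕ → ℕ) :
    push x v ∘ lift f = push x (v ∘ f) := by
  funext n; cases n <;> rfl

theorem sat_rename {M : Type*} [Membership M M] (φ : Fm) (f : ℕ → ℕ) (v : ℕ → M) :
    Sat (φ.rename f) v ↔ Sat φ (v ∘ f) := by
  induction φ generalizing f v with
  | mem i j => rfl
  | eq i j => rfl
  | fls => rfl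
  | imp φ ψ ih1 ih2 => simp only [rename, Sat, ih1, ih2]
  | all φ ih => simp only [rename, Sat, ih, push_comp_lift]

/-- a bound for the free variables -/
def bd : Fm → ℕ
  | .mem i j => max i j + 1
  | .eq i j => max i j + 1
  | .fls => 0
  | .imp φ ψ => max φ.bd ψ.bd
  | .all φ => φ.bd - 1

theorem sat_congr {M : Type*} [Membership M M] (φ : Fm) {v w : ℕ → M}
    (h : ∀ i < φ.bd, v i = w i) : Sat φ v ↔ Sat φ w := by
  induction φ generalizing v w with
  | mem i j =>
    simp only [Sat, bd] at *
    rw [h i (by omega), h j (by omega)]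
  | eq i j =>
    simp only [Sat, bd] at *
    rw [h i (by omega), h j (by omega)]
  | fls => rfl
  | imp φ ψ ih1 ih2 =>
    simp only [Sat, bd] at *
    rw [ih1 (fun i hi => h i (by omega)), ih2 (fun i hi => h i (by omega))]
  | all φ ih =>
    simp only [Sat, bd] at *
    refine forall_congr' fun x => ih fun i hi => ?_
    cases i with
    | zero => rfl
    | succ i => exact h i (by omega)

/-- injective coding of formulas by natural numbers -/
def code : Fm → ℕ
  | .mem i j => 5 * Nat.pair i j
  | .eq i j => 5 * Nat.pair i j + 1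
  | .fls => 2
  | .imp φ ψ => 5 * Nat.pair φ.code ψ.code + 3
  | .all φ => 5 * φ.code + 4

theorem code_injective : Function.Injective code := by
  intro φ
  induction φ with
  | mem i j =>
    intro ψ h
    cases ψ <;> simp only [code] at h <;> try omega
    rename_i a b
    have h' : Nat.pair i j = Nat.pair a b := by omega
    rw [Nat.pair_eq_pair] at h'
    rw [h'.1, h'.2]
  | eq i j =>
    intro ψ h
    cases ψ <;> simp only [code] at h <;> try omega
    rename_i a b
    have h' : Nat.pair i j = Nat.pair a b := by omega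
    rw [Nat.pair_eq_pair] at h'
    rw [h'.1, h'.2]
  | fls =>
    intro ψ h
    cases ψ <;> simp only [code] at h <;> first | omega | rfl
  | imp φ ψ ih1 ih2 =>
    intro χ h
    cases χ <;> simp only [code] at h <;> try omega
    rename_i φ' ψ'
    have h' : Nat.pair φ.code ψ.code = Nat.pair φ'.code ψ'.code := by omega
    rw [Nat.pair_eq_pair] at h'
    rw [ih1 h'.1, ih2 h'.2]
  | all φ ih =>
    intro χ h
    cases χ <;> simp only [code] at h <;> try omega
    rename_i φ'
    have h' : φ.code = φ'.code := by omega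
    rw [ih h']

instance : Countable Fm := code_injective.countable

instance : Nonempty Fm := ⟨.fls⟩

end Fm

/-! ## Definability -/

section

variable {M : Type*} [Membership M M]

/-- evaluation of a variable coded in `ℕ ⊕ M`. -/
def slot (v : ℕ → M) : ℕ ⊕ M → M
  | .inl j => v j
  | .inr c => c

/-- A predicate of assignments is definable with parameters from `A`. -/
def Dfn (A : Set M) (P : (ℕ → M) → Prop) : Prop :=
  ∃ (φ : Fm) (σ : ℕ → ℕ ⊕ M), (∀ i c, σ i = .inr c → c ∈ A) ∧
    ∀ v, P v ↔ Sat φ (fun i => slot v (σ i))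

/-- definable terms: variables and constants from `A` -/
def DT (A : Set M) (t : (ℕ → M) → M) : Prop :=
  ∃ s : ℕ ⊕ M, (∀ c, s = .inr c → c ∈ A) ∧ ∀ v, t v = slot v s

variable {A : Set M}

omit [Membership M M] in
theorem DT.var (i : ℕ) : DT A (fun v : ℕ → M => v i) :=
  ⟨.inl i, fun _ h => (Sum.inl_ne_inr h).elim, fun _ => rfl⟩
omit [Membership M M] in
theorem DT.const {c : M} (hc : c ∈ A) : DT A (fun _ : ℕ → M => c) :=
  ⟨.inr c, fun _ h => (Sum.inr_injective h) ▸ hc, fun _ => rfl⟩

theorem Dfn.mono {A' : Set M} (hA : A ⊆ A') {P : (ℕ → M) → Prop} (h : Dfn A P) : Dfn A' P := by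
  obtain ⟨φ, σ, h0, h1⟩ := h
  exact ⟨φ, σ, fun i c hc => hA (h0 i c hc), h1⟩

theorem Dfn.mem {s t : (ℕ → M) → M} (hs : DT A s) (ht : DT A t) :
    Dfn A (fun v => s v ∈ t v) := by
  obtain ⟨a, ha0, ha⟩ := hs
  obtain ⟨b, hb0, hb⟩ := ht
  refine ⟨.mem 0 1, fun i => if i = 0 then a else b, fun i c => ?_, fun v => ?_⟩
  · dsimp only
    split_ifs
    · exact ha0 c
    · exact hb0 c
  · simp only [Sat, ha, hb]
    rfl

theorem Dfn.eq {s t : (ℕ → M) → M} (hs : DT A s) (ht : DT A t) :
    Dfn A (fun v => s v = t v) := by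
  obtain ⟨a, ha0, ha⟩ := hs
  obtain ⟨b, hb0, hb⟩ := ht
  refine ⟨.eq 0 1, fun i => if i = 0 then a else b, fun i c => ?_, fun v => ?_⟩
  · dsimp only
    split_ifs
    · exact ha0 c
    · exact hb0 c
  · simp only [Sat, ha, hb]
    rfl

theorem Dfn.fls : Dfn A (fun _ : ℕ → M => False) :=
  ⟨.fls, fun _ => .inl 0, fun _ _ h => (Sum.inl_ne_inr h).elim, fun _ => Iff.rfl⟩

theorem Dfn.imp {P Q : (ℕ → M) → Prop} (hP : Dfn A P) (hQ : Dfn A Q) :
    Dfn A (fun v => P v → Q v) := by
  obtain ⟨φ, σ, h0, h1⟩ := hP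
  obtain ⟨ψ, τ, h0', h2⟩ := hQ
  refine ⟨.imp (φ.rename (fun i => 2*i)) (ψ.rename (fun i => 2*i+1)),
    fun i => if i % 2 = 0 then σ (i/2) else τ (i/2), fun i c => ?_, fun v => ?_⟩
  · dsimp only
    split_ifs
    · exact h0 _ c
    · exact h0' _ c
  simp only [Sat, Fm.sat_rename]
  rw [h1, h2]
  have e1 : (fun i => slot v (σ i)) =
      (fun i => slot v (if i % 2 = 0 then σ (i/2) else τ (i/2))) ∘ (fun i => 2*i) := by
    funext i
    simp only [Function.comp]
    rw [if_pos (by omega), show 2*i/2 = i by omega]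
  have e2 : (fun i => slot v (τ i)) =
      (fun i => slot v (if i % 2 = 0 then σ (i/2) else τ (i/2))) ∘ (fun i => 2*i+1) := by
    funext i
    simp only [Function.comp]
    rw [if_neg (by omega), show (2*i+1)/2 = i by omega]
  rw [e1, e2]

/-- auxiliary slot transformation for quantifiers -/
def unslot : ℕ ⊕ M → ℕ ⊕ M
  | .inl 0 => .inl 0
  | .inl (j+1) => .inl j
  | .inr c => .inr c

theorem Dfn.all' {P : (ℕ → M) → Prop} (hP : Dfn A P) : Dfn A (fun v => ∀ x, P (push x v)) := by
  classical
  obtain ⟨φ, σ, h0, h1⟩ := hP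
  refine ⟨.all (φ.rename (fun i => if σ i = .inl 0 then 0 else i+1)),
    fun i => unslot (σ i), fun i c hc => ?_, fun v => ?_⟩
  · dsimp only at hc
    match hh : σ i with
    | .inl 0 => rw [hh] at hc; exact (Sum.inl_ne_inr hc).elim
    | .inl (j+1) => rw [hh] at hc; exact (Sum.inl_ne_inr hc).elim
    | .inr d =>
      rw [hh] at hc
      have : d = c := Sum.inr_injective hc
      exact h0 i c (by rw [hh, this])
  simp only [Sat, Fm.sat_rename]
  refine forall_congr' fun x => ?_
  rw [h1]
  have e : (fun i => slot (push x v) (σ i)) =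
      (push x fun i => slot v (unslot (σ i))) ∘ (fun i => if σ i = .inl 0 then 0 else i+1) := by
    funext i
    simp only [Function.comp]
    split_ifs with h
    · rw [h]; rfl
    · simp only [push_succ]
      match hh : σ i with
      | .inl 0 => exact absurd hh h
      | .inl (j+1) => rfl
      | .inr c => rfl
  rw [e]

theorem Dfn.all {Q : (ℕ → M) → M → Prop} (h : Dfn A (fun v => Q (fun n => v (n+1)) (v 0))) :
    Dfn A (fun v => ∀ x, Q v x) := Dfn.all' h

theorem Dfn.congr {P Q : (ℕ → M) → Prop} (hP : Dfn A P) (h : ∀ v, P v ↔ Q v) : Dfn A Q := by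
  obtain ⟨φ, σ, h0, h1⟩ := hP
  exact ⟨φ, σ, h0, fun v => (h v).symm.trans (h1 v)⟩

theorem Dfn.not {P : (ℕ → M) → Prop} (hP : Dfn A P) : Dfn A (fun v => ¬ P v) := hP.imp Dfn.fls

theorem Dfn.tru : Dfn A (fun _ : ℕ → M => True) := Dfn.fls.not.congr (by simp)

theorem Dfn.and {P Q : (ℕ → M) → Prop} (hP : Dfn A P) (hQ : Dfn A Q) :
    Dfn A (fun v => P v ∧ Q v) :=
  (hP.imp hQ.not).not.congr (fun v => by tauto)

theorem Dfn.or {P Q : (ℕ → M) → Prop} (hP : Dfn A P) (hQ : Dfn A Q) :
    Dfn A (fun v => P v ∨ Q v) :=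
  (hP.not.imp hQ).congr (fun v => by tauto)

theorem Dfn.iff {P Q : (ℕ → M) → Prop} (hP : Dfn A P) (hQ : Dfn A Q) :
    Dfn A (fun v => P v ↔ Q v) :=
  ((hP.imp hQ).and (hQ.imp hP)).congr (fun v => by tauto)

theorem Dfn.ex {Q : (ℕ → M) → M → Prop} (h : Dfn A (fun v => Q (fun n => v (n+1)) (v 0))) :
    Dfn A (fun v => ∃ x, Q v x) :=
  (Dfn.all (Q := fun v x => ¬ Q v x) h.not).not.congr (fun v => by simp)

theorem Dfn.prop (p : Prop) : Dfn A (fun _ : ℕ → M => p) := by
  by_cases h : p
  · exact Dfn.tru.congr (by simp [h])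
  · exact Dfn.fls.congr (by simp [h])

/-- substitution of a variable/constant tuple in a definable predicate -/
theorem Dfn.subst {P : (ℕ → M) → Prop} (hP : Dfn A P) {t : ℕ → (ℕ → M) → M}
    (ht : ∀ i, DT A (t i)) : Dfn A (fun v => P (fun i => t i v)) := by
  obtain ⟨φ, σ, h0, h1⟩ := hP
  choose s hs0 hs using ht
  refine ⟨φ, fun i => match σ i with
    | .inl j => s j
    | .inr c => .inr c, fun i c hc => ?_, fun v => ?_⟩
  · dsimp only at hc
    match hh : σ i with
    | .inl j => rw [hh] at hc; exact hs0 j c hc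
    | .inr d =>
      rw [hh] at hc
      have : d = c := Sum.inr_injective hc
      exact h0 i c (by rw [hh, this])
  refine (h1 _).trans ?_
  have e : (fun i => slot (fun i => t i v) (σ i)) = fun i => slot v (match σ i with
    | .inl j => s j
    | .inr c => .inr c) := by
    funext i
    match σ i with
    | .inl j => exact hs j v
    | .inr c => rfl
  rw [e]

theorem Dfn.exu {Q : (ℕ → M) → M → Prop} (h : Dfn A (fun v => Q (fun n => v (n+1)) (v 0))) :
    Dfn A (fun v => ∃! x, Q v x) := by
  unfold ExistsUnique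
  apply Dfn.ex
  apply Dfn.and h
  apply Dfn.all
  apply Dfn.imp
  · exact Dfn.subst (t := fun i v => match i with
      | 0 => v 0
      | i+1 => v (i+2)) h (fun i => by
        cases i with
        | zero => exact DT.var 0
        | succ i => exact DT.var (i+2))
  · exact Dfn.eq (DT.var _) (DT.var _)

/-- normal form of unary definable predicates -/
theorem Dfn.normal {P : M → Prop} (hP : Dfn A (fun v => P (v 0))) (d : M) :
    ∃ (φ : Fm) (w : ℕ → M), (∀ i, w i = d ∨ w i ∈ A) ∧ ∀ z, P z ↔ Sat φ (push z w) := by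
  classical
  obtain ⟨φ, σ, h0, h1⟩ := hP
  refine ⟨φ.rename (fun i => if σ i = .inl 0 then 0 else i+1), fun i => match σ i with
      | .inl _ => d
      | .inr c => c, fun i => ?_, fun z => ?_⟩
  · match hh : σ i with
    | .inl j => simp [hh]
    | .inr c => simp only [hh]; exact Or.inr (h0 i c hh)
  rw [Fm.sat_rename]
  have h2 := h1 (push z (fun _ => d))
  simp only [push_zero] at h2
  rw [h2]
  have e : (fun i => slot (push z fun _ => d) (σ i)) = push z (fun i => match σ i with
      | .inl _ => d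
      | .inr c => c) ∘ (fun i => if σ i = .inl 0 then 0 else i+1) := by
    funext i
    simp only [Function.comp]
    split_ifs with h
    · rw [h]; rfl
    · simp only [push_succ]
      match hh : σ i with
      | .inl 0 => exact absurd hh h
      | .inl (j+1) => rfl
      | .inr c => rfl
  rw [e]

namespace IsZF

variable (h : IsZF M)
include h

theorem sep {P : M → Prop} (hP : Dfn Set.univ (fun v => P (v 0))) (x : M) :
    ∃ y : M, ∀ z, z ∈ y ↔ z ∈ x ∧ P z := by
  obtain ⟨φ, w, -, hw⟩ := hP.normal x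
  obtain ⟨y, hy⟩ := h.separation φ w x
  exact ⟨y, fun z => by rw [hy, hw]⟩

theorem repl {R : M → M → Prop} (hR : Dfn Set.univ (fun v => R (v 0) (v 1))) (x : M)
    (hx : ∀ z ∈ x, ∃! w, R z w) : ∃ y : M, ∀ w, w ∈ y ↔ ∃ z ∈ x, R z w := by
  classical
  obtain ⟨φ, σ, -, h1⟩ := hR
  have key : ∀ z w, Sat (φ.rename (fun i => if σ i = .inl 0 then 1 else
      if σ i = .inl 1 then 0 else i+2)) (push w (push z (fun i => match σ i with
      | .inl _ => x
      | .inr c => c))) ↔ R z w := by
    intro z w
    rw [Fm.sat_rename]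
    have h2 := h1 (push z (push w (fun _ => x)))
    simp only [push_zero, push_succ] at h2
    rw [h2]
    have e : (fun i => slot (push z (push w fun _ => x)) (σ i)) = 
      push w (push z (fun i => match σ i with
      | .inl _ => x
      | .inr c => c)) ∘ (fun i => if σ i = .inl 0 then 1 else if σ i = .inl 1 then 0 else i+2) := by
      funext i
      simp only [Function.comp]
      split_ifs with h h'
      · rw [h]; rfl
      · rw [h']; rfl
      · simp only [push_succ]
        match hh : σ i with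
        | .inl 0 => exact absurd hh h
        | .inl 1 => exact absurd hh h'
        | .inl (j+2) => rfl
        | .inr c => rfl
    rw [e]
  obtain ⟨y, hy⟩ := h.replacement _ _ x (fun z hz => (existsUnique_congr (key z)).2 (hx z hz))
  refine ⟨y, fun w => ?_⟩
  rw [hy]
  exact exists_congr fun z => and_congr_right fun _ => key z w

end IsZF

end

end Pool.Agent.ZFM
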