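import Mathlib

/-! # A generic sequence lemma (Rasiowa–Sikorski with witnesses) -/

namespace Pool.Agent.ZFM

/-- Parameters coded by a list of indices. -/
def param {X : Type*} (x : ℕ → X) (l : List ℕ) : ℕ → X := fun i => x (l.getD i 0)

theorem param_congr {X : Type*} {x y : ℕ → X} {k : ℕ} (h : ∀ i ≤ k, x i = y i) (l : List ℕ)
    (hl : ∀ i ∈ l, i ≤ k) : param x l = param y l := by
  funext i
  unfold param
  refine h _ ?_
  rcases lt_or_ge i l.length with h1 | h1
  · rw [List.getD_eq_getElem _ _ h1]
    exact hl _ (List.getElem_mem h1)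
  · rw [List.getD_eq_default _ _ h1]; exact Nat.zero_le _

section

variable {X : Type*} {B : Type*} [BooleanAlgebra B] {ρ : Type*}

open Classical in
/-- one step -/
noncomputable def gstep (req : ρ → (ℕ → X) → X → B) (k : ℕ) (r : ρ) (l : List ℕ)
    (s : B × (ℕ → X)) : B × (ℕ → X) :=
  if h : ∃ y, s.1 ⊓ req r (param s.2 l) y ≠ ⊥ then
    (s.1 ⊓ req r (param s.2 l) h.choose, Function.update s.2 (k+1) h.choose)
  else s

theorem gstep_cases (req : ρ → (ℕ → X) → X → B) (k : ℕ) (r : ρ) (l : List ℕ)
    (s : B × (ℕ → X)) :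
    (∃ z, gstep req k r l s =
      (s.1 ⊓ req r (param s.2 l) z, Function.update s.2 (k+1) z)) ∨
    ((∀ y, s.1 ⊓ req r (param s.2 l) y = ⊥) ∧ gstep req k r l s = s) := by
  by_cases h : ∃ y, s.1 ⊓ req r (param s.2 l) y ≠ ⊥
  · left
    refine ⟨h.choose, ?_⟩
    unfold gstep
    rw [dif_pos h]
  · right
    refine ⟨?_, ?_⟩
    · intro y
      by_contra hy
      exact h ⟨y, hy⟩
    · unfold gstep
      rw [dif_neg h]

/-- the sequence of states -/
noncomputable def gseq (req : ρ → (ℕ → X) → X → B) (e : ℕ → ρ × List ℕ) (c0 : B) (x0 : X) :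
    ℕ → B × (ℕ → X)
  | 0 => (c0, fun _ => x0)
  | k+1 => gstep req k (e k).1 (e k).2 (gseq req e c0 x0 k)

theorem exists_generic [Countable ρ] [Nonempty ρ] (x0 : X) (c0 : B) (hc0 : c0 ≠ ⊥)
    (req : ρ → (ℕ → X) → X → B) :
    ∃ (x : ℕ → X) (c : ℕ → B), Antitone c ∧ (∀ n, c n ≠ ⊥) ∧ c 0 = c0 ∧
      ∀ (r : ρ) (l : List ℕ),
        (∃ k n, c n ≤ req r (param x l) (x k)) ∨
        (∃ n, ∀ y : X, c n ⊓ req r (param x l) y = ⊥) := by
  -- an enumeration in which each pair appears at a late stage
  obtain ⟨f, hf⟩ := exists_surjective_nat (ρ × List ℕ × ℕ)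
  -- the k-th requirement, skipped if its list mentions indices > k
  set e : ℕ → ρ × List ℕ := fun k => ((f k).1, if ∀ i ∈ (f k).2.1, i ≤ k then (f k).2.1 else [])
    with he
  have hlate : ∀ (r : ρ) (l : List ℕ), ∃ k, e k = (r, l) ∧ ∀ i ∈ l, i ≤ k := by
    intro r l
    -- infinitely many k with (f k).1 = r, (f k).2.1 = l
    have hinf : {k | (f k).1 = r ∧ (f k).2.1 = l}.Infinite := by
      have h1 : Function.Surjective (fun k => (f k).2.2) := by
        intro n
        obtain ⟨k, hk⟩ := hf (r, l, n)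
        exact ⟨k, by simp [hk]⟩
      intro hfin
      have h2 : ((fun k => (f k).2.2) '' {k | (f k).1 = r ∧ (f k).2.1 = l}).Finite := hfin.image _
      apply Set.infinite_univ (α := ℕ)
      refine h2.subset ?_
      intro n _
      obtain ⟨k, hk⟩ := hf (r, l, n)
      exact ⟨k, by simp [hk], by simp [hk]⟩
    obtain ⟨k, hk, hk2⟩ := hinf.exists_gt (l.foldr max 0)
    have hle : ∀ i ∈ l, i ≤ k := by
      intro i hi
      have : i ≤ l.foldr max 0 := by
        clear hk hk2 hinf
        induction l with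
        | nil => simp at hi
        | cons a l ih =>
          simp only [List.mem_cons] at hi
          simp only [List.foldr_cons]
          rcases hi with rfl | hi
          · exact le_max_left _ _
          · exact (ih hi).trans (le_max_right _ _)
      omega
    refine ⟨k, ?_, hle⟩
    simp only [he]
    rw [hk.1, hk.2, if_pos hle]
  set s := gseq req e c0 x0 with hs
  have hs0 : s 0 = (c0, fun _ => x0) := rfl
  have hs1 : ∀ k, s (k+1) = gstep req k (e k).1 (e k).2 (s k) := fun k => rfl
  -- properties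
  have hne : ∀ k, (s k).1 ≠ ⊥ := by
    intro k
    induction k with
    | zero => exact hc0
    | succ k ih =>
      rw [hs1]; unfold gstep
      split_ifs with h
      · exact h.choose_spec
      · exact ih
  have hanti1 : ∀ k, (s (k+1)).1 ≤ (s k).1 := by
    intro k
    rw [hs1]; unfold gstep
    split_ifs with h
    · exact inf_le_left
    · exact le_rfl
  have hstab : ∀ k, ∀ i ≤ k, (s (k+1)).2 i = (s k).2 i := by
    intro k i hi
    rw [hs1]; unfold gstep
    split_ifs with h
    · simp only
      rw [Function.update_of_ne (by omega)]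
    · rfl
  set x : ℕ → X := fun n => (s n).2 n with hx
  have hstab2 : ∀ k, ∀ i ≤ k, (s k).2 i = x i := by
    intro k
    induction k with
    | zero => intro i hi; obtain rfl : i = 0 := by omega
              rfl
    | succ k ih =>
      intro i hi
      rcases Nat.lt_or_ge i (k+1) with h | h
      · rw [hstab k i (by omega), ih i (by omega)]
      · obtain rfl : i = k+1 := by omega
        rfl
  refine ⟨x, fun n => (s n).1, antitone_nat_of_succ_le hanti1, hne, by simp [hs0], ?_⟩
  intro r l
  obtain ⟨k, hk, hlk⟩ := hlate r l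
  have hpar : param (s k).2 l = param x l := param_congr (hstab2 k) l hlk
  have h2 := hs1 k
  rw [hk] at h2
  rcases gstep_cases req k r l (s k) with ⟨z, hz⟩ | ⟨hz, -⟩
  · left
    rw [hz] at h2
    refine ⟨k+1, k+1, ?_⟩
    have h3 : x (k+1) = z := by
      rw [← hstab2 (k+1) (k+1) le_rfl, h2]
      simp
    rw [h3, ← hpar]
    show (s (k+1)).1 ≤ _
    rw [h2]
    exact inf_le_right
  · right
    refine ⟨k, ?_⟩
    intro y
    rw [← hpar]
    exact hz y

end

end Pool.Agent.ZFM
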