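import Pool.Agent.ZFM.Ops
import Pool.Agent.ZFM.Generic

/-! # Generic two-valued models -/

namespace Pool.Agent.ZFM

universe u

open BN SymSys

variable {B : Type u} [CompleteBooleanAlgebra B] (S : SymSys B)

/-- requirements -/
inductive Req (κ : Type)
  | dec (φ : Fm)
  | wit (φ : Fm)
  | pair
  | union
  | unionW
  | pow
  | sep (φ : Fm)
  | coll (φ : Fm)
  | collW (φ : Fm)
  | dom
  | omega
  | nat (n : ℕ)
  | user (k : κ)

variable {S}

/-- code of requirements -/
def Req.toSum {κ : Type} : Req κ → (ℕ × Fm) ⊕ κ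
  | .dec φ => .inl (0, φ)
  | .wit φ => .inl (1, φ)
  | .pair => .inl (2, .fls)
  | .union => .inl (3, .fls)
  | .unionW => .inl (4, .fls)
  | .pow => .inl (5, .fls)
  | .sep φ => .inl (6, φ)
  | .coll φ => .inl (7, φ)
  | .collW φ => .inl (8, φ)
  | .dom => .inl (9, .fls)
  | .omega => .inl (10, .fls)
  | .nat n => .inl (11, .mem n n)
  | .user k => .inr k

theorem Req.toSum_injective {κ : Type} : Function.Injective (Req.toSum (κ := κ)) := by
  intro a b h
  cases a <;> cases b <;> simp_all [Req.toSum]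

instance {κ : Type} [Countable κ] : Countable (Req κ) := Req.toSum_injective.countable

instance {κ : Type} : Nonempty (Req κ) := ⟨.pair⟩

/-- assignment with the first `n` values removed -/
def drop {X : Type*} (n : ℕ) (v : ℕ → X) : ℕ → X := fun i => v (i + n)

/-- exact equality as a Boolean value -/
def xeq (y o : S.HN) : B := ⨆ _ : y = o, ⊤

theorem xeq_self (y : S.HN) : xeq y y = ⊤ := by unfold xeq; simp

theorem eq_of_xeq {y o : S.HN} {c : B} (hc : c ≠ ⊥) (h : c ≤ xeq y o) : y = o := by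
  by_contra hne
  apply hc
  rw [← le_bot_iff]
  refine h.trans ?_
  unfold xeq
  simp [hne]

/-- Boolean value of requirements -/
noncomputable def Req.val {κ : Type} (user : κ → (ℕ → S.HN) → S.HN → B) :
    Req κ → (ℕ → S.HN) → S.HN → B
  | .dec φ, v, _ => SymSys.val φ v
  | .wit φ, v, y => (SymSys.val φ (push y v))ᶜ
  | .pair, v, y => xeq y (pairN (v 0) (v 1))
  | .union, v, y => xeq y (unionN (v 0))
  | .unionW, v, y => bmem y.1 (v 1).1 ⊓ bmem (v 0).1 y.1
  | .pow, v, y => xeq y (powN (v 0))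
  | .sep φ, v, y => xeq y (sepN φ (drop 1 v) (v 0))
  | .coll φ, v, y => xeq y (collN φ (drop 1 v) (v 0))
  | .collW φ, v, y => bmem y.1 (collN φ (drop 2 v) (v 1)).1 ⊓ SymSys.val φ (push y (push (v 0) (drop 2 v)))
  | .dom, v, y => ⨆ i : (v 1).1.Ix, ⨆ _ : HN.nm (v 1) i = y, (v 1).1.vl i ⊓ beq (v 0).1 ((v 1).1.nm i)
  | .omega, _, y => xeq y (omegaN S)
  | .nat n, _, y => xeq y (natN S n)
  | .user k, v, y => user k v y

/-- data of a generic model -/
structure GModel (S : SymSys B) (κ : Type) (user : κ → (ℕ → S.HN) → S.HN → B) where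
  x : ℕ → S.HN
  c : ℕ → B
  anti : Antitone c
  ne : ∀ n, c n ≠ ⊥
  meets : ∀ (r : Req κ) (l : List ℕ),
        (∃ k n, c n ≤ r.val user (param x l) (x k)) ∨
        (∃ n, ∀ y : S.HN, c n ⊓ r.val user (param x l) y = ⊥)

theorem exists_gmodel (κ : Type) [Countable κ] (user : κ → (ℕ → S.HN) → S.HN → B)
    (x0 : S.HN) (c0 : B) (hc0 : c0 ≠ ⊥) : ∃ M : GModel S κ user, M.c 0 = c0 := by
  obtain ⟨x, c, h1, h2, h3, h4⟩ := exists_generic x0 c0 hc0 (Req.val user)
  exact ⟨⟨x, c, h1, h2, h4⟩, h3⟩

namespace GModel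

variable {κ : Type} {user : κ → (ℕ → S.HN) → S.HN → B} (M : GModel S κ user)

/-- truth in the generic model -/
def U (b : B) : Prop := ∃ n, M.c n ≤ b

theorem U_mono {b c : B} (h : b ≤ c) (hb : M.U b) : M.U c := by
  obtain ⟨n, hn⟩ := hb
  exact ⟨n, hn.trans h⟩

theorem U_inf {b c : B} (hb : M.U b) (hc : M.U c) : M.U (b ⊓ c) := by
  obtain ⟨n, hn⟩ := hb
  obtain ⟨m, hm⟩ := hc
  exact ⟨max n m, le_inf ((M.anti (le_max_left _ _)).trans hn) ((M.anti (le_max_right _ _)).trans hm)⟩

theorem U_top : M.U ⊤ := ⟨0, le_top⟩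

theorem not_U_bot : ¬ M.U ⊥ := fun ⟨n, hn⟩ => M.ne n (le_bot_iff.1 hn)

theorem not_U_of_disj {b : B} {n : ℕ} (h : M.c n ⊓ b = ⊥) : ¬ M.U b := by
  intro hb
  apply M.not_U_bot
  rw [← h]
  exact M.U_inf ⟨n, le_rfl⟩ hb

theorem U_compl_of_disj {b : B} {n : ℕ} (h : M.c n ⊓ b = ⊥) : M.U bᶜ :=
  ⟨n, le_compl_iff_disjoint_right.2 (disjoint_iff.2 h)⟩

theorem not_U_compl {b : B} (h : M.U b) : ¬ M.U bᶜ := by
  intro h'
  apply M.not_U_bot
  rw [← inf_compl_self b]
  exact M.U_inf h h'

/-- equivalence of indices -/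
def setoid : Setoid ℕ where
  r i j := M.U (beq (M.x i).1 (M.x j).1)
  iseqv :=
    { refl := fun i => by rw [beq_refl]; exact M.U_top
      symm := fun {i j} h => by rw [beq_symm]; exact h
      trans := fun {i j k} h h' => M.U_mono (beq_trans _ _ _) (M.U_inf h h') }

/-- the carrier of the two-valued model -/
def Carrier : Type := Quotient M.setoid

/-- the element with index `i` -/
def el (i : ℕ) : M.Carrier := Quotient.mk M.setoid i

theorem el_surj (a : M.Carrier) : ∃ i, M.el i = a := Quotient.exists_rep a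

theorem el_eq {i j : ℕ} : M.el i = M.el j ↔ M.U (beq (M.x i).1 (M.x j).1) :=
  Quotient.eq (r := M.setoid)

/-- membership in the two-valued model -/
def E (a b : M.Carrier) : Prop :=
  Quotient.lift₂ (s₁ := M.setoid) (s₂ := M.setoid)
    (fun i j => M.U (bmem (M.x i).1 (M.x j).1))
    (fun i j i' j' h h' => by
      apply propext
      constructor
      · intro hm
        exact M.U_mono (bmem_congr_right _ _ _) (M.U_inf h'
          (M.U_mono (bmem_congr_left _ _ _) (M.U_inf h hm)))
      · intro hm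
        have h1 : M.U (beq (M.x i').1 (M.x i).1) := by rw [beq_symm]; exact h
        have h2 : M.U (beq (M.x j').1 (M.x j).1) := by rw [beq_symm]; exact h'
        exact M.U_mono (bmem_congr_right _ _ _) (M.U_inf h2
          (M.U_mono (bmem_congr_left _ _ _) (M.U_inf h1 hm)))) a b

instance : Membership M.Carrier M.Carrier := ⟨fun b a => M.E a b⟩

theorem mem_def {i j : ℕ} : M.el i ∈ M.el j ↔ M.U (bmem (M.x i).1 (M.x j).1) := Iff.rfl

/-- the parameter list of an assignment -/
theorem exists_param (u : ℕ → ℕ) (n : ℕ) :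
    ∃ l : List ℕ, ∀ i < n, param M.x l i = M.x (u i) := by
  refine ⟨(List.range n).map u, fun i hi => ?_⟩
  unfold param
  congr 1
  rw [List.getD_eq_getElem _ _ (by simpa using hi)]
  simp

theorem val_dec (φ : Fm) (u : ℕ → ℕ) : M.U (SymSys.val φ (fun i => M.x (u i))) ∨
    ∃ n, M.c n ⊓ SymSys.val φ (fun i => M.x (u i)) = ⊥ := by
  obtain ⟨l, hl⟩ := M.exists_param u φ.bd
  have h := M.meets (.dec φ) l
  simp only [Req.val] at h
  rw [val_bd φ hl] at h
  rcases h with ⟨k, n, h⟩ | ⟨n, h⟩
  · exact Or.inl ⟨n, h⟩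
  · exact Or.inr ⟨n, h (M.x 0)⟩

theorem U_compl_of_not (φ : Fm) (u : ℕ → ℕ) (h : ¬ M.U (SymSys.val φ (fun i => M.x (u i)))) :
    M.U (SymSys.val φ (fun i => M.x (u i)))ᶜ := by
  rcases M.val_dec φ u with h' | ⟨n, h'⟩
  · exact absurd h' h
  · exact M.U_compl_of_disj h'

theorem push_x (k : ℕ) (u : ℕ → ℕ) :
    push (M.x k) (fun i => M.x (u i)) = fun i => M.x (push k u i) := by
  funext i; cases i <;> rfl

theorem push_el (k : ℕ) (u : ℕ → ℕ) :
    push (M.el k) (fun i => M.el (u i)) = fun i => M.el (push k u i) := by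
  funext i; cases i <;> rfl

/-- **Truth lemma** -/
theorem sat_iff (φ : Fm) (u : ℕ → ℕ) :
    Sat φ (fun i => M.el (u i)) ↔ M.U (SymSys.val φ (fun i => M.x (u i))) := by
  induction φ generalizing u with
  | mem i j => exact M.mem_def
  | eq i j => exact M.el_eq
  | fls => exact ⟨fun h => h.elim, fun h => M.not_U_bot h⟩
  | imp φ ψ ih1 ih2 =>
    simp only [Sat, SymSys.val]
    rw [ih1, ih2]
    constructor
    · intro h
      by_cases hφ : M.U (SymSys.val φ (fun i => M.x (u i)))
      · exact M.U_mono le_himp (h hφ)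
      · have := M.U_compl_of_not φ u hφ
        refine M.U_mono ?_ this
        rw [himp_eq]; exact le_sup_right
    · intro h hφ
      exact M.U_mono (le_trans (by rw [himp_inf_self]) inf_le_left) (M.U_inf h hφ)
  | all φ ih =>
    simp only [Sat, SymSys.val]
    constructor
    · intro h
      obtain ⟨l, hl⟩ := M.exists_param u φ.bd
      have hm := M.meets (.wit φ) l
      simp only [Req.val] at hm
      have e : ∀ y : S.HN, SymSys.val φ (push y (param M.x l)) =
          SymSys.val φ (push y (fun i => M.x (u i))) := by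
        intro y
        apply val_bd
        intro i hi
        cases i with
        | zero => rfl
        | succ i => exact hl i (by omega)
      simp only [e] at hm
      rcases hm with ⟨k, n, hk⟩ | ⟨n, hn⟩
      · exfalso
        have h1 := h (M.el k)
        rw [push_el, ih, ← push_x] at h1
        exact M.not_U_compl h1 ⟨n, hk⟩
      · refine ⟨n, le_iInf fun y => ?_⟩
        have := hn y
        rw [← disjoint_iff, ← le_compl_iff_disjoint_right, compl_compl] at this
        exact this
    · intro h a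
      obtain ⟨k, rfl⟩ := M.el_surj a
      rw [push_el, ih, ← push_x]
      exact M.U_mono (iInf_le (fun y => SymSys.val φ (push y fun i => M.x (u i))) (M.x k)) h

/-- closure under operations given by a requirement of the form `y = o(v)` -/
theorem closed_of_req {o : S.HN} {r : Req κ} {l : List ℕ}
    (h : ∀ y : S.HN, r.val user (param M.x l) y = xeq y o) :
    ∃ k, M.x k = o := by
  rcases M.meets r l with ⟨k, n, hk⟩ | ⟨n, hn⟩
  · rw [h] at hk; exact ⟨k, eq_of_xeq (M.ne n) hk⟩
  · exfalso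
    have := hn o
    rw [h, xeq_self, inf_top_eq] at this
    exact M.ne n this

theorem exists_pair (i j : ℕ) : ∃ k, M.x k = pairN (M.x i) (M.x j) :=
  M.closed_of_req (r := .pair) (l := [i, j]) (fun _ => rfl)

theorem exists_union (i : ℕ) : ∃ k, M.x k = unionN (M.x i) :=
  M.closed_of_req (r := .union) (l := [i]) (fun _ => rfl)

theorem exists_pow (i : ℕ) : ∃ k, M.x k = powN (M.x i) :=
  M.closed_of_req (r := .pow) (l := [i]) (fun _ => rfl)

theorem exists_sep (φ : Fm) (u : ℕ → ℕ) (i : ℕ) : ∃ (l : List ℕ) (k : ℕ),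
    M.x k = sepN φ (drop 1 (param M.x l)) (M.x i) ∧
    ∀ t < φ.bd, drop 1 (param M.x l) t = M.x (u t) := by
  obtain ⟨l, hl⟩ := M.exists_param (push i u) (φ.bd + 1)
  obtain ⟨k, hk⟩ := M.closed_of_req (r := .sep φ) (l := l) (fun _ => rfl)
  refine ⟨l, k, ?_, ?_⟩
  · rw [hk, hl 0 (by omega)]; rfl
  · intro t ht
    exact hl (t+1) (by omega)

theorem exists_coll (φ : Fm) (u : ℕ → ℕ) (i : ℕ) : ∃ (l : List ℕ) (k : ℕ),
    M.x k = collN φ (drop 1 (param M.x l)) (M.x i) ∧ param M.x l 0 = M.x i ∧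
    ∀ t < φ.bd, drop 1 (param M.x l) t = M.x (u t) := by
  obtain ⟨l, hl⟩ := M.exists_param (push i u) (φ.bd + 1)
  obtain ⟨k, hk⟩ := M.closed_of_req (r := .coll φ) (l := l) (fun _ => rfl)
  refine ⟨l, k, ?_, ?_, ?_⟩
  · rw [hk, hl 0 (by omega)]; rfl
  · exact hl 0 (by omega)
  · intro t ht
    exact hl (t+1) (by omega)

theorem mem_of_beq {k : ℕ} {o : S.HN} (h : M.U (beq (M.x k).1 o.1)) (z : ℕ) :
    M.el z ∈ M.el k ↔ M.U (bmem (M.x z).1 o.1) := by
  rw [mem_def]
  constructor
  · intro h'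
    exact M.U_mono (bmem_congr_right _ _ _) (M.U_inf h h')
  · intro h'
    rw [beq_symm] at h
    exact M.U_mono (bmem_congr_right _ _ _) (M.U_inf h h')

theorem U_sup {φ ψ : Fm} {u w : ℕ → ℕ}
    (h : M.U (SymSys.val φ (fun i => M.x (u i)) ⊔ SymSys.val ψ (fun i => M.x (w i)))) :
    M.U (SymSys.val φ (fun i => M.x (u i))) ∨ M.U (SymSys.val ψ (fun i => M.x (w i))) := by
  by_contra hcon
  rw [not_or] at hcon
  have h1 := M.U_compl_of_not _ _ hcon.1
  have h2 := M.U_compl_of_not _ _ hcon.2
  have h3 := M.U_inf h1 h2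
  rw [← compl_sup] at h3
  exact M.not_U_compl h h3

/-- the domain property: a member of `x` is equal to a member of the domain of the name `x`. -/
theorem dom {i j : ℕ} (h : M.el i ∈ M.el j) :
    ∃ k, M.el i = M.el k ∧ ∃ t : (M.x j).1.Ix, HN.nm (M.x j) t = M.x k := by
  have hm := M.meets .dom [i, j]
  rcases hm with ⟨k, n, hk⟩ | ⟨n, hn⟩
  · have hk' : M.c n ≤ ⨆ t : (M.x j).1.Ix, ⨆ _ : HN.nm (M.x j) t = M.x k,
        (M.x j).1.vl t ⊓ beq (M.x i).1 ((M.x j).1.nm t) := hk
    refine ⟨k, ?_, ?_⟩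
    · rw [el_eq]
      refine ⟨n, hk'.trans ?_⟩
      refine iSup_le fun t => iSup_le fun ht => ?_
      rw [← ht]
      exact inf_le_right
    · by_contra hcon
      push Not at hcon
      apply M.ne n
      rw [← le_bot_iff]
      refine hk'.trans ?_
      refine iSup_le fun t => iSup_le fun ht => ?_
      exact absurd ht (hcon t)
  · exfalso
    have hn' : ∀ y : S.HN, M.c n ⊓ ⨆ t : (M.x j).1.Ix, ⨆ _ : HN.nm (M.x j) t = y,
        (M.x j).1.vl t ⊓ beq (M.x i).1 ((M.x j).1.nm t) = ⊥ := hn
    refine M.not_U_of_disj (b := bmem (M.x i).1 (M.x j).1) (n := n) ?_ h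
    unfold bmem
    rw [inf_iSup_eq, ← le_bot_iff]
    refine iSup_le fun t => ?_
    rw [← hn' (HN.nm (M.x j) t)]
    refine inf_le_inf_left _ ?_
    exact le_iSup_of_le t (le_iSup_of_le rfl le_rfl)

theorem wf : WellFounded (fun a b : M.Carrier => a ∈ b) := by
  constructor
  have key : ∀ b : BN B, ∀ j, (M.x j).1 = b → Acc (fun a b : M.Carrier => a ∈ b) (M.el j) := by
    intro b
    induction b using BN.ind with
    | h b ih =>
      intro j hj
      constructor
      intro a ha
      obtain ⟨i, rfl⟩ := M.el_surj a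
      obtain ⟨k, hk, t, ht⟩ := M.dom ha
      rw [hk]
      subst hj
      refine ih t k ?_
      rw [← ht]; rfl
  intro a
  obtain ⟨j, rfl⟩ := M.el_surj a
  exact key _ j rfl

theorem ext_iff (i j : ℕ) (h : ∀ z, z ∈ M.el i ↔ z ∈ M.el j) : M.el i = M.el j := by
  have h1 : M.U (SymSys.val (.all (.imp (.mem 0 1) (.mem 0 2)))
      (fun t => M.x (push i (fun _ => j) t))) := by
    rw [← sat_iff]
    intro z hz
    exact (h z).1 hz
  have h2 : M.U (SymSys.val (.all (.imp (.mem 0 2) (.mem 0 1)))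
      (fun t => M.x (push i (fun _ => j) t))) := by
    rw [← sat_iff]
    intro z hz
    exact (h z).2 hz
  rw [el_eq]
  refine M.U_mono ?_ (M.U_inf h1 h2)
  apply beq_of_forall_HN (S := S) (((S.hs_iff _).1 (M.x i).2).1) (((S.hs_iff _).1 (M.x j).2).1)
  · intro z
    rw [← le_himp_iff]
    exact inf_le_left.trans (iInf_le _ z)
  · intro z
    rw [← le_himp_iff]
    exact inf_le_right.trans (iInf_le _ z)

theorem exists_nat (n : ℕ) : ∃ k, M.x k = natN S n :=
  M.closed_of_req (r := .nat n) (l := []) (fun _ => rfl)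

theorem exists_omega : ∃ k, M.x k = omegaN S :=
  M.closed_of_req (r := .omega) (l := []) (fun _ => rfl)

/-- index of the natural number `n` -/
noncomputable def natI (n : ℕ) : ℕ := (M.exists_nat n).choose

theorem natI_spec (n : ℕ) : M.x (M.natI n) = natN S n := (M.exists_nat n).choose_spec

/-- the natural number `n` in the model -/
noncomputable def nat (n : ℕ) : M.Carrier := M.el (M.natI n)

theorem el_congr {i j : ℕ} (h : M.x i = M.x j) : M.el i = M.el j := by
  rw [el_eq, h, beq_refl]; exact M.U_top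

theorem nat_inj {m n : ℕ} (h : M.nat m = M.nat n) : m = n := by
  by_contra hne
  have h1 : M.U (beq (M.x (M.natI m)).1 (M.x (M.natI n)).1) := M.el_eq.1 h
  rw [natI_spec, natI_spec] at h1
  change M.U (beq (natB B m) (natB B n)) at h1
  rw [beq_natB hne] at h1
  exact M.not_U_bot h1

/-- elements of a family name -/
theorem mem_famN {ι : Type u} {y : ι → S.HN} {h} {k : ℕ}
    (hk : M.x k = famN y h) (z : M.Carrier) :
    z ∈ M.el k ↔ ∃ i j, M.x j = y i ∧ z = M.el j := by
  constructor
  · intro hz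
    obtain ⟨z, rfl⟩ := M.el_surj z
    obtain ⟨j, hj, t, ht⟩ := M.dom hz
    have key : ∀ x : S.HN, x = famN y h → ∀ t : x.1.Ix, ∃ i, HN.nm x t = y i := by
      rintro x rfl t
      exact ⟨t, rfl⟩
    obtain ⟨i, hi⟩ := key _ hk t
    exact ⟨i, j, by rw [← ht, hi], hj⟩
  · rintro ⟨i, j, hj, rfl⟩
    rw [mem_def, hk, bmem_famN, hj]
    refine M.U_mono ?_ M.U_top
    refine le_iSup_of_le i ?_
    rw [beq_refl]

/-- index of `ω` -/
noncomputable def omegaI : ℕ := M.exists_omega.choose

theorem omegaI_spec : M.x M.omegaI = omegaN S := M.exists_omega.choose_spec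

/-- `ω` in the model -/
noncomputable def omega : M.Carrier := M.el M.omegaI

theorem mem_omega (z : M.Carrier) : z ∈ M.omega ↔ ∃ n, z = M.nat n := by
  unfold omega
  rw [M.mem_famN M.omegaI_spec]
  constructor
  · rintro ⟨i, j, hj, rfl⟩
    refine ⟨i.down, M.el_congr ?_⟩
    rw [hj, natI_spec]
  · rintro ⟨n, rfl⟩
    exact ⟨⟨n⟩, M.natI n, M.natI_spec n, rfl⟩

theorem mem_nat (z : M.Carrier) (n : ℕ) : z ∈ M.nat n ↔ ∃ m < n, z = M.nat m := by
  constructor
  · intro hz
    obtain ⟨z, rfl⟩ := M.el_surj z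
    obtain ⟨j, hj, t, ht⟩ := M.dom hz
    have key : ∀ x : S.HN, x = natN S n → ∀ t : x.1.Ix, ∃ m < n, HN.nm x t = natN S m := by
      rintro x rfl t
      have : ∀ b : BN B, b = BN.mk (ULift (Fin n)) (fun i => natB B i.down.1) (fun _ => ⊤) →
          ∀ t : b.Ix, ∃ m < n, b.nm t = natB B m := by
        rintro b rfl t
        exact ⟨t.down.1, t.down.2, rfl⟩
      obtain ⟨m, hm, h⟩ := this _ (natB_def n) t
      exact ⟨m, hm, Subtype.ext h⟩
    obtain ⟨m, hm, h⟩ := key _ (M.natI_spec n) t
    refine ⟨m, hm, ?_⟩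
    rw [hj]
    apply M.el_congr
    rw [← ht, h, natI_spec]
  · rintro ⟨m, hm, rfl⟩
    unfold nat
    rw [mem_def, natI_spec, natI_spec]
    change M.U (bmem (natB B m) (natB B n))
    rw [bmem_natB]
    refine M.U_mono ?_ M.U_top
    refine le_iSup_of_le (⟨m, hm⟩ : Fin n) ?_
    rw [beq_refl]

/-- choice of indices for an assignment -/
theorem exists_index (v : ℕ → M.Carrier) : ∃ u : ℕ → ℕ, v = fun i => M.el (u i) := by
  choose u hu using fun i => M.el_surj (v i)
  exact ⟨u, funext fun i => (hu i).symm⟩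

theorem isZF : IsZF M.Carrier where
  extensionality x y h := by
    obtain ⟨i, rfl⟩ := M.el_surj x
    obtain ⟨j, rfl⟩ := M.el_surj y
    exact M.ext_iff i j h
  foundation x h := by
    obtain ⟨y, hy⟩ := h
    obtain ⟨m, hm, hmin⟩ := M.wf.has_min {y | y ∈ x} ⟨y, hy⟩
    exact ⟨m, hm, fun z hz hzx => hmin z hzx hz⟩
  pairing x y := by
    obtain ⟨i, rfl⟩ := M.el_surj x
    obtain ⟨j, rfl⟩ := M.el_surj y
    obtain ⟨k, hk⟩ := M.exists_pair i j
    refine ⟨M.el k, fun z => ?_⟩
    obtain ⟨z, rfl⟩ := M.el_surj z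
    rw [mem_def, hk, bmem_pairN, el_eq, el_eq]
    constructor
    · intro h
      exact M.U_sup (φ := .eq 0 1) (ψ := .eq 0 1) (u := push z (fun _ => i))
        (w := push z (fun _ => j)) h
    · rintro (h | h)
      · exact M.U_mono le_sup_left h
      · exact M.U_mono le_sup_right h
  union x := by
    obtain ⟨i, rfl⟩ := M.el_surj x
    obtain ⟨k, hk⟩ := M.exists_union i
    refine ⟨M.el k, fun z => ?_⟩
    obtain ⟨z, rfl⟩ := M.el_surj z
    rw [mem_def, hk, bmem_unionN]
    constructor
    · intro h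
      rcases M.meets .unionW [z, i] with ⟨j, n, hj⟩ | ⟨n, hn⟩
      · have hj' : M.c n ≤ bmem (M.x j).1 (M.x i).1 ⊓ bmem (M.x z).1 (M.x j).1 := hj
        exact ⟨M.el j, ⟨n, hj'.trans inf_le_left⟩, ⟨n, hj'.trans inf_le_right⟩⟩
      · exfalso
        have hn' : ∀ y : S.HN, M.c n ⊓ (bmem y.1 (M.x i).1 ⊓ bmem (M.x z).1 y.1) = ⊥ := hn
        refine M.not_U_of_disj (n := n) ?_ h
        rw [inf_iSup_eq]
        simp only [hn']
        simp
    · rintro ⟨y, hy, hz⟩
      obtain ⟨j, rfl⟩ := M.el_surj y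
      rw [mem_def] at hy hz
      refine M.U_mono ?_ (M.U_inf hy hz)
      exact le_iSup (fun y : S.HN => bmem y.1 (M.x i).1 ⊓ bmem (M.x z).1 y.1) (M.x j)
  powerset x := by
    obtain ⟨i, rfl⟩ := M.el_surj x
    obtain ⟨k, hk⟩ := M.exists_pow i
    refine ⟨M.el k, fun z => ?_⟩
    obtain ⟨z, rfl⟩ := M.el_surj z
    rw [mem_def, hk, bmem_powN]
    have h1 := M.sat_iff (.all (.imp (.mem 0 1) (.mem 0 2))) (push z (fun _ => i))
    exact h1.symm
  infinity := by
    refine ⟨M.omega, ⟨M.nat 0, (M.mem_omega _).2 ⟨0, rfl⟩, fun z hz => ?_⟩, fun x hx => ?_⟩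
    · rw [mem_nat] at hz
      obtain ⟨m, hm, -⟩ := hz
      omega
    · rw [mem_omega] at hx
      obtain ⟨n, rfl⟩ := hx
      refine ⟨M.nat (n+1), (M.mem_omega _).2 ⟨n+1, rfl⟩, fun z => ?_⟩
      rw [mem_nat, mem_nat]
      constructor
      · rintro ⟨m, hm, rfl⟩
        rcases Nat.lt_or_ge m n with h | h
        · exact Or.inl ⟨m, h, rfl⟩
        · obtain rfl : m = n := by omega
          exact Or.inr rfl
      · rintro (⟨m, hm, rfl⟩ | rfl)
        · exact ⟨m, by omega, rfl⟩
        · exact ⟨n, by omega, rfl⟩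
  separation φ v x := by
    obtain ⟨u, rfl⟩ := M.exists_index v
    obtain ⟨i, rfl⟩ := M.el_surj x
    obtain ⟨l, k, hk, hl⟩ := M.exists_sep φ u i
    refine ⟨M.el k, fun z => ?_⟩
    obtain ⟨z, rfl⟩ := M.el_surj z
    rw [mem_def, hk, bmem_sepN, mem_def, push_el, sat_iff]
    have e : SymSys.val φ (push (M.x z) (drop 1 (param M.x l))) =
        SymSys.val φ (fun i => M.x (push z u i)) := by
      apply val_bd
      intro t ht
      cases t with
      | zero => rfl
      | succ t => exact hl t (by omega)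
    rw [e]
    constructor
    · intro h
      exact ⟨M.U_mono inf_le_left h, M.U_mono inf_le_right h⟩
    · intro h
      exact M.U_inf h.1 h.2
  replacement φ v x hx := by
    obtain ⟨u, rfl⟩ := M.exists_index v
    obtain ⟨i, rfl⟩ := M.el_surj x
    obtain ⟨l, k, hk, hl0, hl⟩ := M.exists_coll φ u i
    -- collection
    have hcoll : ∀ z ∈ M.el i, ∀ w, Sat φ (push w (push z (fun i => M.el (u i)))) →
        ∃ w' ∈ M.el k, Sat φ (push w' (push z (fun i => M.el (u i)))) := by
      intro z hz w hw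
      obtain ⟨z, rfl⟩ := M.el_surj z
      obtain ⟨w, rfl⟩ := M.el_surj w
      rw [push_el, push_el, sat_iff] at hw
      rw [mem_def] at hz
      have hcs := coll_spec φ (drop 1 (param M.x l)) (M.x i) (M.x z) (M.x w)
      have e : ∀ w' : S.HN, SymSys.val φ (push w' (push (M.x z) (drop 1 (param M.x l)))) =
          SymSys.val φ (push w' (fun i => M.x (push z u i))) := by
        intro w'
        apply val_bd
        intro t ht
        match t with
        | 0 => rfl
        | 1 => rfl
        | t+2 => exact hl t (by omega)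
      have hU : M.U (⨆ w' : S.HN, bmem w'.1 (M.x k).1 ⊓
          SymSys.val φ (push w' (fun i => M.x (push z u i)))) := by
        rw [hk]
        simp only [← e]
        refine M.U_mono hcs (M.U_inf hz ?_)
        rw [e, push_x]
        exact hw
      -- witness
      have hval : ∀ y : S.HN, (Req.collW φ).val user (param M.x (z :: l)) y =
          bmem y.1 (M.x k).1 ⊓ SymSys.val φ (push y (fun i => M.x (push z u i))) := by
        intro y
        rw [hk, ← e, ← hl0]
        rfl
      rcases M.meets (.collW φ) (z :: l) with ⟨j, n, hj⟩ | ⟨n, hn⟩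
      · rw [hval] at hj
        refine ⟨M.el j, ⟨n, hj.trans inf_le_left⟩, ?_⟩
        rw [push_el, push_el, sat_iff, ← push_x]
        exact ⟨n, hj.trans inf_le_right⟩
      · exfalso
        refine M.not_U_of_disj (n := n) ?_ hU
        rw [inf_iSup_eq]
        simp only [← hval, hn]
        simp
    -- separation
    obtain ⟨v', hv'⟩ : ∃ v' : ℕ → M.Carrier, v' = fun i => M.el (u i) := ⟨_, rfl⟩
    rw [← hv'] at hx hcoll ⊢
    obtain ⟨l2, k2, hk2, hl2⟩ := M.exists_sep
      (.imp (.all (.imp (.mem 0 2) (.imp (φ.rename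
        (fun t => match t with
          | 0 => 1
          | 1 => 0
          | t+2 => t+3)) .fls))) .fls) (push i u) k
    refine ⟨M.el k2, fun w => ?_⟩
    obtain ⟨w, rfl⟩ := M.el_surj w
    have h1 : M.el w ∈ M.el k2 ↔ M.el w ∈ M.el k ∧
        Sat (.imp (.all (.imp (.mem 0 2) (.imp (φ.rename
        (fun t => match t with
          | 0 => 1
          | 1 => 0
          | t+2 => t+3)) .fls))) .fls) (push (M.el w) (fun t => M.el (push i u t))) := by
      rw [mem_def, hk2, bmem_sepN, mem_def, push_el, sat_iff]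
      rw [val_bd (w := fun t => M.x (push w (push i u) t)) _ (fun t ht => by
        match t with
        | 0 => rfl
        | t+1 => exact hl2 t (by omega))]
      constructor
      · intro h
        exact ⟨M.U_mono inf_le_left h, M.U_mono inf_le_right h⟩
      · intro h
        exact M.U_inf h.1 h.2
    rw [h1]
    have h2 : Sat (.imp (.all (.imp (.mem 0 2) (.imp (φ.rename
        (fun t => match t with
          | 0 => 1
          | 1 => 0
          | t+2 => t+3)) .fls))) .fls) (push (M.el w) (fun t => M.el (push i u t))) ↔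
        ∃ z ∈ M.el i, Sat φ (push (M.el w) (push z v')) := by
      simp only [Sat, Fm.sat_rename]
      have h3 : ∀ z : M.Carrier, Sat φ (push z (push (M.el w) fun t => M.el (push i u t)) ∘
          (fun t => match t with
          | 0 => 1
          | 1 => 0
          | t+2 => t+3)) ↔ Sat φ (push (M.el w) (push z v')) := by
        intro z
        apply Fm.sat_congr
        intro t _
        match t with
        | 0 => rfl
        | 1 => rfl
        | t+2 => rw [hv']; rfl
      simp only [h3]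
      constructor
      · intro h
        by_contra hcon
        push Not at hcon
        exact h (fun z hz hs => hcon z hz hs)
      · rintro ⟨z, hz, hs⟩ h
        exact h z hz hs
    rw [h2]
    constructor
    · exact fun h => h.2
    · rintro ⟨z, hz, hs⟩
      refine ⟨?_, z, hz, hs⟩
      obtain ⟨w', hw', hs'⟩ := hcoll z hz _ hs
      have := (hx z hz).unique hs hs'
      rw [this]
      exact hw'

end GModel

end Pool.Agent.ZFM
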