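import Pool.Agent.ZFM.RegOpen
import Pool.Agent.ZFM.Model

/-! # The Cohen symmetric system -/

namespace Pool.Agent.ZFM

open TopologicalSpace BN SymSys

noncomputable section

/-- the group: permutations of `ℕ × ℕ` preserving the first coordinate -/
abbrev CG : Type := ℕ → Equiv.Perm ℕ

/-- action on index pairs -/
def gp (g : CG) (p : P2) : P2 := (p.1, g p.1 p.2)

theorem gp_mul (g h : CG) (p : P2) : gp (g * h) p = gp g (gp h p) := rfl
theorem gp_one (p : P2) : gp 1 p = p := rfl
theorem gp_inv_gp (g : CG) (p : P2) : gp g⁻¹ (gp g p) = p := by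
  rw [← gp_mul, inv_mul_cancel, gp_one]
theorem gp_gp_inv (g : CG) (p : P2) : gp g (gp g⁻¹ p) = p := by
  rw [← gp_mul, mul_inv_cancel, gp_one]

theorem gp_injective (g : CG) : Function.Injective (gp g) :=
  Function.LeftInverse.injective (gp_inv_gp g)

/-- action on points, contravariant -/
def gOm (g : CG) (w : Om) : Om := fun p => w (gp g p)

theorem gOm_continuous (g : CG) : Continuous (gOm g) :=
  continuous_pi fun p => continuous_apply (gp g p)

/-- action on open sets: the preimage under `gOm g`, so that `w ∈ gO g U ↔ gOm g w ∈ U` -/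
def gO (g : CG) : Opens Om ≃o Opens Om where
  toFun U := ⟨gOm g ⁻¹' U, U.2.preimage (gOm_continuous g)⟩
  invFun U := ⟨gOm g⁻¹ ⁻¹' U, U.2.preimage (gOm_continuous g⁻¹)⟩
  left_inv U := by
    ext w
    have : gOm g (gOm g⁻¹ w) = w := by
      funext p
      show w (gp g⁻¹ (gp g p)) = w p
      rw [gp_inv_gp]
    change gOm g (gOm g⁻¹ w) ∈ U ↔ w ∈ U
    rw [this]
  right_inv U := by
    ext w
    have : gOm g⁻¹ (gOm g w) = w := by
      funext p
      show w (gp g (gp g⁻¹ p)) = w p
      rw [gp_gp_inv]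
    change gOm g⁻¹ (gOm g w) ∈ U ↔ w ∈ U
    rw [this]
  map_rel_iff' {U V} := by
    constructor
    · intro h w hw
      have h1 : gOm g (gOm g⁻¹ w) = w := by
        funext p
        show w (gp g⁻¹ (gp g p)) = w p
        rw [gp_inv_gp]
      have h2 : gOm g⁻¹ w ∈ gOm g ⁻¹' (U : Set Om) := by
        show gOm g (gOm g⁻¹ w) ∈ (U : Set Om)
        rw [h1]; exact hw
      have h3 : gOm g⁻¹ w ∈ gOm g ⁻¹' (V : Set Om) := h h2
      change gOm g (gOm g⁻¹ w) ∈ (V : Set Om) at h3
      rw [h1] at h3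
      exact h3
    · intro h w hw
      exact h hw

/-- action on `CB` -/
def gB (g : CG) : CB ≃o CB := regMap (gO g)

theorem mem_gB (g : CG) (b : CB) (w : Om) : w ∈ pts (gB g b) ↔ gOm g w ∈ pts b := Iff.rfl

theorem CB_ext {b c : CB} (h : pts b = pts c) : b = c :=
  le_antisymm (pts_mono.2 h.le) (pts_mono.2 h.ge)

/-- the action as a homomorphism -/
def σC : CG →* (CB ≃o CB) where
  toFun := gB
  map_one' := RelIso.ext fun b => CB_ext rfl
  map_mul' g h := by
    refine RelIso.ext fun b => CB_ext ?_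
    ext w
    show gOm (g * h) w ∈ pts b ↔ gOm h (gOm g w) ∈ pts b
    have : gOm (g * h) w = gOm h (gOm g w) := by
      funext p
      rfl
    rw [this]

/-- pointwise stabilisers -/
def fixC (E : Finset P2) : Set CG := {g | ∀ p ∈ E, gp g p = p}

/-- the filter of supports -/
def FC : Filter CG where
  sets := {s | ∃ E : Finset P2, fixC E ⊆ s}
  univ_sets := ⟨∅, Set.subset_univ _⟩
  sets_of_superset := by
    rintro s t ⟨E, hE⟩ hst
    exact ⟨E, hE.trans hst⟩
  inter_sets := by
    classical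
    rintro s t ⟨E, hE⟩ ⟨E', hE'⟩
    refine ⟨E ∪ E', fun g hg => ⟨hE fun p hp => hg p (Finset.mem_union_left _ hp),
      hE' fun p hp => hg p (Finset.mem_union_right _ hp)⟩⟩

theorem mem_FC {s : Set CG} : s ∈ FC ↔ ∃ E : Finset P2, fixC E ⊆ s := Iff.rfl

/-- The Cohen symmetric system -/
def SC : SymSys CB where
  G := CG
  grp := inferInstance
  σ := σC
  F := FC
  conj := by
    classical
    intro g s hs
    obtain ⟨E, hE⟩ := mem_FC.1 hs
    refine mem_FC.2 ⟨E.image (gp g), fun h hh => hE ?_⟩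
    intro p hp
    have h1 := hh (gp g p) (Finset.mem_image_of_mem _ hp)
    change gp (g⁻¹ * h * g) p = p
    rw [gp_mul, gp_mul, h1, gp_inv_gp]

/-- finite support of a name -/
def SupN (E : Finset P2) (x : SC.HN) : Prop := ∀ g : CG, g ∈ fixC E → beq (SC.ga g x.1) x.1 = ⊤

theorem exists_supN (x : SC.HN) : ∃ E, SupN E x := by
  have h := ((SC.hs_iff x.1).1 x.2).2
  obtain ⟨E, hE⟩ := mem_FC.1 h
  exact ⟨E, fun g hg => hE hg⟩

theorem SupN.mono {E E' : Finset P2} (h : E ⊆ E') {x : SC.HN} (hx : SupN E x) : SupN E' x :=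
  fun g hg => hx g fun p hp => hg p (h hp)

theorem supN_of_forall {x : SC.HN} (h : ∀ g : CG, beq (SC.ga g x.1) x.1 = ⊤) (E : Finset P2) :
    SupN E x := fun g _ => h g

theorem val_ga_fix {φ : Fm} {E : Finset P2} {g : CG} (hg : g ∈ fixC E) {v : ℕ → SC.HN}
    (hv : ∀ i < φ.bd, SupN E (v i)) :
    val φ (fun i => HN.ga (S := SC) g (v i)) = val φ v := by
  apply le_antisymm
  · have := val_congr φ (c := (⊤ : CB)) (v := fun i => HN.ga (S := SC) g (v i)) (w := v)
      (fun i hi => (hv i hi g hg).ge)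
    rwa [top_inf_eq] at this
  · have := val_congr φ (c := (⊤ : CB)) (w := fun i => HN.ga (S := SC) g (v i)) (v := v)
      (fun i hi => by rw [beq_symm]; exact (hv i hi g hg).ge)
    rwa [top_inf_eq] at this

/-- compatibility of a condition with its image -/
theorem exists_compat {c : CB} (hc : c ≠ ⊥) : ∃ K : Finset P2, ∀ g : CG,
    (∀ p ∈ K, gp g p = p ∨ gp g p ∉ K) → c ⊓ gB g c ≠ ⊥ := by
  obtain ⟨w, K, L, hw⟩ := exists_cylinder hc
  refine ⟨K, fun g hg => ?_⟩
  rw [ne_bot_iff']
  classical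
  refine ⟨fun p => if p ∈ K then w p else w (gp g⁻¹ p), ?_⟩
  rw [pts_inf]
  refine ⟨?_, ?_⟩
  · apply hw
    intro p hp k _
    simp only [if_pos hp]
  · rw [mem_gB]
    apply hw
    intro p hp k _
    show (if gp g p ∈ K then w (gp g p) else w (gp g⁻¹ (gp g p))) k = w p k
    rcases hg p hp with h | h
    · rw [h, if_pos hp]
    · rw [if_neg h, gp_inv_gp]

/-- existence of a moving permutation -/
theorem exists_move (E s K : Finset P2) (hd : Disjoint s E) :
    ∃ g : CG, g ∈ fixC E ∧ (∀ p ∈ s, gp g p ∉ K) ∧ ∀ p ∈ K, gp g p = p ∨ gp g p ∉ K := by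
  classical
  -- a bound for all second coordinates
  obtain ⟨M, hM⟩ : ∃ M : ℕ, ∀ p ∈ E ∪ s ∪ K, p.2 < M := by
    refine ⟨(E ∪ s ∪ K).sup (fun p => p.2) + 1, fun p hp => ?_⟩
    exact Nat.lt_succ_of_le (Finset.le_sup (f := fun p : P2 => p.2) hp)
  set f : ℕ → ℕ → ℕ := fun n i => if (n, i) ∈ s then i + M else
    if M ≤ i ∧ (n, i - M) ∈ s then i - M else i with hf
  have hinv : ∀ n, Function.Involutive (f n) := by
    intro n i
    simp only [hf]
    by_cases h1 : (n, i) ∈ s
    · rw [if_pos h1]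
      have h2 : (n, i + M) ∉ s := by
        intro h
        have := hM _ (Finset.mem_union_left _ (Finset.mem_union_right _ h))
        simp at this
      rw [if_neg h2, if_pos ⟨by omega, by simpa using h1⟩]
      omega
    · rw [if_neg h1]
      by_cases h2 : M ≤ i ∧ (n, i - M) ∈ s
      · rw [if_pos h2, if_pos h2.2]
        omega
      · rw [if_neg h2, if_neg h1, if_neg h2]
  set g : CG := fun n => (hinv n).toPerm with hg
  have hgp : ∀ p : P2, gp g p = (p.1, f p.1 p.2) := fun p => rfl
  refine ⟨g, ?_, ?_, ?_⟩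
  · intro p hp
    rw [hgp]
    have h1 : (p.1, p.2) ∉ s := fun h => (Finset.disjoint_left.1 hd) h hp
    have h2 : ¬ (M ≤ p.2 ∧ (p.1, p.2 - M) ∈ s) := by
      rintro ⟨h, -⟩
      have := hM p (Finset.mem_union_left _ (Finset.mem_union_left _ hp))
      omega
    simp only [hf]
    rw [if_neg h1, if_neg h2]
  · intro p hp hK
    rw [hgp] at hK
    have := hM _ (Finset.mem_union_right _ hK)
    simp only [hf] at this
    rw [if_pos hp] at this
    omega
  · intro p hp
    by_cases h1 : (p.1, p.2) ∈ s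
    · right
      intro hK
      rw [hgp] at hK
      have := hM _ (Finset.mem_union_right _ hK)
      simp only [hf] at this
      rw [if_pos h1] at this
      omega
    · left
      rw [hgp]
      have h2 : ¬ (M ≤ p.2 ∧ (p.1, p.2 - M) ∈ s) := by
        rintro ⟨h, -⟩
        have := hM p (Finset.mem_union_right _ hp)
        omega
      simp only [hf]
      rw [if_neg h1, if_neg h2]

/-- **Moving principle** for Boolean values -/
theorem move_val (φ : Fm) (E s K : Finset P2) (hd : Disjoint s E) (z : SC.HN) (v : ℕ → SC.HN)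
    (hv : ∀ i < φ.bd, SupN E (v i)) :
    val φ (push z v) ≤ ⨆ g : {g : CG // g ∈ fixC E ∧ ∀ p ∈ s, gp g p ∉ K},
      val φ (push (HN.ga (S := SC) g.1 z) v) := by
  by_contra hcon
  set d := ⨆ g : {g : CG // g ∈ fixC E ∧ ∀ p ∈ s, gp g p ∉ K},
      val φ (push (HN.ga (S := SC) g.1 z) v) with hd'
  have hne : val φ (push z v) ⊓ dᶜ ≠ ⊥ := by
    intro h
    apply hcon
    rw [← disjoint_iff, disjoint_compl_right_iff] at h
    exact h
  obtain ⟨K', hK'⟩ := exists_compat hne
  classical
  obtain ⟨g, hg1, hg2, hg3⟩ := exists_move E s (K ∪ K') hd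
  have hcompat := hK' g (fun p hp => by
    rcases hg3 p (Finset.mem_union_right _ hp) with h | h
    · exact Or.inl h
    · exact Or.inr fun h' => h (Finset.mem_union_right _ h'))
  apply hcompat
  rw [← le_bot_iff]
  have h1 : gB g (val φ (push z v) ⊓ dᶜ) ≤ d := by
    calc gB g (val φ (push z v) ⊓ dᶜ) ≤ gB g (val φ (push z v)) := (gB g).monotone inf_le_left
      _ = val φ (fun i => HN.ga (S := SC) g (push z v i)) := (val_ga (S := SC) φ g _).symm
      _ ≤ val φ (push (HN.ga (S := SC) g z) v) := by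
        have := val_congr φ (c := (⊤ : CB)) (v := fun i => HN.ga (S := SC) g (push z v i))
          (w := push (HN.ga (S := SC) g z) v) (fun i hi => by
            cases i with
            | zero => simp [beq_refl]
            | succ i => exact (hv i (by omega) g hg1).ge)
        rwa [top_inf_eq] at this
      _ ≤ d := le_iSup (fun g : {g : CG // g ∈ fixC E ∧ ∀ p ∈ s, gp g p ∉ K} =>
          val φ (push (HN.ga (S := SC) g.1 z) v))
          ⟨g, hg1, fun p hp h => hg2 p hp (Finset.mem_union_left _ h)⟩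
  calc _ ≤ dᶜ ⊓ d := inf_le_inf inf_le_right h1
    _ = ⊥ := compl_inf_self _

end

end Pool.Agent.ZFM
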