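import Pool.Agent.ZFM.CohenNames

/-! # The Cohen model: interface -/

namespace Pool.Agent.ZFM

open TopologicalSpace BN SymSys

/-- A symmetric Cohen model: the interface used in the applications.  `R i` are ternary relations
on the natural numbers that are available in the model. -/
structure CohenModel (R : ℕ → ℕ → ℕ → ℕ → Prop) where
  /-- the universe -/
  N : Type
  /-- membership -/
  mem : Membership N N
  countable : Countable N
  zf : IsZF N
  wf : WellFounded (fun a b : N => a ∈ b)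
  nat : ℕ → N
  nat_inj : Function.Injective nat
  mem_nat : ∀ n z, z ∈ nat n ↔ ∃ m < n, z = nat m
  omega : N
  mem_omega : ∀ z, z ∈ omega ↔ ∃ n, z = nat n
  a : P2 → N
  a_inj : Function.Injective a
  A : N
  mem_A : ∀ z, z ∈ A ↔ ∃ p, z = a p
  Pi : N
  mem_Pi : ∀ z, z ∈ Pi ↔ ∃ p, IsPair z (nat p.1) (a p)
  c : (P2 →₀ ℕ) → N
  mem_c : ∀ t z, z ∈ c t ↔ ∃ p ∈ t.support, IsPair z (a p) (nat (t p))
  FX : N
  mem_FX : ∀ z, z ∈ FX ↔ ∃ t, z = c t
  gr : ℕ → N
  mem_gr : ∀ i z, z ∈ gr i ↔ ∃ m n k w, R i m n k ∧ IsPair w (nat m) (nat n) ∧ IsPair z w (nat k)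
  Sup : Finset P2 → N → Prop
  sup_exists : ∀ x, ∃ E, Sup E x
  sup_mono : ∀ {E E' x}, E ⊆ E' → Sup E x → Sup E' x
  sup_nat : ∀ n E, Sup E (nat n)
  sup_omega : ∀ E, Sup E omega
  sup_a : ∀ p E, p ∈ E → Sup E (a p)
  sup_A : ∀ E, Sup E A
  sup_Pi : ∀ E, Sup E Pi
  sup_c : ∀ t E, t.support ⊆ E → Sup E (c t)
  sup_FX : ∀ E, Sup E FX
  sup_gr : ∀ i E, Sup E (gr i)
  move : ∀ (φ : Fm) (E K : Finset P2) (t : P2 →₀ ℕ) (v : ℕ → N), (∀ i, Sup E (v i)) →
    Disjoint t.support E → Sat φ (push (c t) v) →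
    ∃ g : CG, g ∈ fixC E ∧ (∀ p ∈ t.support, gp g p ∉ K) ∧ Sat φ (push (c (gt g t)) v)

attribute [instance] CohenModel.mem

namespace GModel

variable {κ : Type} {B : Type} [CompleteBooleanAlgebra B] {S : SymSys B}
  {user : κ → (ℕ → S.HN) → S.HN → B} (M : GModel S κ user)

theorem mem_pairN {i j k : ℕ} (hk : M.x k = pairN (M.x i) (M.x j)) (z : M.Carrier) :
    z ∈ M.el k ↔ z = M.el i ∨ z = M.el j := by
  obtain ⟨z, rfl⟩ := M.el_surj z
  rw [mem_def, hk, bmem_pairN, el_eq, el_eq]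
  constructor
  · intro h
    exact M.U_sup (φ := .eq 0 1) (ψ := .eq 0 1) (u := push z (fun _ => i))
      (w := push z (fun _ => j)) h
  · rintro (h | h)
    · exact M.U_mono le_sup_left h
    · exact M.U_mono le_sup_right h

theorem ext' {a b : M.Carrier} (h : ∀ z, z ∈ a ↔ z ∈ b) : a = b := M.isZF.extensionality a b h

theorem isPair_opN {i j k : ℕ} (hk : M.x k = opN (M.x i) (M.x j)) :
    IsPair (M.el k) (M.el i) (M.el j) := by
  obtain ⟨i1, h1⟩ := M.exists_pair i i
  obtain ⟨i2, h2⟩ := M.exists_pair i j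
  have hk' : M.x k = pairN (M.x i1) (M.x i2) := by rw [hk, h1, h2]; rfl
  intro w
  rw [M.mem_pairN hk']
  constructor
  · rintro (rfl | rfl)
    · left
      intro u
      rw [M.mem_pairN h1, or_self]
    · right
      intro u
      exact M.mem_pairN h2 u
  · rintro (h | h)
    · left
      apply M.ext'
      intro u
      rw [h, M.mem_pairN h1, or_self]
    · right
      apply M.ext'
      intro u
      rw [h, M.mem_pairN h2]

theorem isPair_unique {p q x y : M.Carrier} (hp : IsPair p x y) (hq : IsPair q x y) : p = q :=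
  M.ext' fun w => by rw [hp w, hq w]

theorem exists_opN (i j : ℕ) : ∃ k, M.x k = opN (M.x i) (M.x j) := by
  obtain ⟨i1, h1⟩ := M.exists_pair i i
  obtain ⟨i2, h2⟩ := M.exists_pair i j
  obtain ⟨k, hk⟩ := M.exists_pair i1 i2
  exact ⟨k, by rw [hk, h1, h2]; rfl⟩

end GModel

noncomputable section

theorem GModel.mem_famC {κ : Type} {user : κ → (ℕ → SC.HN) → SC.HN → CB}
    (M : GModel SC κ user) {ι : Type} {y : ι → SC.HN} {E : Finset P2}
    {h : ∀ g ∈ fixC E, (∀ i, ∃ j, gaC g (y i) = y j) ∧ (∀ j, ∃ i, gaC g (y i) = y j)} {k : ℕ}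
    (hk : M.x k = famC y E h) (z : M.Carrier) :
    z ∈ M.el k ↔ ∃ i j, M.x j = y i ∧ z = M.el j :=
  M.mem_famN (h := ev_of_eq (mem_F_of_fix E h)) hk z

/-- the generic model for the Cohen system -/
theorem exists_cohenModel (R : ℕ → ℕ → ℕ → ℕ → Prop) : Nonempty (CohenModel R) := by
  have hne : (⊤ : CB) ≠ ⊥ := by
    rw [ne_bot_iff']
    exact ⟨fun _ _ => true, trivial⟩
  obtain ⟨M, -⟩ := exists_gmodel CReq (cuser R) AN (⊤ : CB) hne
  -- indices of the constants
  have ha : ∀ p, ∃ k, M.x k = aN p := fun p => M.closed_of_req (r := .user (.a p)) (l := []) (fun _ => rfl)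
  have hA : ∃ k, M.x k = AN := M.closed_of_req (r := .user .A) (l := []) (fun _ => rfl)
  have hPi : ∃ k, M.x k = PiN := M.closed_of_req (r := .user .Pi) (l := []) (fun _ => rfl)
  have hc : ∀ t, ∃ k, M.x k = cN t := fun t => M.closed_of_req (r := .user (.c t)) (l := []) (fun _ => rfl)
  have hFX : ∃ k, M.x k = FXN := M.closed_of_req (r := .user .FX) (l := []) (fun _ => rfl)
  have hgr : ∀ i, ∃ k, M.x k = grN (R i) := fun i => M.closed_of_req (r := .user (.gr i)) (l := []) (fun _ => rfl)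
  choose ia hia using ha
  obtain ⟨iA, hiA⟩ := hA
  obtain ⟨iPi, hiPi⟩ := hPi
  choose ic hic using hc
  obtain ⟨iFX, hiFX⟩ := hFX
  choose igr higr using hgr
  refine ⟨{
    N := M.Carrier
    mem := inferInstance
    countable := ?_
    zf := M.isZF
    wf := M.wf
    nat := M.nat
    nat_inj := fun m n h => M.nat_inj h
    mem_nat := fun n z => M.mem_nat z n
    omega := M.omega
    mem_omega := M.mem_omega
    a := fun p => M.el (ia p)
    a_inj := ?_
    A := M.el iA
    mem_A := ?_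
    Pi := M.el iPi
    mem_Pi := ?_
    c := fun t => M.el (ic t)
    mem_c := ?_
    FX := M.el iFX
    mem_FX := ?_
    gr := fun i => M.el (igr i)
    mem_gr := ?_
    Sup := fun E x => ∃ k, M.el k = x ∧ SupN E (M.x k)
    sup_exists := ?_
    sup_mono := ?_
    sup_nat := ?_
    sup_omega := ?_
    sup_a := ?_
    sup_A := ?_
    sup_Pi := ?_
    sup_c := ?_
    sup_FX := ?_
    sup_gr := ?_
    move := ?_ }⟩
  · exact Function.Surjective.countable (f := M.el) (fun a => M.el_surj a)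
  · intro p q h
    by_contra hne
    rw [M.el_eq, hia, hia] at h
    change M.U (beq (aB p) (aB q)) at h
    rw [beq_aB hne] at h
    exact M.not_U_bot h
  · intro z
    rw [M.mem_famC hiA]
    constructor
    · rintro ⟨p, j, hj, rfl⟩
      exact ⟨p, M.el_congr (by rw [hj, hia])⟩
    · rintro ⟨p, rfl⟩
      exact ⟨p, ia p, hia p, rfl⟩
  · intro z
    rw [M.mem_famC hiPi]
    constructor
    · rintro ⟨p, j, hj, rfl⟩
      refine ⟨p, ?_⟩
      have := M.isPair_opN (i := M.natI p.1) (j := ia p) (k := j) (by rw [hj, M.natI_spec, hia])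
      exact this
    · rintro ⟨p, hp⟩
      obtain ⟨k, hk⟩ := M.exists_opN (M.natI p.1) (ia p)
      refine ⟨p, k, by rw [hk, M.natI_spec, hia], ?_⟩
      exact M.isPair_unique hp (M.isPair_opN hk)
  · intro t z
    rw [M.mem_famC (hic t)]
    constructor
    · rintro ⟨⟨p, hp⟩, j, hj, rfl⟩
      refine ⟨p, hp, ?_⟩
      exact M.isPair_opN (i := ia p) (j := M.natI (t p)) (k := j) (by rw [hj, M.natI_spec, hia])
    · rintro ⟨p, hp, hz⟩
      obtain ⟨k, hk⟩ := M.exists_opN (ia p) (M.natI (t p))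
      refine ⟨⟨p, hp⟩, k, by rw [hk, M.natI_spec, hia], ?_⟩
      exact M.isPair_unique hz (M.isPair_opN hk)
  · intro z
    rw [M.mem_famN (h := Filter.Eventually.of_forall cN_inv) hiFX]
    constructor
    · rintro ⟨t, j, hj, rfl⟩
      exact ⟨t, M.el_congr (by rw [hj, hic])⟩
    · rintro ⟨t, rfl⟩
      exact ⟨t, ic t, hic t, rfl⟩
  · intro i z
    rw [M.mem_famC (higr i)]
    constructor
    · rintro ⟨⟨⟨m, n, k⟩, hR⟩, j, hj, rfl⟩
      obtain ⟨w, hw⟩ := M.exists_opN (M.natI m) (M.natI n)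
      refine ⟨m, n, k, M.el w, hR, M.isPair_opN hw, ?_⟩
      exact M.isPair_opN (i := w) (j := M.natI k) (k := j) (by
        rw [hj, hw, M.natI_spec, M.natI_spec, M.natI_spec])
    · rintro ⟨m, n, k, w, hR, hw, hz⟩
      obtain ⟨w', hw'⟩ := M.exists_opN (M.natI m) (M.natI n)
      have e1 : w = M.el w' := M.isPair_unique hw (M.isPair_opN hw')
      subst e1
      obtain ⟨k', hk'⟩ := M.exists_opN w' (M.natI k)
      refine ⟨⟨(m, n, k), hR⟩, k', by
        rw [hk', hw', M.natI_spec, M.natI_spec, M.natI_spec], ?_⟩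
      exact M.isPair_unique hz (M.isPair_opN hk')
  · intro x
    obtain ⟨k, rfl⟩ := M.el_surj x
    obtain ⟨E, hE⟩ := exists_supN (M.x k)
    exact ⟨E, k, rfl, hE⟩
  · rintro E E' x h ⟨k, rfl, hk⟩
    exact ⟨k, rfl, hk.mono h⟩
  · intro n E
    refine ⟨M.natI n, rfl, ?_⟩
    rw [M.natI_spec]
    intro g _
    change beq (gaC g (natN SC n)).1 _ = ⊤
    rw [gaC_natN, beq_refl]
  · intro E
    refine ⟨M.omegaI, rfl, ?_⟩
    rw [M.omegaI_spec]
    intro g _
    change beq (gaC g (omegaN SC)).1 _ = ⊤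
    rw [gaC_omegaN, beq_refl]
  · intro p E hp
    refine ⟨ia p, rfl, ?_⟩
    rw [hia]
    intro g hg
    change beq (gaC g (aN p)).1 _ = ⊤
    rw [gaC_aN, hg p hp, beq_refl]
  · intro E
    refine ⟨iA, rfl, ?_⟩
    rw [hiA]
    exact (supN_famC _ _ _).mono (Finset.empty_subset _)
  · intro E
    refine ⟨iPi, rfl, ?_⟩
    rw [hiPi]
    exact (supN_famC _ _ _).mono (Finset.empty_subset _)
  · intro t E ht
    refine ⟨ic t, rfl, ?_⟩
    rw [hic]
    exact (supN_famC _ _ _).mono ht
  · intro E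
    refine ⟨iFX, rfl, ?_⟩
    rw [hiFX]
    intro g _
    exact beq_gaC_FXN g
  · intro i E
    refine ⟨igr i, rfl, ?_⟩
    rw [higr]
    exact (supN_famC _ _ _).mono (Finset.empty_subset _)
  · intro φ E K t v hv hd hsat
    choose u hu1 hu2 using hv
    have ev : v = fun i => M.el (u i) := funext fun i => (hu1 i).symm
    rw [ev, M.push_el, M.sat_iff, ← M.push_x, hic] at hsat
    obtain ⟨l, hl⟩ := M.exists_param u φ.bd
    have e : ∀ y : SC.HN, val φ (push y (param M.x l)) = val φ (push y (fun i => M.x (u i))) := by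
      intro y
      apply val_bd
      intro i hi
      cases i with
      | zero => rfl
      | succ i => exact hl i (by omega)
    have hval : ∀ y : SC.HN, (Req.user (.move φ E t.support K)).val (cuser R)
        (param M.x (ic t :: l)) y = ⨆ g : {g : CG // g ∈ fixC E ∧ ∀ p ∈ t.support, gp g p ∉ K},
        ⨆ _ : gaC g.1 (cN t) = y, val φ (push y (fun i => M.x (u i))) := by
      intro y
      rw [← hic t, ← e y]
      rfl
    rcases M.meets (.user (.move φ E t.support K)) (ic t :: l) with ⟨k, n, hk⟩ | ⟨n, hn⟩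
    · rw [hval] at hk
      have h1 : ∃ g : {g : CG // g ∈ fixC E ∧ ∀ p ∈ t.support, gp g p ∉ K},
          gaC g.1 (cN t) = M.x k := by
        by_contra hcon
        push Not at hcon
        apply M.ne n
        rw [← le_bot_iff]
        refine hk.trans (iSup_le fun g => iSup_le fun h => absurd h (hcon g))
      obtain ⟨g, hg⟩ := h1
      refine ⟨g.1, g.2.1, g.2.2, ?_⟩
      have h2 : M.el (ic (gt g.1 t)) = M.el k := by
        rw [M.el_eq, ← hg, hic, beq_symm, beq_ga_cN]
        exact M.U_top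
      rw [h2, ev, M.push_el, M.sat_iff, ← M.push_x]
      exact ⟨n, hk.trans (iSup_le fun g => iSup_le fun h => le_rfl)⟩
    · exfalso
      refine M.not_U_of_disj (n := n) ?_ hsat
      have h1 := move_val φ E t.support K hd (cN t) (fun i => M.x (u i)) (fun i _ => hu2 i)
      rw [← le_bot_iff]
      refine (inf_le_inf_left _ h1).trans ?_
      rw [inf_iSup_eq]
      refine iSup_le fun g => ?_
      rw [← hn (gaC g.1 (cN t)), hval]
      refine inf_le_inf_left _ ?_
      exact le_iSup_of_le g (le_iSup_of_le rfl le_rfl)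

end

end Pool.Agent.ZFM
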