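import Pool.Agent.ZFM.Cohen

/-! # Particular names for the Cohen system -/

namespace Pool.Agent.ZFM

open TopologicalSpace BN SymSys

noncomputable section

/-! ### General facts on invariance -/

section general

universe u
variable {B : Type u} [CompleteBooleanAlgebra B] {S : SymSys B}

theorem ga_pairN (g : S.G) (x y : S.HN) : HN.ga g (pairN x y) = pairN (HN.ga g x) (HN.ga g y) := by
  apply Subtype.ext
  change act (S.σ g) (BN.mk (ULift Bool) (fun b => if b.down then x.1 else y.1) (fun _ => ⊤)) =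
    BN.mk (ULift Bool) (fun b => if b.down then (HN.ga g x).1 else (HN.ga g y).1) (fun _ => ⊤)
  simp only [act, map_top]
  congr 1
  funext b
  split_ifs <;> rfl

/-- ordered pair -/
def opN (x y : S.HN) : S.HN := pairN (pairN x x) (pairN x y)

theorem ga_opN (g : S.G) (x y : S.HN) : HN.ga g (opN x y) = opN (HN.ga g x) (HN.ga g y) := by
  unfold opN
  rw [ga_pairN, ga_pairN, ga_pairN]

theorem bmem_ga_famN {ι : Type u} (y : ι → S.HN) {h} (g : S.G) (z : S.HN) :
    bmem z.1 (HN.ga g (famN y h)).1 = ⨆ i, beq z.1 (HN.ga g (y i)).1 := by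
  have h1 : bmem z.1 (HN.ga g (famN y h)).1 = S.σ g (bmem (HN.ga g⁻¹ z).1 (famN y h).1) := by
    rw [← bmem_act]
    congr 1
    exact (S.ga_ga_inv g z.1).symm
  rw [h1, bmem_famN, OrderIso.map_iSup]
  refine iSup_congr fun i => ?_
  rw [← beq_act]
  congr 1
  exact S.ga_ga_inv g z.1

theorem beq_eq_top_of_bmem {x y : S.HN} (h : ∀ z : S.HN, bmem z.1 x.1 = bmem z.1 y.1) :
    beq x.1 y.1 = ⊤ := by
  rw [eq_top_iff]
  apply beq_of_forall_HN (S := S) (((S.hs_iff _).1 x.2).1) (((S.hs_iff _).1 y.2).1)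
  · intro z; rw [h]; exact inf_le_right
  · intro z; rw [h]; exact inf_le_right

theorem beq_ga_famN {ι κ : Type u} (y : ι → S.HN) (y' : κ → S.HN) {h h'} (g : S.G)
    (h1 : ∀ i, ∃ j, HN.ga g (y i) = y' j) (h2 : ∀ j, ∃ i, HN.ga g (y i) = y' j) :
    beq (HN.ga g (famN y h)).1 (famN y' h').1 = ⊤ := by
  apply beq_eq_top_of_bmem
  intro z
  rw [bmem_ga_famN, bmem_famN]
  apply le_antisymm
  · refine iSup_le fun i => ?_
    obtain ⟨j, hj⟩ := h1 i
    exact le_iSup_of_le j (by rw [hj])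
  · refine iSup_le fun j => ?_
    obtain ⟨i, hi⟩ := h2 j
    exact le_iSup_of_le i (by rw [hi])

theorem beq_ga_famN' {ι κ : Type u} (y : ι → S.HN) (y' : κ → S.HN) {h h'} (g : S.G)
    (h1 : ∀ i, ∃ j, beq (HN.ga g (y i)).1 (y' j).1 = ⊤)
    (h2 : ∀ j, ∃ i, beq (HN.ga g (y i)).1 (y' j).1 = ⊤) :
    beq (HN.ga g (famN y h)).1 (famN y' h').1 = ⊤ := by
  apply beq_eq_top_of_bmem
  intro z
  rw [bmem_ga_famN, bmem_famN]
  apply le_antisymm
  · refine iSup_le fun i => ?_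
    obtain ⟨j, hj⟩ := h1 i
    refine le_iSup_of_le j (le_trans (le_inf le_rfl (le_top.trans hj.ge)) (beq_trans _ _ _))
  · refine iSup_le fun j => ?_
    obtain ⟨i, hi⟩ := h2 j
    rw [beq_symm] at hi
    refine le_iSup_of_le i (le_trans (le_inf le_rfl (le_top.trans hi.ge)) (beq_trans _ _ _))

theorem ev_of_eq {ι : Type u} {y : ι → S.HN}
    (h : ∀ᶠ g in S.F, (∀ i, ∃ j, HN.ga g (y i) = y j) ∧ (∀ j, ∃ i, HN.ga g (y i) = y j)) :
    ∀ᶠ g in S.F, (∀ i, ∃ j, beq (S.ga g (y i).1) (y j).1 = ⊤) ∧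
      (∀ j, ∃ i, beq (S.ga g (y i).1) (y j).1 = ⊤) := by
  filter_upwards [h] with g hg
  refine ⟨fun i => ?_, fun j => ?_⟩
  · obtain ⟨j, hj⟩ := hg.1 i
    refine ⟨j, ?_⟩
    change beq (HN.ga g (y i)).1 (y j).1 = ⊤
    rw [hj, beq_refl]
  · obtain ⟨i, hi⟩ := hg.2 j
    refine ⟨i, ?_⟩
    change beq (HN.ga g (y i)).1 (y j).1 = ⊤
    rw [hi, beq_refl]

end general

/-! ### The generic sets -/

/-- the action of `CG` on names -/
def gaC (g : CG) (x : SC.HN) : SC.HN := HN.ga (S := SC) g x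

theorem gaC_val (g : CG) (x : SC.HN) : (gaC g x).1 = SC.ga g x.1 := rfl

theorem gaC_opN (g : CG) (x y : SC.HN) : gaC g (opN x y) = opN (gaC g x) (gaC g y) :=
  ga_opN (S := SC) g x y

theorem gaC_natN (g : CG) (n : ℕ) : gaC g (natN SC n) = natN SC n := ga_natN (S := SC) g n

theorem gaC_omegaN (g : CG) : gaC g (omegaN SC) = omegaN SC := ga_omegaN (S := SC) g

theorem gaC_gaC_inv (g : CG) (x : SC.HN) : gaC g (gaC g⁻¹ x) = x := HN.ga_ga_inv (S := SC) g x

/-- basic elements of the Cohen algebra -/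
def bas (p : P2) (k : ℕ) : CB := ofClopen {w | w p k = true} (by
  have : Continuous (fun w : Om => w p k) := (continuous_apply k).comp (continuous_apply p)
  exact (isClopen_discrete {true}).preimage this)

theorem gB_bas (g : CG) (p : P2) (k : ℕ) : gB g (bas p k) = bas (gp g p) k := CB_ext rfl

/-- the generic subset of `ω` with index `p` -/
def aB (p : P2) : BN CB := BN.mk ℕ (fun k => natB CB k) (fun k => bas p k)

theorem act_aB (g : CG) (p : P2) : SC.ga g (aB p) = aB (gp g p) := by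
  change act (gB g) (aB p) = aB (gp g p)
  unfold aB
  simp only [act, act_natB, gB_bas]

theorem mem_F_of_fix {s : Set CG} (E : Finset P2) (h : fixC E ⊆ s) : s ∈ SC.F := ⟨E, h⟩

/-- the generic subset of `ω` with index `p` -/
def aN (p : P2) : SC.HN := ⟨aB p, (SC.hs_iff _).2 ⟨fun k => hs_natB k, by
  refine mem_F_of_fix {p} fun g hg => ?_
  change beq (SC.ga g (aB p)) (aB p) = ⊤
  rw [act_aB, hg p (Finset.mem_singleton_self p), beq_refl]⟩⟩

theorem gaC_aN (g : CG) (p : P2) : gaC g (aN p) = aN (gp g p) :=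
  Subtype.ext (act_aB g p)

theorem bmem_nat_aB (p : P2) (k : ℕ) : bmem (natB CB k) (aB p) = bas p k := by
  unfold aB
  rw [bmem_mk]
  apply le_antisymm
  · refine iSup_le fun j => ?_
    by_cases h : k = j
    · subst h; exact inf_le_left
    · rw [beq_natB h]; simp
  · refine le_iSup_of_le k ?_
    rw [beq_refl, inf_top_eq]

theorem beq_aB {p q : P2} (h : p ≠ q) : beq (aB p) (aB q) = ⊥ := by
  by_contra hne
  obtain ⟨w, K, L, hw⟩ := exists_cylinder hne
  -- choose a coordinate outside `L`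
  obtain ⟨k, hk⟩ := Infinite.exists_notMem_finset L
  have h1 : beq (aB p) (aB q) ⊓ bas p k ≤ bas q k := by
    rw [← bmem_nat_aB, ← bmem_nat_aB]
    exact bmem_congr_right _ _ _
  classical
  set w' : Om := fun r j => if j = k then decide (r = p) else w r j with hw'
  have h2 : w' ∈ pts (beq (aB p) (aB q)) := by
    apply hw
    intro r _ j hj
    have : j ≠ k := fun h => hk (h ▸ hj)
    simp only [hw', if_neg this]
  have h3 : w' ∈ pts (bas p k) := by
    show w' p k = true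
    simp [hw']
  have h4 : w' ∈ pts (bas q k) := pts_mono.1 h1 ⟨h2, h3⟩
  have h5 : w' q k = true := h4
  simp only [hw', if_true] at h5
  exact h (of_decide_eq_true h5).symm

/-- the family name of a family on which the elements of `fixC E` act by permutations -/
def famC {ι : Type} (y : ι → SC.HN) (E : Finset P2)
    (h : ∀ g ∈ fixC E, (∀ i, ∃ j, gaC g (y i) = y j) ∧ (∀ j, ∃ i, gaC g (y i) = y j)) : SC.HN :=
  famN y (ev_of_eq (mem_F_of_fix E h))

theorem beq_gaC_famC {ι κ : Type} (y : ι → SC.HN) (y' : κ → SC.HN) (E E' : Finset P2)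
    (h : ∀ g ∈ fixC E, (∀ i, ∃ j, gaC g (y i) = y j) ∧ (∀ j, ∃ i, gaC g (y i) = y j))
    (h' : ∀ g ∈ fixC E', (∀ i, ∃ j, gaC g (y' i) = y' j) ∧ (∀ j, ∃ i, gaC g (y' i) = y' j))
    (g : CG) (h1 : ∀ i, ∃ j, gaC g (y i) = y' j) (h2 : ∀ j, ∃ i, gaC g (y i) = y' j) :
    beq (gaC g (famC y E h)).1 (famC y' E' h').1 = ⊤ :=
  beq_ga_famN (S := SC) (h := ev_of_eq (mem_F_of_fix E h)) (h' := ev_of_eq (mem_F_of_fix E' h'))
    y y' g h1 h2

theorem supN_famC {ι : Type} (y : ι → SC.HN) (E : Finset P2)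
    (h : ∀ g ∈ fixC E, (∀ i, ∃ j, gaC g (y i) = y j) ∧ (∀ j, ∃ i, gaC g (y i) = y j)) :
    SupN E (famC y E h) := fun g hg =>
  beq_gaC_famC y y E E h h g (h g hg).1 (h g hg).2

/-- every `g` acts on this family by a permutation of the indices -/
theorem fam_all {ι : Type} {y : ι → SC.HN} (f : CG → ι → ι)
    (h : ∀ g i, gaC g (y i) = y (f g i)) (g : CG) :
    (∀ i, ∃ j, gaC g (y i) = y j) ∧ (∀ j, ∃ i, gaC g (y i) = y j) := by
  refine ⟨fun i => ⟨f g i, h g i⟩, fun j => ⟨f g⁻¹ j, ?_⟩⟩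
  rw [← h g⁻¹ j]
  exact gaC_gaC_inv g (y j)

/-- the set of all generic reals -/
def AN : SC.HN := famC aN ∅ (fun g _ => fam_all gp gaC_aN g)

/-- the set of pairs `(n, a_{n,i})` -/
def PiN : SC.HN := famC (fun p : P2 => opN (natN SC p.1) (aN p)) ∅
  (fun g _ => fam_all gp (fun g p => by rw [gaC_opN, gaC_natN, gaC_aN]; rfl) g)

/-- code of a finite function from the generic reals to `ω` -/
def cN (t : P2 →₀ ℕ) : SC.HN :=
  famC (fun p : {p : P2 // p ∈ t.support} => opN (aN p.1) (natN SC (t p.1))) t.support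
    (fun g hg => by
      refine ⟨fun i => ⟨i, ?_⟩, fun j => ⟨j, ?_⟩⟩
      · rw [gaC_opN, gaC_natN, gaC_aN, hg _ i.2]
      · rw [gaC_opN, gaC_natN, gaC_aN, hg _ j.2])

/-- the action on finite functions -/
def gt (g : CG) (t : P2 →₀ ℕ) : P2 →₀ ℕ := t.mapDomain (gp g)

theorem gt_apply (g : CG) (t : P2 →₀ ℕ) (p : P2) : gt g t (gp g p) = t p :=
  Finsupp.mapDomain_apply (gp_injective g) t p

theorem mem_gt_support (g : CG) (t : P2 →₀ ℕ) (p : P2) :
    p ∈ (gt g t).support ↔ gp g⁻¹ p ∈ t.support := by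
  rw [Finsupp.mem_support_iff, Finsupp.mem_support_iff]
  have := gt_apply g t (gp g⁻¹ p)
  rw [gp_gp_inv] at this
  rw [this]

theorem beq_ga_cN (g : CG) (t : P2 →₀ ℕ) :
    beq (gaC g (cN t)).1 (cN (gt g t)).1 = ⊤ := by
  apply beq_gaC_famC
  · intro i
    refine ⟨⟨gp g i.1, ?_⟩, ?_⟩
    · rw [mem_gt_support, gp_inv_gp]; exact i.2
    · rw [gaC_opN, gaC_natN, gaC_aN, gt_apply]
  · intro j
    refine ⟨⟨gp g⁻¹ j.1, ?_⟩, ?_⟩
    · rw [← mem_gt_support]; exact j.2
    · rw [gaC_opN, gaC_natN, gaC_aN, gp_gp_inv]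
      congr 2
      have := gt_apply g t (gp g⁻¹ j.1)
      rw [gp_gp_inv] at this
      exact this.symm

theorem gt_gt_inv (g : CG) (t : P2 →₀ ℕ) : gt g (gt g⁻¹ t) = t := by
  unfold gt
  rw [← Finsupp.mapDomain_comp]
  have : gp g ∘ gp g⁻¹ = id := by
    funext p
    exact gp_gp_inv g p
  rw [this, Finsupp.mapDomain_id]

theorem cN_inv (g : CG) : (∀ t, ∃ t', beq (SC.ga g (cN t).1) (cN t').1 = ⊤) ∧
      (∀ t', ∃ t, beq (SC.ga g (cN t).1) (cN t').1 = ⊤) := by
  refine ⟨fun t => ⟨gt g t, beq_ga_cN g t⟩, fun t => ⟨gt g⁻¹ t, ?_⟩⟩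
  have := beq_ga_cN g (gt g⁻¹ t)
  rw [gt_gt_inv] at this
  exact this

/-- the set of all codes of finite functions -/
def FXN : SC.HN := famN cN (Filter.Eventually.of_forall cN_inv)

theorem beq_gaC_FXN (g : CG) : beq (gaC g FXN).1 FXN.1 = ⊤ :=
  beq_ga_famN' (S := SC) (h := Filter.Eventually.of_forall cN_inv)
    (h' := Filter.Eventually.of_forall cN_inv) cN cN g (cN_inv g).1 (cN_inv g).2

/-- graphs of ground model ternary relations on `ω` -/
def grN (R : ℕ → ℕ → ℕ → Prop) : SC.HN :=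
  famC (fun p : {p : ℕ × ℕ × ℕ // R p.1 p.2.1 p.2.2} =>
      opN (opN (natN SC p.1.1) (natN SC p.1.2.1)) (natN SC p.1.2.2)) ∅
    (fun g _ => fam_all (fun _ p => p) (fun g p => by
      rw [gaC_opN, gaC_opN, gaC_natN, gaC_natN, gaC_natN]) g)

/-- requirements for the Cohen model -/
inductive CReq
  | a (p : P2)
  | A
  | Pi
  | c (t : P2 →₀ ℕ)
  | gr (i : ℕ)
  | FX
  | move (φ : Fm) (E s K : Finset P2)

/-- codes -/
def CReq.toSum : CReq → P2 ⊕ (Bool ⊕ ((P2 →₀ ℕ) ⊕ (ℕ ⊕ (Fm × Finset P2 × Finset P2 × Finset P2))))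
  | .a p => .inl p
  | .A => .inr (.inl true)
  | .Pi => .inr (.inl false)
  | .c t => .inr (.inr (.inl t))
  | .gr i => .inr (.inr (.inr (.inl (i+1))))
  | .FX => .inr (.inr (.inr (.inl 0)))
  | .move φ E s K => .inr (.inr (.inr (.inr (φ, E, s, K))))

theorem CReq.toSum_injective : Function.Injective CReq.toSum := by
  intro a b h
  cases a <;> cases b <;> simp_all [CReq.toSum]

instance : Countable CReq := CReq.toSum_injective.countable

/-- values of the Cohen requirements -/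
def cuser (R : ℕ → ℕ → ℕ → ℕ → Prop) : CReq → (ℕ → SC.HN) → SC.HN → CB
  | .a p, _, y => xeq y (aN p)
  | .A, _, y => xeq y AN
  | .Pi, _, y => xeq y PiN
  | .c t, _, y => xeq y (cN t)
  | .gr i, _, y => xeq y (grN (R i))
  | .FX, _, y => xeq y FXN
  | .move φ E s K, v, y =>
      ⨆ g : {g : CG // g ∈ fixC E ∧ ∀ p ∈ s, gp g p ∉ K},
        ⨆ _ : gaC g.1 (v 0) = y, val φ (push y (drop 1 v))

end

end Pool.Agent.ZFM
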