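import Mathlib

/-! # Definitions used in the statements: models of ZF and topology inside them -/

namespace Pool.Agent.ZFM

universe u

/-- First-order formulas in the language of set theory, with de Bruijn indices:
`all φ` binds the variable `0` of `φ`, and shifts the others. -/
inductive Fm : Type
  | mem : ℕ → ℕ → Fm
  | eq : ℕ → ℕ → Fm
  | fls : Fm
  | imp : Fm → Fm → Fm
  | all : Fm → Fm

/-- Put a new value in front of an assignment. -/
def push {M : Type*} (x : M) (v : ℕ → M) : ℕ → M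
  | 0 => x
  | n + 1 => v n

/-- Tarski satisfaction in the structure `(M, ∈)`. -/
def Sat {M : Type*} [Membership M M] : Fm → (ℕ → M) → Prop
  | .mem i j, v => v i ∈ v j
  | .eq i j, v => v i = v j
  | .fls, _ => False
  | .imp φ ψ, v => Sat φ v → Sat ψ v
  | .all φ, v => ∀ x : M, Sat φ (push x v)

/-- `(M, ∈)` is a model of `ZF` (separation and replacement are the first-order schemes, with
parameters given by the assignment `v`). -/
structure IsZF (M : Type*) [Membership M M] : Prop where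
  extensionality : ∀ x y : M, (∀ z : M, z ∈ x ↔ z ∈ y) → x = y
  foundation : ∀ x : M, (∃ y : M, y ∈ x) → ∃ y : M, y ∈ x ∧ ∀ z : M, z ∈ y → z ∉ x
  pairing : ∀ x y : M, ∃ p : M, ∀ z : M, z ∈ p ↔ z = x ∨ z = y
  union : ∀ x : M, ∃ s : M, ∀ z : M, z ∈ s ↔ ∃ y : M, y ∈ x ∧ z ∈ y
  powerset : ∀ x : M, ∃ p : M, ∀ y : M, y ∈ p ↔ ∀ z : M, z ∈ y → z ∈ x
  infinity : ∃ w : M, (∃ e : M, e ∈ w ∧ ∀ z : M, z ∉ e) ∧
    ∀ x : M, x ∈ w → ∃ s : M, s ∈ w ∧ ∀ z : M, z ∈ s ↔ z ∈ x ∨ z = x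
  separation : ∀ (φ : Fm) (v : ℕ → M) (x : M),
    ∃ y : M, ∀ z : M, z ∈ y ↔ z ∈ x ∧ Sat φ (push z v)
  replacement : ∀ (φ : Fm) (v : ℕ → M) (x : M),
    (∀ z : M, z ∈ x → ∃! w : M, Sat φ (push w (push z v))) →
    ∃ y : M, ∀ w : M, w ∈ y ↔ ∃ z : M, z ∈ x ∧ Sat φ (push w (push z v))

/-- `p` is the Kuratowski ordered pair `(x, y)` -/
def IsPair {M : Type*} [Membership M M] (p x y : M) : Prop :=
  ∀ w : M, w ∈ p ↔ (∀ u : M, u ∈ w ↔ u = x) ∨ (∀ u : M, u ∈ w ↔ u = x ∨ u = y)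

/-- `x ⊆ y` -/
def IsSub {M : Type*} [Membership M M] (x y : M) : Prop := ∀ z : M, z ∈ x → z ∈ y

/-- `(x, y) ∈ r` -/
def Rel {M : Type*} [Membership M M] (r x y : M) : Prop := ∃ p : M, IsPair p x y ∧ p ∈ r

/-- `f` is a function from `X` to `Y` -/
def IsFun {M : Type*} [Membership M M] (f X Y : M) : Prop :=
  (∀ p : M, p ∈ f → ∃ x : M, x ∈ X ∧ ∃ y : M, y ∈ Y ∧ IsPair p x y) ∧
    ∀ x : M, x ∈ X → ∃! y : M, Rel f x y

/-! ### Topology inside a structure -/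

section

variable {M : Type*} [Membership M M]

/-- `T` is a topology on the set `X` (all in the sense of the structure `M`). -/
structure IsTop (X T : M) : Prop where
  sub : ∀ U : M, U ∈ T → IsSub U X
  whole : X ∈ T
  inter : ∀ U : M, U ∈ T → ∀ V : M, V ∈ T → ∀ W : M, (∀ z : M, z ∈ W ↔ z ∈ U ∧ z ∈ V) → W ∈ T
  union : ∀ S : M, IsSub S T → ∀ W : M, (∀ z : M, z ∈ W ↔ ∃ U : M, U ∈ S ∧ z ∈ U) → W ∈ T

/-- `C` is a closed subset of the space `(X, T)`. -/
def IsClosedIn (X T C : M) : Prop :=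
  IsSub C X ∧ ∀ U : M, (∀ z : M, z ∈ U ↔ z ∈ X ∧ z ∉ C) → U ∈ T

/-- `f` is a continuous function from `(X, TX)` to `(Y, TY)`. -/
def IsContMap (f X TX Y TY : M) : Prop :=
  IsFun f X Y ∧ ∀ V : M, V ∈ TY → ∀ U : M, (∀ x : M, x ∈ U ↔ x ∈ X ∧ ∃ y : M, y ∈ V ∧ Rel f x y) →
    U ∈ TX

/-- `TS` is the subspace topology on the subset `S` of a space with topology `T`. -/
def IsSubspaceTop (T S TS : M) : Prop :=
  ∀ V : M, V ∈ TS ↔ ∃ U : M, U ∈ T ∧ ∀ z : M, z ∈ V ↔ z ∈ U ∧ z ∈ S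

/-- `f` is a homeomorphism from `(X, TX)` onto `(Y, TY)`. -/
def IsHomeo (f X TX Y TY : M) : Prop :=
  IsContMap f X TX Y TY ∧ (∀ y : M, y ∈ Y → ∃! x : M, Rel f x y) ∧
    ∀ U : M, U ∈ TX → ∀ V : M, (∀ y : M, y ∈ V ↔ ∃ x : M, x ∈ U ∧ Rel f x y) → V ∈ TY

/-- all sets `{u ∈ P : u(j) ∈ V}` with `j ∈ J` and `V ∈ TE` belong to `T` -/
def EvCont (TE J P T : M) : Prop :=
  ∀ j : M, j ∈ J → ∀ V : M, V ∈ TE → ∀ W : M,
    (∀ u : M, u ∈ W ↔ u ∈ P ∧ ∃ y : M, y ∈ V ∧ Rel u j y) → W ∈ T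

/-- `(P, TP)` is the power `E ^ J` of the space `(E, TE)` with the product topology: `P` is the set
of all functions from `J` to `E`, and `TP` is the coarsest topology on `P` making all evaluations
continuous. -/
def IsPowerSpace (E TE J P TP : M) : Prop :=
  (∀ u : M, u ∈ P ↔ IsFun u J E) ∧ IsTop P TP ∧ EvCont TE J P TP ∧
    ∀ T' : M, IsTop P T' → EvCont TE J P T' → IsSub TP T'

/-- `(X, TX)` is homeomorphic to a closed subspace of the power `E ^ J`. -/
def ClosedInPower (E TE J X TX : M) : Prop :=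
  ∃ P TP C TC f : M, IsPowerSpace E TE J P TP ∧ IsClosedIn P TP C ∧ IsSubspaceTop TP C TC ∧
    IsHomeo f X TX C TC

/-- `(X, TX)` is homeomorphic to a subspace of the power `E ^ J`. -/
def SubspaceOfPower (E TE J X TX : M) : Prop :=
  ∃ P TP C TC f : M, IsPowerSpace E TE J P TP ∧ IsSub C P ∧ IsSubspaceTop TP C TC ∧
    IsHomeo f X TX C TC

end

/-! ### The real line inside a structure -/

/-- the ternary relation `f(x, y) = z` coded by the set `f` of pairs `((x, y), z)` -/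
def Op {M : Type*} [Membership M M] (f x y z : M) : Prop := ∃ p : M, IsPair p x y ∧ Rel f p z

/-- The real line inside the structure `(M, ∈)`: a set `R ∈ M` with operations and order in `M`
which form an ordered field in which every nonempty bounded subset belonging to `M` has a
supremum, together with its order topology `T` (formed in `M`). -/
structure RealLine (M : Type*) [Membership M M] where
  R : M
  zero : M
  one : M
  add : M
  mul : M
  lt : M
  T : M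
  field : Field {x : M // x ∈ R}
  order : LinearOrder {x : M // x ∈ R}
  ordered : IsStrictOrderedRing {x : M // x ∈ R}
  zero_eq : ((0 : {x : M // x ∈ R}) : M) = zero
  one_eq : ((1 : {x : M // x ∈ R}) : M) = one
  add_eq : ∀ x y z : {x : M // x ∈ R}, x + y = z ↔ Op add x.1 y.1 z.1
  mul_eq : ∀ x y z : {x : M // x ∈ R}, x * y = z ↔ Op mul x.1 y.1 z.1
  lt_eq : ∀ x y : {x : M // x ∈ R}, x < y ↔ Rel lt x.1 y.1
  complete : ∀ S : M, IsSub S R → {x : {x : M // x ∈ R} | x.1 ∈ S}.Nonempty →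
    BddAbove {x : {x : M // x ∈ R} | x.1 ∈ S} → ∃ s, IsLUB {x : {x : M // x ∈ R} | x.1 ∈ S} s
  top_eq : ∀ U : M, U ∈ T ↔ IsSub U R ∧ ∀ x : {x : M // x ∈ R}, x.1 ∈ U →
    ∃ a b : {x : M // x ∈ R}, a < x ∧ x < b ∧ ∀ y : {x : M // x ∈ R}, a < y → y < b → y.1 ∈ U

/-- `w` contains the empty set and is closed under `x ↦ x ∪ {x}`. -/
def IsInductive {M : Type*} [Membership M M] (w : M) : Prop :=
  (∃ e : M, e ∈ w ∧ ∀ z : M, z ∉ e) ∧
    ∀ x : M, x ∈ w → ∃ s : M, s ∈ w ∧ ∀ z : M, z ∈ s ↔ z ∈ x ∨ z = x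

/-- `w` is the set `ω` of natural numbers of `M`, the least inductive set. -/
def IsOmega {M : Type*} [Membership M M] (w : M) : Prop :=
  IsInductive w ∧ ∀ w' : M, IsInductive w' → IsSub w w'

namespace RealLine

variable {M : Type*} [Membership M M] (ℛ : RealLine M)

/-- `(X, T)` is realcompact: it is homeomorphic to a closed subspace of `ℝ ^ J` for some set `J`. -/
def Realcompact (X T : M) : Prop := ∃ J : M, ClosedInPower ℛ.R ℛ.T J X T

/-- `Z` is a zero-set of `(X, T)`: the set of zeros of a continuous function `f : X → ℝ`. -/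
def IsZeroSet (X T Z : M) : Prop :=
  ∃ f : M, IsContMap f X T ℛ.R ℛ.T ∧ ∀ x : M, x ∈ Z ↔ x ∈ X ∧ Rel f x ℛ.zero

/-- the subspace `(S, TS)` of `(X, T)` is `z`-embedded: each zero-set of `S` is `Z ∩ S` for some
zero-set `Z` of `X`. -/
def ZEmbedded (X T S TS : M) : Prop :=
  ∀ Z' : M, ℛ.IsZeroSet S TS Z' → ∃ Z : M, ℛ.IsZeroSet X T Z ∧ ∀ x : M, x ∈ Z' ↔ x ∈ Z ∧ x ∈ S

/-- `(X, T)` is a Tychonoff space: a `T₁` space in which every closed set `F` and every point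
`x ∉ F` are separated by a continuous function `f` into `[0, 1]` with `f x = 0` and `f = 1`
on `F`. -/
structure Tychonoff (X T : M) : Prop where
  top : IsTop X T
  t1 : ∀ x : M, x ∈ X → ∀ C : M, (∀ z : M, z ∈ C ↔ z = x) → IsClosedIn X T C
  separated : ∀ F : M, IsClosedIn X T F → ∀ x : M, x ∈ X → x ∉ F →
    ∃ f : M, IsContMap f X T ℛ.R ℛ.T ∧
      (∀ y r : M, Rel f y r → ¬ Rel ℛ.lt r ℛ.zero ∧ ¬ Rel ℛ.lt ℛ.one r) ∧
      Rel f x ℛ.zero ∧ ∀ y : M, y ∈ F → Rel f y ℛ.one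

end RealLine

end Pool.Agent.ZFM
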