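import Pool.Agent.ZFM.Defs

/-! # Definitions for Baire sets and countable multiple choice inside a model of ZF -/

namespace Pool.Agent.ZFM

/-- `𝒮` is a `σ`-algebra of subsets of `X` (in the sense of the structure). -/
structure IsSigmaAlg {M : Type*} [Membership M M] (X 𝒮 : M) : Prop where
  sub : ∀ S : M, S ∈ 𝒮 → IsSub S X
  whole : X ∈ 𝒮
  compl : ∀ S : M, S ∈ 𝒮 → ∀ S' : M, (∀ z : M, z ∈ S' ↔ z ∈ X ∧ z ∉ S) → S' ∈ 𝒮
  union : ∀ w s : M, IsOmega w → IsFun s w 𝒮 → ∀ U : M,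
    (∀ z : M, z ∈ U ↔ ∃ n S : M, Rel s n S ∧ z ∈ S) → U ∈ 𝒮

/-- `B` is a Baire set of `(X, T)`: it belongs to every `σ`-algebra of subsets of `X` (in the sense
of the structure) that contains all zero-sets of `(X, T)`. -/
def RealLine.IsBaire {M : Type*} [Membership M M] (ℛ : RealLine M) (X T B : M) : Prop :=
  ∀ 𝒮 : M, IsSigmaAlg X 𝒮 → (∀ Z : M, ℛ.IsZeroSet X T Z → Z ∈ 𝒮) → B ∈ 𝒮

/-- `x` is finite: there is an injection from `x` to a natural number. -/
def IsFin {M : Type*} [Membership M M] (x : M) : Prop :=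
  ∃ w n f : M, IsOmega w ∧ n ∈ w ∧ IsFun f x n ∧ ∀ y y' k : M, Rel f y k → Rel f y' k → y = y'

/-- Countable multiple choice holds in the structure: for every sequence `S : ω → Q` of non-empty
sets there is a sequence `F` of non-empty finite sets `F n ⊆ S n`. -/
def CMC (M : Type*) [Membership M M] : Prop :=
  ∀ w S Q : M, IsOmega w → IsFun S w Q → (∀ n A : M, Rel S n A → ∃ a : M, a ∈ A) →
    ∃ F Q' : M, IsFun F w Q' ∧ ∀ n A G : M, Rel S n A → Rel F n G →
      (∃ a : M, a ∈ G) ∧ IsSub G A ∧ IsFin G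

end Pool.Agent.ZFM
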