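import Pool.Agent.ZFM.Defs

/-! # Definitions for Hewitt extensions and P-spaces inside a model of ZF -/

namespace Pool.Agent.ZFM

variable {M : Type*} [Membership M M]

/-- `(X, T)` is a P-space: for every sequence `S : ω → T` of open sets belonging to the structure,
the intersection `G` of its members is open. -/
def IsPSpace (X T : M) : Prop :=
  ∀ w S G : M, IsOmega w → IsFun S w T → (∀ z : M, z ∈ G ↔ z ∈ X ∧ ∀ n U : M, Rel S n U → z ∈ U) →
    G ∈ T

/-- `T` is the discrete topology on `X`. -/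
def IsDiscreteTop (X T : M) : Prop := ∀ U : M, U ∈ T ↔ IsSub U X

/-- `(X, T)` is `E`-compact: homeomorphic to a closed subspace of `E ^ J` for a non-empty `J`. -/
def ECompact (E TE X T : M) : Prop := ∃ J : M, (∃ j : M, j ∈ J) ∧ ClosedInPower E TE J X T

/-- `(X, T)` is `E`-completely regular: homeomorphic to a subspace of `E ^ J` for a non-empty
`J`. -/
def ECompletelyRegular (E TE X T : M) : Prop :=
  ∃ J : M, (∃ j : M, j ∈ J) ∧ SubspaceOfPower E TE J X T

/-- `(V, TV)` is the Hewitt `E`-compact extension `v_E X` of `(X, T)`: with `C = C(X, E)` the set of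
all continuous functions from `X` to `E` and `(P, TP)` the power `E ^ C`, the set `V` is the
closure in `P` of the set of all evaluations `e(x) = (f(x))_{f ∈ C}` (`x ∈ X`), and `TV` is the
subspace topology. -/
def IsHewitt (E TE X T V TV : M) : Prop :=
  ∃ C P TP : M, (∀ f : M, f ∈ C ↔ IsContMap f X T E TE) ∧ IsPowerSpace E TE C P TP ∧
    (∀ u : M, u ∈ V ↔ u ∈ P ∧ ∀ W : M, W ∈ TP → u ∈ W →
      ∃ x v : M, x ∈ X ∧ v ∈ W ∧ ∀ f r : M, Rel v f r ↔ f ∈ C ∧ Rel f x r) ∧
    IsSubspaceTop TP V TV

end Pool.Agent.ZFM
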