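import Mathlib

/-! # Boolean-valued names

`BN B` is the type of `B`-valued names, with Boolean-valued equality `beq` and membership `bmem`.
-/

namespace Pool.Agent.ZFM

universe u

/-- `B`-valued names. -/
inductive BN (B : Type u) : Type (u+1)
  | mk (ι : Type u) (x : ι → BN B) (b : ι → B) : BN B

namespace BN

variable {B : Type u}

/-- the index type of a name -/
def Ix : BN B → Type u
  | mk ι _ _ => ι

/-- the members of a name -/
def nm : (x : BN B) → x.Ix → BN B
  | mk _ x _ => x

/-- the values of a name -/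
def vl : (x : BN B) → x.Ix → B
  | mk _ _ b => b

theorem ind {p : BN B → Prop} (h : ∀ x, (∀ i, p (x.nm i)) → p x) (x : BN B) : p x := by
  induction x with
  | mk ι x b ih => exact h _ ih

theorem eta (x : BN B) : mk x.Ix x.nm x.vl = x := by cases x; rfl

variable [CompleteBooleanAlgebra B]

/-- Boolean value of equality -/
def beq : BN B → BN B → B
  | mk _ x b => fun t => match t with
    | mk _ y c =>
      (⨅ i, b i ⇨ ⨆ j, c j ⊓ beq (x i) (y j)) ⊓ (⨅ j, c j ⇨ ⨆ i, b i ⊓ beq (x i) (y j))

/-- Boolean value of membership -/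
def bmem (x y : BN B) : B := ⨆ j, y.vl j ⊓ beq x (y.nm j)

theorem bmem_mk (z : BN B) (ι : Type u) (y : ι → BN B) (c : ι → B) :
    bmem z (mk ι y c) = ⨆ j, c j ⊓ beq z (y j) := rfl

theorem beq_def (x y : BN B) : beq x y =
    (⨅ i, x.vl i ⇨ ⨆ j, y.vl j ⊓ beq (x.nm i) (y.nm j)) ⊓
    (⨅ j, y.vl j ⇨ ⨆ i, x.vl i ⊓ beq (x.nm i) (y.nm j)) := by
  cases x; cases y; simp only [beq, nm, vl]; rfl

theorem beq_refl (x : BN B) : beq x x = ⊤ := by
  induction x using ind with
  | h x ih =>
    rw [beq_def, eq_top_iff]
    refine le_inf (le_iInf fun i => ?_) (le_iInf fun i => ?_) <;>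
    · rw [le_himp_iff, top_inf_eq]
      refine le_iSup_of_le i ?_
      rw [ih i, inf_top_eq]

theorem beq_symm (x y : BN B) : beq x y = beq y x := by
  induction x using ind generalizing y with
  | h x ih =>
    rw [beq_def, beq_def y, inf_comm]
    simp_rw [fun i j => ih i (y.nm j)]

/-- `Γ ≤ beq x y` gives the left-to-right inclusion. -/
theorem inf_beq_le_left (x y : BN B) (i : x.Ix) : x.vl i ⊓ beq x y ≤ bmem (x.nm i) y := by
  rw [beq_def, inf_comm]
  calc _ ≤ (x.vl i ⇨ ⨆ j, y.vl j ⊓ beq (x.nm i) (y.nm j)) ⊓ x.vl i :=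
        inf_le_inf_right _ (inf_le_left.trans (iInf_le _ i))
    _ ≤ _ := by rw [himp_inf_self]; exact inf_le_left

theorem inf_beq_le_right (x y : BN B) (j : y.Ix) : y.vl j ⊓ beq x y ≤ bmem (y.nm j) x := by
  rw [beq_symm]; exact inf_beq_le_left y x j

theorem le_beq {x y : BN B} {c : B} (h₁ : ∀ i, c ⊓ x.vl i ≤ bmem (x.nm i) y)
    (h₂ : ∀ j, c ⊓ y.vl j ≤ bmem (y.nm j) x) : c ≤ beq x y := by
  rw [beq_def]
  refine le_inf (le_iInf fun i => ?_) (le_iInf fun j => ?_)
  · rw [le_himp_iff]; exact h₁ i
  · rw [le_himp_iff]; refine (h₂ j).trans ?_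
    unfold bmem
    simp_rw [beq_symm (y.nm j)]
    exact le_rfl

theorem beq_trans (x y z : BN B) : beq x y ⊓ beq y z ≤ beq x z := by
  induction x using ind generalizing y z with
  | h x ih =>
    have key : ∀ i, beq x y ⊓ beq y z ⊓ x.vl i ≤ bmem (x.nm i) z := by
      intro i
      calc _ ≤ (x.vl i ⊓ beq x y) ⊓ beq y z := by
            refine le_inf (le_inf inf_le_right (inf_le_left.trans inf_le_left))
              (inf_le_left.trans inf_le_right)
        _ ≤ bmem (x.nm i) y ⊓ beq y z := inf_le_inf_right _ (inf_beq_le_left x y i)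
        _ ≤ _ := by
          conv_lhs => unfold bmem
          rw [iSup_inf_eq]
          refine iSup_le fun j => ?_
          calc _ ≤ beq (x.nm i) (y.nm j) ⊓ (y.vl j ⊓ beq y z) := by
                refine le_inf (inf_le_left.trans inf_le_right)
                  (le_inf (inf_le_left.trans inf_le_left) inf_le_right)
            _ ≤ beq (x.nm i) (y.nm j) ⊓ bmem (y.nm j) z := inf_le_inf_left _ (inf_beq_le_left y z j)
            _ ≤ _ := by
              unfold bmem
              rw [inf_iSup_eq]
              refine iSup_le fun k => le_iSup_of_le k ?_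
              refine le_inf (inf_le_right.trans inf_le_left) ?_
              exact le_trans (le_inf inf_le_left (inf_le_right.trans inf_le_right)) (ih i _ _)
    have key2 : ∀ k, beq x y ⊓ beq y z ⊓ z.vl k ≤ bmem (z.nm k) x := by
      intro k
      calc _ ≤ (z.vl k ⊓ beq y z) ⊓ beq x y := by
            refine le_inf (le_inf inf_le_right (inf_le_left.trans inf_le_right))
              (inf_le_left.trans inf_le_left)
        _ ≤ bmem (z.nm k) y ⊓ beq x y := inf_le_inf_right _ (inf_beq_le_right y z k)
        _ ≤ _ := by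
          conv_lhs => unfold bmem
          rw [iSup_inf_eq]
          refine iSup_le fun j => ?_
          calc _ ≤ beq (z.nm k) (y.nm j) ⊓ (y.vl j ⊓ beq x y) := by
                refine le_inf (inf_le_left.trans inf_le_right)
                  (le_inf (inf_le_left.trans inf_le_left) inf_le_right)
            _ ≤ beq (z.nm k) (y.nm j) ⊓ bmem (y.nm j) x :=
                inf_le_inf_left _ (inf_beq_le_right x y j)
            _ ≤ _ := by
              unfold bmem
              rw [inf_iSup_eq]
              refine iSup_le fun i => le_iSup_of_le i ?_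
              refine le_inf (inf_le_right.trans inf_le_left) ?_
              rw [beq_symm (z.nm k) (x.nm i)]
              refine le_trans (le_inf ?_ ?_) (ih i (y.nm j) (z.nm k))
              · rw [beq_symm (x.nm i) (y.nm j)]; exact inf_le_right.trans inf_le_right
              · rw [beq_symm (y.nm j) (z.nm k)]; exact inf_le_left
    exact le_beq key key2

theorem bmem_congr_left (x y z : BN B) : beq x y ⊓ bmem x z ≤ bmem y z := by
  unfold bmem
  rw [inf_iSup_eq]
  refine iSup_le fun j => le_iSup_of_le j (le_inf (inf_le_right.trans inf_le_left) ?_)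
  rw [beq_symm x y]
  exact le_trans (le_inf inf_le_left (inf_le_right.trans inf_le_right)) (beq_trans _ _ _)

theorem bmem_congr_right (x y z : BN B) : beq y z ⊓ bmem x y ≤ bmem x z := by
  conv_lhs => unfold bmem
  rw [inf_iSup_eq]
  refine iSup_le fun j => ?_
  have h := inf_beq_le_left y z j
  calc _ ≤ beq (y.nm j) x ⊓ (y.vl j ⊓ beq y z) := by
        rw [beq_symm (y.nm j) x]
        exact le_inf (inf_le_right.trans inf_le_right)
          (le_inf (inf_le_right.trans inf_le_left) inf_le_left)
    _ ≤ beq (y.nm j) x ⊓ bmem (y.nm j) z := inf_le_inf_left _ h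
    _ ≤ _ := bmem_congr_left _ _ _

theorem vl_le_bmem (x : BN B) (i : x.Ix) : x.vl i ≤ bmem (x.nm i) x := by
  unfold bmem
  refine le_iSup_of_le i ?_
  rw [beq_refl, inf_top_eq]

end BN

end Pool.Agent.ZFM
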