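import Pool.Agent.ZFM.Lib

/-! # A criterion for not being `E`-compact -/

namespace Pool.Agent.ZFM

variable {M : Type*} [Membership M M]

theorem IsTop.mk' (h : IsZF M) {X T : M} (sub : ∀ U : M, U ∈ T → IsSub U X) (whole : X ∈ T)
    (inter : ∀ U ∈ T, ∀ V ∈ T, ∃ W ∈ T, ∀ z, z ∈ W ↔ z ∈ U ∧ z ∈ V)
    (union : ∀ S, IsSub S T → ∃ W ∈ T, ∀ z, z ∈ W ↔ ∃ U, U ∈ S ∧ z ∈ U) : IsTop X T where
  sub := sub
  whole := whole
  inter U hU V hV W hW := by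
    obtain ⟨W', hW', h1⟩ := inter U hU V hV
    have : W = W' := h.ext fun z => by rw [hW, h1]
    rw [this]; exact hW'
  union S hS W hW := by
    obtain ⟨W', hW', h1⟩ := union S hS
    have : W = W' := h.ext fun z => by rw [hW, h1]
    rw [this]; exact hW'

/-- **Criterion.** If every continuous map to `E` is constant on some member of the directed
family `D` of nonempty sets, and `D` has no limit in `X`, then `X` is not homeomorphic to a closed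
subspace of a power of `E`. -/
theorem not_closedInPower (h : IsZF M) {E TE X T 𝒟 : M} (hX : IsTop X T)
    (hD : ∀ D ∈ 𝒟, IsSub D X ∧ ∃ x, x ∈ D) (hne : ∃ D, D ∈ 𝒟)
    (hdir : ∀ D ∈ 𝒟, ∀ D' ∈ 𝒟, ∃ D'' ∈ 𝒟, IsSub D'' D ∧ IsSub D'' D')
    (hconst : ∀ f, IsContMap f X T E TE → ∃ D ∈ 𝒟, ∃ r ∈ E, ∀ x ∈ D, Rel f x r)
    (hnolim : ∀ x ∈ X, ∃ U ∈ T, x ∈ U ∧ ∀ D ∈ 𝒟, ¬ IsSub D U) (J : M) :
    ¬ ClosedInPower E TE J X T := by
  rintro ⟨P, TP, C, TC, f, ⟨hP, hTP, hev, hmin⟩, ⟨hCP, hCcl⟩, hTC, ⟨hfun, hcont⟩, hbij, hopen⟩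
  -- coordinate functions
  have hcoord : ∀ j ∈ J, ∃ D ∈ 𝒟, ∃ r ∈ E, ∀ x ∈ D, ∃ u, Rel f x u ∧ Rel u j r := by
    intro j hj
    obtain ⟨g, hg, hg2⟩ := h.exists_fun X E (R := fun x r => ∃ u, Rel f x u ∧ Rel u j r) (by
      apply_rules [Dfn.rel, Dfn.ex, Dfn.and, DT.var, DT.const, Set.mem_univ]) (by
      intro x hx
      obtain ⟨u, hu, hxu⟩ := hfun.exists_val h hx
      have huf : IsFun u J E := (hP u).1 (hCP u hu)
      obtain ⟨r, hr, hur⟩ := huf.exists_val h hj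
      refine ⟨r, ⟨hr, u, hxu, hur⟩, ?_⟩
      rintro r' ⟨-, u', hxu', hur'⟩
      obtain rfl := hfun.unique h hxu hxu'
      exact huf.unique h hur' hur)
    obtain ⟨D, hD1, r, hr, hDr⟩ := hconst g ⟨hg, by
      intro V hV U hU
      -- the open set of the power
      obtain ⟨W, hW⟩ := h.sep (P := fun u => ∃ y, y ∈ V ∧ Rel u j y) (by
        apply_rules [Dfn.rel, Dfn.ex, Dfn.and, Dfn.mem, DT.var, DT.const, Set.mem_univ]) P
      have hWT : W ∈ TP := hev j hj V hV W hW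
      obtain ⟨W', hW'⟩ := h.sep (P := fun u => u ∈ C) (by
        apply_rules [Dfn.mem, DT.var, DT.const, Set.mem_univ]) W
      have hWC : W' ∈ TC := (hTC W').2 ⟨W, hWT, hW'⟩
      apply hcont W' hWC U
      intro x
      rw [hU]
      refine and_congr_right fun hx => ?_
      constructor
      · rintro ⟨y, hy, hxy⟩
        obtain ⟨-, hyE, u, hxu, huy⟩ := (hg2 x y).1 hxy
        refine ⟨u, ?_, hxu⟩
        have huC := hfun.mem_right h hxu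
        rw [hW', hW]
        exact ⟨⟨hCP u huC, y, hy, huy⟩, huC⟩
      · rintro ⟨u, hu, hxu⟩
        rw [hW', hW] at hu
        obtain ⟨⟨huP, y, hy, huy⟩, huC⟩ := hu
        refine ⟨y, hy, (hg2 x y).2 ⟨hx, ?_, u, hxu, huy⟩⟩
        exact ((hP u).1 huP).mem_right h huy⟩
    refine ⟨D, hD1, r, hr, fun x hx => ?_⟩
    exact ((hg2 x r).1 (hDr x hx)).2.2
  -- the limit function
  have huniq : ∀ j r r', (∃ D ∈ 𝒟, ∀ x ∈ D, ∃ u, Rel f x u ∧ Rel u j r) →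
      (∃ D ∈ 𝒟, ∀ x ∈ D, ∃ u, Rel f x u ∧ Rel u j r') → r = r' := by
    rintro j r r' ⟨D, hD1, h1⟩ ⟨D', hD1', h1'⟩
    obtain ⟨D'', hD'', hs, hs'⟩ := hdir D hD1 D' hD1'
    obtain ⟨x, hx⟩ := (hD D'' hD'').2
    obtain ⟨u, hxu, hur⟩ := h1 x (hs x hx)
    obtain ⟨u', hxu', hur'⟩ := h1' x (hs' x hx)
    obtain rfl := hfun.unique h hxu hxu'
    exact ((hP u).1 (hCP u (hfun.mem_right h hxu))).unique h hur hur'
  obtain ⟨y, hy, hy2⟩ := h.exists_fun J E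
    (R := fun j r => ∃ D, D ∈ 𝒟 ∧ ∀ x, x ∈ D → ∃ u, Rel f x u ∧ Rel u j r) (by
      apply_rules [Dfn.rel, Dfn.ex, Dfn.all, Dfn.and, Dfn.imp, Dfn.mem, DT.var, DT.const,
        Set.mem_univ]) (by
      intro j hj
      obtain ⟨D, hD1, r, hr, hDr⟩ := hcoord j hj
      refine ⟨r, ⟨hr, D, hD1, hDr⟩, ?_⟩
      rintro r' ⟨hr', D', hD', hDr'⟩
      exact huniq j r' r ⟨D', hD', hDr'⟩ ⟨D, hD1, hDr⟩)
  have hyP : y ∈ P := (hP y).2 hy
  -- the topology of eventual sets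
  obtain ⟨PP, hPP⟩ := h.powerset P
  obtain ⟨T', hT'⟩ := h.sep
    (P := fun W => y ∈ W → ∃ D, D ∈ 𝒟 ∧ ∀ x, x ∈ D → ∃ u, u ∈ W ∧ Rel f x u) (by
      apply_rules [Dfn.rel, Dfn.ex, Dfn.all, Dfn.and, Dfn.imp, Dfn.mem, DT.var, DT.const,
        Set.mem_univ]) PP
  have hT'top : IsTop P T' := by
    apply IsTop.mk' h
    · intro U hU
      exact (hPP U).1 ((hT' U).1 hU).1
    · rw [hT', hPP]
      refine ⟨fun z hz => hz, fun _ => ?_⟩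
      obtain ⟨D, hD1⟩ := hne
      refine ⟨D, hD1, fun x hx => ?_⟩
      obtain ⟨u, hu, hxu⟩ := hfun.exists_val h ((hD D hD1).1 x hx)
      exact ⟨u, hCP u hu, hxu⟩
    · intro U hU V hV
      obtain ⟨W, hW⟩ := h.sep (P := fun z => z ∈ V) (by
        apply_rules [Dfn.mem, DT.var, DT.const, Set.mem_univ]) U
      refine ⟨W, ?_, hW⟩
      rw [hT', hPP] at hU hV ⊢
      refine ⟨fun z hz => hU.1 z ((hW z).1 hz).1, fun hyW => ?_⟩
      rw [hW] at hyW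
      obtain ⟨D, hD1, h1⟩ := hU.2 hyW.1
      obtain ⟨D', hD1', h1'⟩ := hV.2 hyW.2
      obtain ⟨D'', hD'', hs, hs'⟩ := hdir D hD1 D' hD1'
      refine ⟨D'', hD'', fun x hx => ?_⟩
      obtain ⟨u, hu, hxu⟩ := h1 x (hs x hx)
      obtain ⟨u', hu', hxu'⟩ := h1' x (hs' x hx)
      obtain rfl := hfun.unique h hxu hxu'
      exact ⟨u, (hW u).2 ⟨hu, hu'⟩, hxu⟩
    · intro S hS
      obtain ⟨W, hW⟩ := h.union S
      refine ⟨W, ?_, hW⟩
      rw [hT', hPP]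
      refine ⟨fun z hz => ?_, fun hyW => ?_⟩
      · obtain ⟨U, hU, hz⟩ := (hW z).1 hz
        exact (hPP U).1 ((hT' U).1 (hS U hU)).1 z hz
      · obtain ⟨U, hU, hyU⟩ := (hW y).1 hyW
        obtain ⟨D, hD1, h1⟩ := ((hT' U).1 (hS U hU)).2 hyU
        refine ⟨D, hD1, fun x hx => ?_⟩
        obtain ⟨u, hu, hxu⟩ := h1 x hx
        exact ⟨u, (hW u).2 ⟨U, hU, hu⟩, hxu⟩
  have hT'ev : EvCont TE J P T' := by
    intro j hj V hV W hW
    rw [hT', hPP]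
    refine ⟨fun z hz => ((hW z).1 hz).1, fun hyW => ?_⟩
    obtain ⟨-, r, hrV, hyr⟩ := (hW y).1 hyW
    obtain ⟨-, -, D, hD1, h1⟩ := (hy2 j r).1 hyr
    refine ⟨D, hD1, fun x hx => ?_⟩
    obtain ⟨u, hxu, hur⟩ := h1 x hx
    exact ⟨u, (hW u).2 ⟨hCP u (hfun.mem_right h hxu), r, hrV, hur⟩, hxu⟩
  have hTPT' := hmin T' hT'top hT'ev
  -- `y ∈ C`
  have hyC : y ∈ C := by
    by_contra hyC
    obtain ⟨U, hU⟩ := h.sep (P := fun z => z ∉ C) (by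
      apply_rules [Dfn.not, Dfn.mem, DT.var, DT.const, Set.mem_univ]) P
    have hUT := hTPT' U (hCcl U hU)
    obtain ⟨D, hD1, h1⟩ := ((hT' U).1 hUT).2 ((hU y).2 ⟨hyP, hyC⟩)
    obtain ⟨x, hx⟩ := (hD D hD1).2
    obtain ⟨u, hu, hxu⟩ := h1 x hx
    exact ((hU u).1 hu).2 (hfun.mem_right h hxu)
  -- the point
  obtain ⟨x0, hx0, -⟩ := hbij y hyC
  obtain ⟨U, hUT, hx0U, hno⟩ := hnolim x0 (hfun.mem_left h hx0)
  obtain ⟨V, hV⟩ := h.sep (P := fun z => ∃ x, x ∈ U ∧ Rel f x z) (by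
    apply_rules [Dfn.rel, Dfn.ex, Dfn.and, Dfn.mem, DT.var, DT.const, Set.mem_univ]) C
  have hV' : ∀ z, z ∈ V ↔ ∃ x, x ∈ U ∧ Rel f x z := by
    intro z
    rw [hV]
    constructor
    · exact fun h => h.2
    · rintro ⟨x, hx, hxz⟩
      exact ⟨hfun.mem_right h hxz, x, hx, hxz⟩
  have hVTC := hopen U hUT V hV'
  obtain ⟨W, hWT, hW⟩ := (hTC V).1 hVTC
  have hyW : y ∈ W := ((hW y).1 ((hV' y).2 ⟨x0, hx0U, hx0⟩)).1
  obtain ⟨D, hD1, h1⟩ := ((hT' W).1 (hTPT' W hWT)).2 hyW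
  apply hno D hD1
  intro x hx
  obtain ⟨u, hu, hxu⟩ := h1 x hx
  have huC := hfun.mem_right h hxu
  have huV : u ∈ V := (hW u).2 ⟨hu, huC⟩
  obtain ⟨x', hx', hxu'⟩ := (hV' u).1 huV
  obtain rfl := (hbij u huC).unique hxu hxu'
  exact hx'

end Pool.Agent.ZFM
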