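import Pool.Agent.ZFM.Sym

/-! # Operations on hereditarily symmetric names -/

namespace Pool.Agent.ZFM

universe u

open BN

variable {B : Type u} [CompleteBooleanAlgebra B] {S : SymSys B}

namespace SymSys

/-- the eventual invariance of values of a formula -/
theorem eventually_val (φ : Fm) (v : ℕ → S.HN) :
    ∀ᶠ g in S.F, ∀ z : S.HN, S.σ g (val φ (push z v)) = val φ (push (HN.ga g z) v) := by
  have h : ∀ᶠ g in S.F, ∀ i < φ.bd, beq (S.ga g (v i).1) (v i).1 = ⊤ := by
    have : ∀ i ∈ Finset.range φ.bd, ∀ᶠ g in S.F, beq (S.ga g (v i).1) (v i).1 = ⊤ :=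
      fun i _ => ((S.hs_iff _).1 (v i).2).2
    rw [← Filter.eventually_all_finset] at this
    filter_upwards [this] with g hg i hi
    exact hg i (Finset.mem_range.2 hi)
  filter_upwards [h] with g hg z
  rw [← val_ga]
  have e : ∀ i < φ.bd, (⊤ : B) ≤ beq (HN.ga g (push z v i)).1 (push (HN.ga g z) v i).1 := by
    intro i hi
    cases i with
    | zero => simp [beq_refl]
    | succ i => exact (hg i (by omega)).ge
  apply le_antisymm
  · have := val_congr φ e
    rwa [top_inf_eq] at this
  · have := val_congr φ (v := push (HN.ga g z) v) (w := fun i => HN.ga g (push z v i)) (c := ⊤)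
      (fun i hi => by rw [beq_symm]; exact e i hi)
    rwa [top_inf_eq] at this

theorem eventually_bmem (x : S.HN) :
    ∀ᶠ g in S.F, ∀ z : S.HN, S.σ g (bmem z.1 x.1) = bmem (HN.ga g z).1 x.1 :=
  (eventually_val (.mem 0 1) (fun _ => x))

theorem eventually_beq (x : S.HN) :
    ∀ᶠ g in S.F, ∀ z : S.HN, S.σ g (beq z.1 x.1) = beq (HN.ga g z).1 x.1 :=
  (eventually_val (.eq 0 1) (fun _ => x))

theorem val_push_congr (φ : Fm) (v : ℕ → S.HN) (x y : S.HN) :
    beq x.1 y.1 ⊓ val φ (push x v) ≤ val φ (push y v) := by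
  apply val_congr
  intro i _
  cases i with
  | zero => exact le_rfl
  | succ i => simp [beq_refl]

/-- unordered pair -/
def pairN (x y : S.HN) : S.HN :=
  mkHN (BN.mk (ULift Bool) (fun b => if b.down then x.1 else y.1) (fun _ => ⊤))
    (fun b => by
      change S.HS (if b.down then x.1 else y.1)
      split_ifs
      · exact x.2
      · exact y.2)
    (fun z => beq z.1 x.1 ⊔ beq z.1 y.1)
    (fun z => by
      rw [bmem_mk]
      simp only [top_inf_eq]
      apply le_antisymm
      · refine iSup_le fun b => ?_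
        rcases b with ⟨b⟩
        cases b
        · exact le_sup_right
        · exact le_sup_left
      · refine sup_le ?_ ?_
        · exact le_iSup_of_le (⟨true⟩ : ULift Bool) le_rfl
        · exact le_iSup_of_le (⟨false⟩ : ULift Bool) le_rfl)
    (by
      filter_upwards [eventually_beq x, eventually_beq y] with g h1 h2 z
      rw [OrderIso.map_sup, h1, h2])

theorem bmem_pairN (x y z : S.HN) : bmem z.1 (pairN x y).1 = beq z.1 x.1 ⊔ beq z.1 y.1 :=
  bmem_mkHN z

/-- separation -/
def sepN (φ : Fm) (v : ℕ → S.HN) (x : S.HN) : S.HN :=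
  mkHN (BN.mk x.1.Ix x.1.nm (fun i => x.1.vl i ⊓ val φ (push (HN.nm x i) v)))
    (fun i => (HN.nm x i).2)
    (fun z => bmem z.1 x.1 ⊓ val φ (push z v))
    (fun z => by
      rw [bmem_mk]
      conv_rhs => unfold bmem
      rw [iSup_inf_eq]
      refine iSup_congr fun i => ?_
      have key : beq z.1 (x.1.nm i) ⊓ val φ (push (HN.nm x i) v) =
          beq z.1 (x.1.nm i) ⊓ val φ (push z v) := by
        apply le_antisymm
        · refine le_inf inf_le_left ?_
          rw [beq_symm]
          exact val_push_congr _ _ (HN.nm x i) z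
        · refine le_inf inf_le_left ?_
          exact val_push_congr _ _ z (HN.nm x i)
      calc x.1.vl i ⊓ val φ (push (HN.nm x i) v) ⊓ beq z.1 (x.1.nm i)
          = x.1.vl i ⊓ (beq z.1 (x.1.nm i) ⊓ val φ (push (HN.nm x i) v)) := by
            rw [inf_assoc, inf_comm (val φ _)]
        _ = _ := by rw [key, inf_assoc])
    (by
      filter_upwards [eventually_val φ v, eventually_bmem x] with g h1 h2 z
      rw [OrderIso.map_inf, h1, h2])

theorem bmem_sepN (φ : Fm) (v : ℕ → S.HN) (x z : S.HN) :
    bmem z.1 (sepN φ v x).1 = bmem z.1 x.1 ⊓ val φ (push z v) := bmem_mkHN z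

/-- union -/
def unionN (x : S.HN) : S.HN :=
  mkHN (BN.mk (Σ i : x.1.Ix, (x.1.nm i).Ix) (fun p => (x.1.nm p.1).nm p.2)
      (fun p => x.1.vl p.1 ⊓ (x.1.nm p.1).vl p.2))
    (fun p => (HN.nm (HN.nm x p.1) p.2).2)
    (fun z => ⨆ y : S.HN, bmem y.1 x.1 ⊓ bmem z.1 y.1)
    (fun z => by
      rw [bmem_mk, iSup_sigma]
      apply le_antisymm
      · refine iSup_le fun i => ?_
        refine le_iSup_of_le (HN.nm x i) ?_
        refine iSup_le fun j => ?_
        simp only
        refine le_inf ((inf_le_left.trans inf_le_left).trans (vl_le_bmem _ _)) ?_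
        refine le_trans ?_ (le_iSup _ j)
        exact inf_le_inf_right _ inf_le_right
      · refine iSup_le fun y => ?_
        conv_lhs => unfold bmem
        rw [iSup_inf_eq]
        refine iSup_mono fun i => ?_
        have h1 : beq y.1 (x.1.nm i) ⊓ bmem z.1 y.1 ≤ bmem z.1 (x.1.nm i) :=
          bmem_congr_right _ _ _
        calc _ ≤ x.1.vl i ⊓ (beq y.1 (x.1.nm i) ⊓ bmem z.1 y.1) := by
              rw [inf_assoc]; exact le_rfl
          _ ≤ x.1.vl i ⊓ bmem z.1 (x.1.nm i) := inf_le_inf_left _ h1
          _ ≤ _ := by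
            unfold bmem
            rw [inf_iSup_eq]
            refine iSup_mono fun j => ?_
            simp only
            rw [inf_assoc])
    (by
      filter_upwards [eventually_bmem x] with g h1 z
      rw [OrderIso.map_iSup]
      apply le_antisymm
      · refine iSup_le fun y => ?_
        refine le_iSup_of_le (HN.ga g y) ?_
        rw [OrderIso.map_inf, h1, ← bmem_act]
        exact le_rfl
      · refine iSup_le fun y => ?_
        refine le_iSup_of_le (HN.ga g⁻¹ y) ?_
        rw [OrderIso.map_inf, h1, HN.ga_ga_inv, ← bmem_act]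
        refine inf_le_inf_left _ (le_of_eq ?_)
        congr 1
        exact (S.ga_ga_inv g y.1).symm)

theorem bmem_unionN (x z : S.HN) :
    bmem z.1 (unionN x).1 = ⨆ y : S.HN, bmem y.1 x.1 ⊓ bmem z.1 y.1 := bmem_mkHN z

/-- power set -/
def powN (x : S.HN) : S.HN :=
  mkHN (BN.mk {χ : x.1.Ix → B // S.Sym (BN.mk x.1.Ix x.1.nm (fun i => x.1.vl i ⊓ χ i))}
      (fun χ => BN.mk x.1.Ix x.1.nm (fun i => x.1.vl i ⊓ χ.1 i)) (fun _ => ⊤))
    (fun χ => ⟨fun i => (HN.nm x i).2, χ.2⟩)
    (fun z => ⨅ w : S.HN, bmem w.1 z.1 ⇨ bmem w.1 x.1)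
    (fun z => by
      rw [bmem_mk]
      simp only [top_inf_eq]
      apply le_antisymm
      · refine iSup_le fun χ => le_iInf fun w => ?_
        rw [le_himp_iff]
        refine (bmem_congr_right _ _ _).trans ?_
        rw [bmem_mk]
        unfold bmem
        exact iSup_mono fun i => inf_le_inf_right _ inf_le_left
      · have hs := (sepN (.mem 0 1) (fun _ => z) x).2
        refine le_iSup_of_le (⟨fun i => val (.mem 0 1) (push (HN.nm x i) (fun _ => z)),
          hs.2⟩ : {χ : x.1.Ix → B // S.Sym (BN.mk x.1.Ix x.1.nm (fun i => x.1.vl i ⊓ χ i))}) ?_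
        change _ ≤ beq z.1 (sepN (.mem 0 1) (fun _ => z) x).1
        apply beq_of_forall_HN (S := S) (((S.hs_iff _).1 z.2).1) (((S.hs_iff _).1 hs).1)
        · intro w
          have h1 := bmem_sepN (.mem 0 1) (fun _ => z) x w
          refine le_trans ?_ h1.ge
          refine le_inf ?_ inf_le_right
          rw [← le_himp_iff]
          exact iInf_le _ w
        · intro w
          have h1 := bmem_sepN (.mem 0 1) (fun _ => z) x w
          refine inf_le_right.trans (le_trans h1.le ?_)
          exact inf_le_right)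
    (by
      filter_upwards [eventually_val (.all (.imp (.mem 0 1) (.mem 0 2))) (fun _ => x)] with g h1 z
      exact h1 z)

theorem bmem_powN (x z : S.HN) :
    bmem z.1 (powN x).1 = ⨅ w : S.HN, bmem w.1 z.1 ⇨ bmem w.1 x.1 := bmem_mkHN z

/-- names with all values `⊤` given by an eventually invariant family -/
def famN {ι : Type u} (y : ι → S.HN)
    (h : ∀ᶠ g in S.F, (∀ i, ∃ j, beq (S.ga g (y i).1) (y j).1 = ⊤) ∧
      (∀ j, ∃ i, beq (S.ga g (y i).1) (y j).1 = ⊤)) : S.HN :=
  mkHN (BN.mk ι (fun i => (y i).1) (fun _ => ⊤)) (fun i => (y i).2)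
    (fun z => ⨆ i, beq z.1 (y i).1)
    (fun z => by
      rw [bmem_mk]
      simp only [top_inf_eq])
    (by
      filter_upwards [h] with g hg z
      rw [OrderIso.map_iSup]
      apply le_antisymm
      · refine iSup_le fun i => ?_
        obtain ⟨j, hj⟩ := hg.1 i
        refine le_iSup_of_le j ?_
        rw [← beq_act]
        refine le_trans ?_ (beq_trans _ (S.ga g (y i).1) _)
        rw [hj, inf_top_eq]
        exact le_rfl
      · refine iSup_le fun j => ?_
        obtain ⟨i, hi⟩ := hg.2 j
        refine le_iSup_of_le i ?_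
        rw [← beq_act]
        refine le_trans ?_ (beq_trans _ (y j).1 _)
        rw [beq_symm (y j).1]
        change _ ≤ _ ⊓ beq (S.ga g (y i).1) (y j).1
        rw [hi, inf_top_eq]
        exact le_rfl)

theorem bmem_famN {ι : Type u} (y : ι → S.HN)
    (h : ∀ᶠ g in S.F, (∀ i, ∃ j, beq (S.ga g (y i).1) (y j).1 = ⊤) ∧
      (∀ j, ∃ i, beq (S.ga g (y i).1) (y j).1 = ⊤)) (z : S.HN) :
    bmem z.1 (famN y h).1 = ⨆ i, beq z.1 (y i).1 := bmem_mkHN z

variable (B) in
/-- names of natural numbers -/
def natB (n : ℕ) : BN B := BN.mk (ULift (Fin n)) (fun i => natB i.down.1) (fun _ => ⊤)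
termination_by n
decreasing_by exact i.down.2

theorem natB_def (n : ℕ) :
    natB B n = BN.mk (ULift (Fin n)) (fun i => natB B i.down.1) (fun _ => ⊤) := by
  rw [natB]

theorem act_natB (f : B ≃o B) (n : ℕ) : act f (natB B n) = natB B n := by
  induction n using Nat.strong_induction_on with
  | _ n ih =>
    rw [natB_def]
    simp only [act]
    congr 1
    · funext i
      exact ih _ i.down.2
    · funext i
      exact map_top f

theorem hs_natB (n : ℕ) : S.HS (natB B n) := by
  induction n using Nat.strong_induction_on with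
  | _ n ih =>
    rw [hs_iff]
    constructor
    · rw [natB_def]
      intro i
      exact ih _ i.down.2
    · unfold Sym
      refine Filter.Eventually.of_forall fun g => ?_
      unfold ga
      rw [act_natB, beq_refl]

variable (S) in
/-- names of natural numbers -/
def natN (n : ℕ) : S.HN := ⟨natB B n, hs_natB n⟩

theorem ga_natN (g : S.G) (n : ℕ) : HN.ga g (natN S n) = natN S n := Subtype.ext (act_natB _ n)

theorem bmem_natB (z : BN B) (n : ℕ) : bmem z (natB B n) = ⨆ i : Fin n, beq z (natB B i) := by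
  rw [natB_def, bmem_mk]
  simp only [top_inf_eq]
  exact Equiv.iSup_congr Equiv.ulift (fun _ => rfl)

theorem beq_natB {m n : ℕ} (h : m ≠ n) : beq (natB B m) (natB B n) = ⊥ := by
  have key : ∀ n, ∀ m < n, beq (natB B m) (natB B n) = ⊥ := by
    intro n
    induction n using Nat.strong_induction_on with
    | _ n ih =>
      intro m hm
      rw [← le_bot_iff]
      have h1 : bmem (natB B m) (natB B n) = ⊤ := by
        rw [eq_top_iff, bmem_natB]
        refine le_iSup_of_le (⟨m, hm⟩ : Fin n) ?_
        rw [beq_refl]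
      calc beq (natB B m) (natB B n) = beq (natB B n) (natB B m) ⊓ bmem (natB B m) (natB B n) := by
            rw [h1, inf_top_eq, beq_symm]
        _ ≤ bmem (natB B m) (natB B m) := bmem_congr_right _ _ _
        _ ≤ ⊥ := by
          rw [bmem_natB]
          refine iSup_le fun i => ?_
          rw [beq_symm, ih m hm i.1 i.2]
  rcases lt_or_gt_of_ne h with h | h
  · exact key _ _ h
  · rw [beq_symm]; exact key _ _ h

variable (S) in
/-- the name of `ω` -/
def omegaN : S.HN :=
  famN (ι := ULift ℕ) (fun i => natN S i.down) (Filter.Eventually.of_forall fun g =>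
    ⟨fun i => ⟨i, by
      change beq (act _ (natB B _)) (natB B _) = ⊤
      rw [act_natB, beq_refl]⟩, fun i => ⟨i, by
      change beq (act _ (natB B _)) (natB B _) = ⊤
      rw [act_natB, beq_refl]⟩⟩)

theorem ga_omegaN (g : S.G) : HN.ga g (omegaN S) = omegaN S := by
  apply Subtype.ext
  change act (S.σ g) (BN.mk (ULift ℕ) (fun i => natB B i.down) (fun _ => ⊤)) =
    BN.mk (ULift ℕ) (fun i => natB B i.down) (fun _ => ⊤)
  simp only [act, act_natB, map_top]

/-- the index type of the collection name -/
def CollIx (φ : Fm) (v : ℕ → S.HN) (x : S.HN) : Type u :=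
  S.G × (Σ i : x.1.Ix, {b : B // ∃ w : S.HN, val φ (push w (push (HN.nm x i) v)) = b})

/-- the members of the collection name -/
noncomputable def collMem (φ : Fm) (v : ℕ → S.HN) (x : S.HN) (p : CollIx φ v x) : S.HN :=
  HN.ga p.1 p.2.2.2.choose

/-- collection -/
noncomputable def collN (φ : Fm) (v : ℕ → S.HN) (x : S.HN) : S.HN :=
  mkHN (BN.mk (CollIx φ v x) (fun p => (collMem φ v x p).1) (fun _ => ⊤))
    (fun p => (collMem φ v x p).2)
    (fun z => ⨆ p : CollIx φ v x, beq z.1 (collMem φ v x p).1)
    (fun z => by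
      rw [bmem_mk]
      simp only [top_inf_eq])
    (Filter.Eventually.of_forall fun g z => by
      rw [OrderIso.map_iSup]
      apply le_antisymm
      · refine iSup_le fun p => ?_
        refine le_iSup_of_le (g * p.1, p.2) ?_
        rw [← beq_act]
        apply le_of_eq
        congr 1
        exact (S.ga_mul g p.1 _).symm
      · refine iSup_le fun p => ?_
        refine le_iSup_of_le (g⁻¹ * p.1, p.2) ?_
        rw [← beq_act]
        apply le_of_eq
        congr 1
        have h := S.ga_mul g (g⁻¹ * p.1) p.2.2.2.choose.1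
        rw [mul_inv_cancel_left] at h
        exact h)

theorem coll_spec (φ : Fm) (v : ℕ → S.HN) (x z w : S.HN) :
    bmem z.1 x.1 ⊓ val φ (push w (push z v)) ≤
      ⨆ w' : S.HN, bmem w'.1 (collN φ v x).1 ⊓ val φ (push w' (push z v)) := by
  unfold bmem
  rw [iSup_inf_eq]
  refine iSup_le fun i => ?_
  have h1 : ∃ w' : S.HN, val φ (push w' (push (HN.nm x i) v)) =
      val φ (push w (push (HN.nm x i) v)) := ⟨w, rfl⟩
  set p : CollIx φ v x := (1, ⟨i, ⟨_, h1⟩⟩) with hp
  have hmem : bmem (collMem φ v x p).1 (collN φ v x).1 = ⊤ := by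
    rw [eq_top_iff]
    refine le_trans ?_ (bmem_mkHN (collMem φ v x p)).ge
    refine le_iSup_of_le p ?_
    rw [beq_refl]
  have hval : val φ (push (collMem φ v x p) (push (HN.nm x i) v)) =
      val φ (push w (push (HN.nm x i) v)) := by
    have h2 := h1.choose_spec
    rw [← h2]
    congr 2
    exact Subtype.ext (S.ga_one _)
  refine le_iSup_of_le (collMem φ v x p) ?_
  change _ ≤ bmem (collMem φ v x p).1 (collN φ v x).1 ⊓ _
  rw [hmem, top_inf_eq]
  have c1 : ∀ w' : S.HN, beq z.1 (x.1.nm i) ⊓ val φ (push w' (push z v)) ≤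
      val φ (push w' (push (HN.nm x i) v)) := by
    intro w'
    apply val_congr
    intro j _
    cases j with
    | zero => simp [beq_refl]
    | succ j =>
      cases j with
      | zero => exact le_rfl
      | succ j => simp [beq_refl]
  have c2 : ∀ w' : S.HN, beq z.1 (x.1.nm i) ⊓ val φ (push w' (push (HN.nm x i) v)) ≤
      val φ (push w' (push z v)) := by
    intro w'
    apply val_congr
    intro j _
    cases j with
    | zero => simp [beq_refl]
    | succ j =>
      cases j with
      | zero => simp only [push_succ, push_zero]; rw [beq_symm]; exact le_rfl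
      | succ j => simp [beq_refl]
  calc _ ≤ beq z.1 (x.1.nm i) ⊓ (beq z.1 (x.1.nm i) ⊓ val φ (push w (push z v))) :=
        le_inf (inf_le_left.trans inf_le_right)
          (le_inf (inf_le_left.trans inf_le_right) inf_le_right)
    _ ≤ beq z.1 (x.1.nm i) ⊓ val φ (push w (push (HN.nm x i) v)) := inf_le_inf_left _ (c1 w)
    _ = beq z.1 (x.1.nm i) ⊓ val φ (push (collMem φ v x p) (push (HN.nm x i) v)) := by rw [hval]
    _ ≤ _ := c2 _

end SymSys

end Pool.Agent.ZFM
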