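import Pool.Agent.ZFM.SpaceX4

/-! # The discrete real line is realcompact -/

namespace Pool.Agent.ZFM

namespace CohenModel

variable (C : CohenModel RQ)

theorem exists_Ioo (a b : C.N) (ha : a ∈ C.RN) (hb : b ∈ C.RN) :
    ∃ V ∈ C.topR, ∀ y, y ∈ V ↔ Rel C.ltR a y ∧ Rel C.ltR y b := by
  obtain ⟨V1, h1, h1'⟩ := C.exists_gt_set a ha
  obtain ⟨V2, h2, h2'⟩ := C.exists_lt_set b hb
  obtain ⟨V, hV⟩ := C.zf.sep (P := fun w => w ∈ V2) (by
    apply_rules (maxDepth := 500) [Dfn.mem, DT.var, DT.const, Set.mem_univ]) V1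
  exact ⟨V, C.isTop_topR.inter V1 h1 V2 h2 V hV, fun y => by rw [hV, h1', h2']⟩

/-- open intervals, in terms of values -/
theorem exists_interval (a b : C.K) : ∃ V ∈ C.topR, ∀ y : {x : C.N // x ∈ C.RN},
    y.1 ∈ V ↔ a < C.requiv y ∧ C.requiv y < b := by
  obtain ⟨V, hV, hV'⟩ := C.exists_Ioo (C.requiv.symm a).1 (C.requiv.symm b).1
    (C.requiv.symm a).2 (C.requiv.symm b).2
  refine ⟨V, hV, fun y => ?_⟩
  rw [hV', rel_ltR_iff, rel_ltR_iff, Equiv.apply_symm_apply, Equiv.apply_symm_apply]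

/-- `r = 1 / (x - j)`, with the convention `1 / 0 = 0` -/
def InvRel (x j r : C.N) : Prop :=
  (j = x ∧ r = C.realLine.zero) ∨ (j ≠ x ∧ ∃ d, Op C.addR d j x ∧ Op C.mulR d r C.realLine.one)

theorem op_addR_iff (x y z : {x : C.N // x ∈ C.RN}) :
    Op C.addR x.1 y.1 z.1 ↔ C.requiv x + C.requiv y = C.requiv z := by
  rw [op_addR, C.addRel_iff (C.isCode_requiv x) (C.isCode_requiv y) (C.isCode_requiv z)]
  rw [← Subtype.coe_inj]
  simp [x.2, y.2, z.2]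

theorem op_mulR_iff (x y z : {x : C.N // x ∈ C.RN}) :
    Op C.mulR x.1 y.1 z.1 ↔ C.requiv x * C.requiv y = C.requiv z := by
  rw [op_mulR, C.mulRel_iff (C.isCode_requiv x) (C.isCode_requiv y) (C.isCode_requiv z)]
  rw [← Subtype.coe_inj]
  simp [x.2, y.2, z.2]

theorem invRel_iff (x j r : {x : C.N // x ∈ C.RN}) :
    C.InvRel x.1 j.1 r.1 ↔ C.requiv r = (C.requiv x - C.requiv j)⁻¹ := by
  have hz : C.realLine.zero = (C.requiv.symm 0).1 := rfl
  have ho : C.realLine.one = (C.requiv.symm 1).1 := rfl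
  unfold InvRel
  by_cases h : j = x
  · subst h
    constructor
    · rintro (⟨-, h1⟩ | ⟨h1, -⟩)
      · have : r = C.requiv.symm 0 := Subtype.ext h1
        rw [this, Equiv.apply_symm_apply, sub_self, inv_zero]
      · exact absurd rfl h1
    · intro h1
      left
      refine ⟨rfl, ?_⟩
      rw [sub_self, inv_zero] at h1
      rw [hz, ← h1, Equiv.symm_apply_apply]
  · have h' : j.1 ≠ x.1 := fun e => h (Subtype.ext e)
    have hne : C.requiv x - C.requiv j ≠ 0 := by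
      intro e
      apply h
      exact C.requiv.injective (sub_eq_zero.1 e).symm
    constructor
    · rintro (⟨h1, -⟩ | ⟨-, d, h1, h2⟩)
      · exact absurd h1 h'
      · have hd := ((C.op_addR _ _ _).1 h1).1
        have e1 := (C.op_addR_iff ⟨d, hd⟩ j x).1 h1
        have e2 := (C.op_mulR_iff ⟨d, hd⟩ r (C.requiv.symm 1)).1 h2
        rw [Equiv.apply_symm_apply] at e2
        have e3 : C.requiv ⟨d, hd⟩ = C.requiv x - C.requiv j := by rw [← e1]; ring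
        rw [e3] at e2
        exact eq_inv_of_mul_eq_one_right e2
    · intro h1
      right
      refine ⟨h', (C.requiv.symm (C.requiv x - C.requiv j)).1, ?_, ?_⟩
      · rw [op_addR_iff, Equiv.apply_symm_apply]; ring
      · rw [ho, op_mulR_iff, Equiv.apply_symm_apply, Equiv.apply_symm_apply, h1,
          mul_inv_cancel₀ hne]

/-- numerical fact behind the isolation of points -/
theorem inv_far {K : Type*} [Field K] [LinearOrder K] [IsStrictOrderedRing K] {x y s : K}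
    (h1 : x - (|s| + 1)⁻¹ < y) (h2 : y < x + (|s| + 1)⁻¹)
    (h3 : s - 1 < (y - x)⁻¹) (h4 : (y - x)⁻¹ < s + 1) : y = x := by
  by_contra hne
  have hne' : y - x ≠ 0 := sub_ne_zero.2 hne
  have hpos : (0 : K) < |s| + 1 := by positivity
  have h5 : |y - x| < (|s| + 1)⁻¹ := by
    rw [abs_lt]; constructor <;> linarith
  have h6 : |(y - x)⁻¹| < |s| + 1 := by
    rw [abs_lt]
    have := neg_abs_le s
    have := le_abs_self s
    constructor <;> linarith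
  have h7 : |y - x| * |(y - x)⁻¹| = 1 := by
    rw [← abs_mul, mul_inv_cancel₀ hne', abs_one]
  have h8 : |y - x| * |(y - x)⁻¹| < (|s| + 1)⁻¹ * (|s| + 1) :=
    mul_lt_mul'' h5 h6 (abs_nonneg _) (abs_nonneg _)
  rw [h7, inv_mul_cancel₀ hpos.ne'] at h8
  exact lt_irrefl _ h8

theorem nat_zero_not_mem_RN : C.nat 0 ∉ C.RN := by
  intro h
  obtain ⟨r, hr⟩ := (C.mem_RN _).1 h
  obtain ⟨-, ⟨n, hn⟩, -⟩ := hr.cutPred
  obtain ⟨m, hm, -⟩ := (C.mem_nat 0 n).1 hn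
  omega

/-- the discrete real line is realcompact -/
theorem eCompact_real_disc {D : C.N} (hD : IsDiscreteTop C.RN D) :
    ECompact C.RN C.topR C.RN D := by
  classical
  have hDtop := isTop_discrete C.zf hD
  obtain ⟨J, hJ⟩ := C.zf.exists_insert (C.nat 0) C.RN
  have h0J : C.nat 0 ∈ J := (hJ _).2 (Or.inl rfl)
  have hRJ : ∀ x ∈ C.RN, x ∈ J := fun x hx => (hJ _).2 (Or.inr hx)
  set H : C.N → C.N → C.N → Prop := fun x j r =>
    (j = C.nat 0 ∧ r = x) ∨ (j ∈ C.RN ∧ C.InvRel x j r) with hH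
  have hH0 : ∀ x r, H x (C.nat 0) r ↔ r = x := by
    intro x r
    change (C.nat 0 = C.nat 0 ∧ r = x) ∨ (C.nat 0 ∈ C.RN ∧ C.InvRel x (C.nat 0) r) ↔ r = x
    constructor
    · rintro (⟨-, h⟩ | ⟨h, -⟩)
      · exact h
      · exact absurd h C.nat_zero_not_mem_RN
    · intro h; exact Or.inl ⟨rfl, h⟩
  have hH1 : ∀ (x j r : {x : C.N // x ∈ C.RN}),
      H x.1 j.1 r.1 ↔ C.requiv r = (C.requiv x - C.requiv j)⁻¹ := by
    intro x j r
    rw [← C.invRel_iff]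
    simp only [hH]
    constructor
    · rintro (⟨h, -⟩ | ⟨-, h⟩)
      · exact absurd (h ▸ j.2) C.nat_zero_not_mem_RN
      · exact h
    · intro h; exact Or.inr ⟨j.2, h⟩
  have hHval : ∀ (x j : {x : C.N // x ∈ C.RN}),
      H x.1 j.1 (C.requiv.symm ((C.requiv x - C.requiv j)⁻¹)).1 := by
    intro x j
    rw [hH1, Equiv.apply_symm_apply]
  have hHdef0 : Dfn Set.univ (fun v : ℕ → C.N => H (v 0) (v 1) (v 2)) := by
    change Dfn Set.univ (fun v : ℕ → C.N => (v 1 = C.nat 0 ∧ v 2 = v 0) ∨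
      (v 1 ∈ C.RN ∧ ((v 1 = v 0 ∧ v 2 = C.realLine.zero) ∨
        (v 1 ≠ v 0 ∧ ∃ d, Op C.addR d (v 1) (v 0) ∧ Op C.mulR d (v 2) C.realLine.one))))
    apply_rules (maxDepth := 500) [Dfn.op, Dfn.ex, Dfn.or, Dfn.and, Dfn.not, Dfn.mem, Dfn.eq,
      DT.var, DT.const, Set.mem_univ]
  have hHdef : ∀ {x y z : (ℕ → C.N) → C.N}, DT Set.univ x → DT Set.univ y → DT Set.univ z →
      Dfn Set.univ (fun v => H (x v) (y v) (z v)) := by
    intro x y z hx hy hz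
    exact Dfn.subst (t := fun i v => match i with
      | 0 => x v
      | 1 => y v
      | _ => z v) hHdef0 (fun i => by
        match i with
        | 0 => exact hx
        | 1 => exact hy
        | _+2 => exact hz)
  have hfun : ∀ x ∈ C.RN, ∀ j ∈ J, ∃! r, r ∈ C.RN ∧ H x j r := by
    intro x hx j hj
    rcases (hJ j).1 hj with rfl | hj
    · refine ⟨x, ⟨hx, (hH0 x x).2 rfl⟩, ?_⟩
      rintro r ⟨-, hr⟩
      exact (hH0 x r).1 hr
    · refine ⟨_, ⟨(C.requiv.symm _).2, hHval ⟨x, hx⟩ ⟨j, hj⟩⟩, ?_⟩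
      rintro r ⟨hrR, hr⟩
      have h1 := (hH1 ⟨x, hx⟩ ⟨j, hj⟩ ⟨r, hrR⟩).1 hr
      have h2 : (⟨r, hrR⟩ : {x : C.N // x ∈ C.RN}) = C.requiv.symm _ :=
        (Equiv.eq_symm_apply _).2 h1
      exact congrArg Subtype.val h2
  refine ⟨J, ⟨_, h0J⟩, ?_⟩
  refine closedInPower_of C.zf hDtop (H := H) hHdef0 hfun ?_ ?_ ?_ ?_
  · intro j _ V _ U hU
    exact (hD U).2 fun x hx => ((hU x).1 hx).1
  · intro T' hT' hsub U hU
    have hURN := (hD U).1 hU
    obtain ⟨S, hS⟩ := C.zf.sep (P := fun W => ∀ y, y ∈ W → y ∈ U) (by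
      apply_rules (maxDepth := 500) [Dfn.all, Dfn.imp, Dfn.mem, DT.var, DT.const, Set.mem_univ]) T'
    apply hT'.union S (fun W hW => ((hS W).1 hW).1) U
    intro x
    constructor
    · intro hxU
      have hxR := hURN x hxU
      set x' : {x : C.N // x ∈ C.RN} := ⟨x, hxR⟩ with hx'
      obtain ⟨V1, hV1, hV1'⟩ := C.exists_interval (C.requiv x' - (|0| + 1)⁻¹)
        (C.requiv x' + (|0| + 1)⁻¹)
      obtain ⟨V2, hV2, hV2'⟩ := C.exists_interval (0 - 1) (0 + 1)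
      obtain ⟨W1, hW1⟩ := C.zf.sep (P := fun y => ∃ r, r ∈ V1 ∧ r ∈ C.RN ∧ H y (C.nat 0) r) (by
        apply_rules (maxDepth := 500) [hHdef, Dfn.ex, Dfn.and, Dfn.mem,
          DT.var, DT.const, Set.mem_univ]) C.RN
      obtain ⟨W2, hW2⟩ := C.zf.sep (P := fun y => ∃ r, r ∈ V2 ∧ r ∈ C.RN ∧ H y x r) (by
        apply_rules (maxDepth := 500) [hHdef, Dfn.ex, Dfn.and, Dfn.mem,
          DT.var, DT.const, Set.mem_univ]) C.RN
      have h1 := hsub (C.nat 0) h0J V1 hV1 W1 hW1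
      have h2 := hsub x (hRJ x hxR) V2 hV2 W2 hW2
      obtain ⟨W, hW⟩ := C.zf.sep (P := fun w => w ∈ W2) (by
        apply_rules (maxDepth := 500) [Dfn.mem, DT.var, DT.const, Set.mem_univ]) W1
      refine ⟨W, (hS W).2 ⟨hT'.inter W1 h1 W2 h2 W hW, fun y hy => ?_⟩, ?_⟩
      · obtain ⟨hy1, hy2⟩ := (hW y).1 hy
        obtain ⟨hyR, r1, hr1, -, hr1'⟩ := (hW1 y).1 hy1
        obtain ⟨-, r2, hr2, hr2R, hr2'⟩ := (hW2 y).1 hy2
        rw [hH0] at hr1'
        subst hr1'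
        have e1 := (hV1' ⟨r1, hyR⟩).1 hr1
        have e2 := (hV2' ⟨r2, hr2R⟩).1 hr2
        rw [(hH1 ⟨r1, hyR⟩ x' ⟨r2, hr2R⟩).1 hr2'] at e2
        have e3 := inv_far e1.1 e1.2 e2.1 e2.2
        have e4 : r1 = x := congrArg Subtype.val (C.requiv.injective e3)
        rw [e4]; exact hxU
      · rw [hW, hW1, hW2]
        refine ⟨⟨hxR, x, (hV1' x').2 ⟨?_, ?_⟩, hxR, (hH0 x x).2 rfl⟩, hxR, _, ?_, ?_,
          hHval x' x'⟩
        · simp
        · simp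
        · rw [hV2', Equiv.apply_symm_apply, sub_self, inv_zero]
          constructor <;> simp
        · exact (C.requiv.symm _).2
    · rintro ⟨W, hW, hx⟩
      exact ((hS W).1 hW).2 x hx
  · intro x hx x' hx' hxx
    exact (hH0 x' x).1 ((hxx _ h0J x hx).1 ((hH0 x x).2 rfl))
  · intro P TP hpow u hu hcl
    obtain ⟨hP, hTP, hev, hmin⟩ := hpow
    have huf := (hP u).1 hu
    obtain ⟨x, hxR, hx⟩ := huf.exists_val C.zf h0J
    obtain ⟨s, hsR, hs⟩ := huf.exists_val C.zf (hRJ x hxR)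
    set x' : {x : C.N // x ∈ C.RN} := ⟨x, hxR⟩ with hx'
    set s' : {x : C.N // x ∈ C.RN} := ⟨s, hsR⟩ with hs'
    refine ⟨x, hxR, fun j r hjr => ?_⟩
    have hjJ := huf.mem_left C.zf hjr
    have hrR := huf.mem_right C.zf hjr
    obtain ⟨t, ⟨htR, ht⟩, -⟩ := hfun x hxR j hjJ
    by_cases hrt : r = t
    · rw [hrt]; exact ht
    exfalso
    obtain ⟨V, hV, hrV, htV⟩ := C.t1_real hrR htR hrt
    obtain ⟨V1, hV1, hV1'⟩ := C.exists_interval (C.requiv x' - (|C.requiv s'| + 1)⁻¹)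
      (C.requiv x' + (|C.requiv s'| + 1)⁻¹)
    obtain ⟨V2, hV2, hV2'⟩ := C.exists_interval (C.requiv s' - 1) (C.requiv s' + 1)
    have hsep : ∀ j' V' : C.N, ∃ W : C.N, ∀ w, w ∈ W ↔ w ∈ P ∧ ∃ y, y ∈ V' ∧ Rel w j' y := by
      intro j' V'
      exact C.zf.sep (P := fun w => ∃ y, y ∈ V' ∧ Rel w j' y) (by
        apply_rules (maxDepth := 500) [Dfn.rel, Dfn.ex, Dfn.and, Dfn.mem, DT.var, DT.const,
          Set.mem_univ]) P
    obtain ⟨W0, hW0⟩ := hsep j V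
    obtain ⟨W1, hW1⟩ := hsep (C.nat 0) V1
    obtain ⟨W2, hW2⟩ := hsep x V2
    have g0 := hev j hjJ V hV W0 hW0
    have g1 := hev _ h0J V1 hV1 W1 hW1
    have g2 := hev x (hRJ x hxR) V2 hV2 W2 hW2
    obtain ⟨W3, hW3⟩ := C.zf.sep (P := fun w => w ∈ W1) (by
      apply_rules (maxDepth := 500) [Dfn.mem, DT.var, DT.const, Set.mem_univ]) W0
    obtain ⟨W, hW⟩ := C.zf.sep (P := fun w => w ∈ W2) (by
      apply_rules (maxDepth := 500) [Dfn.mem, DT.var, DT.const, Set.mem_univ]) W3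
    have g3 := hTP.inter W3 (hTP.inter W0 g0 W1 g1 W3 hW3) W2 g2 W hW
    obtain ⟨y, hyR, w, hw, hw2⟩ := hcl W g3 (by
      rw [hW, hW3, hW0, hW1, hW2]
      refine ⟨⟨⟨hu, r, hrV, hjr⟩, hu, x, (hV1' x').2 ⟨?_, ?_⟩, hx⟩, hu, s, (hV2' s').2 ⟨?_, ?_⟩, hs⟩
      · have : (0 : C.K) < (|C.requiv s'| + 1)⁻¹ := by positivity
        linarith
      · have : (0 : C.K) < (|C.requiv s'| + 1)⁻¹ := by positivity
        linarith
      · linarith
      · linarith)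
    rw [hW, hW3, hW0, hW1, hW2] at hw
    obtain ⟨⟨⟨hwP, y0, hy0, hwy0⟩, -, y1, hy1, hwy1⟩, -, y2, hy2, hwy2⟩ := hw
    obtain ⟨-, hy0R, k0⟩ := (hw2 _ _).1 hwy0
    obtain ⟨-, hy1R, k1⟩ := (hw2 _ _).1 hwy1
    obtain ⟨-, hy2R, k2⟩ := (hw2 _ _).1 hwy2
    rw [hH0] at k1
    subst k1
    have e1 := (hV1' ⟨y1, hy1R⟩).1 hy1
    have e2 := (hV2' ⟨y2, hy2R⟩).1 hy2
    rw [(hH1 ⟨y1, hy1R⟩ x' ⟨y2, hy2R⟩).1 k2] at e2
    have e3 := inv_far e1.1 e1.2 e2.1 e2.2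
    have e4 : y1 = x := congrArg Subtype.val (C.requiv.injective e3)
    subst e4
    have := (hfun y1 hy1R j hjJ).unique ⟨hy0R, k0⟩ ⟨htR, ht⟩
    rw [this] at hy0
    exact htV hy0

end CohenModel

end Pool.Agent.ZFM
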