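import Pool.Agent.ZFM.CohenModel
import Pool.Agent.ZFM.Lib

/-! # The real line inside a structure, and its construction in the Cohen model -/

namespace Pool.Agent.ZFM

/-- enumeration of the rationals -/
noncomputable def qe : ℕ ≃ ℚ := (Denumerable.eqv ℚ).symm

/-- ground model relations used to build the reals -/
def RQ : ℕ → ℕ → ℕ → ℕ → Prop
  | 0, m, n, _ => qe m < qe n
  | 1, m, n, k => qe m + qe n = qe k
  | 2, m, n, k => qe k < qe m * qe n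
  | 3, m, k, _ => qe m + qe k < 0
  | 4, m, k, _ => qe k * qe m < 1
  | 5, k, _, _ => qe k < 0
  | 6, k, _, _ => qe k < 1
  | 7, m, k, _ => qe k < m
  | 8, m, k, _ => qe k * (m + 1) < 1
  | _, _, _, _ => False

section

variable {M : Type*} [Membership M M] {A : Set M}

theorem Dfn.op {f x y z : (ℕ → M) → M} (hf : DT A f) (hx : DT A x) (hy : DT A y) (hz : DT A z) :
    Dfn A (fun v => Op (f v) (x v) (y v) (z v)) := by
  have h : Dfn A (fun v : ℕ → M => Op (v 0) (v 1) (v 2) (v 3)) := by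
    unfold Op
    apply_rules [Dfn.rel, Dfn.isPair, Dfn.ex, Dfn.and, Dfn.mem, DT.var]
  exact Dfn.subst (t := fun i v => match i with
    | 0 => f v
    | 1 => x v
    | 2 => y v
    | _ => z v) h (fun i => by
      match i with
      | 0 => exact hf
      | 1 => exact hx
      | 2 => exact hy
      | _+3 => exact hz)

theorem op_iff (h : IsZF M) {f x y z : M} : Op f x y z ↔ Rel f (h.pr x y) z := by
  unfold Op
  simp only [h.isPair_iff, exists_eq_left]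

theorem exists_op (h : IsZF M) (X : M) {R : M → M → M → Prop}
    (hR : Dfn Set.univ (fun v => R (v 0) (v 1) (v 2))) :
    ∃ f : M, ∀ x y z, Op f x y z ↔ x ∈ X ∧ y ∈ X ∧ z ∈ X ∧ R x y z := by
  obtain ⟨P, hP⟩ := h.exists_prod X X
  have hR' : ∀ {x y z : (ℕ → M) → M}, DT Set.univ x → DT Set.univ y → DT Set.univ z →
      Dfn Set.univ (fun v => R (x v) (y v) (z v)) := by
    intro x y z hx hy hz
    exact Dfn.subst (t := fun i v => match i with
      | 0 => x v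
      | 1 => y v
      | _ => z v) hR (fun i => by
        match i with
        | 0 => exact hx
        | 1 => exact hy
        | _+2 => exact hz)
  obtain ⟨f, -, hf⟩ := h.exists_rel P X (R := fun p z => ∃ x, ∃ y, IsPair p x y ∧ R x y z) (by
    apply_rules [Dfn.isPair, Dfn.ex, Dfn.and, DT.var, DT.const, Set.mem_univ, hR'])
  refine ⟨f, fun x y z => ?_⟩
  rw [op_iff h, hf, hP]
  constructor
  · rintro ⟨⟨x', hx', y', hy', hp⟩, hz, x'', y'', hp', hR⟩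
    obtain ⟨rfl, rfl⟩ := h.pair_inj (h.isPair_pr x y) hp
    obtain ⟨rfl, rfl⟩ := h.pair_inj (h.isPair_pr x y) hp'
    exact ⟨hx', hy', hz, hR⟩
  · rintro ⟨hx, hy, hz, hR⟩
    exact ⟨⟨x, hx, y, hy, h.isPair_pr x y⟩, hz, x, y, h.isPair_pr x y, hR⟩

end

namespace CohenModel

variable (C : CohenModel RQ)

theorem op_gr (i m n k : ℕ) : Op (C.gr i) (C.nat m) (C.nat n) (C.nat k) ↔ RQ i m n k := by
  rw [op_iff C.zf, C.zf.rel_iff, C.mem_gr]
  constructor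
  · rintro ⟨m', n', k', w, hR, hw, hz⟩
    rw [C.zf.isPair_iff] at hw
    subst hw
    obtain ⟨h1, h2⟩ := C.zf.pair_inj (C.zf.isPair_pr _ _) hz
    rw [C.zf.pr_inj] at h1
    obtain rfl := C.nat_inj h1.1
    obtain rfl := C.nat_inj h1.2
    obtain rfl := C.nat_inj h2
    exact hR
  · intro hR
    exact ⟨m, n, k, _, hR, C.zf.isPair_pr _ _, C.zf.isPair_pr _ _⟩

/-- the set `S ⊆ ℕ` belongs to the model -/
def InM (S : Set ℕ) : Prop := ∃ x : C.N, ∀ z, z ∈ x ↔ ∃ n ∈ S, z = C.nat n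

theorem nat_mem_of_code {S : Set ℕ} {x : C.N} (hx : ∀ z, z ∈ x ↔ ∃ n ∈ S, z = C.nat n) (n : ℕ) :
    C.nat n ∈ x ↔ n ∈ S := by
  rw [hx]
  constructor
  · rintro ⟨m, hm, e⟩
    rw [C.nat_inj e]; exact hm
  · intro h; exact ⟨n, h, rfl⟩

theorem inM_of_dfn {P : C.N → Prop} (hP : Dfn Set.univ (fun v => P (v 0))) :
    C.InM {n | P (C.nat n)} := by
  obtain ⟨x, hx⟩ := C.zf.sep hP C.omega
  refine ⟨x, fun z => ?_⟩
  rw [hx, C.mem_omega]
  constructor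
  · rintro ⟨⟨n, rfl⟩, h⟩
    exact ⟨n, h, rfl⟩
  · rintro ⟨n, h, rfl⟩
    exact ⟨⟨n, rfl⟩, h⟩

theorem InM.congr {S S' : Set ℕ} (h : C.InM S) (e : S = S') : C.InM S' := e ▸ h

theorem exists_omega_iff {P : C.N → Prop} : (∃ u, u ∈ C.omega ∧ P u) ↔ ∃ n, P (C.nat n) := by
  constructor
  · rintro ⟨u, hu, h⟩
    obtain ⟨n, rfl⟩ := (C.mem_omega u).1 hu
    exact ⟨n, h⟩
  · rintro ⟨n, h⟩
    exact ⟨_, (C.mem_omega _).2 ⟨n, rfl⟩, h⟩

theorem exists_code_iff {S : Set ℕ} {x : C.N} (hx : ∀ z, z ∈ x ↔ ∃ n ∈ S, z = C.nat n)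
    {P : C.N → Prop} : (∃ u, u ∈ x ∧ P u) ↔ ∃ n ∈ S, P (C.nat n) := by
  constructor
  · rintro ⟨u, hu, h⟩
    obtain ⟨n, hn, rfl⟩ := (hx u).1 hu
    exact ⟨n, hn, h⟩
  · rintro ⟨n, hn, h⟩
    exact ⟨_, (hx _).2 ⟨n, hn, rfl⟩, h⟩

/-- the cut of a real number -/
def cut (r : ℝ) : Set ℕ := {n | (qe n : ℝ) < r}

theorem exists_qe_btwn {a b : ℝ} (h : a < b) : ∃ n, a < qe n ∧ (qe n : ℝ) < b := by
  obtain ⟨q, h1, h2⟩ := exists_rat_btwn h
  exact ⟨qe.symm q, by simpa using h1, by simpa using h2⟩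

theorem cut_inj {r s : ℝ} (h : cut r = cut s) : r = s := by
  by_contra hne
  rcases lt_or_gt_of_ne hne with h1 | h1
  · obtain ⟨n, h2, h3⟩ := exists_qe_btwn h1
    have : n ∈ cut r := by rw [h]; exact h3
    exact absurd this (not_lt.2 h2.le)
  · obtain ⟨n, h2, h3⟩ := exists_qe_btwn h1
    have : n ∈ cut s := by rw [← h]; exact h3
    exact absurd this (not_lt.2 h2.le)

theorem nat_mem_omega (n : ℕ) : C.nat n ∈ C.omega := (C.mem_omega _).2 ⟨n, rfl⟩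

theorem inM_two {S S' : Set ℕ} (h : C.InM S) (h' : C.InM S') (k : ℕ) :
    C.InM {n | ∃ i ∈ S, ∃ j ∈ S', RQ k i j n} := by
  obtain ⟨x, hx⟩ := h
  obtain ⟨y, hy⟩ := h'
  refine InM.congr C (C.inM_of_dfn (P := fun z => ∃ u, u ∈ x ∧ ∃ v, v ∈ y ∧ Op (C.gr k) u v z) (by
    apply_rules [Dfn.op, Dfn.ex, Dfn.and, Dfn.mem, DT.var, DT.const, Set.mem_univ])) ?_
  ext n
  change (∃ u, u ∈ x ∧ ∃ v, v ∈ y ∧ Op (C.gr k) u v (C.nat n)) ↔ _
  rw [C.exists_code_iff hx]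
  simp only [C.exists_code_iff hy, op_gr]
  rfl

theorem inM_one {S : Set ℕ} (h : C.InM S) (k : ℕ) :
    C.InM {n | ∃ i ∉ S, RQ k i n 0} := by
  obtain ⟨x, hx⟩ := h
  refine InM.congr C (C.inM_of_dfn (P := fun z => ∃ u, u ∈ C.omega ∧ (u ∉ x ∧ Op (C.gr k) u z (C.nat 0))) (by
    apply_rules [Dfn.op, Dfn.ex, Dfn.and, Dfn.not, Dfn.mem, DT.var, DT.const, Set.mem_univ])) ?_
  ext n
  change (∃ u, u ∈ C.omega ∧ (u ∉ x ∧ Op (C.gr k) u (C.nat n) (C.nat 0))) ↔ _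
  rw [C.exists_omega_iff]
  simp only [op_gr, C.nat_mem_of_code hx]
  rfl

theorem inM_zero (k : ℕ) : C.InM {n | RQ k n 0 0} := by
  refine InM.congr C (C.inM_of_dfn (P := fun z => Op (C.gr k) z (C.nat 0) (C.nat 0)) (by
    apply_rules [Dfn.op, DT.var, DT.const, Set.mem_univ])) ?_
  ext n
  exact C.op_gr k n 0 0

theorem mem_cut {r : ℝ} {n : ℕ} : n ∈ cut r ↔ (qe n : ℝ) < r := Iff.rfl

theorem cut_add (r s : ℝ) : cut (r + s) = {n | ∃ i ∈ cut r, ∃ j ∈ cut s, RQ 1 i j n} := by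
  ext n
  simp only [mem_cut, Set.mem_ofPred_eq, RQ]
  constructor
  · intro h
    obtain ⟨i, h1, h2⟩ := exists_qe_btwn (show (qe n : ℝ) - s < r by linarith)
    refine ⟨i, h2, qe.symm (qe n - qe i), ?_, ?_⟩
    · rw [Equiv.apply_symm_apply]; push_cast; linarith
    · rw [Equiv.apply_symm_apply]; ring
  · rintro ⟨i, hi, j, hj, e⟩
    rw [← e]; push_cast; linarith

theorem cut_neg (r : ℝ) : cut (-r) = {n | ∃ i ∉ cut r, RQ 3 i n 0} := by
  ext n
  simp only [mem_cut, Set.mem_ofPred_eq, RQ, not_lt]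
  constructor
  · intro h
    obtain ⟨i, h1, h2⟩ := exists_qe_btwn (show r < -(qe n : ℝ) by linarith)
    refine ⟨i, h1.le, ?_⟩
    have : (qe i : ℝ) + qe n < 0 := by linarith
    exact_mod_cast this
  · rintro ⟨i, hi, h⟩
    have : (qe i : ℝ) + qe n < 0 := by exact_mod_cast h
    linarith

theorem cut_inv {r : ℝ} (hr : 0 < r) : cut r⁻¹ = {n | ∃ i ∉ cut r, RQ 4 i n 0} := by
  ext n
  simp only [mem_cut, Set.mem_ofPred_eq, RQ, not_lt]
  constructor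
  · intro h
    rcases le_or_gt (qe n : ℝ) 0 with h0 | h0
    · obtain ⟨i, h1, h2⟩ := exists_qe_btwn (show r < r + 1 by linarith)
      refine ⟨i, h1.le, ?_⟩
      have : (qe n : ℝ) * qe i < 1 := by nlinarith
      exact_mod_cast this
    · have h1 : r < (qe n : ℝ)⁻¹ := by
        rw [lt_inv_comm₀ hr h0]; exact h
      obtain ⟨i, h2, h3⟩ := exists_qe_btwn h1
      refine ⟨i, h2.le, ?_⟩
      have : (qe n : ℝ) * qe i < 1 := by
        calc (qe n : ℝ) * qe i < qe n * (qe n : ℝ)⁻¹ := by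
              exact mul_lt_mul_of_pos_left h3 h0
          _ = 1 := mul_inv_cancel₀ h0.ne'
      exact_mod_cast this
  · rintro ⟨i, hi, h⟩
    have h1 : (qe n : ℝ) * qe i < 1 := by exact_mod_cast h
    have hi0 : (0:ℝ) < qe i := lt_of_lt_of_le hr hi
    have h2 : (qe n : ℝ) < (qe i : ℝ)⁻¹ := by
      by_contra hcon
      have h3 := mul_le_mul_of_nonneg_right (not_lt.1 hcon) hi0.le
      rw [inv_mul_cancel₀ hi0.ne'] at h3
      linarith
    exact lt_of_lt_of_le h2 (inv_anti₀ hr hi)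

theorem cut_mul (r s : ℝ) : ∀ n, n ∈ cut (r * s) ↔ ∃ i ∈ cut r, ∃ i' ∉ cut r, ∃ j ∈ cut s,
    ∃ j' ∉ cut s, RQ 2 i j n ∧ RQ 2 i j' n ∧ RQ 2 i' j n ∧ RQ 2 i' j' n := by
  intro n
  simp only [mem_cut, RQ, not_lt]
  constructor
  · intro h
    have h1 : IsOpen {p : ℝ × ℝ | (qe n : ℝ) < p.1 * p.2} :=
      isOpen_lt continuous_const (continuous_fst.mul continuous_snd)
    obtain ⟨ε, hε, hb⟩ := Metric.isOpen_iff.1 h1 (r, s) h
    have hb' : ∀ x y : ℝ, |x - r| < ε → |y - s| < ε → (qe n : ℝ) < x * y := by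
      intro x y hx hy
      have : (x, y) ∈ Metric.ball (r, s) ε := by
        rw [Metric.mem_ball, Prod.dist_eq, Real.dist_eq, Real.dist_eq]
        exact max_lt hx hy
      exact hb this
    obtain ⟨i, hi1, hi2⟩ := exists_qe_btwn (show r - ε < r by linarith)
    obtain ⟨i', hi1', hi2'⟩ := exists_qe_btwn (show r < r + ε by linarith)
    obtain ⟨j, hj1, hj2⟩ := exists_qe_btwn (show s - ε < s by linarith)
    obtain ⟨j', hj1', hj2'⟩ := exists_qe_btwn (show s < s + ε by linarith)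
    have e1 : |(qe i : ℝ) - r| < ε := by rw [abs_lt]; constructor <;> linarith
    have e2 : |(qe i' : ℝ) - r| < ε := by rw [abs_lt]; constructor <;> linarith
    have e3 : |(qe j : ℝ) - s| < ε := by rw [abs_lt]; constructor <;> linarith
    have e4 : |(qe j' : ℝ) - s| < ε := by rw [abs_lt]; constructor <;> linarith
    exact ⟨i, hi2, i', hi1'.le, j, hj2, j', hj1'.le, by exact_mod_cast hb' _ _ e1 e3,
      by exact_mod_cast hb' _ _ e1 e4, by exact_mod_cast hb' _ _ e2 e3,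
      by exact_mod_cast hb' _ _ e2 e4⟩
  · rintro ⟨i, hi, i', hi', j, hj, j', hj', h1, h2, h3, h4⟩
    have g1 : (qe n : ℝ) < qe i * qe j := by exact_mod_cast h1
    have g2 : (qe n : ℝ) < qe i * qe j' := by exact_mod_cast h2
    have g3 : (qe n : ℝ) < qe i' * qe j := by exact_mod_cast h3
    have g4 : (qe n : ℝ) < qe i' * qe j' := by exact_mod_cast h4
    rcases le_or_gt 0 s with hs | hs
    · have k1 : (qe i : ℝ) * s ≤ r * s := mul_le_mul_of_nonneg_right hi.le hs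
      rcases le_or_gt 0 (qe i : ℝ) with hi0 | hi0
      · have k2 : (qe i : ℝ) * qe j ≤ qe i * s := mul_le_mul_of_nonneg_left hj.le hi0
        linarith
      · have k2 : (qe i : ℝ) * qe j' ≤ qe i * s := mul_le_mul_of_nonpos_left hj' hi0.le
        linarith
    · have k1 : (qe i' : ℝ) * s ≤ r * s := mul_le_mul_of_nonpos_right hi' hs.le
      rcases le_or_gt 0 (qe i' : ℝ) with hi0 | hi0
      · have k2 : (qe i' : ℝ) * qe j ≤ qe i' * s := mul_le_mul_of_nonneg_left hj.le hi0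
        linarith
      · have k2 : (qe i' : ℝ) * qe j' ≤ qe i' * s := mul_le_mul_of_nonpos_left hj' hi0.le
        linarith

/-- the ternary relation of multiplication on codes -/
def MulRel (x y z : C.N) : Prop :=
  ∀ n, n ∈ C.omega → (n ∈ z ↔ ∃ i, i ∈ x ∧ ∃ i', i' ∈ C.omega ∧ (i' ∉ x ∧ ∃ j, j ∈ y ∧
    ∃ j', j' ∈ C.omega ∧ (j' ∉ y ∧ (Op (C.gr 2) i j n ∧ Op (C.gr 2) i j' n ∧ Op (C.gr 2) i' j n ∧
      Op (C.gr 2) i' j' n))))

/-- the ternary relation of addition on codes -/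
def AddRel (x y z : C.N) : Prop :=
  ∀ n, n ∈ C.omega → (n ∈ z ↔ ∃ i, i ∈ x ∧ ∃ j, j ∈ y ∧ Op (C.gr 1) i j n)

/-- `x` codes the real number `r` -/
def IsCode (x : C.N) (r : ℝ) : Prop := ∀ z, z ∈ x ↔ ∃ n ∈ cut r, z = C.nat n

theorem IsCode.inj {C : CohenModel RQ} {x : C.N} {r s : ℝ} (h : C.IsCode x r)
    (h' : C.IsCode x s) : r = s := by
  apply cut_inj
  ext n
  rw [← C.nat_mem_of_code h, ← C.nat_mem_of_code h']

theorem IsCode.inj' {C : CohenModel RQ} {x y : C.N} {r : ℝ} (h : C.IsCode x r)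
    (h' : C.IsCode y r) : x = y := by
  apply C.zf.ext
  intro z
  rw [h z, h' z]

theorem IsCode.nat_mem {C : CohenModel RQ} {x : C.N} {r : ℝ} (h : C.IsCode x r) (n : ℕ) :
    C.nat n ∈ x ↔ (qe n : ℝ) < r := C.nat_mem_of_code h n

theorem addRel_iff {x y z : C.N} {r s t : ℝ} (hx : C.IsCode x r) (hy : C.IsCode y s)
    (hz : C.IsCode z t) : C.AddRel x y z ↔ r + s = t := by
  unfold AddRel
  constructor
  · intro h
    apply cut_inj
    ext n
    rw [cut_add, ← C.nat_mem_of_code hz, h _ (C.nat_mem_omega n)]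
    rw [C.exists_code_iff hx]
    simp only [C.exists_code_iff hy, op_gr]
    rfl
  · rintro rfl n hn
    obtain ⟨n, rfl⟩ := (C.mem_omega n).1 hn
    rw [C.nat_mem_of_code hz, cut_add]
    rw [C.exists_code_iff hx]
    simp only [C.exists_code_iff hy, op_gr]
    rfl

theorem mulRel_iff {x y z : C.N} {r s t : ℝ} (hx : C.IsCode x r) (hy : C.IsCode y s)
    (hz : C.IsCode z t) : C.MulRel x y z ↔ r * s = t := by
  have key : ∀ n, (∃ i, i ∈ x ∧ ∃ i', i' ∈ C.omega ∧ (i' ∉ x ∧ ∃ j, j ∈ y ∧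
    ∃ j', j' ∈ C.omega ∧ (j' ∉ y ∧ (Op (C.gr 2) i j (C.nat n) ∧ Op (C.gr 2) i j' (C.nat n) ∧
      Op (C.gr 2) i' j (C.nat n) ∧ Op (C.gr 2) i' j' (C.nat n))))) ↔ n ∈ cut (r * s) := by
    intro n
    rw [C.exists_code_iff hx]
    simp only [C.exists_code_iff hy, C.exists_omega_iff, op_gr, C.nat_mem_of_code hx,
      C.nat_mem_of_code hy]
    rw [cut_mul]
  unfold MulRel
  constructor
  · intro h
    apply cut_inj
    ext n
    rw [← key, ← C.nat_mem_of_code hz, h _ (C.nat_mem_omega n)]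
  · rintro rfl n hn
    obtain ⟨n, rfl⟩ := (C.mem_omega n).1 hn
    rw [C.nat_mem_of_code hz, key]

theorem inM_mul {r s : ℝ} (h : C.InM (cut r)) (h' : C.InM (cut s)) :
    C.InM (cut (r * s)) := by
  obtain ⟨x, hx⟩ := h
  obtain ⟨y, hy⟩ := h'
  refine InM.congr C (C.inM_of_dfn (P := fun n => (∃ i, i ∈ x ∧ ∃ i', i' ∈ C.omega ∧ (i' ∉ x ∧
    ∃ j, j ∈ y ∧ ∃ j', j' ∈ C.omega ∧ (j' ∉ y ∧ (Op (C.gr 2) i j n ∧ Op (C.gr 2) i j' n ∧
      Op (C.gr 2) i' j n ∧ Op (C.gr 2) i' j' n))))) (by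
    apply_rules (maxDepth := 500) [Dfn.op, Dfn.ex, Dfn.and, Dfn.not, Dfn.mem, DT.var, DT.const, Set.mem_univ])) ?_
  ext n
  change (∃ i, i ∈ x ∧ ∃ i', i' ∈ C.omega ∧ (i' ∉ x ∧ ∃ j, j ∈ y ∧
    ∃ j', j' ∈ C.omega ∧ (j' ∉ y ∧ (Op (C.gr 2) i j (C.nat n) ∧ Op (C.gr 2) i j' (C.nat n) ∧
      Op (C.gr 2) i' j (C.nat n) ∧ Op (C.gr 2) i' j' (C.nat n))))) ↔ n ∈ cut (r * s)
  rw [C.exists_code_iff hx]
  simp only [C.exists_code_iff hy, C.exists_omega_iff, op_gr, C.nat_mem_of_code hx,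
    C.nat_mem_of_code hy]
  rw [cut_mul]

theorem inM_addc {r s : ℝ} (h : C.InM (cut r)) (h' : C.InM (cut s)) :
    C.InM (cut (r + s)) := by
  rw [cut_add]; exact C.inM_two h h' 1

theorem inM_neg {r : ℝ} (h : C.InM (cut r)) : C.InM (cut (-r)) := by
  rw [cut_neg]; exact C.inM_one h 3

theorem inM_c0 : C.InM (cut 0) := by
  refine InM.congr C (C.inM_zero 5) ?_
  ext n
  simp only [mem_cut, Set.mem_ofPred_eq, RQ]
  exact_mod_cast Iff.rfl

theorem inM_c1 : C.InM (cut 1) := by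
  refine InM.congr C (C.inM_zero 6) ?_
  ext n
  simp only [mem_cut, Set.mem_ofPred_eq, RQ]
  exact_mod_cast Iff.rfl

theorem inM_inv {r : ℝ} (h : C.InM (cut r)) : C.InM (cut r⁻¹) := by
  rcases lt_trichotomy r 0 with h0 | h0 | h0
  · have h1 := C.inM_neg h
    have h2 : C.InM (cut (-r)⁻¹) := by
      rw [cut_inv (by linarith)]; exact C.inM_one h1 4
    have h3 := C.inM_neg h2
    rwa [inv_neg, neg_neg] at h3
  · subst h0
    rw [inv_zero]; exact h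
  · rw [cut_inv h0]; exact C.inM_one h 4

/-- the real numbers that belong to the model -/
def K : Subfield ℝ where
  carrier := {r | C.InM (cut r)}
  mul_mem' h h' := C.inM_mul h h'
  one_mem' := C.inM_c1
  add_mem' h h' := C.inM_addc h h'
  zero_mem' := C.inM_c0
  neg_mem' h := C.inM_neg h
  inv_mem' _ h := C.inM_inv h

theorem IsCode.mem_K {C : CohenModel RQ} {x : C.N} {r : ℝ} (h : C.IsCode x r) : r ∈ C.K :=
  ⟨x, h⟩

/-- definable description of cuts -/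
def CutPred (x : C.N) : Prop :=
  IsSub x C.omega ∧ (∃ n, n ∈ x) ∧ (∃ n, n ∈ C.omega ∧ n ∉ x) ∧
    (∀ m, m ∈ x → ∃ n, n ∈ x ∧ Op (C.gr 0) m n (C.nat 0)) ∧
    ∀ m, m ∈ x → ∀ n, n ∈ C.omega → Op (C.gr 0) n m (C.nat 0) → n ∈ x

theorem IsCode.cutPred {C : CohenModel RQ} {x : C.N} {r : ℝ} (h : C.IsCode x r) :
    C.CutPred x := by
  refine ⟨?_, ?_, ?_, ?_, ?_⟩
  · intro z hz
    obtain ⟨n, -, rfl⟩ := (h z).1 hz
    exact C.nat_mem_omega n
  · obtain ⟨n, -, h1⟩ := exists_qe_btwn (show r - 1 < r by linarith)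
    exact ⟨C.nat n, (h.nat_mem n).2 h1⟩
  · obtain ⟨n, h1, -⟩ := exists_qe_btwn (show r < r + 1 by linarith)
    exact ⟨C.nat n, C.nat_mem_omega n, fun h2 => absurd ((h.nat_mem n).1 h2) (not_lt.2 h1.le)⟩
  · intro m hm
    obtain ⟨m, hm', rfl⟩ := (h _).1 hm
    obtain ⟨n, h1, h2⟩ := exists_qe_btwn (mem_cut.1 hm')
    refine ⟨C.nat n, (h.nat_mem n).2 h2, ?_⟩
    rw [op_gr]
    exact_mod_cast h1
  · intro m hm n hn hmn
    obtain ⟨m, hm', rfl⟩ := (h _).1 hm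
    obtain ⟨n, rfl⟩ := (C.mem_omega _).1 hn
    rw [op_gr] at hmn
    have h1 : (qe n : ℝ) < qe m := by exact_mod_cast hmn
    exact (h.nat_mem n).2 (h1.trans (mem_cut.1 hm'))

theorem CutPred.exists_code {C : CohenModel RQ} {x : C.N} (h : C.CutPred x) :
    ∃ r, C.IsCode x r := by
  obtain ⟨h1, ⟨n0, h2⟩, ⟨b, hb, h3⟩, h4, h5⟩ := h
  obtain ⟨n0, rfl⟩ := (C.mem_omega _).1 (h1 _ h2)
  obtain ⟨b, rfl⟩ := (C.mem_omega _).1 hb
  have hbd : BddAbove {t : ℝ | ∃ n, C.nat n ∈ x ∧ (qe n : ℝ) = t} := by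
    refine ⟨qe b, ?_⟩
    rintro _ ⟨n, hn, rfl⟩
    by_contra hcon
    apply h3
    refine h5 _ hn _ (C.nat_mem_omega b) ?_
    rw [op_gr]
    exact_mod_cast not_le.1 hcon
  refine ⟨sSup {t : ℝ | ∃ n, C.nat n ∈ x ∧ (qe n : ℝ) = t}, fun z => ?_⟩
  constructor
  · intro hz
    obtain ⟨n, rfl⟩ := (C.mem_omega _).1 (h1 _ hz)
    refine ⟨n, ?_, rfl⟩
    obtain ⟨m, hm, hnm⟩ := h4 _ hz
    obtain ⟨m, rfl⟩ := (C.mem_omega _).1 (h1 _ hm)
    rw [op_gr] at hnm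
    have h6 : (qe n : ℝ) < qe m := by exact_mod_cast hnm
    exact lt_of_lt_of_le h6 (le_csSup hbd ⟨m, hm, rfl⟩)
  · rintro ⟨n, hn, rfl⟩
    have hne : {t : ℝ | ∃ n, C.nat n ∈ x ∧ (qe n : ℝ) = t}.Nonempty := ⟨qe n0, n0, h2, rfl⟩
    obtain ⟨_, ⟨m, hm, rfl⟩, hlt⟩ := exists_lt_of_lt_csSup hne (mem_cut.1 hn)
    refine h5 _ hm _ (C.nat_mem_omega n) ?_
    rw [op_gr]
    exact_mod_cast hlt

theorem exists_RN : ∃ RN : C.N, ∀ x, x ∈ RN ↔ ∃ r, C.IsCode x r := by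
  obtain ⟨P, hP⟩ := C.zf.powerset C.omega
  obtain ⟨R, hR⟩ := C.zf.sep (P := fun x => (∃ n, n ∈ x) ∧ (∃ n, n ∈ C.omega ∧ n ∉ x) ∧
    (∀ m, m ∈ x → ∃ n, n ∈ x ∧ Op (C.gr 0) m n (C.nat 0)) ∧
    ∀ m, m ∈ x → ∀ n, n ∈ C.omega → Op (C.gr 0) n m (C.nat 0) → n ∈ x) (by
      apply_rules (maxDepth := 500) [Dfn.op, Dfn.ex, Dfn.all, Dfn.and, Dfn.imp, Dfn.fls, Dfn.mem,
        DT.var, DT.const, Set.mem_univ]) P
  refine ⟨R, fun x => ?_⟩
  rw [hR, hP]
  constructor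
  · intro h
    exact CutPred.exists_code h
  · rintro ⟨r, h⟩
    exact h.cutPred

/-- the set of reals of the model -/
noncomputable def RN : C.N := C.exists_RN.choose

theorem mem_RN (x : C.N) : x ∈ C.RN ↔ ∃ r, C.IsCode x r := C.exists_RN.choose_spec x

/-- the value of a code -/
noncomputable def rval (x : {x : C.N // x ∈ C.RN}) : C.K :=
  ⟨((C.mem_RN x.1).1 x.2).choose, ((C.mem_RN x.1).1 x.2).choose_spec.mem_K⟩

theorem isCode_rval (x : {x : C.N // x ∈ C.RN}) : C.IsCode x.1 (C.rval x) :=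
  ((C.mem_RN x.1).1 x.2).choose_spec

theorem rval_bij : Function.Bijective C.rval := by
  constructor
  · intro x y h
    apply Subtype.ext
    have h1 := C.isCode_rval x
    rw [h] at h1
    exact h1.inj' (C.isCode_rval y)
  · rintro ⟨r, x, hx⟩
    refine ⟨⟨x, (C.mem_RN x).2 ⟨r, hx⟩⟩, ?_⟩
    apply Subtype.ext
    exact (C.isCode_rval ⟨x, (C.mem_RN x).2 ⟨r, hx⟩⟩).inj hx

/-- reals of the model as a subfield of the reals -/
noncomputable def requiv : {x : C.N // x ∈ C.RN} ≃ C.K := Equiv.ofBijective C.rval C.rval_bij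

theorem isCode_requiv (x : {x : C.N // x ∈ C.RN}) : C.IsCode x.1 (C.requiv x) :=
  C.isCode_rval x

theorem isCode_iff (x : {x : C.N // x ∈ C.RN}) (r : ℝ) : C.IsCode x.1 r ↔ (C.requiv x : ℝ) = r := by
  constructor
  · intro h
    exact (C.isCode_requiv x).inj h
  · rintro rfl
    exact C.isCode_requiv x

theorem lt_iff_sub {x y : C.N} {r s : ℝ} (hx : C.IsCode x r) (hy : C.IsCode y s) :
    r < s ↔ IsSub x y ∧ x ≠ y := by
  constructor
  · intro h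
    constructor
    · intro z hz
      obtain ⟨n, hn, rfl⟩ := (hx z).1 hz
      exact (hy _).2 ⟨n, lt_trans hn h, rfl⟩
    · rintro rfl
      exact h.ne (hx.inj hy)
  · rintro ⟨h1, h2⟩
    by_contra hcon
    rcases (not_lt.1 hcon).lt_or_eq with h3 | h3
    · obtain ⟨n, h4, h5⟩ := exists_qe_btwn h3
      have := h1 _ ((hx _).2 ⟨n, h5, rfl⟩)
      exact absurd ((hy.nat_mem n).1 this) (not_lt.2 h4.le)
    · rw [h3] at hy
      exact h2 (hx.inj' hy)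

theorem exists_ltR : ∃ r : C.N, ∀ x y, Rel r x y ↔ x ∈ C.RN ∧ y ∈ C.RN ∧ IsSub x y ∧ x ≠ y := by
  obtain ⟨r, -, hr⟩ := C.zf.exists_rel C.RN C.RN (R := fun x y => IsSub x y ∧ x ≠ y) (by
    apply_rules (maxDepth := 500) [Dfn.isSub, Dfn.and, Dfn.not, Dfn.eq, DT.var])
  exact ⟨r, hr⟩

noncomputable def ltR : C.N := C.exists_ltR.choose

theorem rel_ltR (x y : C.N) : Rel C.ltR x y ↔ x ∈ C.RN ∧ y ∈ C.RN ∧ IsSub x y ∧ x ≠ y :=
  C.exists_ltR.choose_spec x y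

theorem exists_addR : ∃ r : C.N, ∀ x y z, Op r x y z ↔ x ∈ C.RN ∧ y ∈ C.RN ∧ z ∈ C.RN ∧
    C.AddRel x y z := by
  refine exists_op C.zf C.RN ?_
  unfold AddRel
  apply_rules (maxDepth := 500) [Dfn.op, Dfn.ex, Dfn.all, Dfn.iff, Dfn.and, Dfn.imp, Dfn.fls,
    Dfn.mem, DT.var, DT.const, Set.mem_univ]

noncomputable def addR : C.N := C.exists_addR.choose

theorem op_addR (x y z : C.N) : Op C.addR x y z ↔ x ∈ C.RN ∧ y ∈ C.RN ∧ z ∈ C.RN ∧
    C.AddRel x y z := C.exists_addR.choose_spec x y z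

theorem exists_mulR : ∃ r : C.N, ∀ x y z, Op r x y z ↔ x ∈ C.RN ∧ y ∈ C.RN ∧ z ∈ C.RN ∧
    C.MulRel x y z := by
  refine exists_op C.zf C.RN ?_
  unfold MulRel
  apply_rules (maxDepth := 500) [Dfn.op, Dfn.ex, Dfn.all, Dfn.iff, Dfn.and, Dfn.imp, Dfn.fls,
    Dfn.mem, DT.var, DT.const, Set.mem_univ]

noncomputable def mulR : C.N := C.exists_mulR.choose

theorem op_mulR (x y z : C.N) : Op C.mulR x y z ↔ x ∈ C.RN ∧ y ∈ C.RN ∧ z ∈ C.RN ∧
    C.MulRel x y z := C.exists_mulR.choose_spec x y z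

theorem exists_topR : ∃ T : C.N, ∀ U, U ∈ T ↔ IsSub U C.RN ∧ ∀ x, x ∈ U → ∃ a b, Rel C.ltR a x ∧
    Rel C.ltR x b ∧ ∀ y, Rel C.ltR a y → Rel C.ltR y b → y ∈ U := by
  obtain ⟨P, hP⟩ := C.zf.powerset C.RN
  obtain ⟨T, hT⟩ := C.zf.sep (P := fun U => ∀ x, x ∈ U → ∃ a b, Rel C.ltR a x ∧
    Rel C.ltR x b ∧ ∀ y, Rel C.ltR a y → Rel C.ltR y b → y ∈ U) (by
      apply_rules (maxDepth := 500) [Dfn.rel, Dfn.ex, Dfn.all, Dfn.iff, Dfn.and, Dfn.imp, Dfn.fls,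
        Dfn.mem, DT.var, DT.const, Set.mem_univ]) P
  refine ⟨T, fun U => ?_⟩
  rw [hT, hP]
  rfl

noncomputable def topR : C.N := C.exists_topR.choose

theorem mem_topR (U : C.N) : U ∈ C.topR ↔ IsSub U C.RN ∧ ∀ x, x ∈ U → ∃ a b, Rel C.ltR a x ∧
    Rel C.ltR x b ∧ ∀ y, Rel C.ltR a y → Rel C.ltR y b → y ∈ U := C.exists_topR.choose_spec U

theorem rel_ltR_iff (x y : {x : C.N // x ∈ C.RN}) :
    Rel C.ltR x.1 y.1 ↔ C.requiv x < C.requiv y := by
  rw [rel_ltR]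
  have h1 := C.lt_iff_sub (C.isCode_requiv x) (C.isCode_requiv y)
  constructor
  · intro h
    exact h1.2 h.2.2
  · intro h
    exact ⟨x.2, y.2, h1.1 h⟩

theorem exists_sup (S : C.N) (hS : IsSub S C.RN)
    (hne : {x : {x : C.N // x ∈ C.RN} | x.1 ∈ S}.Nonempty)
    (b : ℝ) (hb : ∀ x : {x : C.N // x ∈ C.RN}, x.1 ∈ S → (C.requiv x : ℝ) ≤ b) :
    ∃ s : {x : C.N // x ∈ C.RN}, (∀ x : {x : C.N // x ∈ C.RN}, x.1 ∈ S → C.requiv x ≤ C.requiv s) ∧
      ∀ t : {x : C.N // x ∈ C.RN}, (∀ x : {x : C.N // x ∈ C.RN}, x.1 ∈ S → C.requiv x ≤ C.requiv t) →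
        C.requiv s ≤ C.requiv t := by
  obtain ⟨u, hu⟩ := C.zf.union S
  have hbd : BddAbove {t : ℝ | ∃ x : {x : C.N // x ∈ C.RN}, x.1 ∈ S ∧ (C.requiv x : ℝ) = t} := by
    refine ⟨b, ?_⟩
    rintro _ ⟨x, hx, rfl⟩
    exact hb x hx
  obtain ⟨x0, hx0⟩ := hne
  have hne' : {t : ℝ | ∃ x : {x : C.N // x ∈ C.RN}, x.1 ∈ S ∧ (C.requiv x : ℝ) = t}.Nonempty :=
    ⟨_, x0, hx0, rfl⟩
  have hcode : C.IsCode u (sSup {t : ℝ | ∃ x : {x : C.N // x ∈ C.RN}, x.1 ∈ S ∧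
      (C.requiv x : ℝ) = t}) := by
    intro z
    rw [hu]
    constructor
    · rintro ⟨x, hxS, hz⟩
      obtain ⟨n, hn, rfl⟩ := (C.isCode_requiv ⟨x, hS x hxS⟩ z).1 hz
      refine ⟨n, lt_of_lt_of_le (mem_cut.1 hn) (le_csSup hbd ⟨⟨x, hS x hxS⟩, hxS, rfl⟩), rfl⟩
    · rintro ⟨n, hn, rfl⟩
      obtain ⟨_, ⟨x, hx, rfl⟩, hlt⟩ := exists_lt_of_lt_csSup hne' (mem_cut.1 hn)
      exact ⟨x.1, hx, ((C.isCode_requiv x).nat_mem n).2 hlt⟩
  have huR : u ∈ C.RN := (C.mem_RN u).2 ⟨_, hcode⟩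
  have hval : (C.requiv ⟨u, huR⟩ : ℝ) = _ := (C.isCode_iff ⟨u, huR⟩ _).1 hcode
  refine ⟨⟨u, huR⟩, fun x hx => ?_, fun t ht => ?_⟩
  · rw [← Subtype.coe_le_coe, hval]
    exact le_csSup hbd ⟨x, hx, rfl⟩
  · rw [← Subtype.coe_le_coe, hval]
    apply csSup_le hne'
    rintro _ ⟨x, hx, rfl⟩
    exact ht x hx

/-- the real line of the model -/
noncomputable def realLine : RealLine C.N :=
  letI : Field {x : C.N // x ∈ C.RN} := C.requiv.field
  letI : LinearOrder {x : C.N // x ∈ C.RN} := LinearOrder.lift' C.requiv C.requiv.injective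
  { R := C.RN
    zero := (C.requiv.symm 0).1
    one := (C.requiv.symm 1).1
    add := C.addR
    mul := C.mulR
    lt := C.ltR
    T := C.topR
    field := C.requiv.field
    order := LinearOrder.lift' C.requiv C.requiv.injective
    ordered := by
      refine Function.Injective.isStrictOrderedRing C.requiv ?_ ?_ ?_ ?_ ?_ ?_
      · exact C.requiv.apply_symm_apply _
      · exact C.requiv.apply_symm_apply _
      · intro x y; exact C.requiv.apply_symm_apply _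
      · intro x y; exact C.requiv.apply_symm_apply _
      · exact Iff.rfl
      · exact Iff.rfl
    zero_eq := rfl
    one_eq := rfl
    add_eq := by
      intro x y z
      rw [op_addR, C.addRel_iff (C.isCode_requiv x) (C.isCode_requiv y) (C.isCode_requiv z)]
      have e : x + y = z ↔ C.requiv x + C.requiv y = C.requiv z := C.requiv.symm_apply_eq
      rw [e, ← Subtype.coe_inj]
      simp [x.2, y.2, z.2]
    mul_eq := by
      intro x y z
      rw [op_mulR, C.mulRel_iff (C.isCode_requiv x) (C.isCode_requiv y) (C.isCode_requiv z)]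
      have e : x * y = z ↔ C.requiv x * C.requiv y = C.requiv z := C.requiv.symm_apply_eq
      rw [e, ← Subtype.coe_inj]
      simp [x.2, y.2, z.2]
    lt_eq := by
      intro x y
      rw [rel_ltR_iff]
      exact Iff.rfl
    complete := by
      intro S hS hne hbd
      obtain ⟨b, hb⟩ := hbd
      obtain ⟨s, hs1, hs2⟩ := C.exists_sup S hS hne (C.requiv b) (fun x hx => hb hx)
      exact ⟨s, fun x hx => hs1 x hx, fun t ht => hs2 t (fun x hx => ht hx)⟩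
    top_eq := by
      intro U
      rw [mem_topR]
      refine and_congr_right fun hU => ?_
      constructor
      · intro h x hx
        obtain ⟨a, b, ha, hb, hab⟩ := h x.1 hx
        have ha' := ((C.rel_ltR _ _).1 ha).1
        have hb' := ((C.rel_ltR _ _).1 hb).2.1
        refine ⟨⟨a, ha'⟩, ⟨b, hb'⟩, (C.rel_ltR_iff ⟨a, ha'⟩ x).1 ha, (C.rel_ltR_iff x ⟨b, hb'⟩).1 hb,
          fun y h1 h2 => hab _ ?_ ?_⟩
        · exact (C.rel_ltR_iff ⟨a, ha'⟩ y).2 h1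
        · exact (C.rel_ltR_iff y ⟨b, hb'⟩).2 h2
      · intro h x hx
        obtain ⟨a, b, ha, hb, hab⟩ := h ⟨x, hU x hx⟩ hx
        refine ⟨a.1, b.1, (C.rel_ltR_iff a ⟨x, hU x hx⟩).2 ha, (C.rel_ltR_iff ⟨x, hU x hx⟩ b).2 hb, ?_⟩
        intro y h1 h2
        have hy := ((C.rel_ltR _ _).1 h1).2.1
        exact hab ⟨y, hy⟩ ((C.rel_ltR_iff a ⟨y, hy⟩).1 h1) ((C.rel_ltR_iff ⟨y, hy⟩ b).1 h2) }

@[simp] theorem realLine_R : C.realLine.R = C.RN := rfl
@[simp] theorem realLine_T : C.realLine.T = C.topR := rfl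

end CohenModel

end Pool.Agent.ZFM
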