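import Mathlib

/-! # The complete Boolean algebra of regular elements -/

namespace Pool.Agent.ZFM

open TopologicalSpace

noncomputable section

/-- regular elements form a complete Boolean algebra -/
def regCBA (α : Type*) [Order.Frame α] : CompleteBooleanAlgebra (Heyting.Regular α) :=
  { (inferInstance : BooleanAlgebra (Heyting.Regular α)) with
    sSup := fun s => Heyting.Regular.toRegular (sSup (Subtype.val '' s))
    sInf := fun s => Heyting.Regular.toRegular (sInf (Subtype.val '' s))
    isLUB_sSup := fun s => by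
      constructor
      · intro b hb
        change b.1 ≤ (sSup (Subtype.val '' s))ᶜᶜ
        exact (le_sSup (Set.mem_image_of_mem _ hb)).trans le_compl_compl
      · intro c hc
        change (sSup (Subtype.val '' s))ᶜᶜ ≤ c.1
        rw [← c.2.eq]
        refine compl_le_compl (compl_le_compl (sSup_le ?_))
        rintro _ ⟨b, hb, rfl⟩
        exact hc hb
    isGLB_sInf := fun s => by
      constructor
      · intro b hb
        change (sInf (Subtype.val '' s))ᶜᶜ ≤ b.1
        rw [← b.2.eq]
        exact compl_le_compl (compl_le_compl (sInf_le (Set.mem_image_of_mem _ hb)))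
      · intro c hc
        change c.1 ≤ (sInf (Subtype.val '' s))ᶜᶜ
        refine le_trans (le_sInf ?_) le_compl_compl
        rintro _ ⟨b, hb, rfl⟩
        exact hc hb }

/-- index set of generic subsets of `ω` -/
abbrev P2 : Type := ℕ × ℕ

/-- the Cantor space of generic filters -/
abbrev Om : Type := P2 → ℕ → Bool

/-- the Cohen algebra -/
def CB : Type := Heyting.Regular (Opens Om)

instance : CompleteBooleanAlgebra CB := regCBA (Opens Om)

/-- the order automorphism of regular elements induced by an order automorphism -/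
def regMap (f : Opens Om ≃o Opens Om) : CB ≃o CB where
  toFun a := ⟨f a.1, by
    have := a.2
    unfold Heyting.IsRegular at *
    rw [← map_compl, ← map_compl, this]⟩
  invFun a := ⟨f.symm a.1, by
    have := a.2
    unfold Heyting.IsRegular at *
    rw [← map_compl, ← map_compl, this]⟩
  left_inv a := by
    apply Heyting.Regular.coe_injective
    exact f.symm_apply_apply _
  right_inv a := by
    apply Heyting.Regular.coe_injective
    exact f.apply_symm_apply _
  map_rel_iff' {a b} := by
    change f a.1 ≤ f b.1 ↔ a.1 ≤ b.1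
    exact f.le_iff_le

/-- clopen sets are elements of `CB` -/
def ofClopen (s : Set Om) (hs : IsClopen s) : CB :=
  ⟨⟨s, hs.isOpen⟩, by
    have hc : (⟨s, hs.isOpen⟩ : Opens Om)ᶜ = ⟨sᶜ, hs.compl.isOpen⟩ := by
      apply le_antisymm
      · intro x hx hxs
        have := (disjoint_compl_right (a := (⟨s, hs.isOpen⟩ : Opens Om))).le_bot
        exact this ⟨hxs, hx⟩
      · rw [le_compl_iff_disjoint_right, disjoint_iff]
        ext x
        simp
    have hc2 : (⟨sᶜ, hs.compl.isOpen⟩ : Opens Om)ᶜ = ⟨s, hs.isOpen⟩ := by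
      apply le_antisymm
      · intro x hx
        by_contra hxs
        have := (disjoint_compl_right (a := (⟨sᶜ, hs.compl.isOpen⟩ : Opens Om))).le_bot
        exact this ⟨hxs, hx⟩
      · rw [le_compl_iff_disjoint_right, disjoint_iff]
        ext x
        simp
    unfold Heyting.IsRegular
    rw [hc, hc2]⟩

/-- membership of points in elements of `CB` -/
def pts (b : CB) : Set Om := (b.1 : Set Om)

theorem pts_open (b : CB) : IsOpen (pts b) := b.1.2

theorem pts_inf (b c : CB) : pts (b ⊓ c) = pts b ∩ pts c := rfl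

theorem pts_mono {b c : CB} : b ≤ c ↔ pts b ⊆ pts c := Iff.rfl

theorem pts_bot : pts ⊥ = ∅ := rfl

theorem ne_bot_iff' {b : CB} : b ≠ ⊥ ↔ (pts b).Nonempty := by
  rw [Set.nonempty_iff_ne_empty, not_iff_not]
  constructor
  · rintro rfl; rfl
  · intro h
    rw [← le_bot_iff]
    intro w hw
    change w ∈ pts b at hw
    rw [h] at hw
    exact hw.elim

theorem pts_ofClopen (s : Set Om) (hs : IsClopen s) : pts (ofClopen s hs) = s := rfl

theorem pts_regMap (f : Opens Om ≃o Opens Om) (b : CB) : pts (regMap f b) = f b.1 := rfl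

/-- every nonempty element contains a cylinder -/
theorem exists_cylinder {b : CB} (hb : b ≠ ⊥) :
    ∃ (w : Om) (K : Finset P2) (L : Finset ℕ), ∀ w' : Om, (∀ p ∈ K, ∀ k ∈ L, w' p k = w p k) → w' ∈ pts b := by
  obtain ⟨w, hw⟩ := ne_bot_iff'.1 hb
  have h1 := (isOpen_pi_iff.1 (pts_open b)) w hw
  obtain ⟨K, u, hu, hsub⟩ := h1
  have h2 : ∀ p ∈ K, ∃ L : Finset ℕ, ∀ f : ℕ → Bool, (∀ k ∈ L, f k = w p k) → f ∈ u p := by
    intro p hp
    obtain ⟨L, v, hv, hsub'⟩ := (isOpen_pi_iff.1 (hu p hp).1) (w p) (hu p hp).2
    refine ⟨L, fun f hf => hsub' ?_⟩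
    intro k hk
    rw [hf k hk]
    exact (hv k hk).2
  choose! L hL using h2
  classical
  refine ⟨w, K, K.biUnion L, fun w' hw' => hsub ?_⟩
  intro p hp
  apply hL p hp
  intro k hk
  exact hw' p hp k (Finset.mem_biUnion.2 ⟨p, hp, hk⟩)

end

end Pool.Agent.ZFM
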