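import Pool.Agent.ZFM.NonCompact

/-! # Power spaces and closed embeddings in models of ZF -/

namespace Pool.Agent.ZFM

variable {M : Type*} [Membership M M] {A : Set M}

theorem Dfn.isTop {x y : (ℕ → M) → M} (hx : DT A x) (hy : DT A y) :
    Dfn A (fun v => IsTop (x v) (y v)) := by
  have h : Dfn A (fun v : ℕ → M => IsTop (v 0) (v 1)) := by
    have h1 : Dfn A (fun v : ℕ → M => (∀ U : M, U ∈ v 1 → IsSub U (v 0)) ∧ (v 0 ∈ v 1) ∧
      (∀ U : M, U ∈ v 1 → ∀ V : M, V ∈ v 1 → ∀ W : M, (∀ z : M, z ∈ W ↔ z ∈ U ∧ z ∈ V) → W ∈ v 1) ∧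
      (∀ S : M, IsSub S (v 1) → ∀ W : M, (∀ z : M, z ∈ W ↔ ∃ U : M, U ∈ S ∧ z ∈ U) → W ∈ v 1)) := by
      apply_rules (maxDepth := 500) [Dfn.isSub, Dfn.ex, Dfn.all, Dfn.and, Dfn.iff, Dfn.imp,
        Dfn.mem, DT.var]
    refine h1.congr fun v => ?_
    constructor
    · rintro ⟨h1, h2, h3, h4⟩
      exact ⟨h1, h2, h3, h4⟩
    · rintro ⟨h1, h2, h3, h4⟩
      exact ⟨h1, h2, h3, h4⟩
  exact Dfn.subst (t := fun i v => match i with
    | 0 => x v
    | _ => y v) h (fun i => by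
      match i with
      | 0 => exact hx
      | _+1 => exact hy)

theorem Dfn.evCont {TE J P T : (ℕ → M) → M} (h1 : DT A TE) (h2 : DT A J) (h3 : DT A P)
    (h4 : DT A T) : Dfn A (fun v => EvCont (TE v) (J v) (P v) (T v)) := by
  have h : Dfn A (fun v : ℕ → M => EvCont (v 0) (v 1) (v 2) (v 3)) := by
    unfold EvCont
    apply_rules (maxDepth := 500) [Dfn.rel, Dfn.ex, Dfn.all, Dfn.and, Dfn.iff, Dfn.imp,
        Dfn.mem, DT.var]
  exact Dfn.subst (t := fun i v => match i with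
    | 0 => TE v
    | 1 => J v
    | 2 => P v
    | _ => T v) h (fun i => by
      match i with
      | 0 => exact h1
      | 1 => exact h2
      | 2 => exact h3
      | _+3 => exact h4)

/-- existence of power spaces -/
theorem exists_power (h : IsZF M) (E TE J : M) : ∃ P TP, IsPowerSpace E TE J P TP := by
  obtain ⟨JE, hJE⟩ := h.exists_prod J E
  obtain ⟨PJE, hPJE⟩ := h.powerset JE
  obtain ⟨P, hP⟩ := h.sep (P := fun u => IsFun u J E) (by
    apply_rules [Dfn.isFun, DT.var, DT.const, Set.mem_univ]) PJE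
  have hP' : ∀ u, u ∈ P ↔ IsFun u J E := by
    intro u
    rw [hP, hPJE]
    constructor
    · exact fun h => h.2
    · intro hu
      refine ⟨fun z hz => ?_, hu⟩
      rw [hJE]
      obtain ⟨x, hx, y, hy, hp⟩ := hu.1 z hz
      exact ⟨x, hx, y, hy, hp⟩
  obtain ⟨PP, hPP⟩ := h.powerset P
  obtain ⟨TP, hTP⟩ := h.sep (P := fun U => ∀ T', IsTop P T' → EvCont TE J P T' → U ∈ T') (by
    apply_rules (maxDepth := 500) [Dfn.isTop, Dfn.evCont, Dfn.all, Dfn.imp, Dfn.mem, DT.var,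
      DT.const, Set.mem_univ]) PP
  refine ⟨P, TP, hP', ?_, ?_, ?_⟩
  · apply IsTop.mk' h
    · intro U hU
      exact (hPP U).1 ((hTP U).1 hU).1
    · rw [hTP, hPP]
      exact ⟨fun z hz => hz, fun T' hT' _ => hT'.whole⟩
    · intro U hU V hV
      obtain ⟨W, hW⟩ := h.sep (P := fun z => z ∈ V) (by
        apply_rules [Dfn.mem, DT.var, DT.const, Set.mem_univ]) U
      refine ⟨W, ?_, hW⟩
      rw [hTP, hPP] at hU hV ⊢
      exact ⟨fun z hz => hU.1 z ((hW z).1 hz).1, fun T' h1 h2 =>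
        h1.inter U (hU.2 T' h1 h2) V (hV.2 T' h1 h2) W hW⟩
    · intro S hS
      obtain ⟨W, hW⟩ := h.union S
      refine ⟨W, ?_, hW⟩
      rw [hTP, hPP]
      refine ⟨fun z hz => ?_, fun T' h1 h2 => ?_⟩
      · obtain ⟨U, hU, hz⟩ := (hW z).1 hz
        exact (hPP U).1 ((hTP U).1 (hS U hU)).1 z hz
      · exact h1.union S (fun U hU => ((hTP U).1 (hS U hU)).2 T' h1 h2) W hW
  · intro j hj V hV W hW
    rw [hTP, hPP]
    exact ⟨fun z hz => ((hW z).1 hz).1, fun T' h1 h2 => h2 j hj V hV W hW⟩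
  · intro T' h1 h2 U hU
    exact ((hTP U).1 hU).2 T' h1 h2

/-- **Criterion for embedding in a power of `E`.** -/
theorem embed_of (h : IsZF M) {E TE X T J : M} (hX : IsTop X T)
    {H : M → M → M → Prop} (hH : Dfn Set.univ (fun v => H (v 0) (v 1) (v 2)))
    (hfun : ∀ x ∈ X, ∀ j ∈ J, ∃! r, r ∈ E ∧ H x j r)
    (hcont : ∀ j ∈ J, ∀ V ∈ TE, ∀ U, (∀ x, x ∈ U ↔ x ∈ X ∧ ∃ r, r ∈ V ∧ r ∈ E ∧ H x j r) → U ∈ T)
    (hinit : ∀ T', IsTop X T' → (∀ j ∈ J, ∀ V ∈ TE, ∀ U,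
      (∀ x, x ∈ U ↔ x ∈ X ∧ ∃ r, r ∈ V ∧ r ∈ E ∧ H x j r) → U ∈ T') → IsSub T T')
    (hinj : ∀ x ∈ X, ∀ x' ∈ X, (∀ j ∈ J, ∀ r ∈ E, H x j r ↔ H x' j r) → x = x')
    {P TP : M} (hpow : IsPowerSpace E TE J P TP) :
    ∃ e C TC, IsSub C P ∧ IsSubspaceTop TP C TC ∧ IsHomeo e X T C TC ∧
      (∀ u, u ∈ C ↔ ∃ x, Rel e x u) ∧
      (∀ x u, Rel e x u ↔ x ∈ X ∧ u ∈ P ∧ ∀ j r, Rel u j r ↔ j ∈ J ∧ r ∈ E ∧ H x j r) := by
  have hH' : ∀ {x y z : (ℕ → M) → M}, DT Set.univ x → DT Set.univ y → DT Set.univ z →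
      Dfn Set.univ (fun v => H (x v) (y v) (z v)) := by
    intro x y z hx hy hz
    exact Dfn.subst (t := fun i v => match i with
      | 0 => x v
      | 1 => y v
      | _ => z v) hH (fun i => by
        match i with
        | 0 => exact hx
        | 1 => exact hy
        | _+2 => exact hz)
  obtain ⟨hP, hTP, hev, hmin⟩ := hpow
  -- the evaluation map
  obtain ⟨e, he, he2⟩ := h.exists_fun X P
    (R := fun x u => ∀ j r, Rel u j r ↔ j ∈ J ∧ r ∈ E ∧ H x j r) (by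
      apply_rules (maxDepth := 500) [Dfn.rel, hH', Dfn.all, Dfn.and, Dfn.iff, Dfn.mem, DT.var,
        DT.const, Set.mem_univ]) (by
      intro x hx
      obtain ⟨u, hu, hu2⟩ := h.exists_fun J E (R := fun j r => H x j r) (by
        apply_rules [hH', DT.var, DT.const, Set.mem_univ]) (hfun x hx)
      refine ⟨u, ⟨(hP u).2 hu, hu2⟩, ?_⟩
      rintro u' ⟨hu', hu2'⟩
      refine IsFun.ext h ((hP u').1 hu') hu fun j r => ?_
      rw [hu2, hu2'])
  -- the image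
  obtain ⟨C, hC⟩ := h.sep (P := fun u => ∃ x, x ∈ X ∧ Rel e x u) (by
    apply_rules (maxDepth := 500) [Dfn.rel, Dfn.ex, Dfn.and, Dfn.mem, DT.var, DT.const,
      Set.mem_univ]) P
  have hC' : ∀ u, u ∈ C ↔ ∃ x, Rel e x u := by
    intro u
    rw [hC]
    constructor
    · rintro ⟨_, x, _, hx⟩
      exact ⟨x, hx⟩
    · rintro ⟨x, hx⟩
      exact ⟨he.mem_right h hx, x, he.mem_left h hx, hx⟩
  have hCP : IsSub C P := fun u hu => ((hC u).1 hu).1
  obtain ⟨PC, hPC⟩ := h.powerset C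
  obtain ⟨TC, hTC⟩ := h.sep (P := fun V => ∃ U, U ∈ TP ∧ ∀ z, z ∈ V ↔ z ∈ U ∧ z ∈ C) (by
    apply_rules (maxDepth := 500) [Dfn.rel, Dfn.ex, Dfn.all, Dfn.iff, Dfn.and, Dfn.mem, DT.var,
      DT.const, Set.mem_univ]) PC
  have hTC' : IsSubspaceTop TP C TC := by
    intro V
    rw [hTC, hPC]
    constructor
    · exact fun h => h.2
    · rintro ⟨U, hU, hV⟩
      exact ⟨fun z hz => ((hV z).1 hz).2, U, hU, hV⟩
  have heval : ∀ x u, Rel e x u → ∀ j r, Rel u j r ↔ j ∈ J ∧ r ∈ E ∧ H x j r := by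
    intro x u hxu
    exact ((he2 x u).1 hxu).2.2
  have hinje : ∀ x x' u, Rel e x u → Rel e x' u → x = x' := by
    intro x x' u hxu hxu'
    apply hinj x (he.mem_left h hxu) x' (he.mem_left h hxu')
    intro j hj r hr
    have h1 := heval x u hxu j r
    have h2 := heval x' u hxu' j r
    constructor
    · intro h3
      exact (h2.1 (h1.2 ⟨hj, hr, h3⟩)).2.2
    · intro h3
      exact (h1.1 (h2.2 ⟨hj, hr, h3⟩)).2.2
  have heC : IsFun e X C := by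
    refine ⟨fun p hp => ?_, he.2⟩
    obtain ⟨x, hx, u, hu, hp'⟩ := he.1 p hp
    exact ⟨x, hx, u, (hC' u).2 ⟨x, p, hp', hp⟩, hp'⟩
  refine ⟨e, C, TC, hCP, hTC', ⟨⟨heC, ?_⟩, ?_, ?_⟩, hC', fun x u => he2 x u⟩
  · -- continuity
    obtain ⟨PP, hPP⟩ := h.powerset P
    obtain ⟨T', hT'⟩ := h.sep (P := fun W => ∀ U, (∀ x, x ∈ U ↔ x ∈ X ∧ ∃ u, u ∈ W ∧ Rel e x u) →
        U ∈ T) (by
      apply_rules (maxDepth := 500) [Dfn.rel, Dfn.ex, Dfn.all, Dfn.iff, Dfn.imp, Dfn.and, Dfn.mem,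
        DT.var, DT.const, Set.mem_univ]) PP
    have hpre : ∀ W : M, ∃ U : M, ∀ x, x ∈ U ↔ x ∈ X ∧ ∃ u, u ∈ W ∧ Rel e x u := by
      intro W
      obtain ⟨U, hU⟩ := h.sep (P := fun x => ∃ u, u ∈ W ∧ Rel e x u) (by
        apply_rules (maxDepth := 500) [Dfn.rel, Dfn.ex, Dfn.and, Dfn.mem,
          DT.var, DT.const, Set.mem_univ]) X
      exact ⟨U, hU⟩
    have hT'top : IsTop P T' := by
      apply IsTop.mk' h
      · intro U hU
        exact (hPP U).1 ((hT' U).1 hU).1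
      · rw [hT', hPP]
        refine ⟨fun z hz => hz, fun U hU => ?_⟩
        have : U = X := by
          apply h.ext
          intro x
          rw [hU]
          constructor
          · exact fun h => h.1
          · intro hx
            obtain ⟨u, hu, hxu⟩ := he.exists_val h hx
            exact ⟨hx, u, hu, hxu⟩
        rw [this]; exact hX.whole
      · intro W1 hW1 W2 hW2
        obtain ⟨W, hW⟩ := h.sep (P := fun z => z ∈ W2) (by
          apply_rules [Dfn.mem, DT.var, DT.const, Set.mem_univ]) W1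
        refine ⟨W, ?_, hW⟩
        rw [hT', hPP] at hW1 hW2 ⊢
        refine ⟨fun z hz => hW1.1 z ((hW z).1 hz).1, fun U hU => ?_⟩
        obtain ⟨U1, hU1⟩ := hpre W1
        obtain ⟨U2, hU2⟩ := hpre W2
        apply hX.inter U1 (hW1.2 U1 hU1) U2 (hW2.2 U2 hU2)
        intro x
        rw [hU, hU1, hU2]
        constructor
        · rintro ⟨hx, u, hu, hxu⟩
          rw [hW] at hu
          exact ⟨⟨hx, u, hu.1, hxu⟩, hx, u, hu.2, hxu⟩
        · rintro ⟨⟨hx, u, hu, hxu⟩, -, u', hu', hxu'⟩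
          obtain rfl := he.unique h hxu hxu'
          exact ⟨hx, u, (hW u).2 ⟨hu, hu'⟩, hxu⟩
      · intro S hS
        obtain ⟨W, hW⟩ := h.union S
        refine ⟨W, ?_, hW⟩
        rw [hT', hPP]
        refine ⟨fun z hz => ?_, fun U hU => ?_⟩
        · obtain ⟨U, hU, hz⟩ := (hW z).1 hz
          exact (hPP U).1 ((hT' U).1 (hS U hU)).1 z hz
        · obtain ⟨S', hS'⟩ := h.sep (P := fun V => ∃ W', W' ∈ S ∧
            ∀ x, x ∈ V ↔ x ∈ X ∧ ∃ u, u ∈ W' ∧ Rel e x u) (by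
              apply_rules (maxDepth := 500) [Dfn.rel, Dfn.ex, Dfn.all, Dfn.iff, Dfn.imp, Dfn.and,
                Dfn.mem, DT.var, DT.const, Set.mem_univ]) T
          apply hX.union S' (fun V hV => ((hS' V).1 hV).1)
          intro x
          rw [hU]
          constructor
          · rintro ⟨hx, u, hu, hxu⟩
            obtain ⟨W', hW', huW'⟩ := (hW u).1 hu
            obtain ⟨V, hV⟩ := hpre W'
            exact ⟨V, (hS' V).2 ⟨((hT' W').1 (hS W' hW')).2 V hV, W', hW', hV⟩,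
              (hV x).2 ⟨hx, u, huW', hxu⟩⟩
          · rintro ⟨V, hV, hxV⟩
            obtain ⟨-, W', hW', hV'⟩ := (hS' V).1 hV
            obtain ⟨hx, u, hu, hxu⟩ := (hV' x).1 hxV
            exact ⟨hx, u, (hW u).2 ⟨W', hW', hu⟩, hxu⟩
    have hT'ev : EvCont TE J P T' := by
      intro j hj V hV W hW
      rw [hT', hPP]
      refine ⟨fun z hz => ((hW z).1 hz).1, fun U hU => ?_⟩
      apply hcont j hj V hV U
      intro x
      rw [hU]
      refine and_congr_right fun hx => ?_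
      constructor
      · rintro ⟨u, hu, hxu⟩
        obtain ⟨-, r, hrV, hur⟩ := (hW u).1 hu
        obtain ⟨-, hrE, hH3⟩ := (heval x u hxu j r).1 hur
        exact ⟨r, hrV, hrE, hH3⟩
      · rintro ⟨r, hrV, hrE, hH3⟩
        obtain ⟨u, hu, hxu⟩ := he.exists_val h hx
        exact ⟨u, (hW u).2 ⟨hu, r, hrV, (heval x u hxu j r).2 ⟨hj, hrE, hH3⟩⟩, hxu⟩
    have hsub := hmin T' hT'top hT'ev
    intro V hV U hU
    obtain ⟨W, hW, hVW⟩ := (hTC' V).1 hV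
    apply ((hT' W).1 (hsub W hW)).2 U
    intro x
    rw [hU]
    refine and_congr_right fun hx => ?_
    constructor
    · rintro ⟨u, hu, hxu⟩
      exact ⟨u, ((hVW u).1 hu).1, hxu⟩
    · rintro ⟨u, hu, hxu⟩
      exact ⟨u, (hVW u).2 ⟨hu, (hC' u).2 ⟨x, hxu⟩⟩, hxu⟩
  · -- bijectivity
    intro u hu
    obtain ⟨x, hx⟩ := (hC' u).1 hu
    exact ⟨x, hx, fun x' hx' => hinje x' x u hx' hx⟩
  · -- openness
    obtain ⟨PX, hPX⟩ := h.powerset X
    obtain ⟨T', hT'⟩ := h.sep (P := fun U => ∀ V, (∀ u, u ∈ V ↔ ∃ x, x ∈ U ∧ Rel e x u) →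
        V ∈ TC) (by
      apply_rules (maxDepth := 500) [Dfn.rel, Dfn.ex, Dfn.all, Dfn.iff, Dfn.imp, Dfn.and, Dfn.mem,
        DT.var, DT.const, Set.mem_univ]) PX
    have himg : ∀ U : M, ∃ V : M, ∀ u, u ∈ V ↔ ∃ x, x ∈ U ∧ Rel e x u := by
      intro U
      obtain ⟨V, hV⟩ := h.sep (P := fun u => ∃ x, x ∈ U ∧ Rel e x u) (by
        apply_rules (maxDepth := 500) [Dfn.rel, Dfn.ex, Dfn.and, Dfn.mem,
          DT.var, DT.const, Set.mem_univ]) C
      refine ⟨V, fun u => ?_⟩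
      rw [hV]
      constructor
      · exact fun h => h.2
      · rintro ⟨x, hx, hxu⟩
        exact ⟨(hC' u).2 ⟨x, hxu⟩, x, hx, hxu⟩
    have hTCinter : ∀ V1 ∈ TC, ∀ V2 ∈ TC, ∀ V, (∀ z, z ∈ V ↔ z ∈ V1 ∧ z ∈ V2) → V ∈ TC := by
      intro V1 hV1 V2 hV2 V hV
      obtain ⟨U1, hU1, h1⟩ := (hTC' V1).1 hV1
      obtain ⟨U2, hU2, h2⟩ := (hTC' V2).1 hV2
      obtain ⟨W, hW⟩ := h.sep (P := fun z => z ∈ U2) (by
          apply_rules [Dfn.mem, DT.var, DT.const, Set.mem_univ]) U1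
      refine (hTC' V).2 ⟨W, hTP.inter U1 hU1 U2 hU2 W hW, fun z => ?_⟩
      rw [hV, h1, h2, hW]
      tauto
    have hT'top : IsTop X T' := by
      apply IsTop.mk' h
      · intro U hU
        exact (hPX U).1 ((hT' U).1 hU).1
      · rw [hT', hPX]
        refine ⟨fun z hz => hz, fun V hV => ?_⟩
        refine (hTC' V).2 ⟨P, hTP.whole, fun u => ?_⟩
        rw [hV]
        constructor
        · rintro ⟨x, hx, hxu⟩
          exact ⟨he.mem_right h hxu, (hC' u).2 ⟨x, hxu⟩⟩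
        · rintro ⟨-, hu⟩
          obtain ⟨x, hxu⟩ := (hC' u).1 hu
          exact ⟨x, he.mem_left h hxu, hxu⟩
      · intro U1 hU1 U2 hU2
        obtain ⟨U, hU⟩ := h.sep (P := fun z => z ∈ U2) (by
          apply_rules [Dfn.mem, DT.var, DT.const, Set.mem_univ]) U1
        refine ⟨U, ?_, hU⟩
        rw [hT', hPX] at hU1 hU2 ⊢
        refine ⟨fun z hz => hU1.1 z ((hU z).1 hz).1, fun V hV => ?_⟩
        obtain ⟨V1, hV1⟩ := himg U1
        obtain ⟨V2, hV2⟩ := himg U2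
        apply hTCinter V1 (hU1.2 V1 hV1) V2 (hU2.2 V2 hV2)
        intro u
        rw [hV, hV1, hV2]
        constructor
        · rintro ⟨x, hx, hxu⟩
          rw [hU] at hx
          exact ⟨⟨x, hx.1, hxu⟩, x, hx.2, hxu⟩
        · rintro ⟨⟨x, hx, hxu⟩, x', hx', hxu'⟩
          obtain rfl := hinje x x' u hxu hxu'
          exact ⟨x, (hU x).2 ⟨hx, hx'⟩, hxu⟩
      · intro S hS
        obtain ⟨U, hU⟩ := h.union S
        refine ⟨U, ?_, hU⟩
        rw [hT', hPX]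
        refine ⟨fun z hz => ?_, fun V hV => ?_⟩
        · obtain ⟨U, hU, hz⟩ := (hU z).1 hz
          exact (hPX U).1 ((hT' U).1 (hS U hU)).1 z hz
        · obtain ⟨S', hS'⟩ := h.sep (P := fun W => ∃ U', U' ∈ S ∧ ∃ V', V' ∈ TC ∧
            (∀ u, u ∈ V' ↔ ∃ x, x ∈ U' ∧ Rel e x u) ∧ ∀ z, z ∈ V' ↔ z ∈ W ∧ z ∈ C) (by
              apply_rules (maxDepth := 500) [Dfn.rel, Dfn.ex, Dfn.all, Dfn.iff, Dfn.imp, Dfn.and,
                Dfn.mem, DT.var, DT.const, Set.mem_univ]) TP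
          obtain ⟨W, hW⟩ := h.union S'
          refine (hTC' V).2 ⟨W, hTP.union S' (fun V hV => ((hS' V).1 hV).1) W hW, fun u => ?_⟩
          rw [hV, hW]
          constructor
          · rintro ⟨x, hx, hxu⟩
            obtain ⟨U', hU', hxU'⟩ := (hU x).1 hx
            obtain ⟨V', hV'⟩ := himg U'
            have hV'T := ((hT' U').1 (hS U' hU')).2 V' hV'
            obtain ⟨W', hW', hVW⟩ := (hTC' V').1 hV'T
            have huV' : u ∈ V' := (hV' u).2 ⟨x, hxU', hxu⟩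
            exact ⟨⟨W', (hS' W').2 ⟨hW', U', hU', V', hV'T, hV', hVW⟩, ((hVW u).1 huV').1⟩,
              ((hVW u).1 huV').2⟩
          · rintro ⟨⟨W', hW', huW'⟩, huC⟩
            obtain ⟨-, U', hU', V', -, hV', hVW⟩ := (hS' W').1 hW'
            obtain ⟨x, hx, hxu⟩ := (hV' u).1 ((hVW u).2 ⟨huW', huC⟩)
            exact ⟨x, (hU x).2 ⟨U', hU', hx⟩, hxu⟩
    have hsub := hinit T' hT'top (by
      intro j hj V hV U hU
      rw [hT', hPX]
      refine ⟨fun z hz => ((hU z).1 hz).1, fun V' hV' => ?_⟩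
      obtain ⟨W, hW⟩ := h.sep (P := fun u => ∃ y, y ∈ V ∧ Rel u j y) (by
        apply_rules [Dfn.rel, Dfn.ex, Dfn.and, Dfn.mem, DT.var, DT.const, Set.mem_univ]) P
      refine (hTC' V').2 ⟨W, hev j hj V hV W hW, fun u => ?_⟩
      rw [hV', hW]
      constructor
      · rintro ⟨x, hx, hxu⟩
        obtain ⟨-, r, hrV, hrE, hH3⟩ := (hU x).1 hx
        exact ⟨⟨he.mem_right h hxu, r, hrV, (heval x u hxu j r).2 ⟨hj, hrE, hH3⟩⟩,
          (hC' u).2 ⟨x, hxu⟩⟩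
      · rintro ⟨⟨-, r, hrV, hur⟩, huC⟩
        obtain ⟨x, hxu⟩ := (hC' u).1 huC
        obtain ⟨-, hrE, hH3⟩ := (heval x u hxu j r).1 hur
        exact ⟨x, (hU x).2 ⟨he.mem_left h hxu, r, hrV, hrE, hH3⟩, hxu⟩)
    intro U hU V hV
    exact ((hT' U).1 (hsub U hU)).2 V hV

/-- **Criterion for being `E`-compact.** -/
theorem closedInPower_of (h : IsZF M) {E TE X T J : M} (hX : IsTop X T)
    {H : M → M → M → Prop} (hH : Dfn Set.univ (fun v => H (v 0) (v 1) (v 2)))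
    (hfun : ∀ x ∈ X, ∀ j ∈ J, ∃! r, r ∈ E ∧ H x j r)
    (hcont : ∀ j ∈ J, ∀ V ∈ TE, ∀ U, (∀ x, x ∈ U ↔ x ∈ X ∧ ∃ r, r ∈ V ∧ r ∈ E ∧ H x j r) → U ∈ T)
    (hinit : ∀ T', IsTop X T' → (∀ j ∈ J, ∀ V ∈ TE, ∀ U,
      (∀ x, x ∈ U ↔ x ∈ X ∧ ∃ r, r ∈ V ∧ r ∈ E ∧ H x j r) → U ∈ T') → IsSub T T')
    (hinj : ∀ x ∈ X, ∀ x' ∈ X, (∀ j ∈ J, ∀ r ∈ E, H x j r ↔ H x' j r) → x = x')
    (hclosed : ∀ P TP, IsPowerSpace E TE J P TP → ∀ u ∈ P,
      (∀ W ∈ TP, u ∈ W → ∃ x ∈ X, ∃ w ∈ W, ∀ j r, Rel w j r ↔ j ∈ J ∧ r ∈ E ∧ H x j r) →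
      ∃ x ∈ X, ∀ j r, Rel u j r → H x j r) : ClosedInPower E TE J X T := by
  obtain ⟨P, TP, hpow⟩ := exists_power h E TE J
  obtain ⟨e, C, TC, hCP, hTC', hhom, hC', he2⟩ := embed_of h hX hH hfun hcont hinit hinj hpow
  obtain ⟨hP, hTP, hev, hmin⟩ := hpow
  have he : IsFun e X C := hhom.1.1
  have heval : ∀ x u, Rel e x u → ∀ j r, Rel u j r ↔ j ∈ J ∧ r ∈ E ∧ H x j r := by
    intro x u hxu
    exact ((he2 x u).1 hxu).2.2
  refine ⟨P, TP, C, TC, e, ⟨hP, hTP, hev, hmin⟩, ⟨hCP, ?_⟩, hTC', hhom⟩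
  · -- closedness
    intro U hU
    obtain ⟨S, hS⟩ := h.sep (P := fun W => ∀ w, w ∈ W → w ∉ C) (by
      apply_rules (maxDepth := 500) [Dfn.all, Dfn.imp, Dfn.fls, Dfn.mem, DT.var, DT.const,
        Set.mem_univ]) TP
    obtain ⟨W, hW⟩ := h.union S
    have hWT : W ∈ TP := hTP.union S (fun z hz => ((hS z).1 hz).1) W hW
    have : U = W := by
      apply h.ext
      intro u
      rw [hU, hW]
      constructor
      · rintro ⟨huP, huC⟩
        by_contra hcon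
        apply huC
        have hcl : ∀ W ∈ TP, u ∈ W → ∃ x ∈ X, ∃ w ∈ W, ∀ j r, Rel w j r ↔ j ∈ J ∧ r ∈ E ∧ H x j r := by
          intro W hW' huW
          by_contra hcon2
          apply hcon
          refine ⟨W, (hS W).2 ⟨hW', fun w hw hwC => hcon2 ?_⟩, huW⟩
          obtain ⟨x, hxw⟩ := (hC' w).1 hwC
          exact ⟨x, he.mem_left h hxw, w, hw, heval x w hxw⟩
        obtain ⟨x, hx, hxu⟩ := hclosed P TP ⟨hP, hTP, hev, hmin⟩ u huP hcl
        rw [hC']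
        refine ⟨x, (he2 x u).2 ⟨hx, huP, fun j r => ?_⟩⟩
        have huf := (hP u).1 huP
        constructor
        · intro hjr
          exact ⟨huf.mem_left h hjr, huf.mem_right h hjr, hxu j r hjr⟩
        · rintro ⟨hj, hr, hH3⟩
          obtain ⟨r', hr', hjr'⟩ := huf.exists_val h hj
          have : r = r' := (hfun x hx j hj).unique ⟨hr, hH3⟩ ⟨hr', hxu j r' hjr'⟩
          rw [this]; exact hjr'
      · rintro ⟨W', hW', huW'⟩
        rw [hS] at hW'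
        exact ⟨hTP.sub W' hW'.1 u huW', hW'.2 u huW'⟩
    rw [this]; exact hWT

/-- **Criterion for being `E`-completely regular.** -/
theorem subspaceOfPower_of (h : IsZF M) {E TE X T J : M} (hX : IsTop X T)
    {H : M → M → M → Prop} (hH : Dfn Set.univ (fun v => H (v 0) (v 1) (v 2)))
    (hfun : ∀ x ∈ X, ∀ j ∈ J, ∃! r, r ∈ E ∧ H x j r)
    (hcont : ∀ j ∈ J, ∀ V ∈ TE, ∀ U, (∀ x, x ∈ U ↔ x ∈ X ∧ ∃ r, r ∈ V ∧ r ∈ E ∧ H x j r) → U ∈ T)
    (hinit : ∀ T', IsTop X T' → (∀ j ∈ J, ∀ V ∈ TE, ∀ U,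
      (∀ x, x ∈ U ↔ x ∈ X ∧ ∃ r, r ∈ V ∧ r ∈ E ∧ H x j r) → U ∈ T') → IsSub T T')
    (hinj : ∀ x ∈ X, ∀ x' ∈ X, (∀ j ∈ J, ∀ r ∈ E, H x j r ↔ H x' j r) → x = x') :
    SubspaceOfPower E TE J X T := by
  obtain ⟨P, TP, hpow⟩ := exists_power h E TE J
  obtain ⟨e, C, TC, hCP, hTC', hhom, -, -⟩ := embed_of h hX hH hfun hcont hinit hinj hpow
  exact ⟨P, TP, C, TC, e, hpow, hCP, hTC', hhom⟩

end Pool.Agent.ZFM
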