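import Pool.Agent.ZFM.Reals
import Pool.Agent.ZFM.TopLib

/-! # The space of finite sets of Cohen reals -/

namespace Pool.Agent.ZFM

namespace CohenModel

/-! ### Moving -/

theorem move' {R : ℕ → ℕ → ℕ → ℕ → Prop} (C : CohenModel R) {E : Finset P2} {P : C.N → Prop}
    (hP : Dfn {x | C.Sup E x} (fun v => P (v 0)))
    (K : Finset P2) {t : P2 →₀ ℕ} (hd : Disjoint t.support E) (h : P (C.c t)) :
    ∃ g : CG, g ∈ fixC E ∧ (∀ p ∈ t.support, gp g p ∉ K) ∧ P (C.c (gt g t)) := by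
  obtain ⟨φ, w, hw, hφ⟩ := hP.normal (C.nat 0)
  obtain ⟨g, h1, h2, h3⟩ := C.move φ E K t w (fun i => by
    rcases hw i with h | h
    · rw [h]; exact C.sup_nat 0 E
    · exact h) hd ((hφ _).1 h)
  exact ⟨g, h1, h2, (hφ _).2 h3⟩

variable (C : CohenModel RQ)

theorem exists_fin (s : Finset P2) : ∃ x : C.N, ∀ z, z ∈ x ↔ ∃ p ∈ s, z = C.a p := by
  classical
  obtain ⟨x, hx⟩ := C.zf.exists_finite (s := C.a '' (s : Set P2)) (s.finite_toSet.image _)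
  refine ⟨x, fun z => ?_⟩
  rw [hx]
  constructor
  · rintro ⟨p, hp, rfl⟩
    exact ⟨p, hp, rfl⟩
  · rintro ⟨p, hp, rfl⟩
    exact ⟨p, hp, rfl⟩

/-- the finite set of Cohen reals with indices in `s` -/
noncomputable def fin (s : Finset P2) : C.N := (C.exists_fin s).choose

theorem mem_fin (s : Finset P2) (z : C.N) : z ∈ C.fin s ↔ ∃ p ∈ s, z = C.a p :=
  (C.exists_fin s).choose_spec z

theorem a_mem_fin {p : P2} {s : Finset P2} : C.a p ∈ C.fin s ↔ p ∈ s := by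
  rw [mem_fin]
  constructor
  · rintro ⟨q, hq, e⟩
    rw [C.a_inj e]; exact hq
  · intro h; exact ⟨p, h, rfl⟩

theorem fin_inj {s s' : Finset P2} (h : C.fin s = C.fin s') : s = s' := by
  ext p
  rw [← C.a_mem_fin, ← C.a_mem_fin, h]

theorem rel_c (t : P2 →₀ ℕ) (z w : C.N) :
    Rel (C.c t) z w ↔ ∃ p ∈ t.support, z = C.a p ∧ w = C.nat (t p) := by
  rw [C.zf.rel_iff, C.mem_c]
  constructor
  · rintro ⟨p, hp, h⟩
    obtain ⟨rfl, rfl⟩ := C.zf.pair_inj (C.zf.isPair_pr z w) h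
    exact ⟨p, hp, rfl, rfl⟩
  · rintro ⟨p, hp, rfl, rfl⟩
    exact ⟨p, hp, C.zf.isPair_pr _ _⟩

/-- indicator of a finite set -/
noncomputable def ind (s : Finset P2) : P2 →₀ ℕ := Finsupp.indicator s (fun _ _ => 1)

theorem support_ind (s : Finset P2) : (ind s).support = s := by
  ext p
  rw [Finsupp.mem_support_iff, ind, Finsupp.indicator_apply]
  split_ifs with h <;> simp [h]

theorem mem_gt_support' (g : CG) (t : P2 →₀ ℕ) (p : P2) :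
    p ∈ (gt g t).support ↔ ∃ q ∈ t.support, p = gp g q := by
  rw [mem_gt_support]
  constructor
  · intro h
    exact ⟨_, h, (gp_gp_inv g p).symm⟩
  · rintro ⟨q, hq, rfl⟩
    rwa [gp_inv_gp]

theorem exists_X : ∃ X : C.N, ∀ x, x ∈ X ↔ ∃ s, x = C.fin s := by
  obtain ⟨P, hP⟩ := C.zf.powerset C.A
  obtain ⟨X, hX⟩ := C.zf.sep (P := fun x => ∃ c, c ∈ C.FX ∧ ∀ z, z ∈ x ↔ ∃ w, Rel c z w) (by
    apply_rules (maxDepth := 500) [Dfn.rel, Dfn.ex, Dfn.all, Dfn.iff, Dfn.and, Dfn.mem,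
      DT.var, DT.const, Set.mem_univ]) P
  refine ⟨X, fun x => ?_⟩
  rw [hX, hP]
  constructor
  · rintro ⟨-, c, hc, hx⟩
    obtain ⟨t, rfl⟩ := (C.mem_FX c).1 hc
    refine ⟨t.support, C.zf.ext fun z => ?_⟩
    rw [hx, mem_fin]
    constructor
    · rintro ⟨w, hw⟩
      obtain ⟨p, hp, h1, h2⟩ := (C.rel_c t z w).1 hw
      exact ⟨p, hp, h1⟩
    · rintro ⟨p, hp, h1⟩
      exact ⟨_, (C.rel_c t z _).2 ⟨p, hp, h1, rfl⟩⟩
  · rintro ⟨s, rfl⟩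
    refine ⟨fun z hz => ?_, C.c (ind s), (C.mem_FX _).2 ⟨_, rfl⟩, fun z => ?_⟩
    · obtain ⟨p, -, rfl⟩ := (C.mem_fin s z).1 hz
      exact (C.mem_A _).2 ⟨p, rfl⟩
    · rw [mem_fin]
      constructor
      · rintro ⟨p, hp, h1⟩
        exact ⟨_, (C.rel_c _ z _).2 ⟨p, by rwa [support_ind], h1, rfl⟩⟩
      · rintro ⟨w, hw⟩
        obtain ⟨p, hp, h1, h2⟩ := (C.rel_c _ z w).1 hw
        exact ⟨p, by rwa [support_ind] at hp, h1⟩

/-- the set of all finite subsets of the set `A` of Cohen reals -/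
noncomputable def X : C.N := C.exists_X.choose

theorem mem_X (x : C.N) : x ∈ C.X ↔ ∃ s, x = C.fin s := C.exists_X.choose_spec x

theorem fin_mem_X (s : Finset P2) : C.fin s ∈ C.X := (C.mem_X _).2 ⟨s, rfl⟩

/-! ### The topology -/

theorem exists_TX (Y : C.N) : ∃ T : C.N, ∀ U, U ∈ T ↔ IsSub U Y ∧ ∀ x, x ∈ U →
    ∃ K, K ∈ C.X ∧ ∀ y, y ∈ Y → (∀ a, a ∈ K → (a ∈ y ↔ a ∈ x)) → y ∈ U := by
  obtain ⟨P, hP⟩ := C.zf.powerset Y
  obtain ⟨T, hT⟩ := C.zf.sep (P := fun U => ∀ x, x ∈ U →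
    ∃ K, K ∈ C.X ∧ ∀ y, y ∈ Y → (∀ a, a ∈ K → (a ∈ y ↔ a ∈ x)) → y ∈ U) (by
    apply_rules (maxDepth := 500) [Dfn.rel, Dfn.ex, Dfn.all, Dfn.iff, Dfn.and, Dfn.imp, Dfn.mem,
      DT.var, DT.const, Set.mem_univ]) P
  refine ⟨T, fun U => ?_⟩
  rw [hT, hP]
  rfl

/-- the topology of pointwise convergence on a subset of `X` -/
noncomputable def TX (Y : C.N) : C.N := (C.exists_TX Y).choose

theorem mem_TX (Y U : C.N) : U ∈ C.TX Y ↔ IsSub U Y ∧ ∀ x, x ∈ U →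
    ∃ K, K ∈ C.X ∧ ∀ y, y ∈ Y → (∀ a, a ∈ K → (a ∈ y ↔ a ∈ x)) → y ∈ U :=
  (C.exists_TX Y).choose_spec U

theorem mem_TX' (Y U : C.N) : U ∈ C.TX Y ↔ IsSub U Y ∧ ∀ x, x ∈ U →
    ∃ κ : Finset P2, ∀ y, y ∈ Y → (∀ p, p ∈ κ → (C.a p ∈ y ↔ C.a p ∈ x)) → y ∈ U := by
  rw [mem_TX]
  refine and_congr_right fun _ => forall₂_congr fun x _ => ?_
  constructor
  · rintro ⟨K, hK, h⟩
    obtain ⟨κ, rfl⟩ := (C.mem_X K).1 hK
    refine ⟨κ, fun y hy h1 => h y hy fun a ha => ?_⟩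
    obtain ⟨p, hp, rfl⟩ := (C.mem_fin _ _).1 ha
    exact h1 p hp
  · rintro ⟨κ, h⟩
    exact ⟨C.fin κ, C.fin_mem_X κ, fun y hy h1 => h y hy fun p hp => h1 _ (C.a_mem_fin.2 hp)⟩

theorem isTop_TX (Y : C.N) : IsTop Y (C.TX Y) := by
  classical
  apply IsTop.mk' C.zf
  · intro U hU
    exact ((C.mem_TX' Y U).1 hU).1
  · rw [mem_TX']
    exact ⟨fun z hz => hz, fun x _ => ⟨∅, fun y hy _ => hy⟩⟩
  · intro U hU V hV
    obtain ⟨W, hW⟩ := C.zf.sep (P := fun z => z ∈ V) (by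
      apply_rules [Dfn.mem, DT.var, DT.const, Set.mem_univ]) U
    refine ⟨W, ?_, hW⟩
    rw [mem_TX'] at hU hV ⊢
    refine ⟨fun z hz => hU.1 z ((hW z).1 hz).1, fun x hx => ?_⟩
    obtain ⟨hx1, hx2⟩ := (hW x).1 hx
    obtain ⟨κ1, h1⟩ := hU.2 x hx1
    obtain ⟨κ2, h2⟩ := hV.2 x hx2
    refine ⟨κ1 ∪ κ2, fun y hy hp => (hW y).2 ⟨h1 y hy fun p hp1 => hp p ?_,
      h2 y hy fun p hp1 => hp p ?_⟩⟩
    · exact Finset.mem_union_left _ hp1
    · exact Finset.mem_union_right _ hp1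
  · intro S hS
    obtain ⟨W, hW⟩ := C.zf.union S
    refine ⟨W, ?_, hW⟩
    rw [mem_TX']
    refine ⟨fun z hz => ?_, fun x hx => ?_⟩
    · obtain ⟨U, hU, hz⟩ := (hW z).1 hz
      exact ((C.mem_TX' Y U).1 (hS U hU)).1 z hz
    · obtain ⟨U, hU, hx⟩ := (hW x).1 hx
      obtain ⟨κ, h⟩ := ((C.mem_TX' Y U).1 (hS U hU)).2 x hx
      exact ⟨κ, fun y hy h1 => (hW y).2 ⟨U, hU, h y hy h1⟩⟩

/-- basic open sets -/
theorem exists_basic (Y x : C.N) (κ : Finset P2) : ∃ U ∈ C.TX Y, ∀ y, y ∈ U ↔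
    y ∈ Y ∧ ∀ p ∈ κ, (C.a p ∈ y ↔ C.a p ∈ x) := by
  obtain ⟨U, hU⟩ := C.zf.sep (P := fun y => ∀ a, a ∈ C.fin κ → (a ∈ y ↔ a ∈ x)) (by
    apply_rules (maxDepth := 500) [Dfn.all, Dfn.iff, Dfn.imp, Dfn.mem,
      DT.var, DT.const, Set.mem_univ]) Y
  have hU' : ∀ y, y ∈ U ↔ y ∈ Y ∧ ∀ p ∈ κ, (C.a p ∈ y ↔ C.a p ∈ x) := by
    intro y
    rw [hU]
    refine and_congr_right fun _ => ?_
    constructor
    · intro h p hp
      exact h _ (C.a_mem_fin.2 hp)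
    · intro h a ha
      obtain ⟨p, hp, rfl⟩ := (C.mem_fin _ _).1 ha
      exact h p hp
  refine ⟨U, ?_, hU'⟩
  rw [mem_TX']
  refine ⟨fun y hy => ((hU' y).1 hy).1, fun z hz => ⟨κ, fun y hy h => (hU' y).2 ⟨hy, fun p hp => ?_⟩⟩⟩
  rw [h p hp]
  exact ((hU' z).1 hz).2 p hp

/-- the topology on subsets is the subspace topology -/
theorem isSubspaceTop_TX {Y Z : C.N} (h : IsSub Z Y) : IsSubspaceTop (C.TX Y) Z (C.TX Z) := by
  intro V
  constructor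
  · intro hV
    -- union of all basic open sets of `Y` whose trace is contained in `V`
    obtain ⟨S, hS⟩ := C.zf.sep (P := fun U => ∀ z, z ∈ U → z ∈ Z → z ∈ V) (by
      apply_rules (maxDepth := 500) [Dfn.all, Dfn.imp, Dfn.mem, DT.var, DT.const, Set.mem_univ])
      (C.TX Y)
    obtain ⟨W, hW⟩ := C.zf.union S
    refine ⟨W, (C.isTop_TX Y).union S (fun z hz => ((hS z).1 hz).1) W hW, fun z => ?_⟩
    rw [hW]
    constructor
    · intro hz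
      rw [mem_TX'] at hV
      have hzZ := hV.1 z hz
      refine ⟨?_, hzZ⟩
      obtain ⟨κ, hκ⟩ := hV.2 z hz
      obtain ⟨U, hU1, hU2⟩ := C.exists_basic Y z κ
      refine ⟨U, (hS U).2 ⟨hU1, fun y hy hyZ => hκ y hyZ ((hU2 y).1 hy).2⟩, ?_⟩
      exact (hU2 z).2 ⟨h z hzZ, fun p _ => Iff.rfl⟩
    · rintro ⟨⟨U, hU, hzU⟩, hzZ⟩
      exact ((hS U).1 hU).2 z hzU hzZ
  · rintro ⟨U, hU, hV⟩
    rw [mem_TX'] at hU ⊢
    refine ⟨fun z hz => ((hV z).1 hz).2, fun x hx => ?_⟩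
    obtain ⟨κ, hκ⟩ := hU.2 x ((hV x).1 hx).1
    exact ⟨κ, fun y hy hp => (hV y).2 ⟨hκ y (h y hy) hp, hy⟩⟩

/-- functions depending on finitely many coordinates are continuous -/
theorem cont_of_dep {f Y E TE : C.N} (hf : IsFun f Y E) (κ : Finset P2)
    (h : ∀ y ∈ Y, ∀ y' ∈ Y, (∀ p ∈ κ, (C.a p ∈ y ↔ C.a p ∈ y')) → ∀ r, Rel f y r → Rel f y' r) :
    IsContMap f Y (C.TX Y) E TE := by
  refine ⟨hf, fun V _ U hU => ?_⟩
  rw [mem_TX']
  refine ⟨fun x hx => ((hU x).1 hx).1, fun x hx => ⟨κ, fun y hy hp => (hU y).2 ⟨hy, ?_⟩⟩⟩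
  obtain ⟨hxY, r, hr, hxr⟩ := (hU x).1 hx
  exact ⟨r, hr, h x hxY y hy (fun p hp' => (hp p hp').symm) r hxr⟩

/-! ### Separation of reals -/

theorem exists_lt_set (c : C.N) (hc : c ∈ C.RN) : ∃ V ∈ C.topR, ∀ y, y ∈ V ↔ Rel C.ltR y c := by
  obtain ⟨V, hV⟩ := C.zf.sep (P := fun y => Rel C.ltR y c) (by
    apply_rules (maxDepth := 500) [Dfn.rel, DT.var, DT.const, Set.mem_univ]) C.RN
  have hV' : ∀ y, y ∈ V ↔ Rel C.ltR y c := by
    intro y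
    rw [hV]
    constructor
    · exact fun h => h.2
    · intro h
      exact ⟨((C.rel_ltR y c).1 h).1, h⟩
  refine ⟨V, ?_, hV'⟩
  rw [mem_topR]
  refine ⟨fun y hy => ((hV y).1 hy).1, fun x hx => ?_⟩
  rw [hV'] at hx
  have hxR := ((C.rel_ltR _ _).1 hx).1
  set x' : {x : C.N // x ∈ C.RN} := ⟨x, hxR⟩ with hx'
  refine ⟨(C.requiv.symm (C.requiv x' - 1)).1, c, ?_, hx, fun y _ hy => (hV' y).2 hy⟩
  have : Rel C.ltR (C.requiv.symm (C.requiv x' - 1)).1 x'.1 := by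
    rw [rel_ltR_iff, Equiv.apply_symm_apply]
    exact sub_one_lt _
  exact this

theorem exists_gt_set (c : C.N) (hc : c ∈ C.RN) : ∃ V ∈ C.topR, ∀ y, y ∈ V ↔ Rel C.ltR c y := by
  obtain ⟨V, hV⟩ := C.zf.sep (P := fun y => Rel C.ltR c y) (by
    apply_rules (maxDepth := 500) [Dfn.rel, DT.var, DT.const, Set.mem_univ]) C.RN
  have hV' : ∀ y, y ∈ V ↔ Rel C.ltR c y := by
    intro y
    rw [hV]
    constructor
    · exact fun h => h.2
    · intro h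
      exact ⟨((C.rel_ltR c y).1 h).2.1, h⟩
  refine ⟨V, ?_, hV'⟩
  rw [mem_topR]
  refine ⟨fun y hy => ((hV y).1 hy).1, fun x hx => ?_⟩
  rw [hV'] at hx
  have hxR := ((C.rel_ltR _ _).1 hx).2.1
  set x' : {x : C.N // x ∈ C.RN} := ⟨x, hxR⟩ with hx'
  refine ⟨c, (C.requiv.symm (C.requiv x' + 1)).1, hx, ?_, fun y hy _ => (hV' y).2 hy⟩
  have : Rel C.ltR x'.1 (C.requiv.symm (C.requiv x' + 1)).1 := by
    rw [rel_ltR_iff, Equiv.apply_symm_apply]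
    exact lt_add_one _
  exact this

/-- separation of two reals by a rational number -/
theorem sep_real {r r0 : C.N} (hr : r ∈ C.RN) (hr0 : r0 ∈ C.RN) (hne : r ≠ r0) :
    ∃ k, ∃ V ∈ C.topR, r0 ∈ V ∧ ((C.nat k ∈ r ∧ ∀ y ∈ V, C.nat k ∉ y) ∨
      (C.nat k ∉ r ∧ ∀ y ∈ V, C.nat k ∈ y)) := by
  obtain ⟨x, hx⟩ : ∃ x : {x : C.N // x ∈ C.RN}, x.1 = r := ⟨⟨r, hr⟩, rfl⟩
  obtain ⟨x0, hx0⟩ : ∃ x : {x : C.N // x ∈ C.RN}, x.1 = r0 := ⟨⟨r0, hr0⟩, rfl⟩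
  subst hx hx0
  have hne' : (C.requiv x : ℝ) ≠ C.requiv x0 := by
    intro h
    apply hne
    rw [C.requiv.injective (Subtype.ext h)]
  -- the rational as an element of the model
  have hq : ∀ k, ∃ c : {x : C.N // x ∈ C.RN}, (C.requiv c : ℝ) = qe k := by
    intro k
    refine ⟨C.requiv.symm ((qe k : ℚ) : C.K), ?_⟩
    rw [Equiv.apply_symm_apply]
    push_cast
    rfl
  rcases lt_or_gt_of_ne hne' with h | h
  · obtain ⟨k, h1, h2⟩ := exists_qe_btwn h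
    obtain ⟨c, hc⟩ := hq k
    obtain ⟨V, hV, hV'⟩ := C.exists_gt_set c.1 c.2
    refine ⟨k, V, hV, ?_, Or.inr ⟨?_, ?_⟩⟩
    · rw [hV', rel_ltR_iff, ← Subtype.coe_lt_coe, hc]; exact h2
    · rw [(C.isCode_requiv x).nat_mem]; exact not_lt.2 h1.le
    · intro y hy
      rw [hV'] at hy
      have hyR := ((C.rel_ltR _ _).1 hy).2.1
      have := (C.rel_ltR_iff c ⟨y, hyR⟩).1 hy
      rw [← Subtype.coe_lt_coe, hc] at this
      exact ((C.isCode_requiv ⟨y, hyR⟩).nat_mem k).2 this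
  · obtain ⟨k, h1, h2⟩ := exists_qe_btwn h
    obtain ⟨c, hc⟩ := hq k
    obtain ⟨V, hV, hV'⟩ := C.exists_lt_set c.1 c.2
    refine ⟨k, V, hV, ?_, Or.inl ⟨?_, ?_⟩⟩
    · rw [hV', rel_ltR_iff, ← Subtype.coe_lt_coe, hc]; exact h1
    · rw [(C.isCode_requiv x).nat_mem]; exact h2
    · intro y hy
      rw [hV'] at hy
      have hyR := ((C.rel_ltR _ _).1 hy).1
      have := (C.rel_ltR_iff ⟨y, hyR⟩ c).1 hy
      rw [← Subtype.coe_lt_coe, hc] at this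
      rw [(C.isCode_requiv ⟨y, hyR⟩).nat_mem k]
      exact not_lt.2 this.le

/-! ### The support lemma -/

/-- the moving step -/
theorem supp_aux {E : Finset P2} {f Y : C.N} {Q : C.N → Prop} (hf : IsFun f Y C.RN)
    (hfE : C.Sup E f) (hQ : Dfn {x | C.Sup E x} (fun v => Q (v 0)))
    {s : Finset P2} {r V : C.N} (hr : Rel f (C.fin s) r)
    (hcont : ∀ U, (∀ x, x ∈ U ↔ x ∈ Y ∧ ∃ y, y ∈ V ∧ Rel f x y) → U ∈ C.TX Y)
    {r0 : C.N} (hr0 : Rel f (C.fin (s ∩ E)) r0) (hrV : r0 ∈ V)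
    (hQr : Q r) (hQV : ∀ y ∈ V, ¬ Q y) : False := by
  classical
  set s0 := s ∩ E with hs0
  set s1 := s \ E with hs1
  have hs : s = s0 ∪ s1 := by
    ext p; simp only [hs0, hs1, Finset.mem_union, Finset.mem_inter, Finset.mem_sdiff]; tauto
  have hdisj : Disjoint (ind s1).support E := by
    rw [support_ind]; exact Finset.sdiff_disjoint
  have hQ' : ∀ {x : (ℕ → C.N) → C.N}, DT {x | C.Sup E x} x →
      Dfn {x | C.Sup E x} (fun v => Q (x v)) := by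
    intro x hx
    exact Dfn.subst (t := fun i v => x v) hQ (fun i => hx)
  have hc0 : C.c (ind s0) ∈ {x | C.Sup E x} :=
    C.sup_c _ _ (by rw [support_ind]; exact Finset.inter_subset_right)
  have hf' : f ∈ {x | C.Sup E x} := hfE
  obtain ⟨U, hU⟩ := C.zf.sep (P := fun x => ∃ y, y ∈ V ∧ Rel f x y) (by
    apply_rules (maxDepth := 500) [Dfn.rel, Dfn.ex, Dfn.and, Dfn.mem, DT.var, DT.const,
      Set.mem_univ]) Y
  have hUT := hcont U hU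
  rw [mem_TX'] at hUT
  have hx0U : C.fin s0 ∈ U := (hU _).2 ⟨hf.mem_left C.zf hr0, r0, hrV, hr0⟩
  obtain ⟨κ, hκ⟩ := hUT.2 _ hx0U
  obtain ⟨g, hg1, hg2, hg3⟩ := C.move' (E := E)
    (P := fun c => ∃ x, (∀ z, z ∈ x ↔ (∃ w, Rel c z w) ∨ (∃ w, Rel (C.c (ind s0)) z w)) ∧
      ∃ r, Rel f x r ∧ Q r) (by
      apply_rules (maxDepth := 500) [Dfn.rel, hQ', Dfn.ex, Dfn.all, Dfn.iff, Dfn.or, Dfn.and,
        Dfn.mem, DT.var, DT.const]) κ hdisj (by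
      refine ⟨C.fin s, fun z => ?_, r, hr, hQr⟩
      rw [mem_fin]
      constructor
      · rintro ⟨p, hp, rfl⟩
        rw [hs, Finset.mem_union] at hp
        rcases hp with hp | hp
        · right
          exact ⟨_, (C.rel_c _ _ _).2 ⟨p, by rwa [support_ind], rfl, rfl⟩⟩
        · left
          exact ⟨_, (C.rel_c _ _ _).2 ⟨p, by rwa [support_ind], rfl, rfl⟩⟩
      · rintro (⟨w, hw⟩ | ⟨w, hw⟩)
        · obtain ⟨p, hp, rfl, -⟩ := (C.rel_c _ _ _).1 hw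
          rw [support_ind] at hp
          exact ⟨p, by rw [hs]; exact Finset.mem_union_right _ hp, rfl⟩
        · obtain ⟨p, hp, rfl, -⟩ := (C.rel_c _ _ _).1 hw
          rw [support_ind] at hp
          exact ⟨p, by rw [hs]; exact Finset.mem_union_left _ hp, rfl⟩)
  obtain ⟨x, hx, r', hr', hQr'⟩ := hg3
  have hxU : x ∈ U := by
    apply hκ x (hf.mem_left C.zf hr')
    intro p hp
    rw [hx, a_mem_fin]
    constructor
    · rintro (⟨w, hw⟩ | ⟨w, hw⟩)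
      · obtain ⟨q, hq, e, -⟩ := (C.rel_c _ _ _).1 hw
        obtain rfl := C.a_inj e
        obtain ⟨q', hq', rfl⟩ := (mem_gt_support' g _ _).1 hq
        exact absurd hp (hg2 q' hq')
      · obtain ⟨q, hq, e, -⟩ := (C.rel_c _ _ _).1 hw
        obtain rfl := C.a_inj e
        rwa [support_ind] at hq
    · intro h
      right
      exact ⟨_, (C.rel_c _ _ _).2 ⟨p, by rwa [support_ind], rfl, rfl⟩⟩
  obtain ⟨-, y, hy, hxy⟩ := (hU x).1 hxU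
  obtain rfl := hf.unique C.zf hxy hr'
  exact hQV _ hy hQr'

/-- **Support lemma**: a continuous real function with support `E` depends only on the
coordinates in `E`. -/
theorem supp_lemma {E : Finset P2} {f Y : C.N} (hf : IsContMap f Y (C.TX Y) C.RN C.topR)
    (hfE : C.Sup E f) {s : Finset P2} (hs : C.fin (s ∩ E) ∈ Y) {r : C.N}
    (hr : Rel f (C.fin s) r) : Rel f (C.fin (s ∩ E)) r := by
  obtain ⟨r0, hr0R, hr0⟩ := hf.1.exists_val C.zf hs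
  by_cases hne : r = r0
  · rw [hne]; exact hr0
  exfalso
  obtain ⟨k, V, hV, hrV, h⟩ := C.sep_real (hf.1.mem_right C.zf hr) hr0R hne
  have hk : C.nat k ∈ {x | C.Sup E x} := C.sup_nat k E
  rcases h with ⟨h1, h2⟩ | ⟨h1, h2⟩
  · exact C.supp_aux (Q := fun y => C.nat k ∈ y) hf.1 hfE (by
      apply_rules [Dfn.mem, DT.var, DT.const]) hr (hf.2 V hV) hr0 hrV h1 h2
  · exact C.supp_aux (Q := fun y => C.nat k ∉ y) hf.1 hfE (by
      apply_rules [Dfn.not, Dfn.mem, DT.var, DT.const]) hr (hf.2 V hV) hr0 hrV h1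
      (fun y hy hn => hn (h2 y hy))

end CohenModel

end Pool.Agent.ZFM
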