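import Pool.Agent.ZFM.SpaceX

/-! # Properties of the space of finite sets of Cohen reals -/

namespace Pool.Agent.ZFM

namespace CohenModel

variable (C : CohenModel RQ)

theorem zero_mem : C.realLine.zero ∈ C.RN := (C.requiv.symm 0).2
theorem one_mem : C.realLine.one ∈ C.RN := (C.requiv.symm 1).2

theorem real_zero_ne_one : C.realLine.zero ≠ C.realLine.one := by
  intro h
  have h1 : C.requiv.symm 0 = C.requiv.symm 1 := Subtype.ext h
  have h2 : (0 : C.K) = 1 := C.requiv.symm.injective h1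
  exact absurd h2 (by norm_num)

theorem rel_zero_one : Rel C.ltR C.realLine.zero C.realLine.one := by
  have := (C.rel_ltR_iff (C.requiv.symm 0) (C.requiv.symm 1)).2 (by
    rw [Equiv.apply_symm_apply, Equiv.apply_symm_apply]; exact zero_lt_one)
  exact this

theorem ltR_irrefl (x : C.N) : ¬ Rel C.ltR x x := by
  rw [rel_ltR]
  tauto

theorem not_rel_one_zero : ¬ Rel C.ltR C.realLine.one C.realLine.zero := by
  intro h
  have := (C.rel_ltR_iff (C.requiv.symm 1) (C.requiv.symm 0)).1 h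
  rw [Equiv.apply_symm_apply, Equiv.apply_symm_apply] at this
  exact absurd this (not_lt.2 zero_le_one)

/-- the real line is `T₁` -/
theorem t1_real {r r0 : C.N} (hr : r ∈ C.RN) (hr0 : r0 ∈ C.RN) (hne : r ≠ r0) :
    ∃ V ∈ C.topR, r ∈ V ∧ r0 ∉ V := by
  obtain ⟨k, V, hV, hrV, h⟩ := C.sep_real hr0 hr (Ne.symm hne)
  refine ⟨V, hV, hrV, fun h0 => ?_⟩
  rcases h with ⟨h1, h2⟩ | ⟨h1, h2⟩
  · exact h2 _ h0 h1
  · exact h1 (h2 _ h0)

theorem tychonoff_TX {Y : C.N} (hY : IsSub Y C.X) : C.realLine.Tychonoff Y (C.TX Y) where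
  top := C.isTop_TX Y
  t1 := by
    intro x hx D hD
    refine ⟨fun z hz => by rw [(hD z).1 hz]; exact hx, fun U hU => ?_⟩
    rw [mem_TX']
    refine ⟨fun z hz => ((hU z).1 hz).1, fun y hy => ?_⟩
    rw [hU, hD] at hy
    obtain ⟨s, rfl⟩ := (C.mem_X x).1 (hY x hx)
    obtain ⟨s', rfl⟩ := (C.mem_X y).1 (hY y hy.1)
    have hne : s ≠ s' := fun h => hy.2 (by rw [h])
    have : ∃ p, ¬ (p ∈ s' ↔ p ∈ s) := by
      by_contra hcon
      push Not at hcon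
      exact hne (by ext p; exact (hcon p).symm)
    obtain ⟨p, hp⟩ := this
    refine ⟨{p}, fun z hz h => (hU z).2 ⟨hz, fun hzD => ?_⟩⟩
    rw [hD] at hzD
    subst hzD
    have := h p (Finset.mem_singleton_self p)
    rw [C.a_mem_fin, C.a_mem_fin] at this
    exact hp this.symm
  separated := by
    intro F hF x hx hxF
    obtain ⟨U, hU⟩ := C.zf.sep (P := fun z => z ∉ F) (by
      apply_rules [Dfn.not, Dfn.mem, DT.var, DT.const, Set.mem_univ]) Y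
    have hUT := hF.2 U hU
    rw [mem_TX'] at hUT
    obtain ⟨κ, hκ⟩ := hUT.2 x ((hU x).2 ⟨hx, hxF⟩)
    obtain ⟨f, hf, hf2⟩ := C.zf.exists_fun Y C.RN (R := fun y r =>
      ((∀ a, a ∈ C.fin κ → (a ∈ y ↔ a ∈ x)) ∧ r = C.realLine.zero) ∨
        (¬ (∀ a, a ∈ C.fin κ → (a ∈ y ↔ a ∈ x)) ∧ r = C.realLine.one)) (by
        apply_rules (maxDepth := 500) [Dfn.all, Dfn.iff, Dfn.imp, Dfn.and, Dfn.or, Dfn.fls,
          Dfn.mem, Dfn.eq, DT.var, DT.const, Set.mem_univ]) (by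
      intro y hy
      by_cases h : ∀ a, a ∈ C.fin κ → (a ∈ y ↔ a ∈ x)
      · refine ⟨C.realLine.zero, ⟨C.zero_mem, Or.inl ⟨h, rfl⟩⟩, ?_⟩
        rintro r ⟨-, h1 | h1⟩
        · exact h1.2
        · exact absurd h h1.1
      · refine ⟨C.realLine.one, ⟨C.one_mem, Or.inr ⟨h, rfl⟩⟩, ?_⟩
        rintro r ⟨-, h1 | h1⟩
        · exact absurd h1.1 h
        · exact h1.2)
    refine ⟨f, ?_, ?_, ?_, ?_⟩
    · refine C.cont_of_dep hf κ ?_
      intro y hy y' hy' h r hr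
      rw [hf2] at hr ⊢
      have e : (∀ a, a ∈ C.fin κ → (a ∈ y ↔ a ∈ x)) ↔ (∀ a, a ∈ C.fin κ → (a ∈ y' ↔ a ∈ x)) := by
        refine forall₂_congr fun a ha => ?_
        obtain ⟨p, hp, rfl⟩ := (C.mem_fin _ _).1 ha
        rw [h p hp]
      rw [← e]
      exact ⟨hy', hr.2⟩
    · intro y r hr
      rcases ((hf2 y r).1 hr).2.2 with ⟨-, rfl⟩ | ⟨-, rfl⟩
      · exact ⟨C.ltR_irrefl _, C.not_rel_one_zero⟩
      · exact ⟨C.not_rel_one_zero, C.ltR_irrefl _⟩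
    · exact (hf2 _ _).2 ⟨hx, C.zero_mem, Or.inl ⟨fun a _ => Iff.rfl, rfl⟩⟩
    · intro y hy
      refine (hf2 _ _).2 ⟨hF.1 y hy, C.one_mem, Or.inr ⟨fun h => ?_, rfl⟩⟩
      have := hκ y (hF.1 y hy) (fun p hp => h _ (C.a_mem_fin.2 hp))
      exact ((hU y).1 this).2 hy

/-! ### The subspaces of sets with at most `n` elements -/

/-- `Y` is the set of all elements of `X` with at most `ν` elements -/
def IsXn (ν Y : C.N) : Prop :=
  ∀ x, x ∈ Y ↔ x ∈ C.X ∧ ∃ c, c ∈ C.FX ∧ (∀ z, z ∈ x ↔ ∃ w, Rel c z w) ∧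
    (∀ z w, Rel c z w → (w ∈ ν ∨ w = ν)) ∧ ∀ z z' w, Rel c z w → Rel c z' w → z = z'

theorem card_iff (n : ℕ) (s : Finset P2) : (∃ c, c ∈ C.FX ∧ (∀ z, z ∈ C.fin s ↔ ∃ w, Rel c z w) ∧
    (∀ z w, Rel c z w → (w ∈ C.nat n ∨ w = C.nat n)) ∧
    ∀ z z' w, Rel c z w → Rel c z' w → z = z') ↔ s.card ≤ n := by
  classical
  constructor
  · rintro ⟨c, hc, h1, h2, h3⟩
    obtain ⟨t, rfl⟩ := (C.mem_FX c).1 hc
    have hs : t.support = s := by
      ext p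
      rw [← C.a_mem_fin (s := s), h1]
      constructor
      · intro hp; exact ⟨_, (C.rel_c _ _ _).2 ⟨p, hp, rfl, rfl⟩⟩
      · rintro ⟨w, hw⟩
        obtain ⟨q, hq, e, -⟩ := (C.rel_c _ _ _).1 hw
        rwa [C.a_inj e]
    subst hs
    have : t.support.card ≤ (Finset.Icc 1 n).card := by
      apply Finset.card_le_card_of_injOn t
      · intro p hp
        have hp0 := Finsupp.mem_support_iff.1 hp
        have h4 := h2 _ _ ((C.rel_c t _ _).2 ⟨p, hp, rfl, rfl⟩)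
        rw [Finset.mem_coe, Finset.mem_Icc]
        refine ⟨Nat.one_le_iff_ne_zero.2 hp0, ?_⟩
        rcases h4 with h4 | h4
        · obtain ⟨m, hm, e⟩ := (C.mem_nat _ _).1 h4
          rw [C.nat_inj e]; exact hm.le
        · rw [C.nat_inj h4]
      · intro p hp q hq e
        exact C.a_inj (h3 (C.a p) (C.a q) (C.nat (t p)) ((C.rel_c t _ _).2 ⟨p, hp, rfl, rfl⟩)
          ((C.rel_c t _ _).2 ⟨q, hq, rfl, by rw [e]⟩))
    simpa using this
  · intro hs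
    set t : P2 →₀ ℕ := Finsupp.indicator s (fun p hp => (s.equivFin ⟨p, hp⟩).val + 1) with ht
    have ht' : ∀ p (hp : p ∈ s), t p = (s.equivFin ⟨p, hp⟩).val + 1 := by
      intro p hp
      rw [ht, Finsupp.indicator_of_mem hp]
    have hsup : ∀ p, p ∈ t.support ↔ p ∈ s := by
      intro p
      rw [Finsupp.mem_support_iff]
      constructor
      · intro h
        by_contra hp
        exact h (Finsupp.indicator_of_notMem hp _)
      · intro hp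
        rw [ht' p hp]; omega
    refine ⟨C.c t, (C.mem_FX _).2 ⟨t, rfl⟩, ?_, ?_, ?_⟩
    · intro z
      rw [mem_fin]
      constructor
      · rintro ⟨p, hp, rfl⟩
        exact ⟨_, (C.rel_c _ _ _).2 ⟨p, (hsup p).2 hp, rfl, rfl⟩⟩
      · rintro ⟨w, hw⟩
        obtain ⟨q, hq, e, -⟩ := (C.rel_c _ _ _).1 hw
        exact ⟨q, (hsup q).1 hq, e⟩
    · intro z w hzw
      obtain ⟨p, hp, rfl, rfl⟩ := (C.rel_c _ _ _).1 hzw
      rw [ht' p ((hsup p).1 hp)]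
      have h4 := (s.equivFin ⟨p, (hsup p).1 hp⟩).2
      rcases (show (s.equivFin ⟨p, (hsup p).1 hp⟩).val + 1 ≤ n by omega).lt_or_eq with h5 | h5
      · left
        exact (C.mem_nat _ _).2 ⟨_, h5, rfl⟩
      · right
        rw [h5]
    · intro z z' w h1 h2
      obtain ⟨p, hp, rfl, rfl⟩ := (C.rel_c _ _ _).1 h1
      obtain ⟨q, hq, rfl, e⟩ := (C.rel_c _ _ _).1 h2
      have e' := C.nat_inj e
      rw [ht' p ((hsup p).1 hp), ht' q ((hsup q).1 hq)] at e'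
      have h6 : s.equivFin ⟨p, (hsup p).1 hp⟩ = s.equivFin ⟨q, (hsup q).1 hq⟩ := Fin.ext (by omega)
      have h7 := s.equivFin.injective h6
      have h8 : p = q := congrArg Subtype.val h7
      rw [h8]

theorem IsXn.mem_iff {C : CohenModel RQ} {n : ℕ} {Y : C.N} (h : C.IsXn (C.nat n) Y) (x : C.N) :
    x ∈ Y ↔ ∃ s : Finset P2, s.card ≤ n ∧ x = C.fin s := by
  rw [h x]
  constructor
  · rintro ⟨hx, hc⟩
    obtain ⟨s, rfl⟩ := (C.mem_X x).1 hx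
    exact ⟨s, (C.card_iff n s).1 hc, rfl⟩
  · rintro ⟨s, hs, rfl⟩
    exact ⟨C.fin_mem_X s, (C.card_iff n s).2 hs⟩

theorem IsXn.fin_mem {C : CohenModel RQ} {n : ℕ} {Y : C.N} (h : C.IsXn (C.nat n) Y)
    (s : Finset P2) : C.fin s ∈ Y ↔ s.card ≤ n := by
  rw [h.mem_iff]
  constructor
  · rintro ⟨s', hs', e⟩
    rw [C.fin_inj e]; exact hs'
  · intro hs
    exact ⟨s, hs, rfl⟩

theorem IsXn.sub {C : CohenModel RQ} {n : ℕ} {Y : C.N} (h : C.IsXn (C.nat n) Y) :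
    IsSub Y C.X := fun x hx => ((h x).1 hx).1

theorem exists_Xn (ν : C.N) : ∃ Y, C.IsXn ν Y := by
  obtain ⟨Y, hY⟩ := C.zf.sep (P := fun x => ∃ c, c ∈ C.FX ∧ (∀ z, z ∈ x ↔ ∃ w, Rel c z w) ∧
    (∀ z w, Rel c z w → (w ∈ ν ∨ w = ν)) ∧ ∀ z z' w, Rel c z w → Rel c z' w → z = z') (by
      apply_rules (maxDepth := 500) [Dfn.rel, Dfn.ex, Dfn.all, Dfn.iff, Dfn.imp, Dfn.and, Dfn.or,
        Dfn.mem, Dfn.eq, DT.var, DT.const, Set.mem_univ]) C.X
  exact ⟨Y, hY⟩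

/-- the sequence of the subspaces `X_n` -/
theorem exists_seq : ∃ S Q : C.N, IsFun S C.omega Q ∧ (∀ n Y, Rel S (C.nat n) Y ↔
    C.IsXn (C.nat n) Y) ∧ (∀ ν Y, Rel S ν Y → ν ∈ C.omega) := by
  obtain ⟨P, hP⟩ := C.zf.powerset C.X
  obtain ⟨S, hS, hS2⟩ := C.zf.exists_fun C.omega P (R := fun ν Y => C.IsXn ν Y) (by
    unfold IsXn
    apply_rules (maxDepth := 500) [Dfn.rel, Dfn.ex, Dfn.all, Dfn.iff, Dfn.imp, Dfn.and, Dfn.or,
        Dfn.mem, Dfn.eq, DT.var, DT.const, Set.mem_univ]) (by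
    intro ν _
    obtain ⟨Y, hY⟩ := C.exists_Xn ν
    refine ⟨Y, ⟨(hP Y).2 fun z hz => ((hY z).1 hz).1, hY⟩, ?_⟩
    rintro Y' ⟨-, hY'⟩
    exact C.zf.ext fun z => by rw [hY' z, hY z])
  refine ⟨S, P, hS, fun n Y => ?_, fun ν Y h => ((hS2 ν Y).1 h).1⟩
  rw [hS2]
  constructor
  · exact fun h => h.2.2
  · intro h
    exact ⟨C.nat_mem_omega n, (hP Y).2 h.sub, h⟩

theorem isOmega : IsOmega C.omega := by
  constructor
  · refine ⟨⟨C.nat 0, C.nat_mem_omega 0, fun z hz => ?_⟩, fun x hx => ?_⟩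
    · obtain ⟨m, hm, -⟩ := (C.mem_nat 0 z).1 hz
      omega
    · obtain ⟨n, rfl⟩ := (C.mem_omega x).1 hx
      refine ⟨C.nat (n+1), C.nat_mem_omega _, fun z => ?_⟩
      rw [C.mem_nat, C.mem_nat]
      constructor
      · rintro ⟨m, hm, rfl⟩
        rcases (Nat.lt_succ_iff.1 hm).lt_or_eq with h | h
        · left; exact ⟨m, h, rfl⟩
        · right; rw [h]
      · rintro (⟨m, hm, rfl⟩ | rfl)
        · exact ⟨m, by omega, rfl⟩
        · exact ⟨n, by omega, rfl⟩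
  · rintro w' ⟨⟨e, he, he2⟩, hs⟩ x hx
    obtain ⟨n, rfl⟩ := (C.mem_omega x).1 hx
    induction n with
    | zero =>
      have : C.nat 0 = e := C.zf.ext fun z => by
        constructor
        · intro hz
          obtain ⟨m, hm, -⟩ := (C.mem_nat 0 z).1 hz
          omega
        · intro hz; exact absurd hz (he2 z)
      rw [this]; exact he
    | succ n ih =>
      obtain ⟨s, hs1, hs2⟩ := hs _ (ih (C.nat_mem_omega n))
      have : C.nat (n+1) = s := C.zf.ext fun z => by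
        rw [hs2, C.mem_nat, C.mem_nat]
        constructor
        · rintro ⟨m, hm, rfl⟩
          rcases (Nat.lt_succ_iff.1 hm).lt_or_eq with h | h
          · left; exact ⟨m, h, rfl⟩
          · right; rw [h]
        · rintro (⟨m, hm, rfl⟩ | rfl)
          · exact ⟨m, by omega, rfl⟩
          · exact ⟨n, by omega, rfl⟩
      rw [this]; exact hs1

/-- `X_n` is `z`-embedded in `X` -/
theorem zEmbedded {n : ℕ} {Y : C.N} (h : C.IsXn (C.nat n) Y) :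
    C.realLine.ZEmbedded C.X (C.TX C.X) Y (C.TX Y) := by
  classical
  rintro Z' ⟨f, hf, hZ'⟩
  change IsContMap f Y (C.TX Y) C.RN C.topR at hf
  obtain ⟨E, hE⟩ := C.sup_exists f
  obtain ⟨F, hF, hF2⟩ := C.zf.exists_fun C.X C.RN (R := fun x r => ∃ y,
      (∀ z, z ∈ y ↔ z ∈ x ∧ z ∈ C.fin E) ∧ (Rel f y r ∨ (y ∉ Y ∧ r = C.realLine.one))) (by
    apply_rules (maxDepth := 500) [Dfn.rel, Dfn.ex, Dfn.all, Dfn.iff, Dfn.imp, Dfn.and, Dfn.or,
      Dfn.fls, Dfn.mem, Dfn.eq, DT.var, DT.const, Set.mem_univ]) (by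
    intro x hx
    obtain ⟨s, rfl⟩ := (C.mem_X x).1 hx
    have key : ∀ y, (∀ z, z ∈ y ↔ z ∈ C.fin s ∧ z ∈ C.fin E) → y = C.fin (s ∩ E) := by
      intro y hy
      apply C.zf.ext
      intro z
      rw [hy, mem_fin, mem_fin, mem_fin]
      constructor
      · rintro ⟨⟨p, hp, rfl⟩, q, hq, e⟩
        exact ⟨p, Finset.mem_inter.2 ⟨hp, by rwa [C.a_inj e]⟩, rfl⟩
      · rintro ⟨p, hp, rfl⟩
        rw [Finset.mem_inter] at hp
        exact ⟨⟨p, hp.1, rfl⟩, p, hp.2, rfl⟩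
    have key2 : ∀ z, z ∈ C.fin (s ∩ E) ↔ z ∈ C.fin s ∧ z ∈ C.fin E := by
      intro z
      rw [mem_fin, mem_fin, mem_fin]
      constructor
      · rintro ⟨p, hp, rfl⟩
        rw [Finset.mem_inter] at hp
        exact ⟨⟨p, hp.1, rfl⟩, p, hp.2, rfl⟩
      · rintro ⟨⟨p, hp, rfl⟩, q, hq, e⟩
        exact ⟨p, Finset.mem_inter.2 ⟨hp, by rwa [C.a_inj e]⟩, rfl⟩
    by_cases hy : C.fin (s ∩ E) ∈ Y
    · obtain ⟨r, hr, hr2⟩ := hf.1.exists_val C.zf hy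
      refine ⟨r, ⟨hr, _, key2, Or.inl hr2⟩, ?_⟩
      rintro r' ⟨-, y, hy', h1⟩
      rw [key y hy'] at h1
      rcases h1 with h1 | h1
      · exact hf.1.unique C.zf h1 hr2
      · exact absurd hy h1.1
    · refine ⟨C.realLine.one, ⟨C.one_mem, _, key2, Or.inr ⟨hy, rfl⟩⟩, ?_⟩
      rintro r' ⟨-, y, hy', h1⟩
      rw [key y hy'] at h1
      rcases h1 with h1 | h1
      · exact absurd (hf.1.mem_left C.zf h1) hy
      · exact h1.2)
  have hFc : IsContMap F C.X (C.TX C.X) C.realLine.R C.realLine.T := by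
    refine C.cont_of_dep hF E ?_
    intro y hy y' hy' h1 r hr
    rw [hF2] at hr ⊢
    obtain ⟨-, hrR, y0, hy0, h2⟩ := hr
    refine ⟨hy', hrR, y0, fun z => ?_, h2⟩
    rw [hy0]
    constructor
    · rintro ⟨h3, h4⟩
      obtain ⟨p, hp, rfl⟩ := (C.mem_fin _ _).1 h4
      exact ⟨(h1 p hp).1 h3, h4⟩
    · rintro ⟨h3, h4⟩
      obtain ⟨p, hp, rfl⟩ := (C.mem_fin _ _).1 h4
      exact ⟨(h1 p hp).2 h3, h4⟩
  obtain ⟨Z, hZ⟩ := C.zf.sep (P := fun x => Rel F x C.realLine.zero) (by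
    apply_rules [Dfn.rel, DT.var, DT.const, Set.mem_univ]) C.X
  refine ⟨Z, ⟨F, hFc, hZ⟩, fun x => ?_⟩
  rw [hZ', hZ]
  -- on `Y` the functions `f` and `F` agree
  have hagree : ∀ x ∈ Y, ∀ r, Rel f x r → Rel F x r := by
    intro x hx r hr
    obtain ⟨s, hs, rfl⟩ := (h.mem_iff x).1 hx
    have hsE : C.fin (s ∩ E) ∈ Y :=
      (h.fin_mem _).2 ((Finset.card_le_card Finset.inter_subset_left).trans hs)
    have h3 := C.supp_lemma hf hE hsE hr
    rw [hF2]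
    refine ⟨C.fin_mem_X s, hf.1.mem_right C.zf hr, C.fin (s ∩ E), fun z => ?_, Or.inl h3⟩
    rw [mem_fin, mem_fin, mem_fin]
    constructor
    · rintro ⟨p, hp, rfl⟩
      rw [Finset.mem_inter] at hp
      exact ⟨⟨p, hp.1, rfl⟩, p, hp.2, rfl⟩
    · rintro ⟨⟨p, hp, rfl⟩, q, hq, e⟩
      exact ⟨p, Finset.mem_inter.2 ⟨hp, by rwa [C.a_inj e]⟩, rfl⟩
  constructor
  · rintro ⟨hx, hr⟩
    exact ⟨⟨h.sub x hx, hagree x hx _ hr⟩, hx⟩
  · rintro ⟨⟨-, hr⟩, hx⟩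
    refine ⟨hx, ?_⟩
    obtain ⟨r, -, hr2⟩ := hf.1.exists_val C.zf hx
    have := hFc.1.unique C.zf hr (hagree x hx r hr2)
    rw [this]; exact hr2

/-- `X` is not realcompact -/
theorem not_realcompact_X : ¬ C.realLine.Realcompact C.X (C.TX C.X) := by
  classical
  rintro ⟨J, hJ⟩
  obtain ⟨P, hP⟩ := C.zf.powerset C.X
  obtain ⟨𝒟, h𝒟⟩ := C.zf.sep (P := fun D => ∃ K, K ∈ C.X ∧ ∀ x, x ∈ D ↔ x ∈ C.X ∧
      ∀ a, a ∈ K → a ∈ x) (by
    apply_rules (maxDepth := 500) [Dfn.ex, Dfn.all, Dfn.iff, Dfn.imp, Dfn.and,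
      Dfn.mem, DT.var, DT.const, Set.mem_univ]) P
  have hD : ∀ s : Finset P2, ∃ D ∈ 𝒟, ∀ x, x ∈ D ↔ x ∈ C.X ∧ ∀ p ∈ s, C.a p ∈ x := by
    intro s
    obtain ⟨D, hD⟩ := C.zf.sep (P := fun x => ∀ a, a ∈ C.fin s → a ∈ x) (by
      apply_rules (maxDepth := 500) [Dfn.all, Dfn.imp, Dfn.mem, DT.var, DT.const,
        Set.mem_univ]) C.X
    refine ⟨D, (h𝒟 D).2 ⟨(hP D).2 fun z hz => ((hD z).1 hz).1, C.fin s, C.fin_mem_X s, hD⟩, ?_⟩
    intro x
    rw [hD]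
    refine and_congr_right fun _ => ?_
    constructor
    · intro h p hp; exact h _ (C.a_mem_fin.2 hp)
    · intro h a ha
      obtain ⟨p, hp, rfl⟩ := (C.mem_fin _ _).1 ha
      exact h p hp
  have hD' : ∀ D ∈ 𝒟, ∃ s : Finset P2, ∀ x, x ∈ D ↔ x ∈ C.X ∧ ∀ p ∈ s, C.a p ∈ x := by
    intro D hD
    obtain ⟨-, K, hK, h⟩ := (h𝒟 D).1 hD
    obtain ⟨s, rfl⟩ := (C.mem_X K).1 hK
    refine ⟨s, fun x => ?_⟩
    rw [h]
    refine and_congr_right fun _ => ?_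
    constructor
    · intro h p hp; exact h _ (C.a_mem_fin.2 hp)
    · intro h a ha
      obtain ⟨p, hp, rfl⟩ := (C.mem_fin _ _).1 ha
      exact h p hp
  refine not_closedInPower C.zf (C.isTop_TX C.X) (𝒟 := 𝒟) ?_ ?_ ?_ ?_ ?_ J hJ
  · intro D hD1
    obtain ⟨s, hs⟩ := hD' D hD1
    refine ⟨fun x hx => ((hs x).1 hx).1, C.fin s, (hs _).2 ⟨C.fin_mem_X s, fun p hp => ?_⟩⟩
    exact C.a_mem_fin.2 hp
  · obtain ⟨D, hD1, -⟩ := hD ∅
    exact ⟨D, hD1⟩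
  · intro D hD1 D' hD1'
    obtain ⟨s, hs⟩ := hD' D hD1
    obtain ⟨s', hs'⟩ := hD' D' hD1'
    obtain ⟨D'', hD'', h''⟩ := hD (s ∪ s')
    refine ⟨D'', hD'', fun x hx => ?_, fun x hx => ?_⟩
    · rw [h''] at hx
      exact (hs x).2 ⟨hx.1, fun p hp => hx.2 p (Finset.mem_union_left _ hp)⟩
    · rw [h''] at hx
      exact (hs' x).2 ⟨hx.1, fun p hp => hx.2 p (Finset.mem_union_right _ hp)⟩
  · intro f hf
    obtain ⟨E, hE⟩ := C.sup_exists f
    obtain ⟨D, hD1, hD2⟩ := hD E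
    obtain ⟨r, hr, hr2⟩ := hf.1.exists_val C.zf (C.fin_mem_X E)
    refine ⟨D, hD1, r, hr, fun x hx => ?_⟩
    rw [hD2] at hx
    obtain ⟨s, rfl⟩ := (C.mem_X x).1 hx.1
    have hsE : s ∩ E = E := by
      rw [Finset.inter_eq_right]
      intro p hp
      exact C.a_mem_fin.1 (hx.2 p hp)
    obtain ⟨r', -, hr2'⟩ := hf.1.exists_val C.zf hx.1
    have h3 := C.supp_lemma hf hE (C.fin_mem_X _) hr2'
    rw [hsE] at h3
    rw [hf.1.unique C.zf hr2 h3]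
    exact hr2'
  · intro x hx
    obtain ⟨s, rfl⟩ := (C.mem_X x).1 hx
    obtain ⟨p, hp⟩ := Infinite.exists_notMem_finset s
    obtain ⟨U, hU, hU2⟩ := C.exists_basic C.X (C.fin s) {p}
    refine ⟨U, hU, (hU2 _).2 ⟨C.fin_mem_X s, fun _ _ => Iff.rfl⟩, fun D hD1 hsub => ?_⟩
    obtain ⟨s', hs'⟩ := hD' D hD1
    have h1 := hsub (C.fin (insert p s')) ((hs' _).2 ⟨C.fin_mem_X _, fun q hq =>
      C.a_mem_fin.2 (Finset.mem_insert_of_mem hq)⟩)
    rw [hU2] at h1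
    have h2 := h1.2 p (Finset.mem_singleton_self p)
    rw [C.a_mem_fin, C.a_mem_fin] at h2
    exact hp (h2.1 (Finset.mem_insert_self p s'))

end CohenModel

end Pool.Agent.ZFM
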