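import Pool.Agent.ZFM.SpaceX2

/-! # Realcompactness of the subspaces `X_n` -/

namespace Pool.Agent.ZFM

namespace CohenModel

variable (C : CohenModel RQ)

theorem ltR_trans {x y z : C.N} (h1 : Rel C.ltR x y) (h2 : Rel C.ltR y z) : Rel C.ltR x z := by
  have hx := ((C.rel_ltR _ _).1 h1).1
  have hy := ((C.rel_ltR _ _).1 h1).2.1
  have hz := ((C.rel_ltR _ _).1 h2).2.1
  have g1 := (C.rel_ltR_iff ⟨x, hx⟩ ⟨y, hy⟩).1 h1
  have g2 := (C.rel_ltR_iff ⟨y, hy⟩ ⟨z, hz⟩).1 h2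
  exact (C.rel_ltR_iff ⟨x, hx⟩ ⟨z, hz⟩).2 (g1.trans g2)

theorem ltR_total {x y : C.N} (hx : x ∈ C.RN) (hy : y ∈ C.RN) :
    Rel C.ltR x y ∨ x = y ∨ Rel C.ltR y x := by
  rcases lt_trichotomy (C.requiv ⟨x, hx⟩) (C.requiv ⟨y, hy⟩) with h | h | h
  · left; exact (C.rel_ltR_iff ⟨x, hx⟩ ⟨y, hy⟩).2 h
  · right; left
    exact congrArg Subtype.val (C.requiv.injective h)
  · right; right; exact (C.rel_ltR_iff ⟨y, hy⟩ ⟨x, hx⟩).2 h

theorem isTop_topR : IsTop C.RN C.topR := by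
  apply IsTop.mk' C.zf
  · intro U hU
    exact ((C.mem_topR U).1 hU).1
  · rw [mem_topR]
    refine ⟨fun z hz => hz, fun x hx => ?_⟩
    set x' : {x : C.N // x ∈ C.RN} := ⟨x, hx⟩ with hx'
    refine ⟨(C.requiv.symm (C.requiv x' - 1)).1, (C.requiv.symm (C.requiv x' + 1)).1, ?_, ?_, ?_⟩
    · have : Rel C.ltR (C.requiv.symm (C.requiv x' - 1)).1 x'.1 := by
        rw [rel_ltR_iff, Equiv.apply_symm_apply]
        exact sub_one_lt _
      exact this
    · have : Rel C.ltR x'.1 (C.requiv.symm (C.requiv x' + 1)).1 := by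
        rw [rel_ltR_iff, Equiv.apply_symm_apply]
        exact lt_add_one _
      exact this
    · intro y h1 _
      exact ((C.rel_ltR _ _).1 h1).2.1
  · intro U hU V hV
    obtain ⟨W, hW⟩ := C.zf.sep (P := fun z => z ∈ V) (by
      apply_rules [Dfn.mem, DT.var, DT.const, Set.mem_univ]) U
    refine ⟨W, ?_, hW⟩
    rw [mem_topR] at hU hV ⊢
    refine ⟨fun z hz => hU.1 z ((hW z).1 hz).1, fun x hx => ?_⟩
    obtain ⟨hx1, hx2⟩ := (hW x).1 hx
    obtain ⟨a, b, h1, h2, h3⟩ := hU.2 x hx1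
    obtain ⟨a', b', h1', h2', h3'⟩ := hV.2 x hx2
    -- the larger of `a, a'`
    obtain ⟨A, hA1, hA2⟩ : ∃ A, Rel C.ltR A x ∧ ∀ y, Rel C.ltR A y → Rel C.ltR a y ∧ Rel C.ltR a' y := by
      rcases C.ltR_total ((C.rel_ltR _ _).1 h1).1 ((C.rel_ltR _ _).1 h1').1 with h | h | h
      · exact ⟨a', h1', fun y hy => ⟨C.ltR_trans h hy, hy⟩⟩
      · exact ⟨a', h1', fun y hy => ⟨h ▸ hy, hy⟩⟩
      · exact ⟨a, h1, fun y hy => ⟨hy, C.ltR_trans h hy⟩⟩
    obtain ⟨B, hB1, hB2⟩ : ∃ B, Rel C.ltR x B ∧ ∀ y, Rel C.ltR y B → Rel C.ltR y b ∧ Rel C.ltR y b' := by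
      rcases C.ltR_total ((C.rel_ltR _ _).1 h2).2.1 ((C.rel_ltR _ _).1 h2').2.1 with h | h | h
      · exact ⟨b, h2, fun y hy => ⟨hy, C.ltR_trans hy h⟩⟩
      · exact ⟨b, h2, fun y hy => ⟨hy, h ▸ hy⟩⟩
      · exact ⟨b', h2', fun y hy => ⟨C.ltR_trans hy h, hy⟩⟩
    exact ⟨A, B, hA1, hB1, fun y hy1 hy2 => (hW y).2
      ⟨h3 y (hA2 y hy1).1 (hB2 y hy2).1, h3' y (hA2 y hy1).2 (hB2 y hy2).2⟩⟩
  · intro S hS
    obtain ⟨W, hW⟩ := C.zf.union S
    refine ⟨W, ?_, hW⟩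
    rw [mem_topR]
    refine ⟨fun z hz => ?_, fun x hx => ?_⟩
    · obtain ⟨U, hU, hz⟩ := (hW z).1 hz
      exact ((C.mem_topR U).1 (hS U hU)).1 z hz
    · obtain ⟨U, hU, hx⟩ := (hW x).1 hx
      obtain ⟨a, b, h1, h2, h3⟩ := ((C.mem_topR U).1 (hS U hU)).2 x hx
      exact ⟨a, b, h1, h2, fun y hy1 hy2 => (hW y).2 ⟨U, hU, h3 y hy1 hy2⟩⟩

/-- finite intersections of subbasic sets in a power of `E` with exponent `A` -/
theorem fin_inter {E TE P TP : C.N} (hpow : IsPowerSpace E TE C.A P TP) {V : C.N} (hV : V ∈ TE)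
    (κ : Finset P2) : ∃ W ∈ TP, ∀ w, w ∈ W ↔ w ∈ P ∧ ∀ p ∈ κ, ∃ r, r ∈ V ∧ Rel w (C.a p) r := by
  classical
  obtain ⟨hP, hTP, hev, hmin⟩ := hpow
  induction κ using Finset.induction_on with
  | empty => exact ⟨P, hTP.whole, fun w => by simp⟩
  | insert p κ _ ih =>
    obtain ⟨W, hW, hW2⟩ := ih
    obtain ⟨W', hW'⟩ := C.zf.sep (P := fun w => ∃ r, r ∈ V ∧ Rel w (C.a p) r) (by
      apply_rules (maxDepth := 500) [Dfn.rel, Dfn.ex, Dfn.and, Dfn.mem, DT.var, DT.const,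
        Set.mem_univ]) P
    have h1 := hev (C.a p) ((C.mem_A _).2 ⟨p, rfl⟩) V hV W' hW'
    obtain ⟨W'', hW''⟩ := C.zf.sep (P := fun w => w ∈ W') (by
      apply_rules (maxDepth := 500) [Dfn.mem, DT.var, DT.const, Set.mem_univ]) W
    refine ⟨W'', hTP.inter W hW W' h1 W'' hW'', fun w => ?_⟩
    rw [hW'', hW2, hW']
    simp only [Finset.mem_insert, forall_eq_or_imp]
    tauto

/-- `X_n` is `E`-compact for each `T₁` space `E` with two distinct points -/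
theorem closedInPower_Xn {E TE : C.N} {e0 e1 : C.N} (hE : IsTop E TE) (he0 : e0 ∈ E)
    (he1 : e1 ∈ E) (h01 : e0 ≠ e1)
    (hT1 : ∀ r ∈ E, ∀ r' ∈ E, r ≠ r' → ∃ V ∈ TE, r ∈ V ∧ r' ∉ V)
    {n : ℕ} {Y : C.N} (h : C.IsXn (C.nat n) Y) : ClosedInPower E TE C.A Y (C.TX Y) := by
  classical
  obtain ⟨V0, hV0, h00, h10⟩ := hT1 e0 he0 e1 he1 h01
  obtain ⟨V1, hV1, h11, h01'⟩ := hT1 e1 he1 e0 he0 (Ne.symm h01)
  have haA : ∀ p, C.a p ∈ C.A := fun p => (C.mem_A _).2 ⟨p, rfl⟩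
  refine closedInPower_of C.zf (C.isTop_TX Y)
    (H := fun x a r => (a ∈ x ∧ r = e1) ∨ (a ∉ x ∧ r = e0)) ?_ ?_ ?_ ?_ ?_ ?_
  · apply_rules (maxDepth := 500) [Dfn.or, Dfn.and, Dfn.not, Dfn.mem, Dfn.eq, DT.var, DT.const,
      Set.mem_univ]
  · intro x hx a ha
    by_cases hax : a ∈ x
    · refine ⟨e1, ⟨he1, Or.inl ⟨hax, rfl⟩⟩, ?_⟩
      rintro r ⟨-, h1 | h1⟩
      · exact h1.2
      · exact absurd hax h1.1
    · refine ⟨e0, ⟨he0, Or.inr ⟨hax, rfl⟩⟩, ?_⟩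
      rintro r ⟨-, h1 | h1⟩
      · exact absurd h1.1 hax
      · exact h1.2
  · intro a ha V hV U hU
    obtain ⟨p, rfl⟩ := (C.mem_A a).1 ha
    rw [mem_TX']
    refine ⟨fun x hx => ((hU x).1 hx).1, fun x hx => ⟨{p}, fun y hy hp => (hU y).2 ⟨hy, ?_⟩⟩⟩
    obtain ⟨-, r, hrV, hrE, hr⟩ := (hU x).1 hx
    refine ⟨r, hrV, hrE, ?_⟩
    rw [hp p (Finset.mem_singleton_self p)]
    exact hr
  · intro T' hT' hsub U hU
    -- subbasic sets
    have hsub1 : ∀ (p : P2) (x : C.N), ∃ W ∈ T', ∀ y, y ∈ W ↔ y ∈ Y ∧ (C.a p ∈ y ↔ C.a p ∈ x) := by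
      intro p x
      obtain ⟨W, hW⟩ := C.zf.sep (P := fun y => (C.a p ∈ y ↔ C.a p ∈ x)) (by
        apply_rules (maxDepth := 500) [Dfn.iff, Dfn.mem, DT.var, DT.const, Set.mem_univ]) Y
      refine ⟨W, ?_, hW⟩
      by_cases hpx : C.a p ∈ x
      · refine hsub (C.a p) (haA p) V1 hV1 W fun y => ?_
        rw [hW]
        refine and_congr_right fun _ => ?_
        constructor
        · intro h2
          exact ⟨e1, h11, he1, Or.inl ⟨h2.2 hpx, rfl⟩⟩
        · rintro ⟨r, hr, -, h2 | h2⟩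
          · exact ⟨fun _ => hpx, fun _ => h2.1⟩
          · rw [h2.2] at hr; exact absurd hr h01'
      · refine hsub (C.a p) (haA p) V0 hV0 W fun y => ?_
        rw [hW]
        refine and_congr_right fun _ => ?_
        constructor
        · intro h2
          exact ⟨e0, h00, he0, Or.inr ⟨fun h3 => hpx (h2.1 h3), rfl⟩⟩
        · rintro ⟨r, hr, -, h2 | h2⟩
          · rw [h2.2] at hr; exact absurd hr h10
          · exact ⟨fun h3 => absurd h3 h2.1, fun h3 => absurd h3 hpx⟩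
    have hbas : ∀ (κ : Finset P2) (x : C.N), ∃ W ∈ T', ∀ y, y ∈ W ↔ y ∈ Y ∧
        ∀ p ∈ κ, (C.a p ∈ y ↔ C.a p ∈ x) := by
      intro κ x
      induction κ using Finset.induction_on with
      | empty => exact ⟨Y, hT'.whole, fun w => by simp⟩
      | insert p κ _ ih =>
        obtain ⟨W, hW, hW2⟩ := ih
        obtain ⟨W', hW', hW2'⟩ := hsub1 p x
        obtain ⟨W'', hW''⟩ := C.zf.sep (P := fun w => w ∈ W') (by
          apply_rules (maxDepth := 500) [Dfn.mem, DT.var, DT.const, Set.mem_univ]) W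
        refine ⟨W'', hT'.inter W hW W' hW' W'' hW'', fun w => ?_⟩
        rw [hW'', hW2, hW2']
        simp only [Finset.mem_insert, forall_eq_or_imp]
        tauto
    obtain ⟨S, hS⟩ := C.zf.sep (P := fun W => ∀ y, y ∈ W → y ∈ U) (by
      apply_rules (maxDepth := 500) [Dfn.all, Dfn.imp, Dfn.mem, DT.var, DT.const, Set.mem_univ]) T'
    have hUT := (C.mem_TX' Y U).1 hU
    apply hT'.union S (fun W hW => ((hS W).1 hW).1) U
    intro x
    constructor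
    · intro hx
      obtain ⟨κ, hκ⟩ := hUT.2 x hx
      obtain ⟨W, hW, hW2⟩ := hbas κ x
      refine ⟨W, (hS W).2 ⟨hW, fun y hy => ?_⟩, (hW2 x).2 ⟨hUT.1 x hx, fun _ _ => Iff.rfl⟩⟩
      exact hκ y ((hW2 y).1 hy).1 ((hW2 y).1 hy).2
    · rintro ⟨W, hW, hx⟩
      exact ((hS W).1 hW).2 x hx
  · intro x hx x' hx' hxx
    obtain ⟨s, -, rfl⟩ := (h.mem_iff x).1 hx
    obtain ⟨s', -, rfl⟩ := (h.mem_iff x').1 hx'
    congr 1
    ext p
    rw [← C.a_mem_fin, ← C.a_mem_fin (s := s')]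
    have h1 := hxx (C.a p) (haA p) e1 he1
    constructor
    · intro h2
      rcases h1.1 (Or.inl ⟨h2, rfl⟩) with h3 | h3
      · exact h3.1
      · exact absurd h3.2.symm h01
    · intro h2
      rcases h1.2 (Or.inl ⟨h2, rfl⟩) with h3 | h3
      · exact h3.1
      · exact absurd h3.2.symm h01
  · intro P TP hpow u hu hcl
    have hP := hpow.1
    have huf := (hP u).1 hu
    have hTP := hpow.2.1
    have hev := hpow.2.2.1
    -- the values of `u` are `e0`, `e1`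
    have hval : ∀ a r, Rel u a r → r = e0 ∨ r = e1 := by
      intro a r har
      by_contra hcon
      push Not at hcon
      have hrE := huf.mem_right C.zf har
      have haA' := huf.mem_left C.zf har
      obtain ⟨V, hV, h2, h3⟩ := hT1 r hrE e0 he0 hcon.1
      obtain ⟨V', hV', h2', h3'⟩ := hT1 r hrE e1 he1 hcon.2
      obtain ⟨V'', hV''⟩ := C.zf.sep (P := fun w => w ∈ V') (by
        apply_rules (maxDepth := 500) [Dfn.mem, DT.var, DT.const, Set.mem_univ]) V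
      have hV''T := hE.inter V hV V' hV' V'' hV''
      obtain ⟨W, hW⟩ := C.zf.sep (P := fun w => ∃ y, y ∈ V'' ∧ Rel w a y) (by
        apply_rules (maxDepth := 500) [Dfn.rel, Dfn.ex, Dfn.and, Dfn.mem, DT.var, DT.const,
          Set.mem_univ]) P
      have hWT := hev a haA' V'' hV''T W hW
      obtain ⟨x, hx, w, hw, hw2⟩ := hcl W hWT ((hW u).2 ⟨hu, r, (hV'' r).2 ⟨h2, h2'⟩, har⟩)
      obtain ⟨-, y, hy, hay⟩ := (hW w).1 hw
      rw [hV''] at hy
      rcases ((hw2 a y).1 hay).2.2 with h4 | h4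
      · rw [h4.2] at hy; exact h3' hy.2
      · rw [h4.2] at hy; exact h3 hy.1
    obtain ⟨y, hy⟩ := C.zf.sep (P := fun a => Rel u a e1) (by
      apply_rules (maxDepth := 500) [Dfn.rel, DT.var, DT.const, Set.mem_univ]) C.A
    -- finite subsets have at most `n` elements
    have hfin : ∀ s : Finset P2, (∀ p ∈ s, C.a p ∈ y) → s.card ≤ n := by
      intro s hs
      obtain ⟨W, hW, hW2⟩ := C.fin_inter hpow hV1 s
      obtain ⟨x, hx, w, hw, hw2⟩ := hcl W hW ((hW2 u).2 ⟨hu, fun p hp =>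
        ⟨e1, h11, ((hy _).1 (hs p hp)).2⟩⟩)
      obtain ⟨s', hs', rfl⟩ := (h.mem_iff x).1 hx
      refine (Finset.card_le_card ?_).trans hs'
      intro p hp
      obtain ⟨r, hr, hpr⟩ := ((hW2 w).1 hw).2 p hp
      rcases ((hw2 _ _).1 hpr).2.2 with h4 | h4
      · exact C.a_mem_fin.1 h4.1
      · rw [h4.2] at hr; exact absurd hr h01'
    have hfinite : {p : P2 | C.a p ∈ y}.Finite := by
      by_contra hinf
      obtain ⟨s, hs1, hs2⟩ := Set.Infinite.exists_subset_card_eq hinf (n+1)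
      have := hfin s (fun p hp => hs1 hp)
      omega
    refine ⟨C.fin hfinite.toFinset, (h.fin_mem _).2 (hfin _ fun p hp => ?_), fun a r har => ?_⟩
    · simpa using hp
    · obtain ⟨p, rfl⟩ := (C.mem_A a).1 (huf.mem_left C.zf har)
      have e : C.a p ∈ C.fin hfinite.toFinset ↔ Rel u (C.a p) e1 := by
        rw [C.a_mem_fin]
        simp only [Set.Finite.mem_toFinset, Set.mem_ofPred_eq]
        rw [hy]
        exact ⟨fun h => h.2, fun h => ⟨haA p, h⟩⟩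
      rw [e]
      rcases hval _ _ har with rfl | rfl
      · right
        exact ⟨fun h2 => h01 (huf.unique C.zf har h2), rfl⟩
      · left
        exact ⟨har, rfl⟩

theorem realcompact_Xn {n : ℕ} {Y : C.N} (h : C.IsXn (C.nat n) Y) :
    C.realLine.Realcompact Y (C.TX Y) :=
  ⟨C.A, C.closedInPower_Xn C.isTop_topR C.zero_mem C.one_mem C.real_zero_ne_one
    (fun _ hr _ hr' hne => C.t1_real hr hr' hne) h⟩

end CohenModel

end Pool.Agent.ZFM
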