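import Pool.Agent.ZFM.SpaceX3
import Pool.Agent.ZFM.DefsHewitt

/-! # The space of finite sets of Cohen reals is a P-space whose Hewitt extension is not -/

namespace Pool.Agent.ZFM

namespace CohenModel

variable (C : CohenModel RQ)

theorem eq_omega {w : C.N} (hw : IsOmega w) : w = C.omega := by
  apply C.zf.ext
  intro z
  exact ⟨hw.2 _ C.isOmega.1 z, C.isOmega.2 _ hw.1 z⟩

/-- `X` is a P-space -/
theorem isPSpace_X : IsPSpace C.X (C.TX C.X) := by
  classical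
  intro w S G hw hS hG
  obtain rfl := C.eq_omega hw
  obtain ⟨E, hE⟩ := C.sup_exists S
  rw [mem_TX']
  refine ⟨fun z hz => ((hG z).1 hz).1, fun x hx => ?_⟩
  obtain ⟨hxX, hxS⟩ := (hG x).1 hx
  obtain ⟨s, rfl⟩ := (C.mem_X x).1 hxX
  refine ⟨E ∪ s, fun y hy hys => (hG y).2 ⟨hy, fun ν U hU => ?_⟩⟩
  by_contra hyU
  obtain ⟨n, rfl⟩ := (C.mem_omega ν).1 (hS.mem_left C.zf hU)
  obtain ⟨s', rfl⟩ := (C.mem_X y).1 hy
  set κ := E ∪ s with hκ
  set s1 := s' \ κ with hs1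
  have hs' : s' = s ∪ s1 := by
    ext p
    simp only [hs1, Finset.mem_union, Finset.mem_sdiff]
    by_cases hp : p ∈ κ
    · have := hys p hp
      rw [C.a_mem_fin, C.a_mem_fin] at this
      tauto
    · have : p ∉ s := fun h => hp (Finset.mem_union_right _ h)
      tauto
  have hdisj : Disjoint (ind s1).support κ := by
    rw [support_ind]; exact Finset.sdiff_disjoint
  have hxU := hxS _ _ hU
  have hUT := (C.mem_TX' C.X U).1 (hS.mem_right C.zf hU)
  obtain ⟨κ', hκ'⟩ := hUT.2 _ hxU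
  have hSκ : S ∈ {x | C.Sup κ x} := C.sup_mono Finset.subset_union_left hE
  have hn : C.nat n ∈ {x | C.Sup κ x} := C.sup_nat n κ
  have hX : C.FX ∈ {x | C.Sup κ x} := C.sup_FX κ
  have hc0 : C.c (ind s) ∈ {x | C.Sup κ x} :=
    C.sup_c _ _ (by rw [support_ind]; exact Finset.subset_union_right)
  obtain ⟨g, hg1, hg2, hg3⟩ := C.move' (E := κ)
    (P := fun c => ∃ x, (∀ z, z ∈ x ↔ (∃ w, Rel c z w) ∨ (∃ w, Rel (C.c (ind s)) z w)) ∧
      ∃ U, Rel S (C.nat n) U ∧ x ∉ U) (by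
      apply_rules (maxDepth := 500) [Dfn.rel, Dfn.ex, Dfn.all, Dfn.iff, Dfn.or, Dfn.and, Dfn.not,
        Dfn.mem, DT.var, DT.const]) κ' hdisj (by
      refine ⟨C.fin s', fun z => ?_, U, hU, hyU⟩
      rw [mem_fin]
      constructor
      · rintro ⟨p, hp, rfl⟩
        rw [hs', Finset.mem_union] at hp
        rcases hp with hp | hp
        · right
          exact ⟨_, (C.rel_c _ _ _).2 ⟨p, by rwa [support_ind], rfl, rfl⟩⟩
        · left
          exact ⟨_, (C.rel_c _ _ _).2 ⟨p, by rwa [support_ind], rfl, rfl⟩⟩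
      · rintro (⟨w, hw⟩ | ⟨w, hw⟩)
        · obtain ⟨p, hp, rfl, -⟩ := (C.rel_c _ _ _).1 hw
          rw [support_ind] at hp
          exact ⟨p, by rw [hs']; exact Finset.mem_union_right _ hp, rfl⟩
        · obtain ⟨p, hp, rfl, -⟩ := (C.rel_c _ _ _).1 hw
          rw [support_ind] at hp
          exact ⟨p, by rw [hs']; exact Finset.mem_union_left _ hp, rfl⟩)
  obtain ⟨x, hx, U', hU', hxU'⟩ := hg3
  obtain rfl := hS.unique C.zf hU hU'
  apply hxU'
  -- `x` is a finite set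
  have hxfin : x = C.fin (s ∪ (gt g (ind s1)).support) := by
    apply C.zf.ext
    intro z
    rw [hx, mem_fin]
    constructor
    · rintro (⟨w, hw⟩ | ⟨w, hw⟩)
      · obtain ⟨p, hp, rfl, -⟩ := (C.rel_c _ _ _).1 hw
        exact ⟨p, Finset.mem_union_right _ hp, rfl⟩
      · obtain ⟨p, hp, rfl, -⟩ := (C.rel_c _ _ _).1 hw
        rw [support_ind] at hp
        exact ⟨p, Finset.mem_union_left _ hp, rfl⟩
    · rintro ⟨p, hp, rfl⟩
      rcases Finset.mem_union.1 hp with hp | hp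
      · right
        exact ⟨_, (C.rel_c _ _ _).2 ⟨p, by rwa [support_ind], rfl, rfl⟩⟩
      · left
        exact ⟨_, (C.rel_c _ _ _).2 ⟨p, hp, rfl, rfl⟩⟩
  rw [hxfin]
  apply hκ' _ (C.fin_mem_X _)
  intro p hp
  rw [C.a_mem_fin, C.a_mem_fin, Finset.mem_union]
  constructor
  · rintro (h | h)
    · exact h
    · obtain ⟨q', hq', rfl⟩ := (mem_gt_support' g _ _).1 h
      exact absurd hp (hg2 q' hq')
  · exact Or.inl

/-! ### `E`-complete regularity -/

/-- a subspace of `X` embeds in a power of each `T₁` space `E` with two distinct points -/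
theorem subspaceOfPower_TX {E TE : C.N} {e0 e1 : C.N} (he0 : e0 ∈ E)
    (he1 : e1 ∈ E) (h01 : e0 ≠ e1)
    (hT1 : ∀ r ∈ E, ∀ r' ∈ E, r ≠ r' → ∃ V ∈ TE, r ∈ V ∧ r' ∉ V)
    {Y : C.N} (h : IsSub Y C.X) : SubspaceOfPower E TE C.A Y (C.TX Y) := by
  classical
  obtain ⟨V0, hV0, h00, h10⟩ := hT1 e0 he0 e1 he1 h01
  obtain ⟨V1, hV1, h11, h01'⟩ := hT1 e1 he1 e0 he0 (Ne.symm h01)
  have haA : ∀ p, C.a p ∈ C.A := fun p => (C.mem_A _).2 ⟨p, rfl⟩
  refine subspaceOfPower_of C.zf (C.isTop_TX Y)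
    (H := fun x a r => (a ∈ x ∧ r = e1) ∨ (a ∉ x ∧ r = e0)) ?_ ?_ ?_ ?_ ?_
  · apply_rules (maxDepth := 500) [Dfn.or, Dfn.and, Dfn.not, Dfn.mem, Dfn.eq, DT.var, DT.const,
      Set.mem_univ]
  · intro x hx a ha
    by_cases hax : a ∈ x
    · refine ⟨e1, ⟨he1, Or.inl ⟨hax, rfl⟩⟩, ?_⟩
      rintro r ⟨-, h1 | h1⟩
      · exact h1.2
      · exact absurd hax h1.1
    · refine ⟨e0, ⟨he0, Or.inr ⟨hax, rfl⟩⟩, ?_⟩
      rintro r ⟨-, h1 | h1⟩
      · exact absurd h1.1 hax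
      · exact h1.2
  · intro a ha V hV U hU
    obtain ⟨p, rfl⟩ := (C.mem_A a).1 ha
    rw [mem_TX']
    refine ⟨fun x hx => ((hU x).1 hx).1, fun x hx => ⟨{p}, fun y hy hp => (hU y).2 ⟨hy, ?_⟩⟩⟩
    obtain ⟨-, r, hrV, hrE, hr⟩ := (hU x).1 hx
    refine ⟨r, hrV, hrE, ?_⟩
    rw [hp p (Finset.mem_singleton_self p)]
    exact hr
  · intro T' hT' hsub U hU
    -- subbasic sets
    have hsub1 : ∀ (p : P2) (x : C.N), ∃ W ∈ T', ∀ y, y ∈ W ↔ y ∈ Y ∧ (C.a p ∈ y ↔ C.a p ∈ x) := by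
      intro p x
      obtain ⟨W, hW⟩ := C.zf.sep (P := fun y => (C.a p ∈ y ↔ C.a p ∈ x)) (by
        apply_rules (maxDepth := 500) [Dfn.iff, Dfn.mem, DT.var, DT.const, Set.mem_univ]) Y
      refine ⟨W, ?_, hW⟩
      by_cases hpx : C.a p ∈ x
      · refine hsub (C.a p) (haA p) V1 hV1 W fun y => ?_
        rw [hW]
        refine and_congr_right fun _ => ?_
        constructor
        · intro h2
          exact ⟨e1, h11, he1, Or.inl ⟨h2.2 hpx, rfl⟩⟩
        · rintro ⟨r, hr, -, h2 | h2⟩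
          · exact ⟨fun _ => hpx, fun _ => h2.1⟩
          · rw [h2.2] at hr; exact absurd hr h01'
      · refine hsub (C.a p) (haA p) V0 hV0 W fun y => ?_
        rw [hW]
        refine and_congr_right fun _ => ?_
        constructor
        · intro h2
          exact ⟨e0, h00, he0, Or.inr ⟨fun h3 => hpx (h2.1 h3), rfl⟩⟩
        · rintro ⟨r, hr, -, h2 | h2⟩
          · rw [h2.2] at hr; exact absurd hr h10
          · exact ⟨fun h3 => absurd h3 h2.1, fun h3 => absurd h3 hpx⟩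
    have hbas : ∀ (κ : Finset P2) (x : C.N), ∃ W ∈ T', ∀ y, y ∈ W ↔ y ∈ Y ∧
        ∀ p ∈ κ, (C.a p ∈ y ↔ C.a p ∈ x) := by
      intro κ x
      induction κ using Finset.induction_on with
      | empty => exact ⟨Y, hT'.whole, fun w => by simp⟩
      | insert p κ _ ih =>
        obtain ⟨W, hW, hW2⟩ := ih
        obtain ⟨W', hW', hW2'⟩ := hsub1 p x
        obtain ⟨W'', hW''⟩ := C.zf.sep (P := fun w => w ∈ W') (by
          apply_rules (maxDepth := 500) [Dfn.mem, DT.var, DT.const, Set.mem_univ]) W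
        refine ⟨W'', hT'.inter W hW W' hW' W'' hW'', fun w => ?_⟩
        rw [hW'', hW2, hW2']
        simp only [Finset.mem_insert, forall_eq_or_imp]
        tauto
    obtain ⟨S, hS⟩ := C.zf.sep (P := fun W => ∀ y, y ∈ W → y ∈ U) (by
      apply_rules (maxDepth := 500) [Dfn.all, Dfn.imp, Dfn.mem, DT.var, DT.const, Set.mem_univ]) T'
    have hUT := (C.mem_TX' Y U).1 hU
    apply hT'.union S (fun W hW => ((hS W).1 hW).1) U
    intro x
    constructor
    · intro hx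
      obtain ⟨κ, hκ⟩ := hUT.2 x hx
      obtain ⟨W, hW, hW2⟩ := hbas κ x
      refine ⟨W, (hS W).2 ⟨hW, fun y hy => ?_⟩, (hW2 x).2 ⟨hUT.1 x hx, fun _ _ => Iff.rfl⟩⟩
      exact hκ y ((hW2 y).1 hy).1 ((hW2 y).1 hy).2
    · rintro ⟨W, hW, hx⟩
      exact ((hS W).1 hW).2 x hx
  · intro x hx x' hx' hxx
    obtain ⟨s, rfl⟩ := (C.mem_X x).1 (h x hx)
    obtain ⟨s', rfl⟩ := (C.mem_X x').1 (h x' hx')
    congr 1
    ext p
    rw [← C.a_mem_fin, ← C.a_mem_fin (s := s')]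
    have h1 := hxx (C.a p) (haA p) e1 he1
    constructor
    · intro h2
      rcases h1.1 (Or.inl ⟨h2, rfl⟩) with h3 | h3
      · exact h3.1
      · exact absurd h3.2.symm h01
    · intro h2
      rcases h1.2 (Or.inl ⟨h2, rfl⟩) with h3 | h3
      · exact h3.1
      · exact absurd h3.2.symm h01

/-! ### Discrete spaces -/

theorem isTop_discrete {M : Type*} [Membership M M] (h : IsZF M) {E TE : M}
    (hTE : IsDiscreteTop E TE) : IsTop E TE := by
  apply IsTop.mk' h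
  · intro U hU
    exact (hTE U).1 hU
  · exact (hTE E).2 fun z hz => hz
  · intro U hU V hV
    obtain ⟨W, hW⟩ := h.sep (P := fun z => z ∈ V) (by
      apply_rules [Dfn.mem, DT.var, DT.const, Set.mem_univ]) U
    exact ⟨W, (hTE W).2 fun z hz => (hTE U).1 hU z ((hW z).1 hz).1, hW⟩
  · intro S hS
    obtain ⟨W, hW⟩ := h.union S
    refine ⟨W, (hTE W).2 fun z hz => ?_, hW⟩
    obtain ⟨U, hU, hz⟩ := (hW z).1 hz
    exact (hTE U).1 (hS U hU) z hz

/-- a discrete space is Tychonoff -/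
theorem tychonoff_discrete {E TE : C.N} (hTE : IsDiscreteTop E TE) :
    C.realLine.Tychonoff E TE where
  top := isTop_discrete C.zf hTE
  t1 := by
    intro x hx D hD
    exact ⟨fun z hz => by rw [(hD z).1 hz]; exact hx, fun U hU => (hTE U).2 fun z hz =>
      ((hU z).1 hz).1⟩
  separated := by
    intro F hF x hx hxF
    obtain ⟨f, hf, hf2⟩ := C.zf.exists_fun E C.RN (R := fun y r =>
      (y ∉ F ∧ r = C.realLine.zero) ∨ (y ∈ F ∧ r = C.realLine.one)) (by
        apply_rules (maxDepth := 500) [Dfn.and, Dfn.or, Dfn.not,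
          Dfn.mem, Dfn.eq, DT.var, DT.const, Set.mem_univ]) (by
      intro y hy
      by_cases h : y ∈ F
      · refine ⟨C.realLine.one, ⟨C.one_mem, Or.inr ⟨h, rfl⟩⟩, ?_⟩
        rintro r ⟨-, h1 | h1⟩
        · exact absurd h h1.1
        · exact h1.2
      · refine ⟨C.realLine.zero, ⟨C.zero_mem, Or.inl ⟨h, rfl⟩⟩, ?_⟩
        rintro r ⟨-, h1 | h1⟩
        · exact h1.2
        · exact absurd h1.1 h)
    refine ⟨f, ⟨hf, fun V _ U hU => (hTE U).2 fun z hz => ((hU z).1 hz).1⟩, ?_, ?_, ?_⟩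
    · intro y r hr
      rcases ((hf2 y r).1 hr).2.2 with ⟨-, rfl⟩ | ⟨-, rfl⟩
      · exact ⟨C.ltR_irrefl _, C.not_rel_one_zero⟩
      · exact ⟨C.not_rel_one_zero, C.ltR_irrefl _⟩
    · exact (hf2 _ _).2 ⟨hx, C.zero_mem, Or.inl ⟨hxF, rfl⟩⟩
    · intro y hy
      exact (hf2 _ _).2 ⟨hF.1 y hy, C.one_mem, Or.inr ⟨hy, rfl⟩⟩

/-- a space is `E`-compact for itself -/
theorem eCompact_self {M : Type*} [Membership M M] (h : IsZF M) {E TE : M} (hE : IsTop E TE) :
    ECompact E TE E TE := by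
  obtain ⟨e, he⟩ := h.exists_empty
  obtain ⟨J, hJ⟩ := h.exists_sing e
  have heJ : e ∈ J := (hJ e).2 rfl
  refine ⟨J, ⟨e, heJ⟩, ?_⟩
  refine closedInPower_of h hE (H := fun x _ r => x = r) ?_ ?_ ?_ ?_ ?_ ?_
  · apply_rules [Dfn.eq, DT.var]
  · intro x hx j _
    exact ⟨x, ⟨hx, rfl⟩, fun y hy => hy.2.symm⟩
  · intro j _ V hV U hU
    have : U = V := h.ext fun x => by
      rw [hU]
      constructor
      · rintro ⟨-, r, hr, -, rfl⟩; exact hr
      · intro hx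
        exact ⟨hE.sub V hV x hx, x, hx, hE.sub V hV x hx, rfl⟩
    rw [this]; exact hV
  · intro T' _ hsub U hU
    refine hsub e heJ U hU U fun x => ?_
    constructor
    · intro hx
      exact ⟨hE.sub U hU x hx, x, hx, hE.sub U hU x hx, rfl⟩
    · rintro ⟨-, r, hr, -, rfl⟩; exact hr
  · intro x hx x' hx' hxx
    exact ((hxx e heJ x hx).1 rfl).symm
  · intro P TP hpow u hu _
    have huf := (hpow.1 u).1 hu
    obtain ⟨r, hr, hr2⟩ := huf.exists_val h heJ
    refine ⟨r, hr, fun j r' hj => ?_⟩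
    have hjJ := huf.mem_left h hj
    rw [hJ] at hjJ
    subst hjJ
    exact huf.unique h hr2 hj

end CohenModel

end Pool.Agent.ZFM
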