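import Pool.Agent.ZFM.SpaceX4

/-! # The Hewitt extension of the space of finite sets of Cohen reals -/

namespace Pool.Agent.ZFM

section general

variable {M : Type*} [Membership M M] {A : Set M}

theorem Dfn.isContMap {f X TX Y TY : (ℕ → M) → M} (h1 : DT A f) (h2 : DT A X) (h3 : DT A TX)
    (h4 : DT A Y) (h5 : DT A TY) :
    Dfn A (fun v => IsContMap (f v) (X v) (TX v) (Y v) (TY v)) := by
  have h : Dfn A (fun v : ℕ → M => IsContMap (v 0) (v 1) (v 2) (v 3) (v 4)) := by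
    unfold IsContMap
    apply_rules (maxDepth := 500) [Dfn.rel, Dfn.isFun, Dfn.ex, Dfn.all, Dfn.and, Dfn.iff, Dfn.imp,
        Dfn.mem, DT.var]
  exact Dfn.subst (t := fun i v => match i with
    | 0 => f v
    | 1 => X v
    | 2 => TX v
    | 3 => Y v
    | _ => TY v) h (fun i => by
      match i with
      | 0 => exact h1
      | 1 => exact h2
      | 2 => exact h3
      | 3 => exact h4
      | _+4 => exact h5)

theorem exists_contSet (h : IsZF M) (X T E TE : M) : ∃ C : M, ∀ f, f ∈ C ↔ IsContMap f X T E TE := by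
  obtain ⟨XE, hXE⟩ := h.exists_prod X E
  obtain ⟨P, hP⟩ := h.powerset XE
  obtain ⟨C, hC⟩ := h.sep (P := fun f => IsContMap f X T E TE) (by
    apply_rules [Dfn.isContMap, DT.var, DT.const, Set.mem_univ]) P
  refine ⟨C, fun f => ?_⟩
  rw [hC, hP]
  constructor
  · exact fun h => h.2
  · intro hf
    refine ⟨fun z hz => ?_, hf⟩
    rw [hXE]
    obtain ⟨x, hx, y, hy, hp⟩ := hf.1.1 z hz
    exact ⟨x, hx, y, hy, hp⟩

theorem exists_subspaceTop (h : IsZF M) (T S : M) : ∃ TS : M, IsSubspaceTop T S TS := by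
  obtain ⟨P, hP⟩ := h.powerset S
  obtain ⟨TS, hTS⟩ := h.sep (P := fun V => ∃ U, U ∈ T ∧ ∀ z, z ∈ V ↔ z ∈ U ∧ z ∈ S) (by
    apply_rules (maxDepth := 500) [Dfn.ex, Dfn.all, Dfn.iff, Dfn.and, Dfn.mem, DT.var,
      DT.const, Set.mem_univ]) P
  refine ⟨TS, fun V => ?_⟩
  rw [hTS, hP]
  constructor
  · exact fun h => h.2
  · rintro ⟨U, hU, hV⟩
    exact ⟨fun z hz => ((hV z).1 hz).2, U, hU, hV⟩

theorem isTop_subspace (h : IsZF M) {P T S TS : M} (hT : IsTop P T) (hS : IsSub S P)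
    (hTS : IsSubspaceTop T S TS) : IsTop S TS := by
  apply IsTop.mk' h
  · intro U hU z hz
    obtain ⟨W, -, hW⟩ := (hTS U).1 hU
    exact ((hW z).1 hz).2
  · refine (hTS S).2 ⟨P, hT.whole, fun z => ⟨fun hz => ⟨hS z hz, hz⟩, fun hz => hz.2⟩⟩
  · intro U hU V hV
    obtain ⟨U', hU', h1⟩ := (hTS U).1 hU
    obtain ⟨V', hV', h2⟩ := (hTS V).1 hV
    obtain ⟨W, hW⟩ := h.sep (P := fun z => z ∈ V) (by
      apply_rules [Dfn.mem, DT.var, DT.const, Set.mem_univ]) U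
    obtain ⟨W', hW'⟩ := h.sep (P := fun z => z ∈ V') (by
      apply_rules [Dfn.mem, DT.var, DT.const, Set.mem_univ]) U'
    refine ⟨W, (hTS W).2 ⟨W', hT.inter U' hU' V' hV' W' hW', fun z => ?_⟩, hW⟩
    rw [hW, h1, h2, hW']
    tauto
  · intro 𝒮 h𝒮
    obtain ⟨W, hW⟩ := h.union 𝒮
    obtain ⟨𝒮', h𝒮'⟩ := h.sep (P := fun U => ∃ V, V ∈ 𝒮 ∧ ∀ z, z ∈ V ↔ z ∈ U ∧ z ∈ S) (by
      apply_rules (maxDepth := 500) [Dfn.ex, Dfn.all, Dfn.iff, Dfn.and, Dfn.mem, DT.var,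
        DT.const, Set.mem_univ]) T
    obtain ⟨W', hW'⟩ := h.union 𝒮'
    refine ⟨W, (hTS W).2 ⟨W', hT.union 𝒮' (fun z hz => ((h𝒮' z).1 hz).1) W' hW', fun z => ?_⟩, hW⟩
    rw [hW, hW']
    constructor
    · rintro ⟨V, hV, hz⟩
      obtain ⟨U, hU, hVU⟩ := (hTS V).1 (h𝒮 V hV)
      exact ⟨⟨U, (h𝒮' U).2 ⟨hU, V, hV, hVU⟩, ((hVU z).1 hz).1⟩, ((hVU z).1 hz).2⟩
    · rintro ⟨⟨U, hU, hz⟩, hzS⟩
      obtain ⟨-, V, hV, hVU⟩ := (h𝒮' U).1 hU
      exact ⟨V, hV, (hVU z).2 ⟨hz, hzS⟩⟩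

theorem exists_hewitt (h : IsZF M) (E TE X T : M) : ∃ V TV, IsHewitt E TE X T V TV := by
  obtain ⟨C, hC⟩ := exists_contSet h X T E TE
  obtain ⟨P, TP, hP⟩ := exists_power h E TE C
  obtain ⟨V, hV⟩ := h.sep (P := fun u => ∀ W : M, W ∈ TP → u ∈ W →
      ∃ x v : M, x ∈ X ∧ v ∈ W ∧ ∀ f r : M, Rel v f r ↔ f ∈ C ∧ Rel f x r) (by
    apply_rules (maxDepth := 500) [Dfn.rel, Dfn.ex, Dfn.all, Dfn.iff, Dfn.imp, Dfn.and, Dfn.mem,
      DT.var, DT.const, Set.mem_univ]) P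
  obtain ⟨TV, hTV⟩ := exists_subspaceTop h TP V
  exact ⟨V, TV, C, P, TP, hC, hP, hV, hTV⟩

end general

namespace CohenModel

variable (C : CohenModel RQ)

/-- the value `r` of `f` at the (possibly infinite) subset `B` of `A` -/
def UB (B f r : C.N) : Prop :=
  ∃ K, K ∈ C.X ∧ ∀ y, y ∈ C.X → (∀ a, a ∈ K → (a ∈ y ↔ a ∈ B)) → Rel f y r

open Classical in
/-- the trace of `B` on a finite set of indices -/
noncomputable def trc (B : C.N) (κ : Finset P2) : Finset P2 := κ.filter (fun p => C.a p ∈ B)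

theorem mem_trc {B : C.N} {κ : Finset P2} {p : P2} : p ∈ C.trc B κ ↔ p ∈ κ ∧ C.a p ∈ B := by
  classical
  unfold trc
  rw [Finset.mem_filter]

theorem uB_iff {E : Finset P2} {f B r : C.N} (hf : IsContMap f C.X (C.TX C.X) C.RN C.topR)
    (hfE : C.Sup E f) : C.UB B f r ↔ Rel f (C.fin (C.trc B E)) r := by
  classical
  constructor
  · rintro ⟨K, hK, h⟩
    obtain ⟨κ, rfl⟩ := (C.mem_X K).1 hK
    have h1 := h (C.fin (C.trc B (κ ∪ E))) (C.fin_mem_X _) (by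
      intro a ha
      obtain ⟨p, hp, rfl⟩ := (C.mem_fin _ _).1 ha
      rw [a_mem_fin, mem_trc]
      exact ⟨fun h => h.2, fun h => ⟨Finset.mem_union_left _ hp, h⟩⟩)
    have h2 := C.supp_lemma hf hfE (C.fin_mem_X _) h1
    have e : C.trc B (κ ∪ E) ∩ E = C.trc B E := by
      ext p
      simp only [Finset.mem_inter, mem_trc, Finset.mem_union]
      tauto
    rw [e] at h2
    exact h2
  · intro h
    refine ⟨C.fin E, C.fin_mem_X E, fun y hy hyB => ?_⟩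
    obtain ⟨s, rfl⟩ := (C.mem_X y).1 hy
    obtain ⟨r', -, hr'⟩ := hf.1.exists_val C.zf hy
    have h2 := C.supp_lemma hf hfE (C.fin_mem_X _) hr'
    have e : s ∩ E = C.trc B E := by
      ext p
      simp only [Finset.mem_inter, mem_trc]
      constructor
      · rintro ⟨h3, h4⟩
        exact ⟨h4, (hyB _ (C.a_mem_fin.2 h4)).1 (C.a_mem_fin.2 h3)⟩
      · rintro ⟨h3, h4⟩
        exact ⟨C.a_mem_fin.1 ((hyB _ (C.a_mem_fin.2 h3)).2 h4), h3⟩
    rw [e] at h2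
    rw [hf.1.unique C.zf h h2]
    exact hr'

theorem uB_fin {E : Finset P2} {f r : C.N} (hf : IsContMap f C.X (C.TX C.X) C.RN C.topR)
    (hfE : C.Sup E f) (s : Finset P2) : C.UB (C.fin s) f r ↔ Rel f (C.fin s) r := by
  classical
  rw [C.uB_iff hf hfE]
  have e : C.trc (C.fin s) E = s ∩ E := by
    ext p
    simp only [Finset.mem_inter, mem_trc, C.a_mem_fin]
    tauto
  rw [e]
  constructor
  · intro h
    obtain ⟨r', -, hr'⟩ := hf.1.exists_val C.zf (C.fin_mem_X s)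
    have h2 := C.supp_lemma hf hfE (C.fin_mem_X _) hr'
    rw [hf.1.unique C.zf h h2]
    exact hr'
  · intro h
    exact C.supp_lemma hf hfE (C.fin_mem_X _) h

/-- the main step: the Hewitt extension of `X` is not a P-space, for each topology on the
set of reals finer than the usual topology -/
theorem hewitt_not_pSpace {TE V TV : C.N} (hTE : IsTop C.RN TE) (hle : IsSub C.topR TE)
    (hH : IsHewitt C.RN TE C.X (C.TX C.X) V TV) : ¬ IsPSpace V TV := by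
  classical
  intro hPS
  obtain ⟨CC, P, TP, hC, hpow, hV, hTV⟩ := hH
  obtain ⟨hP, hTP, hev, hmin⟩ := hpow
  have hcont : ∀ f, f ∈ CC → IsContMap f C.X (C.TX C.X) C.RN C.topR := by
    intro f hf
    have h1 := (hC f).1 hf
    exact ⟨h1.1, fun W hW => h1.2 W (hle W hW)⟩
  have h01 := C.real_zero_ne_one
  obtain ⟨V1, hV1, h11, h01'⟩ := C.t1_real C.one_mem C.zero_mem (Ne.symm h01)
  obtain ⟨V0, hV0, h00, h10⟩ := C.t1_real C.zero_mem C.one_mem h01
  -- the points `u_B`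
  have hUBval : ∀ B f, f ∈ CC → ∃! r, r ∈ C.RN ∧ C.UB B f r := by
    intro B f hf
    obtain ⟨E, hE⟩ := C.sup_exists f
    have hf' := hcont f hf
    obtain ⟨r, hr, hr2⟩ := hf'.1.exists_val C.zf (C.fin_mem_X (C.trc B E))
    refine ⟨r, ⟨hr, (C.uB_iff hf' hE).2 hr2⟩, ?_⟩
    rintro r' ⟨-, hr'⟩
    exact hf'.1.unique C.zf ((C.uB_iff hf' hE).1 hr') hr2
  have hUBdef : ∀ {x y z : (ℕ → C.N) → C.N}, DT Set.univ x → DT Set.univ y → DT Set.univ z →
      Dfn Set.univ (fun v => C.UB (x v) (y v) (z v)) := by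
    intro x y z hx hy hz
    have h : Dfn Set.univ (fun v : ℕ → C.N => C.UB (v 0) (v 1) (v 2)) := by
      unfold UB
      apply_rules (maxDepth := 500) [Dfn.rel, Dfn.ex, Dfn.all, Dfn.iff, Dfn.imp, Dfn.and, Dfn.mem,
        DT.var, DT.const, Set.mem_univ]
    exact Dfn.subst (t := fun i v => match i with
      | 0 => x v
      | 1 => y v
      | _ => z v) h (fun i => by
        match i with
        | 0 => exact hx
        | 1 => exact hy
        | _+2 => exact hz)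
  have hpt : ∀ B, ∃ v ∈ P, ∀ f r, Rel v f r ↔ f ∈ CC ∧ C.UB B f r := by
    intro B
    obtain ⟨v, hv, hv2⟩ := C.zf.exists_fun CC C.RN (R := fun f r => C.UB B f r) (by
      apply_rules (maxDepth := 500) [hUBdef, DT.var, DT.const, Set.mem_univ]) (hUBval B)
    refine ⟨v, (hP v).2 hv, fun f r => ?_⟩
    rw [hv2]
    constructor
    · rintro ⟨h1, -, h2⟩; exact ⟨h1, h2⟩
    · rintro ⟨h1, h2⟩
      obtain ⟨K, hK, h3⟩ := h2
      obtain ⟨κ, rfl⟩ := (C.mem_X K).1 hK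
      have h4 := h3 (C.fin (C.trc B κ)) (C.fin_mem_X _) (by
        intro a ha
        obtain ⟨p, hp, rfl⟩ := (C.mem_fin _ _).1 ha
        rw [a_mem_fin, mem_trc]
        exact ⟨fun h => h.2, fun h => ⟨hp, h⟩⟩)
      exact ⟨h1, (hcont f h1).1.mem_right C.zf h4, _, C.fin_mem_X κ, h3⟩
  -- the topology of `2 ^ A`-open sets
  obtain ⟨PP, hPP⟩ := C.zf.powerset P
  obtain ⟨T1, hT1⟩ := C.zf.sep (P := fun W => ∀ B v, (∀ f r, Rel v f r ↔ f ∈ CC ∧ C.UB B f r) →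
      v ∈ W → ∃ K, K ∈ C.X ∧ ∀ B' v', (∀ a, a ∈ K → (a ∈ B' ↔ a ∈ B)) →
      (∀ f r, Rel v' f r ↔ f ∈ CC ∧ C.UB B' f r) → v' ∈ P → v' ∈ W) (by
    apply_rules (maxDepth := 500) [hUBdef, Dfn.rel, Dfn.ex, Dfn.all, Dfn.iff, Dfn.imp, Dfn.and,
      Dfn.mem, DT.var, DT.const, Set.mem_univ]) PP
  have hT1top : IsTop P T1 := by
    apply IsTop.mk' C.zf
    · intro U hU
      exact (hPP U).1 ((hT1 U).1 hU).1
    · rw [hT1, hPP]
      exact ⟨fun z hz => hz, fun B v _ _ => ⟨C.fin ∅, C.fin_mem_X _, fun B' v' _ _ h => h⟩⟩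
    · intro U hU U' hU'
      obtain ⟨W, hW⟩ := C.zf.sep (P := fun z => z ∈ U') (by
        apply_rules [Dfn.mem, DT.var, DT.const, Set.mem_univ]) U
      refine ⟨W, ?_, hW⟩
      rw [hT1, hPP] at hU hU' ⊢
      refine ⟨fun z hz => hU.1 z ((hW z).1 hz).1, fun B v hv hvW => ?_⟩
      obtain ⟨h1, h2⟩ := (hW v).1 hvW
      obtain ⟨K1, hK1, h3⟩ := hU.2 B v hv h1
      obtain ⟨K2, hK2, h4⟩ := hU'.2 B v hv h2
      obtain ⟨κ1, rfl⟩ := (C.mem_X K1).1 hK1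
      obtain ⟨κ2, rfl⟩ := (C.mem_X K2).1 hK2
      refine ⟨C.fin (κ1 ∪ κ2), C.fin_mem_X _, fun B' v' h5 h6 h7 => (hW v').2
        ⟨h3 B' v' (fun a ha => h5 a ?_) h6 h7, h4 B' v' (fun a ha => h5 a ?_) h6 h7⟩⟩
      · obtain ⟨p, hp, rfl⟩ := (C.mem_fin _ _).1 ha
        exact C.a_mem_fin.2 (Finset.mem_union_left _ hp)
      · obtain ⟨p, hp, rfl⟩ := (C.mem_fin _ _).1 ha
        exact C.a_mem_fin.2 (Finset.mem_union_right _ hp)
    · intro S hS
      obtain ⟨W, hW⟩ := C.zf.union S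
      refine ⟨W, ?_, hW⟩
      rw [hT1, hPP]
      refine ⟨fun z hz => ?_, fun B v hv hvW => ?_⟩
      · obtain ⟨U, hU, hz⟩ := (hW z).1 hz
        exact (hPP U).1 ((hT1 U).1 (hS U hU)).1 z hz
      · obtain ⟨U, hU, hvU⟩ := (hW v).1 hvW
        obtain ⟨K, hK, h3⟩ := ((hT1 U).1 (hS U hU)).2 B v hv hvU
        exact ⟨K, hK, fun B' v' h5 h6 h7 => (hW v').2 ⟨U, hU, h3 B' v' h5 h6 h7⟩⟩
  have hT1ev : EvCont TE CC P T1 := by
    intro f hf U hU W hW
    rw [hT1, hPP]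
    refine ⟨fun z hz => ((hW z).1 hz).1, fun B v hv hvW => ?_⟩
    obtain ⟨E, hE⟩ := C.sup_exists f
    have hf' := hcont f hf
    obtain ⟨-, r, hrU, hvr⟩ := (hW v).1 hvW
    have h1 := ((hv f r).1 hvr).2
    rw [C.uB_iff hf' hE] at h1
    refine ⟨C.fin E, C.fin_mem_X E, fun B' v' h5 h6 h7 => (hW v').2 ⟨h7, r, hrU, ?_⟩⟩
    rw [h6]
    refine ⟨hf, (C.uB_iff hf' hE).2 ?_⟩
    have e : C.trc B' E = C.trc B E := by
      ext p
      simp only [mem_trc]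
      constructor
      · rintro ⟨h8, h9⟩; exact ⟨h8, (h5 _ (C.a_mem_fin.2 h8)).1 h9⟩
      · rintro ⟨h8, h9⟩; exact ⟨h8, (h5 _ (C.a_mem_fin.2 h8)).2 h9⟩
    rw [e]; exact h1
  have hsub := hmin T1 hT1top hT1ev
  -- the points `u_B` belong to the closure
  have hptV : ∀ B v, v ∈ P → (∀ f r, Rel v f r ↔ f ∈ CC ∧ C.UB B f r) → v ∈ V := by
    intro B v hvP hv
    rw [hV]
    refine ⟨hvP, fun W hW hvW => ?_⟩
    obtain ⟨K, hK, h3⟩ := ((hT1 W).1 (hsub W hW)).2 B v hv hvW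
    obtain ⟨κ, rfl⟩ := (C.mem_X K).1 hK
    obtain ⟨v', hv'P, hv'⟩ := hpt (C.fin (C.trc B κ))
    refine ⟨C.fin (C.trc B κ), v', C.fin_mem_X _, h3 _ v' ?_ hv' hv'P, fun f r => ?_⟩
    · intro a ha
      obtain ⟨p, hp, rfl⟩ := (C.mem_fin _ _).1 ha
      rw [a_mem_fin, mem_trc]
      exact ⟨fun h => h.2, fun h => ⟨hp, h⟩⟩
    · rw [hv']
      refine and_congr_right fun hf => ?_
      obtain ⟨E, hE⟩ := C.sup_exists f
      exact C.uB_fin (hcont f hf) hE _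
  -- the coordinate functions
  have hchi : ∀ a ∈ C.A, ∃ f ∈ CC, ∀ x, x ∈ C.X → ((a ∈ x ∧ Rel f x C.realLine.one) ∨
      (a ∉ x ∧ Rel f x C.realLine.zero)) := by
    intro a ha
    obtain ⟨q, rfl⟩ := (C.mem_A a).1 ha
    obtain ⟨f, hf, hf2⟩ := C.zf.exists_fun C.X C.RN (R := fun x r =>
      (C.a q ∈ x ∧ r = C.realLine.one) ∨ (C.a q ∉ x ∧ r = C.realLine.zero)) (by
        apply_rules (maxDepth := 500) [Dfn.and, Dfn.or, Dfn.not,
          Dfn.mem, Dfn.eq, DT.var, DT.const, Set.mem_univ]) (by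
      intro x hx
      by_cases h : C.a q ∈ x
      · refine ⟨C.realLine.one, ⟨C.one_mem, Or.inl ⟨h, rfl⟩⟩, ?_⟩
        rintro r ⟨-, h1 | h1⟩
        · exact h1.2
        · exact absurd h h1.1
      · refine ⟨C.realLine.zero, ⟨C.zero_mem, Or.inr ⟨h, rfl⟩⟩, ?_⟩
        rintro r ⟨-, h1 | h1⟩
        · exact absurd h1.1 h
        · exact h1.2)
    refine ⟨f, (hC f).2 ?_, fun x hx => ?_⟩
    · refine C.cont_of_dep hf {q} ?_
      intro y hy y' hy' h r hr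
      rw [hf2] at hr ⊢
      rw [← h q (Finset.mem_singleton_self q)]
      exact ⟨hy', hr.2⟩
    · by_cases h : C.a q ∈ x
      · left; exact ⟨h, (hf2 _ _).2 ⟨hx, C.one_mem, Or.inl ⟨h, rfl⟩⟩⟩
      · right; exact ⟨h, (hf2 _ _).2 ⟨hx, C.zero_mem, Or.inr ⟨h, rfl⟩⟩⟩
  -- the coordinate relation on `V`
  set Q : C.N → C.N → Prop := fun z a => ∃ f, f ∈ CC ∧ (∀ x, x ∈ C.X →
    ((a ∈ x ∧ Rel f x C.realLine.one) ∨ (a ∉ x ∧ Rel f x C.realLine.zero))) ∧
      Rel z f C.realLine.one with hQ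
  have hQdef : ∀ {x y : (ℕ → C.N) → C.N}, DT Set.univ x → DT Set.univ y →
      Dfn Set.univ (fun v => Q (x v) (y v)) := by
    intro x y hx hy
    have h : Dfn Set.univ (fun v : ℕ → C.N => Q (v 0) (v 1)) := by
      simp only [hQ]
      apply_rules (maxDepth := 500) [Dfn.rel, Dfn.ex, Dfn.all, Dfn.iff, Dfn.imp, Dfn.and, Dfn.or,
        Dfn.fls, Dfn.mem, DT.var, DT.const, Set.mem_univ]
    exact Dfn.subst (t := fun i v => match i with
      | 0 => x v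
      | _ => y v) h (fun i => by
        match i with
        | 0 => exact hx
        | _+1 => exact hy)
  have hQu : ∀ B v a, a ∈ C.A → (∀ f r, Rel v f r ↔ f ∈ CC ∧ C.UB B f r) → (Q v a ↔ a ∈ B) := by
    intro B v a ha hv
    obtain ⟨q, rfl⟩ := (C.mem_A a).1 ha
    have key : ∀ f, f ∈ CC → (∀ x, x ∈ C.X → ((C.a q ∈ x ∧ Rel f x C.realLine.one) ∨
        (C.a q ∉ x ∧ Rel f x C.realLine.zero))) → (C.UB B f C.realLine.one ↔ C.a q ∈ B) := by
      intro f hf h1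
      have hf' := hcont f hf
      constructor
      · rintro ⟨K, hK, h2⟩
        obtain ⟨κ, rfl⟩ := (C.mem_X K).1 hK
        have h4 := h2 (C.fin (C.trc B (insert q κ))) (C.fin_mem_X _) (by
          intro a ha
          obtain ⟨p, hp, rfl⟩ := (C.mem_fin _ _).1 ha
          rw [a_mem_fin, mem_trc]
          exact ⟨fun h => h.2, fun h => ⟨Finset.mem_insert_of_mem hp, h⟩⟩)
        rcases h1 _ (C.fin_mem_X (C.trc B (insert q κ))) with h5 | h5
        · rw [a_mem_fin, mem_trc] at h5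
          exact h5.1.2
        · exact absurd (hf'.1.unique C.zf h5.2 h4) h01
      · intro h2
        refine ⟨C.fin {q}, C.fin_mem_X _, fun y hy hyB => ?_⟩
        have h3 := (hyB (C.a q) (C.a_mem_fin.2 (Finset.mem_singleton_self q))).2 h2
        rcases h1 y hy with h5 | h5
        · exact h5.2
        · exact absurd h3 h5.1
    constructor
    · rintro ⟨f, hf, h1, h2⟩
      exact (key f hf h1).1 ((hv _ _).1 h2).2
    · intro h
      obtain ⟨f, hf, h1⟩ := hchi _ ha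
      exact ⟨f, hf, h1, (hv _ _).2 ⟨hf, (key f hf h1).2 h⟩⟩
  -- the coordinate sets are open in `V`
  have hVP : IsSub V P := fun z hz => ((hV z).1 hz).1
  have hVtop : IsTop V TV := isTop_subspace C.zf hTP hVP hTV
  have hval : ∀ a ∈ C.A, ∀ f ∈ CC, (∀ x, x ∈ C.X → ((a ∈ x ∧ Rel f x C.realLine.one) ∨
      (a ∉ x ∧ Rel f x C.realLine.zero))) → ∀ z ∈ V, ∀ r, Rel z f r →
      r = C.realLine.zero ∨ r = C.realLine.one := by
    intro a ha f hf h1 z hz r hr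
    by_contra hcon
    push Not at hcon
    have hzf := (hP z).1 (hVP z hz)
    have hrR := hzf.mem_right C.zf hr
    obtain ⟨U, hU, h2, h3⟩ := C.t1_real hrR C.zero_mem hcon.1
    obtain ⟨U', hU', h2', h3'⟩ := C.t1_real hrR C.one_mem hcon.2
    obtain ⟨U'', hU''⟩ := C.zf.sep (P := fun w => w ∈ U') (by
      apply_rules (maxDepth := 500) [Dfn.mem, DT.var, DT.const, Set.mem_univ]) U
    have hU''T := hTE.inter U (hle U hU) U' (hle U' hU') U'' hU''
    obtain ⟨W, hW⟩ := C.zf.sep (P := fun w => ∃ y, y ∈ U'' ∧ Rel w f y) (by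
      apply_rules (maxDepth := 500) [Dfn.rel, Dfn.ex, Dfn.and, Dfn.mem, DT.var, DT.const,
        Set.mem_univ]) P
    have hWT := hev f hf U'' hU''T W hW
    obtain ⟨x, v, hx, hv, hv2⟩ := ((hV z).1 hz).2 W hWT ((hW z).2 ⟨hVP z hz, r, (hU'' r).2 ⟨h2, h2'⟩, hr⟩)
    obtain ⟨-, y, hy, hvy⟩ := (hW v).1 hv
    rw [hU''] at hy
    have h4 := ((hv2 f y).1 hvy).2
    rcases h1 x hx with h5 | h5
    · rw [(hcont f hf).1.unique C.zf h4 h5.2] at hy
      exact h3' hy.2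
    · rw [(hcont f hf).1.unique C.zf h4 h5.2] at hy
      exact h3 hy.1
  have hopen : ∀ a ∈ C.A, ∀ z0 ∈ V, ∃ O ∈ TV, z0 ∈ O ∧ ∀ z ∈ O, (Q z a ↔ Q z0 a) := by
    intro a ha z0 hz0
    obtain ⟨f, hf, hfa⟩ := hchi a ha
    -- `Q z a` is equivalent to `z(f) = 1`
    have hQf : ∀ z ∈ V, (Q z a ↔ Rel z f C.realLine.one) := by
      intro z hz
      constructor
      · rintro ⟨f', hf', hfa', h1⟩
        have : f' = f := by
          refine IsFun.ext C.zf (hcont f' hf').1 (hcont f hf).1 fun x r => ?_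
          constructor
          · intro h2
            have hx := (hcont f' hf').1.mem_left C.zf h2
            rcases hfa' x hx with h3 | h3
            · rcases hfa x hx with h4 | h4
              · rw [(hcont f' hf').1.unique C.zf h2 h3.2]; exact h4.2
              · exact absurd h3.1 h4.1
            · rcases hfa x hx with h4 | h4
              · exact absurd h4.1 h3.1
              · rw [(hcont f' hf').1.unique C.zf h2 h3.2]; exact h4.2
          · intro h2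
            have hx := (hcont f hf).1.mem_left C.zf h2
            rcases hfa' x hx with h3 | h3
            · rcases hfa x hx with h4 | h4
              · rw [(hcont f hf).1.unique C.zf h2 h4.2]; exact h3.2
              · exact absurd h3.1 h4.1
            · rcases hfa x hx with h4 | h4
              · exact absurd h4.1 h3.1
              · rw [(hcont f hf).1.unique C.zf h2 h4.2]; exact h3.2
        rw [← this]; exact h1
      · intro h1
        exact ⟨f, hf, hfa, h1⟩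
    by_cases hq : Q z0 a
    · obtain ⟨W, hW⟩ := C.zf.sep (P := fun w => ∃ y, y ∈ V1 ∧ Rel w f y) (by
        apply_rules (maxDepth := 500) [Dfn.rel, Dfn.ex, Dfn.and, Dfn.mem, DT.var, DT.const,
          Set.mem_univ]) P
      have hWT := hev f hf V1 (hle V1 hV1) W hW
      obtain ⟨O, hO⟩ := C.zf.sep (P := fun w => w ∈ V) (by
        apply_rules (maxDepth := 500) [Dfn.mem, DT.var, DT.const, Set.mem_univ]) W
      refine ⟨O, (hTV O).2 ⟨W, hWT, hO⟩, ?_, ?_⟩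
      · rw [hO, hW]
        exact ⟨⟨hVP z0 hz0, _, h11, (hQf z0 hz0).1 hq⟩, hz0⟩
      · intro z hz
        rw [hO, hW] at hz
        obtain ⟨⟨hzP, y, hy, hzy⟩, hzV⟩ := hz
        refine ⟨fun _ => hq, fun _ => (hQf z hzV).2 ?_⟩
        rcases hval a ha f hf hfa z hzV y hzy with h | h
        · rw [h] at hy; exact absurd hy h01'
        · rw [h] at hzy; exact hzy
    · obtain ⟨W, hW⟩ := C.zf.sep (P := fun w => ∃ y, y ∈ V0 ∧ Rel w f y) (by
        apply_rules (maxDepth := 500) [Dfn.rel, Dfn.ex, Dfn.and, Dfn.mem, DT.var, DT.const,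
          Set.mem_univ]) P
      have hWT := hev f hf V0 (hle V0 hV0) W hW
      obtain ⟨O, hO⟩ := C.zf.sep (P := fun w => w ∈ V) (by
        apply_rules (maxDepth := 500) [Dfn.mem, DT.var, DT.const, Set.mem_univ]) W
      refine ⟨O, (hTV O).2 ⟨W, hWT, hO⟩, ?_, ?_⟩
      · rw [hO, hW]
        obtain ⟨y, -, hy⟩ := ((hP z0).1 (hVP z0 hz0)).exists_val C.zf hf
        rcases hval a ha f hf hfa z0 hz0 y hy with h | h
        · rw [h] at hy
          exact ⟨⟨hVP z0 hz0, _, h00, hy⟩, hz0⟩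
        · rw [h] at hy
          exact absurd ((hQf z0 hz0).2 hy) hq
      · intro z hz
        rw [hO, hW] at hz
        obtain ⟨⟨hzP, y, hy, hzy⟩, hzV⟩ := hz
        refine ⟨fun h => ?_, fun h => absurd h hq⟩
        have h2 := (hQf z hzV).1 h
        have h3 := ((hP z).1 (hVP z hzV)).unique C.zf h2 hzy
        rw [← h3] at hy
        exact absurd hy h10
  -- the sequence of open sets
  have hO : ∀ ν, ∃ O ∈ TV, ∀ z, z ∈ O ↔ z ∈ V ∧ ∃ a, a ∈ C.A ∧ ¬ (Q z a ↔ Rel C.Pi ν a) := by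
    intro ν
    obtain ⟨O, hO⟩ := C.zf.sep (P := fun z => ∃ a, a ∈ C.A ∧ ¬ (Q z a ↔ Rel C.Pi ν a)) (by
      apply_rules (maxDepth := 500) [hQdef, Dfn.rel, Dfn.ex, Dfn.all, Dfn.iff, Dfn.and, Dfn.not,
        Dfn.mem, DT.var, DT.const, Set.mem_univ]) V
    refine ⟨O, ?_, hO⟩
    obtain ⟨S, hS⟩ := C.zf.sep (P := fun W => ∀ y, y ∈ W → y ∈ O) (by
      apply_rules (maxDepth := 500) [Dfn.all, Dfn.imp, Dfn.mem, DT.var, DT.const, Set.mem_univ]) TV
    apply hVtop.union S (fun W hW => ((hS W).1 hW).1) O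
    intro z
    constructor
    · intro hz
      obtain ⟨hzV, a, ha, hza⟩ := (hO z).1 hz
      obtain ⟨O', hO', h1, h2⟩ := hopen a ha z hzV
      refine ⟨O', (hS O').2 ⟨hO', fun y hy => (hO y).2 ⟨hVtop.sub O' hO' y hy, a, ha, ?_⟩⟩, h1⟩
      rw [h2 y hy]
      exact hza
    · rintro ⟨W, hW, hz⟩
      exact ((hS W).1 hW).2 z hz
  obtain ⟨S, hS, hS2⟩ := C.zf.exists_fun C.omega TV (R := fun ν O => ∀ z, z ∈ O ↔ z ∈ V ∧
      ∃ a, a ∈ C.A ∧ ¬ (Q z a ↔ Rel C.Pi ν a)) (by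
    apply_rules (maxDepth := 500) [hQdef, Dfn.rel, Dfn.ex, Dfn.all, Dfn.iff, Dfn.and, Dfn.not,
        Dfn.mem, DT.var, DT.const, Set.mem_univ]) (by
    intro ν _
    obtain ⟨O, hO1, hO2⟩ := hO ν
    refine ⟨O, ⟨hO1, hO2⟩, ?_⟩
    rintro O' ⟨-, hO'⟩
    exact C.zf.ext fun z => by rw [hO', hO2])
  obtain ⟨G, hG⟩ := C.zf.sep (P := fun z => ∀ n U, Rel S n U → z ∈ U) (by
    apply_rules (maxDepth := 500) [Dfn.rel, Dfn.all, Dfn.imp, Dfn.mem, DT.var, DT.const,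
      Set.mem_univ]) V
  have hGT := hPS C.omega S G C.isOmega hS hG
  obtain ⟨W, hW, hGW⟩ := (hTV G).1 hGT
  -- the point `u_∅`
  obtain ⟨u0, hu0P, hu0⟩ := hpt (C.fin ∅)
  have hu0V := hptV _ u0 hu0P hu0
  have hu0G : u0 ∈ G := by
    rw [hG]
    refine ⟨hu0V, fun ν O hνO => ?_⟩
    obtain ⟨hν, -, h1⟩ := (hS2 _ _).1 hνO
    obtain ⟨n, rfl⟩ := (C.mem_omega ν).1 hν
    rw [h1]
    refine ⟨hu0V, C.a (n, 0), (C.mem_A _).2 ⟨_, rfl⟩, ?_⟩
    rw [hQu _ u0 _ ((C.mem_A _).2 ⟨_, rfl⟩) hu0, C.a_mem_fin]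
    have : Rel C.Pi (C.nat n) (C.a (n, 0)) := by
      rw [C.zf.rel_iff, C.mem_Pi]
      exact ⟨(n, 0), C.zf.isPair_pr _ _⟩
    simp [this]
  have hu0W := ((hGW u0).1 hu0G).1
  obtain ⟨K, hK, h3⟩ := ((hT1 W).1 (hsub W hW)).2 (C.fin ∅) u0 hu0 hu0W
  obtain ⟨κ, rfl⟩ := (C.mem_X K).1 hK
  -- a fibre disjoint from `κ`
  obtain ⟨k, hk⟩ := Infinite.exists_notMem_finset (κ.image Prod.fst)
  obtain ⟨B, hB⟩ := C.zf.sep (P := fun a => Rel C.Pi (C.nat k) a) (by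
    apply_rules (maxDepth := 500) [Dfn.rel, DT.var, DT.const, Set.mem_univ]) C.A
  obtain ⟨u1, hu1P, hu1⟩ := hpt B
  have hPi : ∀ p, Rel C.Pi (C.nat k) (C.a p) ↔ p.1 = k := by
    intro p
    rw [C.zf.rel_iff, C.mem_Pi]
    constructor
    · rintro ⟨q, hq⟩
      obtain ⟨e1, e2⟩ := C.zf.pair_inj (C.zf.isPair_pr _ _) hq
      rw [C.a_inj e2, C.nat_inj e1]
    · intro h
      exact ⟨p, by rw [h]; exact C.zf.isPair_pr _ _⟩
  have hu1W : u1 ∈ W := by
    refine h3 B u1 (fun a ha => ?_) hu1 hu1P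
    obtain ⟨p, hp, rfl⟩ := (C.mem_fin _ _).1 ha
    rw [hB, hPi, C.a_mem_fin]
    constructor
    · rintro ⟨-, h⟩
      exact absurd (Finset.mem_image.2 ⟨p, hp, h⟩) hk
    · intro h; exact absurd h (Finset.notMem_empty p)
  have hu1V := hptV _ u1 hu1P hu1
  have hu1G : u1 ∈ G := (hGW u1).2 ⟨hu1W, hu1V⟩
  obtain ⟨O, hO1, hO2⟩ := hO (C.nat k)
  have h4 := ((hG u1).1 hu1G).2 (C.nat k) O ((hS2 _ _).2 ⟨C.nat_mem_omega k, hO1, hO2⟩)
  obtain ⟨-, a, ha, h5⟩ := (hO2 u1).1 h4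
  apply h5
  rw [hQu B u1 a ha hu1, hB]
  exact ⟨fun h => h.2, fun h => ⟨ha, h⟩⟩

end CohenModel

end Pool.Agent.ZFM
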