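import Pool.Agent.ZFM.SpaceX3

/-! # A space of functions from the Cohen reals to `ω + 1` -/

namespace Pool.Agent.ZFM

namespace CohenModel

variable (C : CohenModel RQ)

theorem rel_Pi (k : ℕ) (p : P2) : Rel C.Pi (C.nat k) (C.a p) ↔ p.1 = k := by
  rw [C.zf.rel_iff, C.mem_Pi]
  constructor
  · rintro ⟨q, hq⟩
    obtain ⟨e1, e2⟩ := C.zf.pair_inj (C.zf.isPair_pr _ _) hq
    rw [C.a_inj e2, C.nat_inj e1]
  · intro h
    exact ⟨p, by rw [h]; exact C.zf.isPair_pr _ _⟩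

theorem a_mem_A (p : P2) : C.a p ∈ C.A := (C.mem_A _).2 ⟨p, rfl⟩

theorem nat_mem_nat (m n : ℕ) : C.nat m ∈ C.nat n ↔ m < n := by
  rw [C.mem_nat]
  constructor
  · rintro ⟨k, hk, e⟩
    rw [C.nat_inj e]; exact hk
  · intro h; exact ⟨m, h, rfl⟩

theorem omega_ne_nat (n : ℕ) : C.omega ≠ C.nat n := by
  intro h
  have := C.nat_mem_omega n
  rw [h, nat_mem_nat] at this
  omega

theorem omega_not_mem_omega : C.omega ∉ C.omega := by
  intro h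
  obtain ⟨n, hn⟩ := (C.mem_omega _).1 h
  exact C.omega_ne_nat n hn

theorem omega_not_mem_nat (n : ℕ) : C.omega ∉ C.nat n := by
  intro h
  obtain ⟨m, -, hn⟩ := (C.mem_nat _ _).1 h
  exact C.omega_ne_nat m hn

open Classical in
/-- codes of extended natural numbers -/
noncomputable def cw (e : ℕ∞) : C.N := if e = ⊤ then C.omega else C.nat e.toNat

theorem cw_top : C.cw ⊤ = C.omega := by unfold cw; rw [if_pos rfl]
theorem cw_coe (n : ℕ) : C.cw n = C.nat n := by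
  unfold cw
  rw [if_neg (ENat.coe_ne_top n), ENat.toNat_coe]

theorem cw_mem (i j : ℕ∞) : C.cw i ∈ C.cw j ↔ i < j := by
  induction i using ENat.recTopCoe with
  | top =>
    induction j using ENat.recTopCoe with
    | top =>
      rw [cw_top]
      simp [C.omega_not_mem_omega]
    | coe j =>
      rw [cw_top, cw_coe]
      simp [C.omega_not_mem_nat]
  | coe i =>
    induction j using ENat.recTopCoe with
    | top =>
      rw [cw_top, cw_coe]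
      simp [C.nat_mem_omega]
    | coe j =>
      rw [cw_coe, cw_coe, nat_mem_nat]
      simp

theorem cw_inj {i j : ℕ∞} (h : C.cw i = C.cw j) : i = j := by
  rcases lt_trichotomy i j with h1 | h1 | h1
  · have h2 := (C.cw_mem i j).2 h1
    rw [h, cw_mem] at h2
    exact absurd h2 (lt_irrefl _)
  · exact h1
  · have h2 := (C.cw_mem j i).2 h1
    rw [h, cw_mem] at h2
    exact absurd h2 (lt_irrefl _)

theorem exists_W : ∃ W : C.N, ∀ z, z ∈ W ↔ ∃ e : ℕ∞, z = C.cw e := by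
  obtain ⟨W, hW⟩ := C.zf.exists_insert C.omega C.omega
  refine ⟨W, fun z => ?_⟩
  rw [hW, C.mem_omega]
  constructor
  · rintro (rfl | ⟨n, rfl⟩)
    · exact ⟨⊤, C.cw_top.symm⟩
    · exact ⟨n, (C.cw_coe n).symm⟩
  · rintro ⟨e, rfl⟩
    induction e using ENat.recTopCoe with
    | top => left; exact C.cw_top
    | coe n => right; exact ⟨n, C.cw_coe n⟩

/-- `ω + 1` -/
noncomputable def W : C.N := C.exists_W.choose
theorem mem_W (z : C.N) : z ∈ C.W ↔ ∃ e : ℕ∞, z = C.cw e := C.exists_W.choose_spec z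

theorem exists_Y : ∃ Y : C.N, ∀ x, x ∈ Y ↔ IsFun x C.A C.W ∧
    ((∀ a, ¬ Rel x a C.omega) ∨ ∃ ν, ν ∈ C.omega ∧ ∀ a, a ∈ C.A → (Rel x a C.omega ↔ Rel C.Pi ν a)) := by
  obtain ⟨AW, hAW⟩ := C.zf.exists_prod C.A C.W
  obtain ⟨P, hP⟩ := C.zf.powerset AW
  obtain ⟨Y, hY⟩ := C.zf.sep (P := fun x => IsFun x C.A C.W ∧
    ((∀ a, ¬ Rel x a C.omega) ∨ ∃ ν, ν ∈ C.omega ∧ ∀ a, a ∈ C.A → (Rel x a C.omega ↔ Rel C.Pi ν a))) (by
    apply_rules (maxDepth := 500) [Dfn.rel, Dfn.isFun, Dfn.ex, Dfn.all, Dfn.iff, Dfn.imp, Dfn.and,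
      Dfn.or, Dfn.fls, Dfn.mem, DT.var, DT.const, Set.mem_univ]) P
  refine ⟨Y, fun x => ?_⟩
  rw [hY, hP]
  constructor
  · exact fun h => h.2
  · intro h
    refine ⟨fun z hz => ?_, h⟩
    rw [hAW]
    obtain ⟨a, ha, y, hy, hp⟩ := h.1.1 z hz
    exact ⟨a, ha, y, hy, hp⟩

/-- the space of all functions `x : A → ω + 1` such that `x ⁻¹ {ω}` is empty or a fibre `A_n` -/
noncomputable def Y : C.N := C.exists_Y.choose

theorem mem_Y0 (x : C.N) : x ∈ C.Y ↔ IsFun x C.A C.W ∧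
    ((∀ a, ¬ Rel x a C.omega) ∨ ∃ ν, ν ∈ C.omega ∧ ∀ a, a ∈ C.A → (Rel x a C.omega ↔ Rel C.Pi ν a)) :=
  C.exists_Y.choose_spec x

open Classical in
/-- values of an element of `Y` -/
noncomputable def v (x : C.N) (p : P2) : ℕ∞ :=
  if h : ∃ e, Rel x (C.a p) (C.cw e) then h.choose else 0

theorem rel_v' {x : C.N} (hx : IsFun x C.A C.W) (p : P2) (m : C.N) :
    Rel x (C.a p) m ↔ m = C.cw (C.v x p) := by
  obtain ⟨m0, hm0, hr⟩ := hx.exists_val C.zf (C.a_mem_A p)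
  obtain ⟨e, rfl⟩ := (C.mem_W _).1 hm0
  have h : ∃ e, Rel x (C.a p) (C.cw e) := ⟨e, hr⟩
  have h1 : C.v x p = h.choose := by
    unfold v
    rw [dif_pos h]
  have h2 := h.choose_spec
  rw [← h1] at h2
  constructor
  · intro h3
    exact hx.unique C.zf h3 h2
  · rintro rfl
    exact h2

theorem Y_isFun {x : C.N} (hx : x ∈ C.Y) : IsFun x C.A C.W := ((C.mem_Y0 x).1 hx).1

theorem rel_v {x : C.N} (hx : x ∈ C.Y) (p : P2) (m : C.N) :
    Rel x (C.a p) m ↔ m = C.cw (C.v x p) := C.rel_v' (C.Y_isFun hx) p m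

theorem rel_v_nat {x : C.N} (hx : x ∈ C.Y) (p : P2) (k : ℕ) :
    Rel x (C.a p) (C.nat k) ↔ C.v x p = k := by
  rw [C.rel_v hx, ← cw_coe]
  exact ⟨fun h => (C.cw_inj h).symm, fun h => by rw [h]⟩

theorem rel_v_top {x : C.N} (hx : x ∈ C.Y) (p : P2) :
    Rel x (C.a p) C.omega ↔ C.v x p = ⊤ := by
  rw [C.rel_v hx, ← cw_top]
  exact ⟨fun h => (C.cw_inj h).symm, fun h => by rw [h]⟩

theorem mem_Y (x : C.N) : x ∈ C.Y ↔ IsFun x C.A C.W ∧
    ((∀ p, C.v x p ≠ ⊤) ∨ ∃ n, ∀ p, C.v x p = ⊤ ↔ p.1 = n) := by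
  rw [mem_Y0]
  refine and_congr_right fun hx => ?_
  have key : ∀ p, Rel x (C.a p) C.omega ↔ C.v x p = ⊤ := by
    intro p
    rw [C.rel_v' hx, ← cw_top]
    exact ⟨fun h => (C.cw_inj h).symm, fun h => by rw [h]⟩
  refine or_congr ?_ ?_
  · constructor
    · intro h p hp
      exact h _ ((key p).2 hp)
    · intro h a ha
      obtain ⟨p, rfl⟩ := (C.mem_A a).1 (hx.mem_left C.zf ha)
      exact h p ((key p).1 ha)
  · constructor
    · rintro ⟨ν, hν, h⟩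
      obtain ⟨n, rfl⟩ := (C.mem_omega ν).1 hν
      refine ⟨n, fun p => ?_⟩
      rw [← key, h _ (C.a_mem_A p), rel_Pi]
    · rintro ⟨n, h⟩
      refine ⟨C.nat n, C.nat_mem_omega n, fun a ha => ?_⟩
      obtain ⟨p, rfl⟩ := (C.mem_A a).1 ha
      rw [key, h, rel_Pi]

theorem Y_ext {x x' : C.N} (hx : x ∈ C.Y) (hx' : x' ∈ C.Y) (h : ∀ p, C.v x p = C.v x' p) :
    x = x' := by
  refine IsFun.ext C.zf (C.Y_isFun hx) (C.Y_isFun hx') fun a m => ?_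
  constructor
  · intro h1
    obtain ⟨p, rfl⟩ := (C.mem_A a).1 ((C.Y_isFun hx).mem_left C.zf h1)
    rw [C.rel_v hx] at h1
    rw [C.rel_v hx', ← h]
    exact h1
  · intro h1
    obtain ⟨p, rfl⟩ := (C.mem_A a).1 ((C.Y_isFun hx').mem_left C.zf h1)
    rw [C.rel_v hx'] at h1
    rw [C.rel_v hx, h]
    exact h1

/-- `z` is near `x` at `a` with threshold `k` (in the model) -/
def Near (x z a k : C.N) : Prop :=
  (∃ m, Rel x a m ∧ Rel z a m) ∨ (Rel x a C.omega ∧ ∃ m, Rel z a m ∧ k ∈ m)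

/-- `z` is near `x` at `p` with threshold `k` -/
def near (x z : C.N) (p : P2) (k : ℕ) : Prop :=
  C.v z p = C.v x p ∨ (C.v x p = ⊤ ∧ (k : ℕ∞) < C.v z p)

theorem near_iff {x z : C.N} (hx : x ∈ C.Y) (hz : z ∈ C.Y) (p : P2) (k : ℕ) :
    C.Near x z (C.a p) (C.nat k) ↔ C.near x z p k := by
  unfold Near near
  refine or_congr ?_ (and_congr (C.rel_v_top hx p) ?_)
  · constructor
    · rintro ⟨m, h1, h2⟩
      rw [C.rel_v hx] at h1
      rw [C.rel_v hz] at h2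
      rw [h1] at h2
      exact (C.cw_inj h2).symm
    · intro h
      exact ⟨_, (C.rel_v hx p _).2 rfl, (C.rel_v hz p _).2 (by rw [h])⟩
  · constructor
    · rintro ⟨m, h1, h2⟩
      rw [C.rel_v hz] at h1
      rw [h1, ← cw_coe, cw_mem] at h2
      exact h2
    · intro h
      exact ⟨_, (C.rel_v hz p _).2 rfl, by rw [← cw_coe, cw_mem]; exact h⟩

theorem near_refl (x : C.N) (p : P2) (k : ℕ) : C.near x x p k := Or.inl rfl

theorem near_trans {x z z' : C.N} {p : P2} {k : ℕ} (h1 : C.near x z p k) (h2 : C.near z z' p k) :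
    C.near x z' p k := by
  unfold near at *
  rcases h1 with h1 | ⟨h1, h1'⟩
  · rcases h2 with h2 | ⟨h2, h2'⟩
    · left; rw [h2, h1]
    · right; exact ⟨by rw [← h1, h2], h2'⟩
  · rcases h2 with h2 | ⟨h2, h2'⟩
    · right; exact ⟨h1, by rw [h2]; exact h1'⟩
    · right; exact ⟨h1, h2'⟩

theorem near_mono {x z : C.N} {p : P2} {k k' : ℕ} (h : k ≤ k') (h1 : C.near x z p k') :
    C.near x z p k := by
  unfold near at *
  rcases h1 with h1 | ⟨h1, h2⟩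
  · exact Or.inl h1
  · exact Or.inr ⟨h1, lt_of_le_of_lt (by exact_mod_cast h) h2⟩

/-! ### The topology -/

theorem exists_TY (Z : C.N) : ∃ T : C.N, ∀ U, U ∈ T ↔ IsSub U Z ∧ ∀ x, x ∈ U →
    ∃ c, c ∈ C.FX ∧ ∀ z, z ∈ Z → (∀ a k, Rel c a k → C.Near x z a k) → z ∈ U := by
  obtain ⟨P, hP⟩ := C.zf.powerset Z
  obtain ⟨T, hT⟩ := C.zf.sep (P := fun U => ∀ x, x ∈ U →
    ∃ c, c ∈ C.FX ∧ ∀ z, z ∈ Z → (∀ a k, Rel c a k → C.Near x z a k) → z ∈ U) (by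
    unfold Near
    apply_rules (maxDepth := 500) [Dfn.rel, Dfn.ex, Dfn.all, Dfn.iff, Dfn.and, Dfn.or, Dfn.imp,
      Dfn.mem, DT.var, DT.const, Set.mem_univ]) P
  refine ⟨T, fun U => ?_⟩
  rw [hT, hP]
  rfl

/-- the topology on a subset of `Y` -/
noncomputable def TY (Z : C.N) : C.N := (C.exists_TY Z).choose

theorem mem_TY0 (Z U : C.N) : U ∈ C.TY Z ↔ IsSub U Z ∧ ∀ x, x ∈ U →
    ∃ c, c ∈ C.FX ∧ ∀ z, z ∈ Z → (∀ a k, Rel c a k → C.Near x z a k) → z ∈ U :=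
  (C.exists_TY Z).choose_spec U

/-- closeness with respect to a finite function -/
def nearT (x z : C.N) (t : P2 →₀ ℕ) : Prop := ∀ p ∈ t.support, C.near x z p (t p)

theorem nearT_iff {x z : C.N} (hx : x ∈ C.Y) (hz : z ∈ C.Y) (t : P2 →₀ ℕ) :
    (∀ a k, Rel (C.c t) a k → C.Near x z a k) ↔ C.nearT x z t := by
  constructor
  · intro h p hp
    rw [← C.near_iff hx hz]
    exact h _ _ ((C.rel_c t _ _).2 ⟨p, hp, rfl, rfl⟩)
  · intro h a k hak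
    obtain ⟨p, hp, rfl, rfl⟩ := (C.rel_c t _ _).1 hak
    exact (C.near_iff hx hz _ _).2 (h p hp)

theorem mem_TY {Z : C.N} (hZ : IsSub Z C.Y) (U : C.N) : U ∈ C.TY Z ↔ IsSub U Z ∧ ∀ x, x ∈ U →
    ∃ t : P2 →₀ ℕ, ∀ z, z ∈ Z → C.nearT x z t → z ∈ U := by
  rw [mem_TY0]
  refine and_congr_right fun hU => forall₂_congr fun x hx => ?_
  have hxY := hZ x (hU x hx)
  constructor
  · rintro ⟨c, hc, h⟩
    obtain ⟨t, rfl⟩ := (C.mem_FX c).1 hc
    exact ⟨t, fun z hz h1 => h z hz ((C.nearT_iff hxY (hZ z hz) t).2 h1)⟩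
  · rintro ⟨t, h⟩
    exact ⟨C.c t, (C.mem_FX _).2 ⟨t, rfl⟩, fun z hz h1 =>
      h z hz ((C.nearT_iff hxY (hZ z hz) t).1 h1)⟩

theorem nearT_sup {x z : C.N} {t1 t2 : P2 →₀ ℕ} (h : C.nearT x z (t1 ⊔ t2)) :
    C.nearT x z t1 ∧ C.nearT x z t2 := by
  classical
  constructor
  · intro p hp
    refine C.near_mono ?_ (h p ?_)
    · rw [Finsupp.sup_apply]; exact le_sup_left
    · rw [Finsupp.mem_support_iff, Finsupp.sup_apply] at *
      have := le_sup_left (a := t1 p) (b := t2 p)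
      omega
  · intro p hp
    refine C.near_mono ?_ (h p ?_)
    · rw [Finsupp.sup_apply]; exact le_sup_right
    · rw [Finsupp.mem_support_iff, Finsupp.sup_apply] at *
      have := le_sup_right (a := t1 p) (b := t2 p)
      omega

theorem isTop_TY {Z : C.N} (hZ : IsSub Z C.Y) : IsTop Z (C.TY Z) := by
  apply IsTop.mk' C.zf
  · intro U hU
    exact ((C.mem_TY hZ U).1 hU).1
  · rw [C.mem_TY hZ]
    exact ⟨fun z hz => hz, fun x _ => ⟨0, fun y hy _ => hy⟩⟩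
  · intro U hU V hV
    obtain ⟨W, hW⟩ := C.zf.sep (P := fun z => z ∈ V) (by
      apply_rules [Dfn.mem, DT.var, DT.const, Set.mem_univ]) U
    refine ⟨W, ?_, hW⟩
    rw [C.mem_TY hZ] at hU hV ⊢
    refine ⟨fun z hz => hU.1 z ((hW z).1 hz).1, fun x hx => ?_⟩
    obtain ⟨hx1, hx2⟩ := (hW x).1 hx
    obtain ⟨t1, h1⟩ := hU.2 x hx1
    obtain ⟨t2, h2⟩ := hV.2 x hx2
    exact ⟨t1 ⊔ t2, fun y hy hn => (hW y).2 ⟨h1 y hy (C.nearT_sup hn).1,
      h2 y hy (C.nearT_sup hn).2⟩⟩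
  · intro S hS
    obtain ⟨W, hW⟩ := C.zf.union S
    refine ⟨W, ?_, hW⟩
    rw [C.mem_TY hZ]
    refine ⟨fun z hz => ?_, fun x hx => ?_⟩
    · obtain ⟨U, hU, hz⟩ := (hW z).1 hz
      exact ((C.mem_TY hZ U).1 (hS U hU)).1 z hz
    · obtain ⟨U, hU, hx⟩ := (hW x).1 hx
      obtain ⟨t, h⟩ := ((C.mem_TY hZ U).1 (hS U hU)).2 x hx
      exact ⟨t, fun y hy h1 => (hW y).2 ⟨U, hU, h y hy h1⟩⟩

/-- basic open sets -/
theorem exists_basicY {Z : C.N} (hZ : IsSub Z C.Y) {x : C.N} (hx : x ∈ C.Y) (t : P2 →₀ ℕ) :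
    ∃ U ∈ C.TY Z, ∀ y, y ∈ U ↔ y ∈ Z ∧ C.nearT x y t := by
  obtain ⟨U, hU⟩ := C.zf.sep (P := fun z => ∀ a k, Rel (C.c t) a k → C.Near x z a k) (by
    unfold Near
    apply_rules (maxDepth := 500) [Dfn.rel, Dfn.ex, Dfn.all, Dfn.iff, Dfn.and, Dfn.or, Dfn.imp,
      Dfn.mem, DT.var, DT.const, Set.mem_univ]) Z
  have hU' : ∀ y, y ∈ U ↔ y ∈ Z ∧ C.nearT x y t := by
    intro y
    rw [hU]
    exact and_congr_right fun hy => C.nearT_iff hx (hZ y hy) t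
  refine ⟨U, ?_, hU'⟩
  rw [C.mem_TY hZ]
  refine ⟨fun y hy => ((hU' y).1 hy).1, fun z hz => ⟨t, fun y hy h => (hU' y).2 ⟨hy, fun p hp => ?_⟩⟩⟩
  exact C.near_trans (((hU' z).1 hz).2 p hp) (h p hp)

/-- the topology on subsets is the subspace topology -/
theorem isSubspaceTop_TY {Z' Z : C.N} (hZ' : IsSub Z' C.Y) (h : IsSub Z Z') :
    IsSubspaceTop (C.TY Z') Z (C.TY Z) := by
  have hZ : IsSub Z C.Y := fun z hz => hZ' z (h z hz)
  intro V
  constructor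
  · intro hV
    obtain ⟨S, hS⟩ := C.zf.sep (P := fun U => ∀ z, z ∈ U → z ∈ Z → z ∈ V) (by
      apply_rules (maxDepth := 500) [Dfn.all, Dfn.imp, Dfn.mem, DT.var, DT.const, Set.mem_univ])
      (C.TY Z')
    obtain ⟨W, hW⟩ := C.zf.union S
    refine ⟨W, (C.isTop_TY hZ').union S (fun z hz => ((hS z).1 hz).1) W hW, fun z => ?_⟩
    rw [hW]
    constructor
    · intro hz
      rw [C.mem_TY hZ] at hV
      have hzZ := hV.1 z hz
      refine ⟨?_, hzZ⟩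
      obtain ⟨t, ht⟩ := hV.2 z hz
      obtain ⟨U, hU1, hU2⟩ := C.exists_basicY hZ' (hZ z hzZ) t
      refine ⟨U, (hS U).2 ⟨hU1, fun y hy hyZ => ht y hyZ ((hU2 y).1 hy).2⟩, ?_⟩
      exact (hU2 z).2 ⟨h z hzZ, fun p _ => C.near_refl _ _ _⟩
    · rintro ⟨⟨U, hU, hzU⟩, hzZ⟩
      exact ((hS U).1 hU).2 z hzU hzZ
  · rintro ⟨U, hU, hV⟩
    rw [C.mem_TY hZ'] at hU
    rw [C.mem_TY hZ]
    refine ⟨fun z hz => ((hV z).1 hz).2, fun x hx => ?_⟩
    obtain ⟨t, ht⟩ := hU.2 x ((hV x).1 hx).1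
    exact ⟨t, fun y hy hp => (hV y).2 ⟨ht y (h y hy) hp, hy⟩⟩

end CohenModel

end Pool.Agent.ZFM
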