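import Pool.Agent.ZFM.SpaceY
import Pool.Agent.ZFM.RealDisc

/-! # Realcompactness of the space `Y` -/

namespace Pool.Agent.ZFM

namespace CohenModel

variable (C : CohenModel RQ)

/-- the natural number `m` as a real number of the model -/
noncomputable def ri (m : ℕ) : C.N := (C.requiv.symm (m : C.K)).1

theorem ri_mem (m : ℕ) : C.ri m ∈ C.RN := (C.requiv.symm (m : C.K)).2

theorem requiv_ri (m : ℕ) : C.requiv ⟨C.ri m, C.ri_mem m⟩ = (m : C.K) :=
  C.requiv.apply_symm_apply _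

theorem isCode_ri (m : ℕ) : C.IsCode (C.ri m) (m : ℝ) := by
  have h := C.isCode_requiv ⟨C.ri m, C.ri_mem m⟩
  rw [requiv_ri] at h
  exact_mod_cast h

theorem ri_inj {m n : ℕ} (h : C.ri m = C.ri n) : m = n := by
  have h1 := C.isCode_ri m
  rw [h] at h1
  exact_mod_cast h1.inj (C.isCode_ri n)

theorem ri_zero : C.ri 0 = C.realLine.zero := by
  unfold ri
  rw [Nat.cast_zero]
  rfl

theorem ri_one : C.ri 1 = C.realLine.one := by
  unfold ri
  rw [Nat.cast_one]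
  rfl

/-- the real `r` is the natural number `n` -/
def IntR (n r : C.N) : Prop := n ∈ C.omega ∧ ∀ k, k ∈ r ↔ k ∈ C.omega ∧ Op (C.gr 7) n k (C.nat 0)

theorem intR_iff (m : ℕ) (r : C.N) : C.IntR (C.nat m) r ↔ r = C.ri m := by
  have key : ∀ k, k ∈ C.ri m ↔ k ∈ C.omega ∧ Op (C.gr 7) (C.nat m) k (C.nat 0) := by
    intro k
    rw [C.isCode_ri m k]
    constructor
    · rintro ⟨n, hn, rfl⟩
      refine ⟨C.nat_mem_omega n, ?_⟩
      rw [op_gr]
      change qe n < m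
      have : (qe n : ℝ) < m := hn
      exact_mod_cast this
    · rintro ⟨hk, h⟩
      obtain ⟨n, rfl⟩ := (C.mem_omega k).1 hk
      rw [op_gr] at h
      change qe n < m at h
      refine ⟨n, ?_, rfl⟩
      change (qe n : ℝ) < m
      exact_mod_cast h
  constructor
  · rintro ⟨-, h⟩
    apply C.zf.ext
    intro k
    rw [h, key]
  · rintro rfl
    exact ⟨C.nat_mem_omega m, key⟩

/-! ### Continuous functions with natural values -/

theorem exists_J : ∃ J : C.N, ∀ f, f ∈ J ↔ IsFun f C.Y C.omega ∧ ∀ x, x ∈ C.Y → ∃ c, c ∈ C.FX ∧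
    ∀ z, z ∈ C.Y → (∀ a k, Rel c a k → C.Near x z a k) → ∀ n, Rel f x n → Rel f z n := by
  obtain ⟨YO, hYO⟩ := C.zf.exists_prod C.Y C.omega
  obtain ⟨P, hP⟩ := C.zf.powerset YO
  obtain ⟨J, hJ⟩ := C.zf.sep (P := fun f => IsFun f C.Y C.omega ∧ ∀ x, x ∈ C.Y → ∃ c, c ∈ C.FX ∧
    ∀ z, z ∈ C.Y → (∀ a k, Rel c a k → C.Near x z a k) → ∀ n, Rel f x n → Rel f z n) (by
    unfold Near
    apply_rules (maxDepth := 500) [Dfn.rel, Dfn.isFun, Dfn.ex, Dfn.all, Dfn.iff, Dfn.imp, Dfn.and,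
      Dfn.or, Dfn.fls, Dfn.mem, DT.var, DT.const, Set.mem_univ]) P
  refine ⟨J, fun f => ?_⟩
  rw [hJ, hP]
  constructor
  · exact fun h => h.2
  · intro h
    refine ⟨fun z hz => ?_, h⟩
    rw [hYO]
    obtain ⟨a, ha, y, hy, hp⟩ := h.1.1 z hz
    exact ⟨a, ha, y, hy, hp⟩

/-- the set of all locally constant functions from `Y` to `ω` -/
noncomputable def J : C.N := C.exists_J.choose

theorem mem_J (f : C.N) : f ∈ C.J ↔ IsFun f C.Y C.omega ∧ ∀ x, x ∈ C.Y →
    ∃ t, ∀ z, z ∈ C.Y → C.nearT x z t → ∀ n, Rel f x n → Rel f z n := by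
  rw [show f ∈ C.J ↔ _ from C.exists_J.choose_spec f]
  refine and_congr_right fun _ => forall₂_congr fun x hx => ?_
  constructor
  · rintro ⟨c, hc, h⟩
    obtain ⟨t, rfl⟩ := (C.mem_FX c).1 hc
    exact ⟨t, fun z hz h1 => h z hz ((C.nearT_iff hx hz t).2 h1)⟩
  · rintro ⟨t, h⟩
    exact ⟨C.c t, (C.mem_FX _).2 ⟨t, rfl⟩, fun z hz h1 => h z hz ((C.nearT_iff hx hz t).1 h1)⟩

theorem J_val {f : C.N} (hf : f ∈ C.J) {x : C.N} (hx : x ∈ C.Y) : ∃ m, Rel f x (C.nat m) := by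
  obtain ⟨n, hn, h⟩ := ((C.mem_J f).1 hf).1.exists_val C.zf hx
  obtain ⟨m, rfl⟩ := (C.mem_omega n).1 hn
  exact ⟨m, h⟩

theorem exists_J_fun {R : C.N → C.N → Prop} (hR : Dfn Set.univ (fun v => R (v 0) (v 1)))
    (hfun : ∀ x ∈ C.Y, ∃ m : ℕ, ∀ n : ℕ, R x (C.nat n) ↔ n = m)
    (hloc : ∀ x ∈ C.Y, ∃ t, ∀ z ∈ C.Y, C.nearT x z t → ∀ n : ℕ, R x (C.nat n) → R z (C.nat n)) :
    ∃ f ∈ C.J, ∀ x ∈ C.Y, ∀ n : ℕ, Rel f x (C.nat n) ↔ R x (C.nat n) := by
  obtain ⟨f, hf, hf2⟩ := C.zf.exists_fun C.Y C.omega hR (by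
    intro x hx
    obtain ⟨m, hm⟩ := hfun x hx
    refine ⟨C.nat m, ⟨C.nat_mem_omega m, (hm m).2 rfl⟩, ?_⟩
    rintro y ⟨hy, hy2⟩
    obtain ⟨n, rfl⟩ := (C.mem_omega y).1 hy
    rw [(hm n).1 hy2])
  refine ⟨f, (C.mem_J f).2 ⟨hf, fun x hx => ?_⟩, fun x hx n => ?_⟩
  · obtain ⟨t, ht⟩ := hloc x hx
    refine ⟨t, fun z hz hn n hxn => ?_⟩
    obtain ⟨-, hn', h⟩ := (hf2 x n).1 hxn
    obtain ⟨m, rfl⟩ := (C.mem_omega n).1 hn'
    exact (hf2 _ _).2 ⟨hz, hn', ht z hz hn m h⟩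
  · rw [hf2]
    exact ⟨fun h => h.2.2, fun h => ⟨hx, C.nat_mem_omega n, h⟩⟩

/-- indicator functions -/
theorem exists_ind {R : C.N → Prop} (hR : Dfn Set.univ (fun v => R (v 0)))
    (hloc : ∀ x ∈ C.Y, ∃ t, ∀ z ∈ C.Y, C.nearT x z t → (R z ↔ R x)) :
    ∃ f ∈ C.J, ∀ x ∈ C.Y, (R x → Rel f x (C.nat 1)) ∧ (¬ R x → Rel f x (C.nat 0)) := by
  have hR' : ∀ {x : (ℕ → C.N) → C.N}, DT Set.univ x → Dfn Set.univ (fun v => R (x v)) := by
    intro x hx
    exact Dfn.subst (t := fun i v => x v) hR (fun i => hx)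
  obtain ⟨f, hf, hf2⟩ := C.exists_J_fun (R := fun x n => (R x ∧ n = C.nat 1) ∨
      (¬ R x ∧ n = C.nat 0)) (by
    apply_rules (maxDepth := 500) [hR', Dfn.and, Dfn.or, Dfn.not, Dfn.eq, DT.var, DT.const,
      Set.mem_univ]) (by
    intro x hx
    by_cases h : R x
    · refine ⟨1, fun n => ?_⟩
      constructor
      · rintro (⟨-, h1⟩ | ⟨h1, -⟩)
        · exact C.nat_inj h1
        · exact absurd h h1
      · rintro rfl; exact Or.inl ⟨h, rfl⟩
    · refine ⟨0, fun n => ?_⟩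
      constructor
      · rintro (⟨h1, -⟩ | ⟨-, h1⟩)
        · exact absurd h1 h
        · exact C.nat_inj h1
      · rintro rfl; exact Or.inr ⟨h, rfl⟩) (by
    intro x hx
    obtain ⟨t, ht⟩ := hloc x hx
    refine ⟨t, fun z hz hn n h => ?_⟩
    rw [ht z hz hn]; exact h)
  refine ⟨f, hf, fun x hx => ⟨fun h => ?_, fun h => ?_⟩⟩
  · exact (hf2 x hx 1).2 (Or.inl ⟨h, rfl⟩)
  · exact (hf2 x hx 0).2 (Or.inr ⟨h, rfl⟩)

theorem nearT_single {x z : C.N} {p : P2} {k : ℕ} :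
    C.nearT x z (Finsupp.single p (k+1)) ↔ C.near x z p (k+1) := by
  unfold nearT
  rw [Finsupp.support_single_ne_zero p (Nat.succ_ne_zero k)]
  simp

/-- membership in a basic open set is locally constant -/
theorem nearT_clopen {x : C.N} (t : P2 →₀ ℕ) : ∀ y ∈ C.Y, ∃ t', ∀ z ∈ C.Y, C.nearT y z t' →
    (C.nearT x z t ↔ C.nearT x y t) := by
  intro y hy
  by_cases h : C.nearT x y t
  · refine ⟨t, fun z hz hn => ⟨fun _ => h, fun _ p hp => C.near_trans (h p hp) (hn p hp)⟩⟩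
  · unfold nearT at h
    push Not at h
    obtain ⟨p, hp, hnp⟩ := h
    refine ⟨Finsupp.single p ((C.v x p).toNat + 1), fun z hz hn => ?_⟩
    rw [nearT_single] at hn
    refine ⟨fun h1 => absurd (h1 p hp) ?_, fun h1 => absurd (h1 p hp) hnp⟩
    intro h2
    apply hnp
    unfold near at *
    push Not at hnp
    rcases hn with h3 | ⟨h3, h4⟩
    · rwa [h3] at h2
    · exfalso
      have hx : C.v x p ≠ ⊤ := fun e => hnp.1 (by rw [h3, e])
      rcases h2 with h2 | ⟨h2, -⟩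
      · rw [h2] at h4
        have e := ENat.coe_toNat hx
        rw [← e] at h4
        have h5 : (C.v x p).toNat + 1 < (C.v x p).toNat := by exact_mod_cast h4
        omega
      · exact hx h2

/-- `f` is the function `e_{p,k}`, the indicator of `{z : z(p) = k}` -/
def IsE (p : P2) (k : ℕ) (f : C.N) : Prop :=
  f ∈ C.J ∧ ∀ z ∈ C.Y, (C.v z p = k → Rel f z (C.nat 1)) ∧ (C.v z p ≠ k → Rel f z (C.nat 0))

theorem exists_e (p : P2) (k : ℕ) : ∃ f, C.IsE p k f := by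
  obtain ⟨f, hf, hf2⟩ := C.exists_ind (R := fun x => Rel x (C.a p) (C.nat k)) (by
    apply_rules [Dfn.rel, DT.var, DT.const, Set.mem_univ]) (by
    intro x hx
    refine ⟨Finsupp.single p (k+1), fun z hz hn => ?_⟩
    rw [nearT_single] at hn
    rw [C.rel_v_nat hz, C.rel_v_nat hx]
    rcases hn with h | ⟨h1, h2⟩
    · rw [h]
    · constructor
      · intro h3
        rw [h3] at h2
        have : k + 1 < k := by exact_mod_cast h2
        omega
      · intro h3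
        rw [h3] at h1
        exact absurd h1 (ENat.coe_ne_top k))
  refine ⟨f, hf, fun z hz => ?_⟩
  have := hf2 z hz
  rw [C.rel_v_nat hz] at this
  exact this

/-- the function `min(x(p), x(q))` for `p`, `q` in different fibres -/
theorem exists_min {p q : P2} (hpq : p.1 ≠ q.1) : ∃ f ∈ C.J, ∀ x ∈ C.Y, ∀ n : ℕ,
    Rel f x (C.nat n) ↔ min (C.v x p) (C.v x q) = n := by
  have key : ∀ x ∈ C.Y, ∀ n : ℕ, ((Rel x (C.a p) (C.nat n) ∧ ∃ m, Rel x (C.a q) m ∧
      (C.nat n ∈ m ∨ C.nat n = m)) ∨ (Rel x (C.a q) (C.nat n) ∧ ∃ m, Rel x (C.a p) m ∧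
      C.nat n ∈ m)) ↔ min (C.v x p) (C.v x q) = n := by
    intro x hx n
    have e1 : (∃ m, Rel x (C.a q) m ∧ (C.nat n ∈ m ∨ C.nat n = m)) ↔ (n : ℕ∞) ≤ C.v x q := by
      constructor
      · rintro ⟨m, h1, h2⟩
        rw [C.rel_v hx] at h1
        subst h1
        rw [← cw_coe, cw_mem] at h2
        rcases h2 with h2 | h2
        · exact h2.le
        · exact (C.cw_inj h2).le
      · intro h
        refine ⟨_, (C.rel_v hx q _).2 rfl, ?_⟩
        rw [← cw_coe, cw_mem]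
        rcases h.lt_or_eq with h | h
        · exact Or.inl h
        · right; rw [h]
    have e2 : (∃ m, Rel x (C.a p) m ∧ C.nat n ∈ m) ↔ (n : ℕ∞) < C.v x p := by
      constructor
      · rintro ⟨m, h1, h2⟩
        rw [C.rel_v hx] at h1
        subst h1
        rw [← cw_coe, cw_mem] at h2
        exact h2
      · intro h
        refine ⟨_, (C.rel_v hx p _).2 rfl, ?_⟩
        rw [← cw_coe, cw_mem]
        exact h
    rw [e1, e2, C.rel_v_nat hx, C.rel_v_nat hx]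
    constructor
    · rintro (⟨h1, h2⟩ | ⟨h1, h2⟩)
      · rw [h1]; exact min_eq_left h2
      · rw [h1]; exact min_eq_right h2.le
    · intro h
      rcases le_or_gt (C.v x p) (C.v x q) with h1 | h1
      · rw [min_eq_left h1] at h
        left; exact ⟨h, by rw [← h]; exact h1⟩
      · rw [min_eq_right h1.le] at h
        right; exact ⟨h, by rw [← h]; exact h1⟩
  have hne : ∀ x ∈ C.Y, min (C.v x p) (C.v x q) ≠ ⊤ := by
    intro x hx h
    rw [min_eq_top] at h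
    rcases ((C.mem_Y x).1 hx).2 with h1 | ⟨n, h1⟩
    · exact h1 p h.1
    · exact hpq (((h1 p).1 h.1).trans ((h1 q).1 h.2).symm)
  obtain ⟨f, hf, hf2⟩ := C.exists_J_fun (R := fun x n => (Rel x (C.a p) n ∧ ∃ m, Rel x (C.a q) m ∧
      (n ∈ m ∨ n = m)) ∨ (Rel x (C.a q) n ∧ ∃ m, Rel x (C.a p) m ∧ n ∈ m)) (by
    apply_rules (maxDepth := 500) [Dfn.rel, Dfn.ex, Dfn.and, Dfn.or, Dfn.not, Dfn.eq, Dfn.mem,
      DT.var, DT.const, Set.mem_univ]) (by
    intro x hx
    refine ⟨(min (C.v x p) (C.v x q)).toNat, fun n => ?_⟩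
    rw [key x hx n]
    have e := ENat.coe_toNat (hne x hx)
    constructor
    · intro h; rw [h]; simp
    · rintro rfl; exact e.symm) (by
    intro x hx
    set m := (min (C.v x p) (C.v x q)).toNat with hm
    have e := ENat.coe_toNat (hne x hx)
    refine ⟨Finsupp.single p (m+1) ⊔ Finsupp.single q (m+1), fun z hz hn n => ?_⟩
    rw [key x hx n, key z hz n]
    intro h
    rw [h] at e
    have hmn : m = n := by rw [hm, h]; simp
    obtain ⟨h1, h2⟩ := C.nearT_sup hn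
    rw [nearT_single] at h1 h2
    unfold near at h1 h2
    rcases h1 with h1 | ⟨h1, h1'⟩
    · rcases h2 with h2 | ⟨h2, h2'⟩
      · rw [h1, h2]; exact h
      · rw [h1]
        rw [h2, min_top_right] at h
        rw [h]
        apply min_eq_left
        rw [hmn] at h2'
        refine le_trans ?_ h2'.le
        exact_mod_cast Nat.le_succ n
    · rcases h2 with h2 | ⟨h2, h2'⟩
      · rw [h2]
        rw [h1, min_top_left] at h
        rw [h]
        apply min_eq_right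
        rw [hmn] at h1'
        refine le_trans ?_ h1'.le
        exact_mod_cast Nat.le_succ n
      · rw [h1, h2, min_self] at h
        exact absurd h (by simp))
  refine ⟨f, hf, fun x hx n => ?_⟩
  rw [hf2 x hx n, key x hx n]

/-- the function equal to `x(p)` if `x(q) = k` and to `0` otherwise, for `p`, `q` in the same
fibre -/
theorem exists_h {p q : P2} (hpq : p.1 = q.1) (k : ℕ) : ∃ f ∈ C.J, ∀ x ∈ C.Y, ∀ n : ℕ,
    C.v x q = k → (Rel f x (C.nat n) ↔ C.v x p = n) := by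
  have hne : ∀ x ∈ C.Y, C.v x q = k → C.v x p ≠ ⊤ := by
    intro x hx h1 h2
    rcases ((C.mem_Y x).1 hx).2 with h3 | ⟨n, h3⟩
    · exact h3 p h2
    · have h4 := (h3 p).1 h2
      rw [hpq] at h4
      rw [(h3 q).2 h4] at h1
      exact absurd h1 (by simp)
  obtain ⟨f, hf, hf2⟩ := C.exists_J_fun (R := fun x n => (Rel x (C.a q) (C.nat k) ∧
      Rel x (C.a p) n) ∨ (¬ Rel x (C.a q) (C.nat k) ∧ n = C.nat 0)) (by
    apply_rules (maxDepth := 500) [Dfn.rel, Dfn.ex, Dfn.and, Dfn.or, Dfn.not, Dfn.eq, Dfn.mem,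
      DT.var, DT.const, Set.mem_univ]) (by
    intro x hx
    by_cases h : C.v x q = k
    · refine ⟨(C.v x p).toNat, fun n => ?_⟩
      rw [C.rel_v_nat hx, C.rel_v_nat hx]
      have e := ENat.coe_toNat (hne x hx h)
      constructor
      · rintro (⟨-, h1⟩ | ⟨h1, -⟩)
        · rw [h1]; simp
        · exact absurd h h1
      · rintro rfl
        exact Or.inl ⟨h, e.symm⟩
    · refine ⟨0, fun n => ?_⟩
      rw [C.rel_v_nat hx, C.rel_v_nat hx]
      constructor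
      · rintro (⟨h1, -⟩ | ⟨-, h1⟩)
        · exact absurd h1 h
        · exact C.nat_inj h1
      · rintro rfl
        exact Or.inr ⟨h, rfl⟩) (by
    intro x hx
    refine ⟨Finsupp.single p (k+1) ⊔ Finsupp.single q (k+1), fun z hz hn n => ?_⟩
    rw [C.rel_v_nat hx, C.rel_v_nat hx, C.rel_v_nat hz, C.rel_v_nat hz]
    obtain ⟨h1, h2⟩ := C.nearT_sup hn
    rw [nearT_single] at h1 h2
    unfold near at h1 h2
    rintro (⟨h3, h4⟩ | ⟨h3, h4⟩)
    · left
      rcases h1 with h1 | ⟨h1, -⟩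
      · rcases h2 with h2 | ⟨h2, -⟩
        · exact ⟨h2.trans h3, h1.trans h4⟩
        · rw [h2] at h3; exact absurd h3 (by simp)
      · rw [h1] at h4; exact absurd h4 (by simp)
    · right
      refine ⟨?_, h4⟩
      rcases h2 with h2 | ⟨-, h2⟩
      · rw [h2]; exact h3
      · intro h5
        rw [h5] at h2
        have : k + 1 < k := by exact_mod_cast h2
        omega)
  refine ⟨f, hf, fun x hx n hk => ?_⟩
  rw [hf2 x hx n, C.rel_v_nat hx, C.rel_v_nat hx]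
  constructor
  · rintro (⟨-, h1⟩ | ⟨h1, -⟩)
    · exact h1
    · exact absurd hk h1
  · intro h; exact Or.inl ⟨hk, h⟩

end CohenModel

end Pool.Agent.ZFM
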