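import Pool.Agent.ZFM.SpaceY2

/-! # Realcompactness of the space `Y`: the closed embedding -/

namespace Pool.Agent.ZFM

namespace CohenModel

variable (C : CohenModel RQ)

/-- the evaluation relation -/
def HY (x f r : C.N) : Prop := ∃ n, Rel f x n ∧ C.IntR n r

theorem dfn_HY : Dfn Set.univ (fun v : ℕ → C.N => C.HY (v 0) (v 1) (v 2)) := by
  unfold HY IntR
  apply_rules (maxDepth := 500) [Dfn.op, Dfn.rel, Dfn.ex, Dfn.all, Dfn.iff, Dfn.imp, Dfn.and,
    Dfn.mem, DT.var, DT.const, Set.mem_univ]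

theorem dfn_HY' {x y z : (ℕ → C.N) → C.N} (hx : DT Set.univ x) (hy : DT Set.univ y)
    (hz : DT Set.univ z) : Dfn Set.univ (fun v => C.HY (x v) (y v) (z v)) :=
  Dfn.subst (t := fun i v => match i with
    | 0 => x v
    | 1 => y v
    | _ => z v) C.dfn_HY (fun i => by
      match i with
      | 0 => exact hx
      | 1 => exact hy
      | _+2 => exact hz)

theorem hY_iff {f x : C.N} (hf : f ∈ C.J) (hx : x ∈ C.Y) (r : C.N) :
    C.HY x f r ↔ ∃ m : ℕ, Rel f x (C.nat m) ∧ r = C.ri m := by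
  unfold HY
  constructor
  · rintro ⟨n, h1, h2⟩
    obtain ⟨m, hm⟩ := C.J_val hf hx
    obtain rfl := ((C.mem_J f).1 hf).1.unique C.zf h1 hm
    exact ⟨m, h1, (C.intR_iff m r).1 h2⟩
  · rintro ⟨m, h1, rfl⟩
    exact ⟨_, h1, (C.intR_iff m _).2 rfl⟩

theorem J_unique {f x : C.N} (hf : f ∈ C.J) {m n : ℕ} (h1 : Rel f x (C.nat m))
    (h2 : Rel f x (C.nat n)) : m = n :=
  C.nat_inj (((C.mem_J f).1 hf).1.unique C.zf h1 h2)

/-- the isolating neighbourhood of a natural number -/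
theorem exists_nat_nbhd (m : ℕ) : ∃ V ∈ C.topR, C.ri m ∈ V ∧ ∀ n, C.ri n ∈ V → n = m := by
  obtain ⟨V, hV, hV'⟩ := C.exists_interval ((m : C.K) - 1) ((m : C.K) + 1)
  refine ⟨V, hV, (hV' ⟨_, C.ri_mem m⟩).2 ?_, fun n hn => ?_⟩
  · rw [requiv_ri]
    constructor <;> linarith
  · have := (hV' ⟨_, C.ri_mem n⟩).1 hn
    rw [requiv_ri] at this
    obtain ⟨h1, h2⟩ := this
    have h3 : ((m : ℕ) : C.K) < ((n + 1 : ℕ) : C.K) := by push_cast; linarith
    have h4 : ((n : ℕ) : C.K) < ((m + 1 : ℕ) : C.K) := by push_cast; linarith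
    have h3' : m < n + 1 := by exact_mod_cast h3
    have h4' : n < m + 1 := by exact_mod_cast h4
    omega

/-- the natural numbers are closed in the real line -/
theorem exists_notNat_nbhd {r : C.N} (hr : r ∈ C.RN) (h : ∀ m, r ≠ C.ri m) :
    ∃ V ∈ C.topR, r ∈ V ∧ ∀ n, C.ri n ∉ V := by
  set r' : {x : C.N // x ∈ C.RN} := ⟨r, hr⟩ with hr'
  have hne : ∀ m : ℕ, C.requiv r' ≠ (m : C.K) := by
    intro m e
    apply h m
    have : r' = C.requiv.symm (m : C.K) := (Equiv.eq_symm_apply _).2 e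
    exact congrArg Subtype.val this
  rcases lt_or_ge (C.requiv r') 0 with h0 | h0
  · obtain ⟨V, hV, hV'⟩ := C.exists_interval (C.requiv r' - 1) 0
    refine ⟨V, hV, (hV' r').2 ⟨by linarith, h0⟩, fun n hn => ?_⟩
    have := ((hV' ⟨_, C.ri_mem n⟩).1 hn).2
    rw [requiv_ri] at this
    exact absurd this (not_lt.2 (Nat.cast_nonneg n))
  · set n := ⌊(C.requiv r' : ℝ)⌋₊ with hn
    have h0' : (0 : ℝ) ≤ C.requiv r' := by exact_mod_cast h0
    have h1 : (n : ℝ) ≤ C.requiv r' := Nat.floor_le h0'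
    have h2 : (C.requiv r' : ℝ) < n + 1 := Nat.lt_floor_add_one _
    have h1' : (n : C.K) ≤ C.requiv r' := by exact_mod_cast h1
    have h2' : C.requiv r' < (n : C.K) + 1 := by exact_mod_cast h2
    have h3 : (n : C.K) < C.requiv r' := lt_of_le_of_ne h1' (Ne.symm (hne n))
    obtain ⟨V, hV, hV'⟩ := C.exists_interval (n : C.K) ((n : C.K) + 1)
    refine ⟨V, hV, (hV' r').2 ⟨h3, h2'⟩, fun m hm => ?_⟩
    have := (hV' ⟨_, C.ri_mem m⟩).1 hm
    rw [requiv_ri] at this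
    obtain ⟨h5, h6⟩ := this
    have h7 : n < m := by exact_mod_cast h5
    have h8 : ((m : ℕ) : C.K) < ((n + 1 : ℕ) : C.K) := by push_cast; exact h6
    have h9 : m < n + 1 := by exact_mod_cast h8
    omega

/-- closure point data -/
structure ClPt (P TP u : C.N) : Prop where
  pow : IsPowerSpace C.RN C.topR C.J P TP
  mem : u ∈ P
  cl : ∀ W ∈ TP, u ∈ W → ∃ x ∈ C.Y, ∃ w ∈ W, ∀ j r, Rel w j r ↔ j ∈ C.J ∧ r ∈ C.RN ∧ C.HY x j r

variable {C}

theorem ClPt.isFun {P TP u : C.N} (h : C.ClPt P TP u) : IsFun u C.J C.RN := (h.pow.1 u).1 h.mem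

/-- the values of a closure point are natural numbers -/
theorem ClPt.val {P TP u : C.N} (h : C.ClPt P TP u) {f : C.N} (hf : f ∈ C.J) :
    ∃ m, Rel u f (C.ri m) := by
  obtain ⟨r, hr, hur⟩ := h.isFun.exists_val C.zf hf
  by_cases hm : ∃ m, r = C.ri m
  · obtain ⟨m, rfl⟩ := hm
    exact ⟨m, hur⟩
  exfalso
  push Not at hm
  obtain ⟨V, hV, hrV, hVn⟩ := C.exists_notNat_nbhd hr hm
  obtain ⟨W, hW⟩ := C.zf.sep (P := fun w => ∃ y, y ∈ V ∧ Rel w f y) (by
    apply_rules (maxDepth := 500) [Dfn.rel, Dfn.ex, Dfn.and, Dfn.mem, DT.var, DT.const,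
      Set.mem_univ]) P
  have hWT := h.pow.2.2.1 f hf V hV W hW
  obtain ⟨x, hx, w, hw, hw2⟩ := h.cl W hWT ((hW u).2 ⟨h.mem, r, hrV, hur⟩)
  obtain ⟨-, y, hy, hwy⟩ := (hW w).1 hw
  obtain ⟨-, -, h3⟩ := (hw2 f y).1 hwy
  obtain ⟨m, -, rfl⟩ := (C.hY_iff hf hx y).1 h3
  exact hVn m hy

/-- finite closure -/
theorem ClPt.fin_cl {P TP u : C.N} (h : C.ClPt P TP u) {F : Set C.N} (hF : F.Finite)
    (hFJ : ∀ f ∈ F, f ∈ C.J) : ∃ x ∈ C.Y, ∀ f ∈ F, ∀ m : ℕ, Rel f x (C.nat m) → Rel u f (C.ri m) := by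
  have key : ∃ W ∈ TP, u ∈ W ∧ ∀ w ∈ W, ∀ f ∈ F, ∀ m : ℕ, Rel w f (C.ri m) → Rel u f (C.ri m) := by
    induction F, hF using Set.Finite.induction_on with
    | empty => exact ⟨P, h.pow.2.1.whole, h.mem, fun w _ f hf => absurd hf (Set.notMem_empty f)⟩
    | @insert f F _ _ ih =>
      obtain ⟨W, hW, huW, hW2⟩ := ih (fun f hf => hFJ f (Set.mem_insert_of_mem _ hf))
      have hf := hFJ f (Set.mem_insert f F)
      obtain ⟨m, hm⟩ := h.val hf
      obtain ⟨V, hV, hmV, hVm⟩ := C.exists_nat_nbhd m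
      obtain ⟨W', hW'⟩ := C.zf.sep (P := fun w => ∃ y, y ∈ V ∧ Rel w f y) (by
        apply_rules (maxDepth := 500) [Dfn.rel, Dfn.ex, Dfn.and, Dfn.mem, DT.var, DT.const,
          Set.mem_univ]) P
      have hWT := h.pow.2.2.1 f hf V hV W' hW'
      obtain ⟨W'', hW''⟩ := C.zf.sep (P := fun w => w ∈ W') (by
        apply_rules (maxDepth := 500) [Dfn.mem, DT.var, DT.const, Set.mem_univ]) W
      refine ⟨W'', h.pow.2.1.inter W hW W' hWT W'' hW'', ?_, fun w hw f' hf' n hn => ?_⟩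
      · rw [hW'', hW']
        exact ⟨huW, h.mem, _, hmV, hm⟩
      · rw [hW'', hW'] at hw
        rcases Set.mem_insert_iff.1 hf' with rfl | hf'
        · obtain ⟨-, hwP, y, hy, hwy⟩ := hw
          have hwf := (h.pow.1 w).1 hwP
          obtain rfl := hwf.unique C.zf hwy hn
          rw [hVm n hy]; exact hm
        · exact hW2 w hw.1 f' hf' n hn
  obtain ⟨W, hW, huW, hW2⟩ := key
  obtain ⟨x, hx, w, hw, hw2⟩ := h.cl W hW huW
  refine ⟨x, hx, fun f hf m hm => hW2 w hw f hf m ?_⟩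
  rw [hw2]
  exact ⟨hFJ f hf, C.ri_mem m, (C.hY_iff (hFJ f hf) hx _).2 ⟨m, hm, rfl⟩⟩

theorem ri_zero_ne_one : C.ri 0 ≠ C.ri 1 := fun h => by
  have := C.ri_inj h
  omega

/-- `z(p) = k` for the approximating points iff `u(e_{p,k}) = 1` -/
theorem ClPt.e_iff {P TP u : C.N} (h : C.ClPt P TP u) {p : P2} {k : ℕ} {f : C.N}
    (hf : C.IsE p k f) {x : C.N} (hx : x ∈ C.Y)
    (hfx : ∀ m : ℕ, Rel f x (C.nat m) → Rel u f (C.ri m)) :
    C.v x p = k ↔ Rel u f (C.ri 1) := by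
  constructor
  · intro h1
    exact hfx 1 ((hf.2 x hx).1 h1)
  · intro h1
    by_contra h2
    have h3 := hfx 0 ((hf.2 x hx).2 h2)
    exact ri_zero_ne_one (h.isFun.unique C.zf h3 h1)

theorem IsE.unique {p : P2} {k : ℕ} {f f' : C.N} (hf : C.IsE p k f) (hf' : C.IsE p k f') :
    f = f' := by
  refine IsFun.ext C.zf ((C.mem_J f).1 hf.1).1 ((C.mem_J f').1 hf'.1).1 fun x n => ?_
  have key : ∀ {f f'}, C.IsE p k f → C.IsE p k f' → Rel f x n → Rel f' x n := by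
    intro f f' hf hf' h
    have hx := ((C.mem_J f).1 hf.1).1.mem_left C.zf h
    by_cases h1 : C.v x p = k
    · rw [((C.mem_J f).1 hf.1).1.unique C.zf h ((hf.2 x hx).1 h1)]
      exact (hf'.2 x hx).1 h1
    · rw [((C.mem_J f).1 hf.1).1.unique C.zf h ((hf.2 x hx).2 h1)]
      exact (hf'.2 x hx).2 h1
  exact ⟨key hf hf', key hf' hf⟩

/-- the definable form of `u(e_{a,k}) = 1` -/
def PHI (C : CohenModel RQ) (u a k : C.N) : Prop :=
  ∃ f, f ∈ C.J ∧ (∀ z, z ∈ C.Y → ((Rel z a k ∧ Rel f z (C.nat 1)) ∨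
    (¬ Rel z a k ∧ Rel f z (C.nat 0)))) ∧ Rel u f (C.ri 1)

theorem PHI_iff {u : C.N} {p : P2} {k : ℕ} {f : C.N} (hf : C.IsE p k f) :
    C.PHI u (C.a p) (C.nat k) ↔ Rel u f (C.ri 1) := by
  constructor
  · rintro ⟨f', hf', h1, h2⟩
    have : C.IsE p k f' := by
      refine ⟨hf', fun z hz => ?_⟩
      have := h1 z hz
      rw [C.rel_v_nat hz] at this
      rcases this with ⟨h3, h4⟩ | ⟨h3, h4⟩
      · exact ⟨fun _ => h4, fun h => absurd h3 h⟩
      · exact ⟨fun h => absurd h h3, fun _ => h4⟩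
    rw [hf.unique this]; exact h2
  · intro h
    refine ⟨f, hf.1, fun z hz => ?_, h⟩
    rw [C.rel_v_nat hz]
    by_cases h1 : C.v z p = k
    · exact Or.inl ⟨h1, (hf.2 z hz).1 h1⟩
    · exact Or.inr ⟨h1, (hf.2 z hz).2 h1⟩

/-- the limit point of a closure point -/
theorem ClPt.exists_lim {P TP u : C.N} (h : C.ClPt P TP u) : ∃ x ∈ C.Y, ∀ f ∈ C.J, ∀ m : ℕ,
    Rel u f (C.ri m) → Rel f x (C.nat m) := by
  classical
  choose e he using C.exists_e
  have hPHI : ∀ p k, C.PHI u (C.a p) (C.nat k) ↔ Rel u (e p k) (C.ri 1) :=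
    fun p k => PHI_iff (he p k)
  have huniq : ∀ p k k', Rel u (e p k) (C.ri 1) → Rel u (e p k') (C.ri 1) → k = k' := by
    intro p k k' h1 h2
    obtain ⟨x, hx, hx2⟩ := h.fin_cl (F := {e p k, e p k'}) (by simp) (by
      rintro f (rfl | rfl)
      · exact (he _ _).1
      · exact (he _ _).1)
    have h3 := (h.e_iff (he p k) hx (hx2 _ (by simp))).2 h1
    have h4 := (h.e_iff (he p k') hx (hx2 _ (by simp))).2 h2
    rw [h3] at h4
    exact_mod_cast h4
  -- the function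
  obtain ⟨x0, hx0, hx0'⟩ := C.zf.exists_fun C.A C.W (R := fun a m =>
      (m ∈ C.omega ∧ C.PHI u a m) ∨ (m = C.omega ∧ ∀ k, k ∈ C.omega → ¬ C.PHI u a k)) (by
    unfold PHI
    apply_rules (maxDepth := 500) [Dfn.rel, Dfn.ex, Dfn.all, Dfn.iff, Dfn.imp, Dfn.and, Dfn.or,
      Dfn.fls, Dfn.mem, Dfn.eq, DT.var, DT.const, Set.mem_univ]) (by
    intro a ha
    obtain ⟨p, rfl⟩ := (C.mem_A a).1 ha
    by_cases hk : ∃ k, Rel u (e p k) (C.ri 1)
    · obtain ⟨k, hk⟩ := hk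
      refine ⟨C.nat k, ⟨(C.mem_W _).2 ⟨k, (C.cw_coe k).symm⟩, Or.inl ⟨C.nat_mem_omega k,
        (hPHI p k).2 hk⟩⟩, ?_⟩
      rintro m ⟨-, ⟨h1, h2⟩ | ⟨-, h2⟩⟩
      · obtain ⟨k', rfl⟩ := (C.mem_omega m).1 h1
        rw [huniq p k' k ((hPHI p k').1 h2) hk]
      · exact absurd ((hPHI p k).2 hk) (h2 _ (C.nat_mem_omega k))
    · push Not at hk
      refine ⟨C.omega, ⟨(C.mem_W _).2 ⟨⊤, C.cw_top.symm⟩, Or.inr ⟨rfl, fun k hk' => ?_⟩⟩, ?_⟩
      · obtain ⟨k, rfl⟩ := (C.mem_omega k).1 hk'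
        rw [hPHI]
        exact hk k
      · rintro m ⟨-, ⟨h1, h2⟩ | ⟨h1, -⟩⟩
        · obtain ⟨k', rfl⟩ := (C.mem_omega m).1 h1
          exact absurd ((hPHI p k').1 h2) (hk k')
        · exact h1)
  have hv : ∀ p (k : ℕ), C.v x0 p = k ↔ Rel u (e p k) (C.ri 1) := by
    intro p k
    have h1 := C.rel_v' hx0 p (C.nat k)
    rw [← cw_coe] at h1
    have h2 : C.v x0 p = k ↔ Rel x0 (C.a p) (C.cw k) :=
      ⟨fun h => h1.2 (by rw [h]), fun h => (C.cw_inj (h1.1 h)).symm⟩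
    rw [h2, cw_coe, hx0', ← hPHI]
    constructor
    · rintro ⟨-, -, ⟨-, h3⟩ | ⟨h3, -⟩⟩
      · exact h3
      · exact absurd h3.symm (C.omega_ne_nat k)
    · intro h3
      exact ⟨C.a_mem_A p, (C.mem_W _).2 ⟨k, (C.cw_coe k).symm⟩, Or.inl ⟨C.nat_mem_omega k, h3⟩⟩
  -- no two fibres
  have hdiff : ∀ p q, C.v x0 p = ⊤ → C.v x0 q = ⊤ → p.1 = q.1 := by
    intro p q hp hq
    by_contra hpq
    obtain ⟨f, hf, hf2⟩ := C.exists_min hpq
    obtain ⟨m, hm⟩ := h.val hf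
    obtain ⟨x, hx, hx2⟩ := h.fin_cl (F := {f, e p m, e q m}) (by simp) (by
      rintro g (rfl | rfl | rfl)
      · exact hf
      · exact (he _ _).1
      · exact (he _ _).1)
    obtain ⟨m', hm'⟩ := C.J_val hf hx
    have h1 := hx2 f (by simp) m' hm'
    have h2 : m' = m := C.ri_inj (h.isFun.unique C.zf h1 hm)
    subst h2
    have h3 := (hf2 x hx m').1 hm'
    have h4 : C.v x p = m' ∨ C.v x q = m' := by
      rcases min_choice (C.v x p) (C.v x q) with h5 | h5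
      · left; rw [← h5]; exact h3
      · right; rw [← h5]; exact h3
    rcases h4 with h4 | h4
    · have h5 := (h.e_iff (he p m') hx (hx2 _ (by simp))).1 h4
      rw [← hv, hp] at h5
      exact absurd h5 (by simp)
    · have h5 := (h.e_iff (he q m') hx (hx2 _ (by simp))).1 h4
      rw [← hv, hq] at h5
      exact absurd h5 (by simp)
  have hsame : ∀ p q, p.1 = q.1 → C.v x0 p = ⊤ → C.v x0 q = ⊤ := by
    intro p q hpq hp
    by_contra hq
    obtain ⟨k, hk⟩ : ∃ k : ℕ, C.v x0 q = k := ⟨(C.v x0 q).toNat, (ENat.coe_toNat hq).symm⟩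
    obtain ⟨f, hf, hf2⟩ := C.exists_h hpq k
    obtain ⟨m, hm⟩ := h.val hf
    obtain ⟨x, hx, hx2⟩ := h.fin_cl (F := {f, e q k, e p m}) (by simp) (by
      rintro g (rfl | rfl | rfl)
      · exact hf
      · exact (he _ _).1
      · exact (he _ _).1)
    have h0 := (h.e_iff (he q k) hx (hx2 _ (by simp))).2 ((hv q k).1 hk)
    obtain ⟨m', hm'⟩ := C.J_val hf hx
    have h1 := hx2 f (by simp) m' hm'
    have h2 : m' = m := C.ri_inj (h.isFun.unique C.zf h1 hm)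
    subst h2
    have h3 := (hf2 x hx m' h0).1 hm'
    have h5 := (h.e_iff (he p m') hx (hx2 _ (by simp))).1 h3
    rw [← hv, hp] at h5
    exact absurd h5 (by simp)
  have hx0Y : x0 ∈ C.Y := by
    rw [C.mem_Y]
    refine ⟨hx0, ?_⟩
    by_cases h1 : ∃ p, C.v x0 p = ⊤
    · obtain ⟨p, hp⟩ := h1
      right
      refine ⟨p.1, fun q => ⟨fun hq => hdiff q p hq hp, fun hq => hsame p q hq.symm hp⟩⟩
    · left
      push Not at h1
      exact h1
  refine ⟨x0, hx0Y, fun f hf m hm => ?_⟩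
  obtain ⟨m0, hm0⟩ := C.J_val hf hx0Y
  obtain ⟨t, ht⟩ := ((C.mem_J f).1 hf).2 x0 hx0Y
  -- approximate
  set F : Set C.N := insert f (⋃ p ∈ t.support, (e p) '' (Set.Iic (t p + (C.v x0 p).toNat))) with hF
  have hFfin : F.Finite := by
    refine Set.Finite.insert _ (Set.Finite.biUnion (Finset.finite_toSet t.support) fun p _ => ?_)
    exact (Set.finite_Iic _).image _
  have hFJ : ∀ g ∈ F, g ∈ C.J := by
    rintro g (rfl | hg)
    · exact hf
    · simp only [Set.mem_iUnion] at hg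
      obtain ⟨p, _, k, _, rfl⟩ := hg
      exact (he p k).1
  obtain ⟨x, hx, hx2⟩ := h.fin_cl hFfin hFJ
  have hval : ∀ p ∈ t.support, ∀ k ≤ t p + (C.v x0 p).toNat, (C.v x p = k ↔ C.v x0 p = k) := by
    intro p hp k hk
    rw [hv, h.e_iff (he p k) hx]
    apply hx2
    right
    simp only [Set.mem_iUnion]
    exact ⟨p, hp, k, hk, rfl⟩
  have hnear : C.nearT x0 x t := by
    intro p hp
    by_cases h1 : C.v x0 p = ⊤
    · right
      refine ⟨h1, ?_⟩
      by_contra h2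
      have h3 : C.v x p ≠ ⊤ := by
        intro e
        rw [e] at h2
        exact h2 (by simp)
      obtain ⟨k, hk⟩ : ∃ k : ℕ, C.v x p = k := ⟨(C.v x p).toNat, (ENat.coe_toNat h3).symm⟩
      rw [hk] at h2
      have h4 : k ≤ t p := by
        rw [not_lt] at h2
        exact_mod_cast h2
      have h5 := (hval p hp k (by omega)).1 hk
      rw [h1] at h5
      exact absurd h5 (by simp)
    · left
      have e1 := ENat.coe_toNat h1
      rw [← e1]
      exact (hval p hp _ (by omega)).2 e1.symm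
  have h1 := ht x hx hnear _ hm0
  have h2 := hx2 f (Set.mem_insert _ _) m0 h1
  rw [C.ri_inj (h.isFun.unique C.zf hm h2)]
  exact hm0

variable (C)

/-- **`Y` is realcompact** -/
theorem realcompact_Y : C.realLine.Realcompact C.Y (C.TY C.Y) := by
  have hsub : IsSub C.Y C.Y := fun _ h => h
  refine ⟨C.J, ?_⟩
  refine closedInPower_of C.zf (C.isTop_TY hsub) (H := C.HY) C.dfn_HY ?_ ?_ ?_ ?_ ?_
  · intro x hx f hf
    obtain ⟨m, hm⟩ := C.J_val hf hx
    refine ⟨C.ri m, ⟨C.ri_mem m, (C.hY_iff hf hx _).2 ⟨m, hm, rfl⟩⟩, ?_⟩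
    rintro r ⟨-, hr⟩
    obtain ⟨m', hm', rfl⟩ := (C.hY_iff hf hx _).1 hr
    rw [C.J_unique hf hm hm']
  · intro f hf V hV U hU
    rw [C.mem_TY hsub]
    refine ⟨fun x hx => ((hU x).1 hx).1, fun x hx => ?_⟩
    obtain ⟨hxY, r, hrV, hrR, hr⟩ := (hU x).1 hx
    obtain ⟨m, hm, rfl⟩ := (C.hY_iff hf hxY _).1 hr
    obtain ⟨t, ht⟩ := ((C.mem_J f).1 hf).2 x hxY
    refine ⟨t, fun z hz hn => (hU z).2 ⟨hz, _, hrV, hrR, (C.hY_iff hf hz _).2 ⟨m, ?_, rfl⟩⟩⟩
    exact ht z hz hn _ hm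
  · intro T' hT' hsubb U hU
    have hUT := (C.mem_TY hsub U).1 hU
    obtain ⟨S, hS⟩ := C.zf.sep (P := fun W => ∀ y, y ∈ W → y ∈ U) (by
      apply_rules (maxDepth := 500) [Dfn.all, Dfn.imp, Dfn.mem, DT.var, DT.const, Set.mem_univ]) T'
    apply hT'.union S (fun W hW => ((hS W).1 hW).1) U
    intro x
    constructor
    · intro hxU
      have hxY := hUT.1 x hxU
      obtain ⟨t, ht⟩ := hUT.2 x hxU
      obtain ⟨D, hD, hD'⟩ := C.exists_basicY hsub hxY t
      obtain ⟨f, hf, hf2⟩ := C.exists_ind (R := fun y => y ∈ D) (by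
        apply_rules [Dfn.mem, DT.var, DT.const, Set.mem_univ]) (by
        intro y hy
        obtain ⟨t', ht'⟩ := C.nearT_clopen (x := x) t y hy
        refine ⟨t', fun z hz hn => ?_⟩
        rw [hD', hD']
        have := ht' z hz hn
        tauto)
      refine ⟨D, (hS D).2 ⟨?_, fun y hy => ht y ((hD' y).1 hy).1 ((hD' y).1 hy).2⟩,
        (hD' x).2 ⟨hxY, fun p _ => C.near_refl _ _ _⟩⟩
      obtain ⟨V, hV, h1V, hV2⟩ := C.exists_nat_nbhd 1
      refine hsubb f hf V hV D fun y => ?_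
      constructor
      · intro hy
        have hyY := ((hD' y).1 hy).1
        exact ⟨hyY, _, h1V, C.ri_mem 1, (C.hY_iff hf hyY _).2 ⟨1, (hf2 y hyY).1 hy, rfl⟩⟩
      · rintro ⟨hyY, r, hrV, -, hr⟩
        obtain ⟨m, hm, rfl⟩ := (C.hY_iff hf hyY _).1 hr
        have := hV2 m hrV
        subst this
        by_contra hyD
        have := C.J_unique hf hm ((hf2 y hyY).2 hyD)
        omega
    · rintro ⟨W, hW, hx⟩
      exact ((hS W).1 hW).2 x hx
  · intro x hx x' hx' hxx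
    apply C.Y_ext hx hx'
    intro p
    have key : ∀ k : ℕ, C.v x p = k ↔ C.v x' p = k := by
      intro k
      obtain ⟨f, hf⟩ := C.exists_e p k
      have hval : ∀ y ∈ C.Y, (C.v y p = k ↔ C.HY y f (C.ri 1)) := by
        intro y hy
        rw [C.hY_iff hf.1 hy]
        constructor
        · intro h1
          exact ⟨1, (hf.2 y hy).1 h1, rfl⟩
        · rintro ⟨m, hm, e⟩
          have := C.ri_inj e
          subst this
          by_contra h1
          have := C.J_unique hf.1 hm ((hf.2 y hy).2 h1)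
          omega
      rw [hval x hx, hval x' hx']
      exact hxx f hf.1 _ (C.ri_mem 1)
    by_cases h1 : C.v x p = ⊤
    · by_cases h2 : C.v x' p = ⊤
      · rw [h1, h2]
      · have e := ENat.coe_toNat h2
        rw [← e]
        exact (key _).2 e.symm
    · have e := ENat.coe_toNat h1
      rw [← e]
      exact ((key _).1 e.symm).symm
  · intro P TP hpow u hu hcl
    have h : C.ClPt P TP u := ⟨hpow, hu, hcl⟩
    obtain ⟨x, hx, hx2⟩ := h.exists_lim
    refine ⟨x, hx, fun f r hfr => ?_⟩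
    have hf := h.isFun.mem_left C.zf hfr
    obtain ⟨m, hm⟩ := h.val hf
    obtain rfl := h.isFun.unique C.zf hfr hm
    exact (C.hY_iff hf hx _).2 ⟨m, hx2 f hf m hm, rfl⟩

end CohenModel

end Pool.Agent.ZFM
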