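import Pool.Agent.ZFM.SpaceY3
import Pool.Agent.ZFM.SpaceX4
import Pool.Agent.ZFM.DefsBaire

/-! # A Baire subset of `Y` that is not realcompact -/

namespace Pool.Agent.ZFM

namespace CohenModel

variable (C : CohenModel RQ)

/-! ### The subset `B` -/

theorem exists_B : ∃ B : C.N, ∀ x, x ∈ B ↔ x ∈ C.Y ∧ ∃ a, Rel x a C.omega := by
  obtain ⟨B, hB⟩ := C.zf.sep (P := fun x => ∃ a, Rel x a C.omega) (by
    apply_rules (maxDepth := 500) [Dfn.rel, Dfn.ex, DT.var, DT.const, Set.mem_univ]) C.Y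
  exact ⟨B, hB⟩

/-- the set of elements of `Y` that take the value `ω` -/
noncomputable def B : C.N := C.exists_B.choose

theorem mem_B0 (x : C.N) : x ∈ C.B ↔ x ∈ C.Y ∧ ∃ a, Rel x a C.omega := C.exists_B.choose_spec x

theorem mem_B (x : C.N) : x ∈ C.B ↔ x ∈ C.Y ∧ ∃ n, ∀ p, C.v x p = ⊤ ↔ p.1 = n := by
  rw [mem_B0]
  refine and_congr_right fun hx => ?_
  constructor
  · rintro ⟨a, ha⟩
    obtain ⟨p, rfl⟩ := (C.mem_A a).1 ((C.Y_isFun hx).mem_left C.zf ha)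
    rcases ((C.mem_Y x).1 hx).2 with h | h
    · exact absurd ((C.rel_v_top hx p).1 ha) (h p)
    · exact h
  · rintro ⟨n, h⟩
    exact ⟨C.a (n, 0), (C.rel_v_top hx _).2 ((h _).2 rfl)⟩

theorem B_sub : IsSub C.B C.Y := fun x hx => ((C.mem_B0 x).1 hx).1

/-! ### Special points -/

/-- `x` is the function with value `ω` on the fibre `ν`, and given by `c` elsewhere -/
def XPt (ν c x : C.N) : Prop :=
  ∀ z, z ∈ x ↔ ∃ a, a ∈ C.A ∧ ∃ m, IsPair z a m ∧ ((Rel C.Pi ν a ∧ m = C.omega) ∨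
    (¬ Rel C.Pi ν a ∧ (Rel c a m ∨ ((∀ m', ¬ Rel c a m') ∧ m = C.nat 0))))

open Classical in
theorem rel_c_or (n : ℕ) (t : P2 →₀ ℕ) (p : P2) (m : C.N) :
    ((Rel C.Pi (C.nat n) (C.a p) ∧ m = C.omega) ∨ (¬ Rel C.Pi (C.nat n) (C.a p) ∧
      (Rel (C.c t) (C.a p) m ∨ ((∀ m', ¬ Rel (C.c t) (C.a p) m') ∧ m = C.nat 0)))) ↔
      m = C.cw (if p.1 = n then ⊤ else (t p : ℕ∞)) := by
  rw [rel_Pi]
  have key : (Rel (C.c t) (C.a p) m ∨ ((∀ m', ¬ Rel (C.c t) (C.a p) m') ∧ m = C.nat 0)) ↔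
      m = C.nat (t p) := by
    by_cases hp : p ∈ t.support
    · constructor
      · rintro (h | ⟨h, -⟩)
        · obtain ⟨q, -, e, h2⟩ := (C.rel_c t _ _).1 h
          rw [C.a_inj e]; exact h2
        · exact absurd ((C.rel_c t _ _).2 ⟨p, hp, rfl, rfl⟩) (h _)
      · rintro rfl
        exact Or.inl ((C.rel_c t _ _).2 ⟨p, hp, rfl, rfl⟩)
    · have h0 : t p = 0 := Finsupp.notMem_support_iff.1 hp
      rw [h0]
      have h1 : ∀ m', ¬ Rel (C.c t) (C.a p) m' := by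
        intro m' h
        obtain ⟨q, hq, e, -⟩ := (C.rel_c t _ _).1 h
        rw [← C.a_inj e] at hq
        exact hp hq
      constructor
      · rintro (h | ⟨-, h⟩)
        · exact absurd h (h1 m)
        · exact h
      · intro h
        exact Or.inr ⟨h1, h⟩
  rw [key]
  by_cases h : p.1 = n
  · rw [if_pos h, cw_top]
    simp [h]
  · rw [if_neg h, cw_coe]
    simp [h]

open Classical in
theorem XPt_val {n : ℕ} {t : P2 →₀ ℕ} {x : C.N} (hx : C.XPt (C.nat n) (C.c t) x) :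
    x ∈ C.B ∧ ∀ p, C.v x p = if p.1 = n then ⊤ else (t p : ℕ∞) := by
  have hrel : ∀ p m, Rel x (C.a p) m ↔ m = C.cw (if p.1 = n then ⊤ else (t p : ℕ∞)) := by
    intro p m
    rw [← rel_c_or, C.zf.rel_iff, hx]
    constructor
    · rintro ⟨a, -, m', hp, h⟩
      obtain ⟨rfl, rfl⟩ := C.zf.pair_inj (C.zf.isPair_pr _ _) hp
      exact h
    · intro h
      exact ⟨C.a p, C.a_mem_A p, m, C.zf.isPair_pr _ _, h⟩
  have hf : IsFun x C.A C.W := by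
    constructor
    · intro z hz
      obtain ⟨a, ha, m, hp, h⟩ := (hx z).1 hz
      obtain ⟨p, rfl⟩ := (C.mem_A a).1 ha
      refine ⟨_, ha, m, ?_, hp⟩
      rw [rel_c_or] at h
      rw [h]
      exact (C.mem_W _).2 ⟨_, rfl⟩
    · intro a ha
      obtain ⟨p, rfl⟩ := (C.mem_A a).1 ha
      refine ⟨_, (hrel p _).2 rfl, fun m hm => (hrel p m).1 hm⟩
  have hv : ∀ p, C.v x p = if p.1 = n then ⊤ else (t p : ℕ∞) := by
    intro p
    have h1 := (C.rel_v' hf p _).1 ((hrel p _).2 rfl)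
    exact (C.cw_inj h1).symm
  have htop : ∀ p, C.v x p = ⊤ ↔ p.1 = n := by
    intro p
    rw [hv]
    split_ifs with h
    · simp [h]
    · simp [h]
  refine ⟨(C.mem_B x).2 ⟨(C.mem_Y x).2 ⟨hf, Or.inr ⟨n, htop⟩⟩, n, htop⟩, hv⟩

theorem exists_XPt (n : ℕ) (t : P2 →₀ ℕ) : ∃ x, C.XPt (C.nat n) (C.c t) x := by
  classical
  obtain ⟨AW, hAW⟩ := C.zf.exists_prod C.A C.W
  obtain ⟨x, hx⟩ := C.zf.sep (P := fun z => ∃ a, a ∈ C.A ∧ ∃ m, IsPair z a m ∧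
    ((Rel C.Pi (C.nat n) a ∧ m = C.omega) ∨ (¬ Rel C.Pi (C.nat n) a ∧ (Rel (C.c t) a m ∨
      ((∀ m', ¬ Rel (C.c t) a m') ∧ m = C.nat 0))))) (by
    apply_rules (maxDepth := 500) [Dfn.isPair, Dfn.rel, Dfn.ex, Dfn.all, Dfn.imp, Dfn.and, Dfn.or,
      Dfn.fls, Dfn.mem, Dfn.eq, DT.var, DT.const, Set.mem_univ]) AW
  refine ⟨x, fun z => ?_⟩
  rw [hx, hAW]
  constructor
  · exact fun h => h.2
  · rintro ⟨a, ha, m, hp, h⟩
    refine ⟨⟨a, ha, m, ?_, hp⟩, a, ha, m, hp, h⟩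
    obtain ⟨p, rfl⟩ := (C.mem_A a).1 ha
    rw [rel_c_or] at h
    rw [h]
    exact (C.mem_W _).2 ⟨_, rfl⟩

/-- the special point with value `ω` on the fibre `n`, and `t` elsewhere -/
noncomputable def pt (n : ℕ) (t : P2 →₀ ℕ) : C.N := (C.exists_XPt n t).choose

theorem pt_spec (n : ℕ) (t : P2 →₀ ℕ) : C.XPt (C.nat n) (C.c t) (C.pt n t) :=
  (C.exists_XPt n t).choose_spec

theorem pt_mem (n : ℕ) (t : P2 →₀ ℕ) : C.pt n t ∈ C.B := (C.XPt_val (C.pt_spec n t)).1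

open Classical in
theorem v_pt (n : ℕ) (t : P2 →₀ ℕ) (p : P2) :
    C.v (C.pt n t) p = if p.1 = n then ⊤ else (t p : ℕ∞) := (C.XPt_val (C.pt_spec n t)).2 p

/-! ### Continuous functions on `B` -/

/-- the moving step -/
theorem pt_aux {E : Finset P2} {f : C.N} {Q : C.N → Prop} (hf : IsFun f C.B C.RN)
    (hfE : C.Sup E f) (hQ : Dfn {x | C.Sup E x} (fun v => Q (v 0)))
    {n : ℕ} {t : P2 →₀ ℕ} (hd : Disjoint t.support E) {r V : C.N} (hr : Rel f (C.pt n t) r)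
    (hcont : ∀ U, (∀ x, x ∈ U ↔ x ∈ C.B ∧ ∃ y, y ∈ V ∧ Rel f x y) → U ∈ C.TY C.B)
    {r0 : C.N} (hr0 : Rel f (C.pt n 0) r0) (hrV : r0 ∈ V)
    (hQr : Q r) (hQV : ∀ y ∈ V, ¬ Q y) : False := by
  classical
  have hQ' : ∀ {x : (ℕ → C.N) → C.N}, DT {x | C.Sup E x} x →
      Dfn {x | C.Sup E x} (fun v => Q (x v)) := by
    intro x hx
    exact Dfn.subst (t := fun i v => x v) hQ (fun i => hx)
  have h1 : f ∈ {x | C.Sup E x} := hfE
  have h2 : C.Pi ∈ {x | C.Sup E x} := C.sup_Pi E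
  have h3 : C.A ∈ {x | C.Sup E x} := C.sup_A E
  have h4 : C.omega ∈ {x | C.Sup E x} := C.sup_omega E
  have h5 : C.nat 0 ∈ {x | C.Sup E x} := C.sup_nat 0 E
  have h6 : C.nat n ∈ {x | C.Sup E x} := C.sup_nat n E
  obtain ⟨U, hU⟩ := C.zf.sep (P := fun x => ∃ y, y ∈ V ∧ Rel f x y) (by
    apply_rules (maxDepth := 500) [Dfn.rel, Dfn.ex, Dfn.and, Dfn.mem, DT.var, DT.const,
      Set.mem_univ]) C.B
  have hUT := (C.mem_TY C.B_sub U).1 (hcont U hU)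
  have hx0U : C.pt n 0 ∈ U := (hU _).2 ⟨C.pt_mem n 0, r0, hrV, hr0⟩
  obtain ⟨t', ht'⟩ := hUT.2 _ hx0U
  obtain ⟨g, hg1, hg2, hg3⟩ := C.move' (E := E)
    (P := fun c => ∃ x, (∀ z, z ∈ x ↔ ∃ a, a ∈ C.A ∧ ∃ m, IsPair z a m ∧
      ((Rel C.Pi (C.nat n) a ∧ m = C.omega) ∨
      (¬ Rel C.Pi (C.nat n) a ∧ (Rel c a m ∨ ((∀ m', ¬ Rel c a m') ∧ m = C.nat 0))))) ∧
      ∃ r, Rel f x r ∧ Q r) (by
      apply_rules (maxDepth := 500) [Dfn.isPair, Dfn.rel, hQ', Dfn.ex, Dfn.all, Dfn.iff, Dfn.imp,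
        Dfn.or, Dfn.and, Dfn.fls, Dfn.mem, Dfn.eq, DT.var, DT.const]) t'.support hd
    ⟨C.pt n t, C.pt_spec n t, r, hr, hQr⟩
  obtain ⟨x, hx, r', hr', hQr'⟩ := hg3
  obtain ⟨hxB, hxv⟩ := C.XPt_val (n := n) (t := gt g t) (x := x) hx
  have hxU : x ∈ U := by
    apply ht' x hxB
    intro p hp
    left
    rw [hxv, v_pt]
    split_ifs with hpn
    · rfl
    · have : gt g t p = 0 := by
        by_contra hne
        obtain ⟨q', hq', rfl⟩ := (mem_gt_support' g t p).1 (Finsupp.mem_support_iff.2 hne)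
        exact hg2 q' hq' hp
      rw [this]
      simp
  obtain ⟨-, y, hy, hxy⟩ := (hU x).1 hxU
  obtain rfl := hf.unique C.zf hxy hr'
  exact hQV _ hy hQr'

/-- Step 1: `f` does not depend on `t` off the support -/
theorem pt_eq {E : Finset P2} {f : C.N} (hf : IsContMap f C.B (C.TY C.B) C.RN C.topR)
    (hfE : C.Sup E f) (n : ℕ) {t : P2 →₀ ℕ} (hd : Disjoint t.support E) {r : C.N}
    (hr : Rel f (C.pt n t) r) : Rel f (C.pt n 0) r := by
  obtain ⟨r0, hr0R, hr0⟩ := hf.1.exists_val C.zf (C.pt_mem n 0)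
  by_cases hne : r = r0
  · rw [hne]; exact hr0
  exfalso
  obtain ⟨k, V, hV, hrV, h⟩ := C.sep_real (hf.1.mem_right C.zf hr) hr0R hne
  have hk : C.nat k ∈ {x | C.Sup E x} := C.sup_nat k E
  rcases h with ⟨h1, h2⟩ | ⟨h1, h2⟩
  · exact C.pt_aux (Q := fun y => C.nat k ∈ y) hf.1 hfE (by
      apply_rules [Dfn.mem, DT.var, DT.const]) hd hr (hf.2 V hV) hr0 hrV h1 h2
  · exact C.pt_aux (Q := fun y => C.nat k ∉ y) hf.1 hfE (by
      apply_rules [Dfn.not, Dfn.mem, DT.var, DT.const]) hd hr (hf.2 V hV) hr0 hrV h1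
      (fun y hy hn => hn (h2 y hy))

/-- the neighbourhood given by continuity -/
theorem cont_nbhd {f : C.N} (hf : IsContMap f C.B (C.TY C.B) C.RN C.topR) {x r V : C.N}
    (hV : V ∈ C.topR) (hr : Rel f x r) (hrV : r ∈ V) : ∃ t : P2 →₀ ℕ, ∀ z ∈ C.B,
      C.nearT x z t → ∀ r', Rel f z r' → r' ∈ V := by
  obtain ⟨U, hU⟩ := C.zf.sep (P := fun x => ∃ y, y ∈ V ∧ Rel f x y) (by
    apply_rules (maxDepth := 500) [Dfn.rel, Dfn.ex, Dfn.and, Dfn.mem, DT.var, DT.const,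
      Set.mem_univ]) C.B
  have hUT := (C.mem_TY C.B_sub U).1 (hf.2 V hV U hU)
  obtain ⟨t, ht⟩ := hUT.2 x ((hU x).2 ⟨hf.1.mem_left C.zf hr, r, hrV, hr⟩)
  refine ⟨t, fun z hz hn r' hr' => ?_⟩
  obtain ⟨-, y, hy, hzy⟩ := (hU z).1 (ht z hz hn)
  rw [hf.1.unique C.zf hr' hzy]; exact hy

/-- Step 2: the value at `pt n 0` is the limit of the values at `pt m 0` -/
theorem pt_limit {E : Finset P2} {f : C.N} (hf : IsContMap f C.B (C.TY C.B) C.RN C.topR)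
    (hfE : C.Sup E f) {n : ℕ} (hn : n ∉ E.image Prod.fst) {r V : C.N} (hV : V ∈ C.topR)
    (hr : Rel f (C.pt n 0) r) (hrV : r ∈ V) :
    ∃ L : Finset ℕ, ∀ m ∉ L, ∀ r', Rel f (C.pt m 0) r' → r' ∈ V := by
  classical
  obtain ⟨t', ht'⟩ := C.cont_nbhd hf hV hr hrV
  refine ⟨insert n (t'.support.image Prod.fst), fun m hm r' hr' => ?_⟩
  rw [Finset.mem_insert, not_or] at hm
  obtain ⟨hmn, hm⟩ := hm
  set t : P2 →₀ ℕ := Finsupp.onFinset t'.support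
    (fun p => if p ∈ t'.support ∧ p.1 = n then t' p + 1 else 0) (by
      intro p hp
      by_contra h
      rw [if_neg (fun h' => h h'.1)] at hp
      exact hp rfl) with ht
  have htp : ∀ p, t p = if p ∈ t'.support ∧ p.1 = n then t' p + 1 else 0 := fun p => rfl
  have hd : Disjoint t.support E := by
    rw [Finset.disjoint_left]
    intro p hp hpE
    rw [Finsupp.mem_support_iff, htp] at hp
    split_ifs at hp with h
    · exact hn (Finset.mem_image.2 ⟨p, hpE, h.2⟩)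
    · exact hp rfl
  obtain ⟨r'', hr''R, hr''⟩ := hf.1.exists_val C.zf (C.pt_mem m t)
  have h1 := C.pt_eq hf hfE m hd hr''
  rw [hf.1.unique C.zf hr' h1]
  refine ht' _ (C.pt_mem m t) ?_ _ hr''
  intro p hp
  unfold near
  rw [v_pt, v_pt]
  have hpm : p.1 ≠ m := fun e => hm (Finset.mem_image.2 ⟨p, hp, e⟩)
  rw [if_neg hpm, htp]
  by_cases hpn : p.1 = n
  · right
    rw [if_pos hpn, if_pos ⟨hp, hpn⟩]
    refine ⟨rfl, ?_⟩
    exact_mod_cast Nat.lt_succ_self (t' p)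
  · left
    rw [if_neg hpn, if_neg (fun h => hpn h.2)]
    simp

/-- the real line is Hausdorff -/
theorem t2_real {r r0 : C.N} (hr : r ∈ C.RN) (hr0 : r0 ∈ C.RN) (hne : r ≠ r0) :
    ∃ V ∈ C.topR, ∃ V' ∈ C.topR, r ∈ V ∧ r0 ∈ V' ∧ ∀ y, y ∈ V → y ∉ V' := by
  set x : {x : C.N // x ∈ C.RN} := ⟨r, hr⟩ with hx
  set x0 : {x : C.N // x ∈ C.RN} := ⟨r0, hr0⟩ with hx0
  have hne' : C.requiv x ≠ C.requiv x0 := by
    intro h
    apply hne
    exact congrArg Subtype.val (C.requiv.injective h)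
  set c : {x : C.N // x ∈ C.RN} := C.requiv.symm ((C.requiv x + C.requiv x0) / 2) with hc
  have hcv : C.requiv c = (C.requiv x + C.requiv x0) / 2 := Equiv.apply_symm_apply _ _
  obtain ⟨V1, hV1, h1⟩ := C.exists_lt_set c.1 c.2
  obtain ⟨V2, hV2, h2⟩ := C.exists_gt_set c.1 c.2
  have hdis : ∀ y, Rel C.ltR y c.1 → ¬ Rel C.ltR c.1 y := fun y h3 h4 =>
    C.ltR_irrefl _ (C.ltR_trans h3 h4)
  rcases lt_or_gt_of_ne hne' with h | h
  · refine ⟨V1, hV1, V2, hV2, ?_, ?_, fun y h3 h4 => ?_⟩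
    · rw [h1]
      refine (C.rel_ltR_iff x c).2 ?_
      rw [hcv]; linarith
    · rw [h2]
      refine (C.rel_ltR_iff c x0).2 ?_
      rw [hcv]; linarith
    · rw [h1] at h3
      rw [h2] at h4
      exact hdis y h3 h4
  · refine ⟨V2, hV2, V1, hV1, ?_, ?_, fun y h3 h4 => ?_⟩
    · rw [h2]
      refine (C.rel_ltR_iff c x).2 ?_
      rw [hcv]; linarith
    · rw [h1]
      refine (C.rel_ltR_iff x0 c).2 ?_
      rw [hcv]; linarith
    · rw [h2] at h3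
      rw [h1] at h4
      exact hdis y h4 h3

/-- Step 3: the values at `pt n 0` agree -/
theorem pt_const {E : Finset P2} {f : C.N} (hf : IsContMap f C.B (C.TY C.B) C.RN C.topR)
    (hfE : C.Sup E f) {n n' : ℕ} (hn : n ∉ E.image Prod.fst) (hn' : n' ∉ E.image Prod.fst)
    {r : C.N} (hr : Rel f (C.pt n 0) r) : Rel f (C.pt n' 0) r := by
  classical
  obtain ⟨r0, hr0R, hr0⟩ := hf.1.exists_val C.zf (C.pt_mem n' 0)
  by_cases hne : r = r0
  · rw [hne]; exact hr0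
  exfalso
  obtain ⟨V, hV, V', hV', h1, h2, h3⟩ := C.t2_real (hf.1.mem_right C.zf hr) hr0R hne
  obtain ⟨L, hL⟩ := C.pt_limit hf hfE hn hV hr h1
  obtain ⟨L', hL'⟩ := C.pt_limit hf hfE hn' hV' hr0 h2
  obtain ⟨m, hm⟩ := Infinite.exists_notMem_finset (L ∪ L')
  rw [Finset.mem_union, not_or] at hm
  obtain ⟨r1, -, hr1⟩ := hf.1.exists_val C.zf (C.pt_mem m 0)
  exact h3 r1 (hL m hm.1 r1 hr1) (hL' m hm.2 r1 hr1)

/-- Step 4: `f` is constant on the points of `B` that vanish on `E` -/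
theorem const_on {E : Finset P2} {f : C.N} (hf : IsContMap f C.B (C.TY C.B) C.RN C.topR)
    (hfE : C.Sup E f) {n : ℕ} (hn : n ∉ E.image Prod.fst) {r : C.N} (hr : Rel f (C.pt n 0) r)
    {x : C.N} (hx : x ∈ C.B) (hxE : ∀ p ∈ E, C.v x p = 0) : Rel f x r := by
  classical
  obtain ⟨r0, hr0R, hr0⟩ := hf.1.exists_val C.zf hx
  by_cases hne : r0 = r
  · rw [← hne]; exact hr0
  exfalso
  obtain ⟨V, hV, h1, h2⟩ := C.t1_real hr0R (hf.1.mem_right C.zf hr) hne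
  obtain ⟨t', ht'⟩ := C.cont_nbhd hf hV hr0 h1
  obtain ⟨hxY, n', hn'⟩ := (C.mem_B x).1 hx
  have hn'E : n' ∉ E.image Prod.fst := by
    intro h
    obtain ⟨p, hp, e⟩ := Finset.mem_image.1 h
    have h3 := (hn' p).2 e
    rw [hxE p hp] at h3
    exact absurd h3 (by simp)
  set t : P2 →₀ ℕ := Finsupp.onFinset t'.support
    (fun p => if p ∈ t'.support ∧ p.1 ≠ n' then (C.v x p).toNat else 0) (by
      intro p hp
      by_contra h
      rw [if_neg (fun h' => h h'.1)] at hp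
      exact hp rfl) with ht
  have htp : ∀ p, t p = if p ∈ t'.support ∧ p.1 ≠ n' then (C.v x p).toNat else 0 := fun p => rfl
  have hd : Disjoint t.support E := by
    rw [Finset.disjoint_left]
    intro p hp hpE
    rw [Finsupp.mem_support_iff, htp] at hp
    split_ifs at hp with h
    · rw [hxE p hpE] at hp
      exact hp (by simp)
    · exact hp rfl
  obtain ⟨r1, -, hr1⟩ := hf.1.exists_val C.zf (C.pt_mem n' t)
  have h3 := C.pt_eq hf hfE n' hd hr1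
  have h4 := C.pt_const hf hfE hn hn'E hr
  have h5 := hf.1.unique C.zf h3 h4
  subst h5
  apply h2
  refine ht' _ (C.pt_mem n' t) ?_ _ hr1
  intro p hp
  left
  rw [v_pt]
  by_cases hpn : p.1 = n'
  · rw [if_pos hpn, (hn' p).2 hpn]
  · rw [if_neg hpn, htp, if_pos ⟨hp, hpn⟩]
    have h6 : C.v x p ≠ ⊤ := fun h => hpn ((hn' p).1 h)
    exact ENat.coe_toNat h6

/-- **`B` is not realcompact** -/
theorem not_realcompact_B : ¬ C.realLine.Realcompact C.B (C.TY C.B) := by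
  classical
  rintro ⟨J, hJ⟩
  obtain ⟨P, hP⟩ := C.zf.powerset C.B
  obtain ⟨𝒟, h𝒟⟩ := C.zf.sep (P := fun D => ∃ K, K ∈ C.X ∧ ∀ x, x ∈ D ↔ x ∈ C.B ∧
      ∀ a, a ∈ K → Rel x a (C.nat 0)) (by
    apply_rules (maxDepth := 500) [Dfn.rel, Dfn.ex, Dfn.all, Dfn.iff, Dfn.imp, Dfn.and,
      Dfn.mem, DT.var, DT.const, Set.mem_univ]) P
  have hconv : ∀ (s : Finset P2) (x : C.N), x ∈ C.B →
      ((∀ a, a ∈ C.fin s → Rel x a (C.nat 0)) ↔ ∀ p ∈ s, C.v x p = 0) := by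
    intro s x hx
    constructor
    · intro h p hp
      have := (C.rel_v_nat (C.B_sub x hx) p 0).1 (h _ (C.a_mem_fin.2 hp))
      rw [this]; simp
    · intro h a ha
      obtain ⟨p, hp, rfl⟩ := (C.mem_fin _ _).1 ha
      rw [C.rel_v_nat (C.B_sub x hx), h p hp]
      simp
  have hD : ∀ s : Finset P2, ∃ D ∈ 𝒟, ∀ x, x ∈ D ↔ x ∈ C.B ∧ ∀ p ∈ s, C.v x p = 0 := by
    intro s
    obtain ⟨D, hD⟩ := C.zf.sep (P := fun x => ∀ a, a ∈ C.fin s → Rel x a (C.nat 0)) (by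
      apply_rules (maxDepth := 500) [Dfn.rel, Dfn.all, Dfn.imp, Dfn.mem, DT.var, DT.const,
        Set.mem_univ]) C.B
    refine ⟨D, (h𝒟 D).2 ⟨(hP D).2 fun z hz => ((hD z).1 hz).1, C.fin s, C.fin_mem_X s, hD⟩, ?_⟩
    intro x
    rw [hD]
    exact and_congr_right fun hx => hconv s x hx
  have hD' : ∀ D ∈ 𝒟, ∃ s : Finset P2, ∀ x, x ∈ D ↔ x ∈ C.B ∧ ∀ p ∈ s, C.v x p = 0 := by
    intro D hD
    obtain ⟨-, K, hK, h⟩ := (h𝒟 D).1 hD
    obtain ⟨s, rfl⟩ := (C.mem_X K).1 hK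
    refine ⟨s, fun x => ?_⟩
    rw [h]
    exact and_congr_right fun hx => hconv s x hx
  refine not_closedInPower C.zf (C.isTop_TY C.B_sub) (𝒟 := 𝒟) ?_ ?_ ?_ ?_ ?_ J hJ
  · intro D hD1
    obtain ⟨s, hs⟩ := hD' D hD1
    refine ⟨fun x hx => ((hs x).1 hx).1, ?_⟩
    obtain ⟨n, hn⟩ := Infinite.exists_notMem_finset (s.image Prod.fst)
    refine ⟨C.pt n 0, (hs _).2 ⟨C.pt_mem n 0, fun p hp => ?_⟩⟩
    have hpn : p.1 ≠ n := fun e => hn (Finset.mem_image.2 ⟨p, hp, e⟩)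
    rw [v_pt, if_neg hpn]
    simp
  · obtain ⟨D, hD1, -⟩ := hD ∅
    exact ⟨D, hD1⟩
  · intro D hD1 D' hD1'
    obtain ⟨s, hs⟩ := hD' D hD1
    obtain ⟨s', hs'⟩ := hD' D' hD1'
    obtain ⟨D'', hD'', h''⟩ := hD (s ∪ s')
    refine ⟨D'', hD'', fun x hx => ?_, fun x hx => ?_⟩
    · rw [h''] at hx
      exact (hs x).2 ⟨hx.1, fun p hp => hx.2 p (Finset.mem_union_left _ hp)⟩
    · rw [h''] at hx
      exact (hs' x).2 ⟨hx.1, fun p hp => hx.2 p (Finset.mem_union_right _ hp)⟩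
  · intro f hf
    obtain ⟨E, hE⟩ := C.sup_exists f
    obtain ⟨D, hD1, hD2⟩ := hD E
    obtain ⟨n, hn⟩ := Infinite.exists_notMem_finset (E.image Prod.fst)
    obtain ⟨r, hr, hr2⟩ := hf.1.exists_val C.zf (C.pt_mem n 0)
    refine ⟨D, hD1, r, hr, fun x hx => ?_⟩
    rw [hD2] at hx
    exact C.const_on hf hE hn hr2 hx.1 hx.2
  · intro x hx
    obtain ⟨hxY, n, hn⟩ := (C.mem_B x).1 hx
    obtain ⟨U, hU, hU2⟩ := C.exists_basicY C.B_sub hxY (Finsupp.single (n, 0) (0+1))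
    refine ⟨U, hU, (hU2 _).2 ⟨hx, fun p _ => C.near_refl _ _ _⟩, fun D hD1 hsub => ?_⟩
    obtain ⟨s, hs⟩ := hD' D hD1
    obtain ⟨m, hm⟩ := Infinite.exists_notMem_finset (insert n (s.image Prod.fst))
    rw [Finset.mem_insert, not_or] at hm
    have h1 := hsub (C.pt m 0) ((hs _).2 ⟨C.pt_mem m 0, fun p hp => by
      have hpn : p.1 ≠ m := fun e => hm.2 (Finset.mem_image.2 ⟨p, hp, e⟩)
      rw [v_pt, if_neg hpn]
      simp⟩)
    rw [hU2, nearT_single] at h1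
    have h2 := h1.2
    unfold near at h2
    have h3 : C.v (C.pt m 0) (n, 0) = 0 := by
      rw [v_pt, if_neg (show ¬ (n = m) from fun e => hm.1 e.symm)]
      simp
    rw [h3, (hn (n, 0)).2 rfl] at h2
    rcases h2 with h2 | ⟨-, h2⟩
    · exact absurd h2 (by simp)
    · exact absurd h2 (by simp)

end CohenModel

end Pool.Agent.ZFM
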