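import Pool.Agent.ZFM.SpaceY4

/-! # `B` is a Baire set, and failure of countable multiple choice -/

namespace Pool.Agent.ZFM

namespace CohenModel

variable (C : CohenModel RQ)

/-- the real number `1 / (m + 1)` of the model -/
noncomputable def rinv (m : ℕ) : C.N := (C.requiv.symm (((m : C.K) + 1)⁻¹)).1

theorem rinv_mem (m : ℕ) : C.rinv m ∈ C.RN := (C.requiv.symm (((m : C.K) + 1)⁻¹)).2

theorem requiv_rinv (m : ℕ) : C.requiv ⟨C.rinv m, C.rinv_mem m⟩ = ((m : C.K) + 1)⁻¹ :=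
  C.requiv.apply_symm_apply _

theorem requiv_zero : C.requiv ⟨C.realLine.zero, C.zero_mem⟩ = 0 :=
  C.requiv.apply_symm_apply _

theorem rinv_ne_zero (m : ℕ) : C.rinv m ≠ C.realLine.zero := by
  intro h
  have h1 := C.requiv_rinv m
  have h2 : (⟨C.rinv m, C.rinv_mem m⟩ : {x : C.N // x ∈ C.RN}) = ⟨C.realLine.zero, C.zero_mem⟩ :=
    Subtype.ext h
  rw [h2, requiv_zero] at h1
  have h3 : (0 : C.K) < ((m : C.K) + 1)⁻¹ := by positivity
  rw [← h1] at h3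
  exact lt_irrefl _ h3

theorem rinv_iff (m : ℕ) (r : C.N) :
    (∀ k, k ∈ r ↔ (k ∈ C.omega ∧ Op (C.gr 8) (C.nat m) k (C.nat 0))) ↔ r = C.rinv m := by
  have key : ∀ k, k ∈ C.rinv m ↔ k ∈ C.omega ∧ Op (C.gr 8) (C.nat m) k (C.nat 0) := by
    intro k
    have hcode : C.IsCode (C.rinv m) (((m : ℝ) + 1)⁻¹) := by
      have h := C.isCode_requiv ⟨C.rinv m, C.rinv_mem m⟩
      rw [requiv_rinv] at h
      have e : ((((m : C.K) + 1)⁻¹ : C.K) : ℝ) = ((m : ℝ) + 1)⁻¹ := by push_cast; rfl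
      rw [e] at h
      exact h
    have hpos : (0 : ℝ) < (m : ℝ) + 1 := by positivity
    have hnum : ∀ n : ℕ, ((qe n : ℝ) < ((m : ℝ) + 1)⁻¹ ↔ qe n * (m + 1) < 1) := by
      intro n
      rw [← one_div, lt_div_iff₀ hpos]
      constructor
      · intro h; exact_mod_cast h
      · intro h; exact_mod_cast h
    rw [hcode k]
    constructor
    · rintro ⟨n, hn, rfl⟩
      refine ⟨C.nat_mem_omega n, ?_⟩
      rw [op_gr]
      exact (hnum n).1 hn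
    · rintro ⟨hk, h⟩
      obtain ⟨n, rfl⟩ := (C.mem_omega k).1 hk
      rw [op_gr] at h
      exact ⟨n, (hnum n).2 h, rfl⟩
  constructor
  · intro h
    apply C.zf.ext
    intro k
    rw [h, key]
  · rintro rfl
    exact key

/-- the zero-set `B_n` -/
theorem isZeroSet_Bn (n : ℕ) {Z : C.N} (hZ : ∀ x, x ∈ Z ↔ x ∈ C.Y ∧ C.v x (n, 0) = ⊤) :
    C.realLine.IsZeroSet C.Y (C.TY C.Y) Z := by
  have hsub : IsSub C.Y C.Y := fun _ h => h
  set p : P2 := (n, 0) with hp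
  have hval : ∀ x ∈ C.Y, ∀ r, ((Rel x (C.a p) C.omega ∧ r = C.realLine.zero) ∨
      ∃ m, m ∈ C.omega ∧ (Rel x (C.a p) m ∧
        ∀ k, k ∈ r ↔ (k ∈ C.omega ∧ Op (C.gr 8) m k (C.nat 0)))) ↔
      ((C.v x p = ⊤ ∧ r = C.realLine.zero) ∨ ∃ m : ℕ, C.v x p = m ∧ r = C.rinv m) := by
    intro x hx r
    rw [C.rel_v_top hx]
    refine or_congr Iff.rfl ?_
    constructor
    · rintro ⟨m, hm, h1, h2⟩
      obtain ⟨k, rfl⟩ := (C.mem_omega m).1 hm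
      exact ⟨k, (C.rel_v_nat hx p k).1 h1, (C.rinv_iff k r).1 h2⟩
    · rintro ⟨k, h1, h2⟩
      exact ⟨C.nat k, C.nat_mem_omega k, (C.rel_v_nat hx p k).2 h1, (C.rinv_iff k r).2 h2⟩
  obtain ⟨f, hf, hf2⟩ := C.zf.exists_fun C.Y C.RN (R := fun x r =>
      (Rel x (C.a p) C.omega ∧ r = C.realLine.zero) ∨ ∃ m, m ∈ C.omega ∧ (Rel x (C.a p) m ∧
        ∀ k, k ∈ r ↔ (k ∈ C.omega ∧ Op (C.gr 8) m k (C.nat 0)))) (by
    apply_rules (maxDepth := 500) [Dfn.op, Dfn.rel, Dfn.ex, Dfn.all, Dfn.iff, Dfn.imp, Dfn.and,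
      Dfn.or, Dfn.mem, Dfn.eq, DT.var, DT.const, Set.mem_univ]) (by
    intro x hx
    by_cases h : C.v x p = ⊤
    · refine ⟨C.realLine.zero, ⟨C.zero_mem, (hval x hx _).2 (Or.inl ⟨h, rfl⟩)⟩, ?_⟩
      rintro r ⟨-, hr⟩
      rcases (hval x hx r).1 hr with ⟨-, h1⟩ | ⟨m, h1, -⟩
      · exact h1
      · rw [h] at h1; exact absurd h1 (by simp)
    · have e := ENat.coe_toNat h
      refine ⟨C.rinv (C.v x p).toNat, ⟨C.rinv_mem _, (hval x hx _).2 (Or.inr ⟨_, e.symm, rfl⟩)⟩, ?_⟩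
      rintro r ⟨-, hr⟩
      rcases (hval x hx r).1 hr with ⟨h1, -⟩ | ⟨m, h1, h2⟩
      · exact absurd h1 h
      · rw [h2, h1]; simp)
  have hfv : ∀ x ∈ C.Y, ∀ r, Rel f x r ↔ ((C.v x p = ⊤ ∧ r = C.realLine.zero) ∨
      ∃ m : ℕ, C.v x p = m ∧ r = C.rinv m) := by
    intro x hx r
    rw [hf2, hval x hx]
    constructor
    · exact fun h => h.2.2
    · rintro (⟨h1, rfl⟩ | ⟨m, h1, rfl⟩)
      · exact ⟨hx, C.zero_mem, Or.inl ⟨h1, rfl⟩⟩
      · exact ⟨hx, C.rinv_mem m, Or.inr ⟨m, h1, rfl⟩⟩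
  refine ⟨f, ⟨hf, fun V hV U hU => ?_⟩, fun x => ?_⟩
  · rw [C.mem_TY hsub]
    refine ⟨fun x hx => ((hU x).1 hx).1, fun x hx => ?_⟩
    obtain ⟨hxY, r, hrV, hxr⟩ := (hU x).1 hx
    rcases (hfv x hxY r).1 hxr with ⟨h1, rfl⟩ | ⟨m, h1, rfl⟩
    · -- the limit case
      obtain ⟨a, b, ha, hb, hab⟩ := ((C.mem_topR V).1 hV).2 _ hrV
      have hbR := ((C.rel_ltR _ _).1 hb).2.1
      have hb0 : (0 : C.K) < C.requiv ⟨b, hbR⟩ := by
        have := (C.rel_ltR_iff ⟨_, C.zero_mem⟩ ⟨b, hbR⟩).1 hb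
        rwa [requiv_zero] at this
      obtain ⟨M, hM⟩ : ∃ M : ℕ, ((M : C.K) + 1)⁻¹ < C.requiv ⟨b, hbR⟩ := by
        have hb1 : (0 : ℝ) < (C.requiv ⟨b, hbR⟩ : ℝ) := by exact_mod_cast hb0
        obtain ⟨M, hM⟩ := exists_nat_one_div_lt hb1
        refine ⟨M, ?_⟩
        have : (((((M : C.K) + 1)⁻¹ : C.K)) : ℝ) < (C.requiv ⟨b, hbR⟩ : ℝ) := by
          push_cast
          rw [← one_div]
          exact hM
        exact_mod_cast this
      refine ⟨Finsupp.single p (M + 1), fun z hz hn => (hU z).2 ⟨hz, ?_⟩⟩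
      rw [nearT_single] at hn
      by_cases hzt : C.v z p = ⊤
      · exact ⟨C.realLine.zero, hrV, (hfv z hz _).2 (Or.inl ⟨hzt, rfl⟩)⟩
      · have e := ENat.coe_toNat hzt
        refine ⟨C.rinv (C.v z p).toNat, ?_, (hfv z hz _).2 (Or.inr ⟨_, e.symm, rfl⟩)⟩
        have hk : M + 1 < (C.v z p).toNat := by
          rcases hn with hn | ⟨-, hn⟩
          · exact absurd (hn.trans h1) hzt
          · rw [← e] at hn
            exact_mod_cast hn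
        set k := (C.v z p).toNat with hkdef
        have hpos : (0 : C.K) < ((k : C.K) + 1)⁻¹ := by positivity
        refine hab _ (C.ltR_trans ha ?_) ?_
        · refine (C.rel_ltR_iff ⟨_, C.zero_mem⟩ ⟨_, C.rinv_mem k⟩).2 ?_
          rw [requiv_zero, requiv_rinv]; exact hpos
        · refine (C.rel_ltR_iff ⟨_, C.rinv_mem k⟩ ⟨b, hbR⟩).2 ?_
          rw [requiv_rinv]
          refine lt_of_le_of_lt ?_ hM
          have h3 : (0 : C.K) < (M : C.K) + 1 := by positivity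
          apply inv_anti₀ h3
          have h4 : (M : C.K) ≤ (k : C.K) := by exact_mod_cast (by omega : M ≤ k)
          linarith
    · refine ⟨Finsupp.single p (0 + 1), fun z hz hn => (hU z).2 ⟨hz, C.rinv m, hrV,
        (hfv z hz _).2 (Or.inr ⟨m, ?_, rfl⟩)⟩⟩
      rw [nearT_single] at hn
      rcases hn with hn | ⟨hn, -⟩
      · rw [hn, h1]
      · rw [hn] at h1; exact absurd h1 (by simp)
  · rw [hZ]
    refine and_congr_right fun hx => ?_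
    have : Rel f x C.realLine.zero ↔ _ := hfv x hx _
    rw [this]
    constructor
    · intro h; exact Or.inl ⟨h, rfl⟩
    · rintro (⟨h, -⟩ | ⟨m, -, h⟩)
      · exact h
      · exact absurd h.symm (C.rinv_ne_zero m)

/-- **`B` is a Baire set of `Y`** -/
theorem isBaire_B : C.realLine.IsBaire C.Y (C.TY C.Y) C.B := by
  intro 𝒮 h𝒮 hzero
  have hdef : ∀ ν : C.N, ∃ S : C.N, ∀ x, x ∈ S ↔ x ∈ C.Y ∧ ∃ a, Rel C.Pi ν a ∧ Rel x a C.omega := by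
    intro ν
    obtain ⟨S, hS⟩ := C.zf.sep (P := fun x => ∃ a, Rel C.Pi ν a ∧ Rel x a C.omega) (by
      apply_rules (maxDepth := 500) [Dfn.rel, Dfn.ex, Dfn.and, DT.var, DT.const, Set.mem_univ]) C.Y
    exact ⟨S, hS⟩
  have hmem : ∀ (n : ℕ) (S : C.N), (∀ x, x ∈ S ↔ x ∈ C.Y ∧ ∃ a, Rel C.Pi (C.nat n) a ∧ Rel x a C.omega) →
      ∀ x, x ∈ S ↔ x ∈ C.Y ∧ C.v x (n, 0) = ⊤ := by
    intro n S hS x
    rw [hS]
    refine and_congr_right fun hx => ?_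
    constructor
    · rintro ⟨a, h1, h2⟩
      obtain ⟨p, rfl⟩ := (C.mem_A a).1 ((C.Y_isFun hx).mem_left C.zf h2)
      rw [rel_Pi] at h1
      rw [C.rel_v_top hx] at h2
      rcases ((C.mem_Y x).1 hx).2 with h | ⟨m, h⟩
      · exact absurd h2 (h p)
      · rw [h]
        rw [h] at h2
        rw [← h2, h1]
    · intro h
      exact ⟨C.a (n, 0), (C.rel_Pi n _).2 rfl, (C.rel_v_top hx _).2 h⟩
  obtain ⟨s, hs, hs2⟩ := C.zf.exists_fun C.omega 𝒮 (R := fun ν S => ∀ x, x ∈ S ↔ x ∈ C.Y ∧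
      ∃ a, Rel C.Pi ν a ∧ Rel x a C.omega) (by
    apply_rules (maxDepth := 500) [Dfn.rel, Dfn.ex, Dfn.all, Dfn.iff, Dfn.and, Dfn.mem, DT.var,
      DT.const, Set.mem_univ]) (by
    intro ν hν
    obtain ⟨n, rfl⟩ := (C.mem_omega ν).1 hν
    obtain ⟨S, hS⟩ := hdef (C.nat n)
    refine ⟨S, ⟨hzero S (C.isZeroSet_Bn n (hmem n S hS)), hS⟩, ?_⟩
    rintro S' ⟨-, hS'⟩
    exact C.zf.ext fun z => by rw [hS', hS])
  refine h𝒮.union C.omega s C.isOmega hs C.B fun x => ?_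
  rw [mem_B0]
  constructor
  · rintro ⟨hx, a, ha⟩
    obtain ⟨p, rfl⟩ := (C.mem_A a).1 ((C.Y_isFun hx).mem_left C.zf ha)
    obtain ⟨S, hS⟩ := hdef (C.nat p.1)
    refine ⟨C.nat p.1, S, (hs2 _ _).2 ⟨C.nat_mem_omega _, hzero S (C.isZeroSet_Bn _ (hmem _ S hS)),
      hS⟩, (hS x).2 ⟨hx, C.a p, (C.rel_Pi _ _).2 rfl, ha⟩⟩
  · rintro ⟨ν, S, hνS, hxS⟩
    obtain ⟨-, -, hS⟩ := (hs2 _ _).1 hνS
    obtain ⟨hx, a, -, ha⟩ := (hS x).1 hxS
    exact ⟨hx, a, ha⟩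

/-- **countable multiple choice fails** -/
theorem not_CMC : ¬ CMC C.N := by
  classical
  intro hcmc
  obtain ⟨Q, hQ⟩ := C.zf.powerset C.A
  obtain ⟨S, hS, hS2⟩ := C.zf.exists_fun C.omega Q (R := fun ν S => ∀ a, a ∈ S ↔ a ∈ C.A ∧
      Rel C.Pi ν a) (by
    apply_rules (maxDepth := 500) [Dfn.rel, Dfn.all, Dfn.iff, Dfn.and, Dfn.mem, DT.var,
      DT.const, Set.mem_univ]) (by
    intro ν _
    obtain ⟨S, hS⟩ := C.zf.sep (P := fun a => Rel C.Pi ν a) (by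
      apply_rules (maxDepth := 500) [Dfn.rel, DT.var, DT.const, Set.mem_univ]) C.A
    refine ⟨S, ⟨(hQ S).2 fun z hz => ((hS z).1 hz).1, hS⟩, ?_⟩
    rintro S' ⟨-, hS'⟩
    exact C.zf.ext fun z => by rw [hS', hS])
  obtain ⟨F, Q', hF, hF2⟩ := hcmc C.omega S Q C.isOmega hS (by
    intro ν A hνA
    obtain ⟨hν, -, hA⟩ := (hS2 _ _).1 hνA
    obtain ⟨n, rfl⟩ := (C.mem_omega ν).1 hν
    exact ⟨C.a (n, 0), (hA _).2 ⟨C.a_mem_A _, (C.rel_Pi n _).2 rfl⟩⟩)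
  obtain ⟨E, hE⟩ := C.sup_exists F
  obtain ⟨n, hn⟩ := Infinite.exists_notMem_finset (E.image Prod.fst)
  obtain ⟨An, -, hAn⟩ := hS.exists_val C.zf (C.nat_mem_omega n)
  obtain ⟨G, -, hG⟩ := hF.exists_val C.zf (C.nat_mem_omega n)
  obtain ⟨⟨a, ha⟩, hGA, w, ν, f, hw, hν, hf, hinj⟩ := hF2 _ _ _ hAn hG
  obtain rfl := C.eq_omega hw
  obtain ⟨N, rfl⟩ := (C.mem_omega ν).1 hν
  have hAn' := ((hS2 _ _).1 hAn).2.2
  obtain ⟨haA, haP⟩ := (hAn' a).1 (hGA a ha)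
  obtain ⟨p, rfl⟩ := (C.mem_A a).1 haA
  rw [rel_Pi] at haP
  -- `G` is finite
  have hfin : {q : P2 | C.a q ∈ G}.Finite := by
    have hval : ∀ q : {q : P2 | C.a q ∈ G}, ∃ m : Fin N, Rel f (C.a q.1) (C.nat m) := by
      rintro ⟨q, hq⟩
      obtain ⟨k, hk, hqk⟩ := hf.exists_val C.zf hq
      obtain ⟨m, hm, rfl⟩ := (C.mem_nat _ _).1 hk
      exact ⟨⟨m, hm⟩, hqk⟩
    choose g hg using hval
    have hginj : Function.Injective g := by
      intro q q' e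
      have h1 := hg q
      rw [e] at h1
      exact Subtype.ext (C.a_inj (hinj _ _ _ h1 (hg q')))
    have : Finite {q : P2 | C.a q ∈ G} := Finite.of_injective g hginj
    exact Set.toFinite _
  have hd : Disjoint (ind {p}).support E := by
    rw [support_ind, Finset.disjoint_singleton_left]
    intro hpE
    exact hn (Finset.mem_image.2 ⟨p, hpE, haP⟩)
  have h1 : F ∈ {x | C.Sup E x} := hE
  have h2 : C.nat n ∈ {x | C.Sup E x} := C.sup_nat n E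
  obtain ⟨g, hg1, hg2, hg3⟩ := C.move' (E := E)
    (P := fun c => ∃ G, Rel F (C.nat n) G ∧ ∃ z, z ∈ G ∧ ∃ w, Rel c z w) (by
      apply_rules (maxDepth := 500) [Dfn.rel, Dfn.ex, Dfn.and, Dfn.mem, DT.var, DT.const])
    hfin.toFinset hd
    ⟨G, hG, C.a p, ha, _, (C.rel_c _ _ _).2 ⟨p, by rw [support_ind]; simp, rfl, rfl⟩⟩
  obtain ⟨G', hG', z, hz, w, hw'⟩ := hg3
  obtain rfl := hF.unique C.zf hG hG'
  obtain ⟨q, hq, rfl, -⟩ := (C.rel_c _ _ _).1 hw'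
  obtain ⟨q', hq', rfl⟩ := (mem_gt_support' g _ _).1 hq
  apply hg2 q' hq'
  simpa using hz

end CohenModel

end Pool.Agent.ZFM
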