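import Pool.Agent.ZFM.Names
import Pool.Agent.ZFM.Basic

/-! # Symmetric names -/

namespace Pool.Agent.ZFM

universe u

open BN

namespace BN

variable {B : Type u} [CompleteBooleanAlgebra B]

/-- action of an automorphism on names -/
def act (f : B ≃o B) : BN B → BN B
  | mk ι x b => mk ι (fun i => act f (x i)) (fun i => f (b i))

theorem act_one (x : BN B) : act 1 x = x := by
  induction x with
  | mk ι x b ih =>
    simp only [act, ih]
    rfl

theorem act_mul (f g : B ≃o B) (x : BN B) : act (f * g) x = act f (act g x) := by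
  induction x with
  | mk ι x b ih =>
    simp only [act, ih]
    rfl

theorem beq_act (f : B ≃o B) (x y : BN B) : beq (act f x) (act f y) = f (beq x y) := by
  induction x generalizing y with
  | mk ι x b ih =>
    cases y with
    | mk κ y c =>
      simp only [act, beq, ih]
      rw [OrderIso.map_inf, OrderIso.map_iInf, OrderIso.map_iInf]
      simp only [map_himp, OrderIso.map_iSup, OrderIso.map_inf]

theorem bmem_act (f : B ≃o B) (x y : BN B) : bmem (act f x) (act f y) = f (bmem x y) := by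
  cases y with
  | mk κ y c =>
    simp only [act, bmem, nm, vl]
    rw [OrderIso.map_iSup]
    simp only [OrderIso.map_inf]
    refine iSup_congr fun j => ?_
    rw [← beq_act]

end BN

/-- A symmetric system: a group `G` acting on `B` by automorphisms, with a normal filter. -/
structure SymSys (B : Type u) [CompleteBooleanAlgebra B] where
  G : Type u
  grp : Group G
  σ : G →* (B ≃o B)
  F : Filter G
  conj : ∀ g : G, ∀ s ∈ F, {h | g⁻¹ * h * g ∈ s} ∈ F

attribute [instance] SymSys.grp

variable {B : Type u} [CompleteBooleanAlgebra B]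

namespace SymSys

variable (S : SymSys B)

/-- action of the group on names -/
def ga (g : S.G) (x : BN B) : BN B := act (S.σ g) x

theorem ga_mul (g h : S.G) (x : BN B) : S.ga (g * h) x = S.ga g (S.ga h x) := by
  unfold ga; rw [map_mul, act_mul]

theorem ga_one (x : BN B) : S.ga 1 x = x := by
  unfold ga; rw [map_one, act_one]

theorem ga_inv_ga (g : S.G) (x : BN B) : S.ga g⁻¹ (S.ga g x) = x := by
  rw [← ga_mul, inv_mul_cancel, ga_one]

theorem ga_ga_inv (g : S.G) (x : BN B) : S.ga g (S.ga g⁻¹ x) = x := by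
  rw [← ga_mul, mul_inv_cancel, ga_one]

/-- `x` is symmetric -/
def Sym (x : BN B) : Prop := ∀ᶠ g in S.F, beq (S.ga g x) x = ⊤

/-- hereditarily symmetric names -/
def HS : BN B → Prop
  | BN.mk ι x b => (∀ i, HS (x i)) ∧ S.Sym (BN.mk ι x b)

theorem hs_iff (x : BN B) : S.HS x ↔ (∀ i, S.HS (x.nm i)) ∧ S.Sym x := by
  cases x; rfl

theorem Sym.ga {x : BN B} (hx : S.Sym x) (g : S.G) : S.Sym (S.ga g x) := by
  unfold Sym at *
  have := S.conj g _ hx
  filter_upwards [this] with h hh
  replace hh : beq (S.ga (g⁻¹ * h * g) x) x = ⊤ := hh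
  have h1 : S.ga h (S.ga g x) = S.ga g (S.ga (g⁻¹ * h * g) x) := by
    rw [← ga_mul, ← ga_mul]; group
  rw [h1]
  unfold SymSys.ga at hh ⊢
  rw [beq_act, hh, map_top]

theorem HS.ga {x : BN B} (hx : S.HS x) (g : S.G) : S.HS (S.ga g x) := by
  induction x with
  | mk ι x b ih =>
    refine ⟨fun i => ih i (hx.1 i), ?_⟩
    exact Sym.ga S hx.2 g

/-- the type of hereditarily symmetric names -/
def HN : Type (u+1) := {x : BN B // S.HS x}

variable {S}

/-- action on `HN` -/
def HN.ga (g : S.G) (x : S.HN) : S.HN := ⟨S.ga g x.1, HS.ga S x.2 g⟩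

theorem HN.ga_val (g : S.G) (x : S.HN) : (HN.ga g x).1 = S.ga g x.1 := rfl

theorem HN.ga_inv_ga (g : S.G) (x : S.HN) : HN.ga g⁻¹ (HN.ga g x) = x :=
  Subtype.ext (S.ga_inv_ga g x.1)

theorem HN.ga_ga_inv (g : S.G) (x : S.HN) : HN.ga g (HN.ga g⁻¹ x) = x :=
  Subtype.ext (S.ga_ga_inv g x.1)

/-- members of an `HN` name -/
def HN.nm (x : S.HN) (i : x.1.Ix) : S.HN := ⟨x.1.nm i, ((S.hs_iff _).1 x.2).1 i⟩

/-- Boolean value of a formula at an assignment of hereditarily symmetric names -/
def val : Fm → (ℕ → S.HN) → B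
  | .mem i j, v => bmem (v i).1 (v j).1
  | .eq i j, v => beq (v i).1 (v j).1
  | .fls, _ => ⊥
  | .imp φ ψ, v => val φ v ⇨ val ψ v
  | .all φ, v => ⨅ x : S.HN, val φ (push x v)

theorem val_bd (φ : Fm) {v w : ℕ → S.HN} (h : ∀ i < φ.bd, v i = w i) : val φ v = val φ w := by
  induction φ generalizing v w with
  | mem i j =>
    simp only [val, Fm.bd] at *
    rw [h i (by omega), h j (by omega)]
  | eq i j =>
    simp only [val, Fm.bd] at *
    rw [h i (by omega), h j (by omega)]
  | fls => rfl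
  | imp φ ψ ih1 ih2 =>
    simp only [val, Fm.bd] at *
    rw [ih1 (fun i hi => h i (by omega)), ih2 (fun i hi => h i (by omega))]
  | all φ ih =>
    simp only [val, Fm.bd] at *
    refine iInf_congr fun x => ih fun i hi => ?_
    cases i with
    | zero => rfl
    | succ i => exact h i (by omega)

theorem val_congr (φ : Fm) {v w : ℕ → S.HN} {c : B}
    (h : ∀ i < φ.bd, c ≤ beq (v i).1 (w i).1) : c ⊓ val φ v ≤ val φ w := by
  induction φ generalizing v w with
  | mem i j =>
    simp only [val, Fm.bd] at *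
    have h1 := h i (by omega)
    have h2 := h j (by omega)
    calc c ⊓ bmem (v i).1 (v j).1 ≤ beq (v j).1 (w j).1 ⊓ (beq (v i).1 (w i).1 ⊓ bmem (v i).1 (v j).1) :=
          le_inf (inf_le_left.trans h2) (le_inf (inf_le_left.trans h1) inf_le_right)
      _ ≤ beq (v j).1 (w j).1 ⊓ bmem (w i).1 (v j).1 := inf_le_inf_left _ (bmem_congr_left _ _ _)
      _ ≤ _ := bmem_congr_right _ _ _
  | eq i j =>
    simp only [val, Fm.bd] at *
    have h1 := h i (by omega)
    have h2 := h j (by omega)
    calc c ⊓ beq (v i).1 (v j).1 ≤ (beq (w i).1 (v i).1 ⊓ beq (v i).1 (v j).1) ⊓ beq (v j).1 (w j).1 := by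
          rw [beq_symm (w i).1]
          exact le_inf (le_inf (inf_le_left.trans h1) inf_le_right) (inf_le_left.trans h2)
      _ ≤ beq (w i).1 (v j).1 ⊓ beq (v j).1 (w j).1 := inf_le_inf_right _ (beq_trans _ _ _)
      _ ≤ _ := beq_trans _ _ _
  | fls => simp [val]
  | imp φ ψ ih1 ih2 =>
    simp only [val, Fm.bd] at *
    rw [le_himp_iff]
    have a1 := ih1 (v := w) (w := v) (fun i hi => by
      rw [beq_symm]; exact h i (by omega))
    have a2 := ih2 (v := v) (w := w) (fun i hi => h i (by omega))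
    calc c ⊓ (val φ v ⇨ val ψ v) ⊓ val φ w ≤ c ⊓ ((val φ v ⇨ val ψ v) ⊓ (c ⊓ val φ w)) :=
          le_inf (inf_le_left.trans inf_le_left) (le_inf (inf_le_left.trans inf_le_right)
            (le_inf (inf_le_left.trans inf_le_left) inf_le_right))
      _ ≤ c ⊓ ((val φ v ⇨ val ψ v) ⊓ val φ v) := inf_le_inf_left _ (inf_le_inf_left _ a1)
      _ ≤ c ⊓ val ψ v := by
          rw [himp_inf_self]; exact inf_le_inf_left _ inf_le_left
      _ ≤ _ := a2
  | all φ ih =>
    simp only [val, Fm.bd] at *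
    refine le_iInf fun x => ?_
    refine le_trans (inf_le_inf_left _ (iInf_le _ x)) (ih ?_)
    intro i hi
    cases i with
    | zero => simp [beq_refl]
    | succ i => exact h i (by omega)

theorem val_ga (φ : Fm) (g : S.G) (v : ℕ → S.HN) :
    val φ (fun i => HN.ga g (v i)) = S.σ g (val φ v) := by
  induction φ generalizing v with
  | mem i j => exact bmem_act _ _ _
  | eq i j => exact beq_act _ _ _
  | fls => simp [val]
  | imp φ ψ ih1 ih2 => simp only [val, ih1, ih2, map_himp]
  | all φ ih =>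
    simp only [val]
    rw [OrderIso.map_iInf]
    apply le_antisymm
    · refine le_iInf fun x => ?_
      refine (iInf_le _ (HN.ga g x)).trans ?_
      rw [← ih]
      apply le_of_eq
      apply val_bd
      intro i _
      cases i <;> rfl
    · refine le_iInf fun x => ?_
      refine (iInf_le _ (HN.ga g⁻¹ x)).trans ?_
      rw [← ih]
      apply le_of_eq
      apply val_bd
      intro i _
      cases i
      · exact HN.ga_ga_inv g x
      · rfl

/-- if `x`'s members are hereditarily symmetric, equality can be tested on `HN`. -/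
theorem beq_of_forall_HN {x y : BN B} (hx : ∀ i, S.HS (x.nm i)) (hy : ∀ i, S.HS (y.nm i)) {c : B}
    (h1 : ∀ z : S.HN, c ⊓ bmem z.1 x ≤ bmem z.1 y) (h2 : ∀ z : S.HN, c ⊓ bmem z.1 y ≤ bmem z.1 x) :
    c ≤ beq x y := by
  apply le_beq
  · intro i
    exact (inf_le_inf_left _ (vl_le_bmem x i)).trans (h1 ⟨_, hx i⟩)
  · intro i
    exact (inf_le_inf_left _ (vl_le_bmem y i)).trans (h2 ⟨_, hy i⟩)

/-- a name whose members are hereditarily symmetric and whose membership function is eventually
equivariant is symmetric -/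
theorem sym_of_bmem {y : BN B} (hy : ∀ i, S.HS (y.nm i)) {β : S.HN → B}
    (hβ : ∀ z : S.HN, bmem z.1 y = β z)
    (h : ∀ᶠ g in S.F, ∀ z : S.HN, S.σ g (β z) = β (HN.ga g z)) : S.Sym y := by
  unfold Sym
  filter_upwards [h] with g hg
  rw [eq_top_iff]
  have hy' : ∀ i, S.HS ((S.ga g y).nm i) := by
    cases y with
    | mk ι y b => intro i; exact HS.ga S (hy i) g
  have key : ∀ z : S.HN, bmem z.1 (S.ga g y) = bmem z.1 y := by
    intro z
    have h1 : bmem z.1 (S.ga g y) = S.σ g (bmem (HN.ga g⁻¹ z).1 y) := by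
      rw [← bmem_act]
      congr 1
      exact (S.ga_ga_inv g z.1).symm
    rw [h1, hβ, hg, HN.ga_ga_inv, hβ]
  apply beq_of_forall_HN hy' hy
  · intro z; rw [key]; exact inf_le_right
  · intro z; rw [key]; exact inf_le_right

/-- build an element of `HN` -/
def mkHN (y : BN B) (hy : ∀ i, S.HS (y.nm i)) (β : S.HN → B)
    (hβ : ∀ z : S.HN, bmem z.1 y = β z)
    (h : ∀ᶠ g in S.F, ∀ z : S.HN, S.σ g (β z) = β (HN.ga g z)) : S.HN :=
  ⟨y, (S.hs_iff y).2 ⟨hy, sym_of_bmem hy hβ h⟩⟩

theorem bmem_mkHN {y : BN B} {hy : ∀ i, S.HS (y.nm i)} {β : S.HN → B}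
    {hβ : ∀ z : S.HN, bmem z.1 y = β z}
    {h : ∀ᶠ g in S.F, ∀ z : S.HN, S.σ g (β z) = β (HN.ga g z)} (z : S.HN) :
    bmem z.1 (mkHN y hy β hβ h).1 = β z := hβ z

end SymSys

end Pool.Agent.ZFM
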